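import Mathlib

/-!
# Polygonal paper and flat foldings

The plane is `ℂ` with its Euclidean metric.

* `IsPaper P n v`: `P` is a (closed) polygonal piece of paper whose boundary is the simple closed
  polygon with vertices `v 0, v 1, …, v (n-1)` (cyclic order).
* `FlatFolding P`: a flat folded state of `P`, with layer order subject to the usual
  non-crossing conditions (transitivity, taco-tortilla, taco-taco, tortilla-tortilla).
-/

namespace Pool.Agent.Lib.FoldCut

/-- The point of the closed polygonal curve `v 0, v 1, …, v (n-1), v 0` at parameter `t ∈ [0,1)`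
of its `i`-th edge. -/
noncomputable def curvePt {n : ℕ} (v : ZMod n → ℂ) (p : ZMod n × Set.Ico (0 : ℝ) 1) : ℂ :=
  (1 - (p.2 : ℝ)) • v p.1 + (p.2 : ℝ) • v (p.1 + 1)

/-- The closed polygonal curve: the union of the edges `[v i, v (i+1)]`. -/
def polygonCurve {n : ℕ} (v : ZMod n → ℂ) : Set ℂ := ⋃ i, segment ℝ (v i) (v (i + 1))

/-- `P` is a polygonal piece of paper with vertices `v`: the vertices `v 0, …, v (n-1)`, `n ≥ 3`,
form a simple closed polygon (the closed polygonal curve does not meet itself), and `P` is the
compact set bounded by it: `P` is the closure of its interior and its boundary is the polygon. -/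
structure IsPaper (P : Set ℂ) (n : ℕ) (v : ZMod n → ℂ) : Prop where
  three_le : 3 ≤ n
  simple : Function.Injective (curvePt v)
  compact : IsCompact P
  regular : closure (interior P) = P
  frontier_eq : frontier P = polygonCurve v

/-- A convex polygon with non-empty interior: a compact finite intersection of closed
half planes. -/
def IsConvexPolygon (K : Set ℂ) : Prop :=
  IsCompact K ∧ (interior K).Nonempty ∧
    ∃ H : Finset (ℂ × ℝ), K = {z | ∀ h ∈ H, inner ℝ h.1 z ≤ h.2}

/-- A flat folding (flat folded state) of the paper `P`.

The creases divide `P` into finitely many facets `K i`, convex polygons with disjoint interiors;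
the folding map `f` is continuous and agrees on the facet `K i` with the isometry `iso i` of the
plane.  `below i j` says that facet `i` lies below facet `j` (it only matters if the open facets
overlap after folding).  Two facets sharing a segment are joined along it; they are folded at it
if `iso i ≠ iso j`, and continue flatly through it if `iso i = iso j`.  The last four conditions
say that the paper does not cross itself. -/
structure FlatFolding (P : Set ℂ) where
  /-- labels of the facets -/
  ι : Type
  finite : Finite ι
  /-- the facets -/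
  K : ι → Set ℂ
  /-- the folding map -/
  f : ℂ → ℂ
  /-- the isometries by which the facets are placed -/
  iso : ι → (ℂ ≃ᵢ ℂ)
  /-- the layer order -/
  below : ι → ι → Prop
  polygon : ∀ i, IsConvexPolygon (K i)
  cover : ⋃ i, K i = P
  interiors : ∀ i j, i ≠ j → Disjoint (interior (K i)) (interior (K j))
  continuousOn : ContinuousOn f P
  map_eq : ∀ i, ∀ z ∈ K i, f z = iso i z
  /-- of two overlapping facets exactly one is below the other -/
  order : ∀ i j, i ≠ j → (iso i '' interior (K i) ∩ iso j '' interior (K j)).Nonempty →
    (below i j ↔ ¬ below j i)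
  /-- transitivity over a common point -/
  trans : ∀ i j k, i ≠ j → j ≠ k → i ≠ k →
    (iso i '' interior (K i) ∩ iso j '' interior (K j) ∩ iso k '' interior (K k)).Nonempty →
    below i j → below j k → below i k
  /-- a facet `k` passing over or under the common segment of the adjacent facets `i`, `j`
  does not pass between them -/
  hinge_facet : ∀ i j k, i ≠ j → k ≠ i → k ≠ j → (K i ∩ K j).Infinite →
    (iso i '' (K i ∩ K j) ∩ iso k '' interior (K k)).Nonempty →
    (below i k ↔ below j k)
  /-- two folds on top of each other, on the same side (taco-taco): not interleaved -/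
  fold_fold : ∀ i j k l, i ≠ j → i ≠ k → i ≠ l → j ≠ k → j ≠ l → k ≠ l →
    (K i ∩ K j).Infinite → (K k ∩ K l).Infinite →
    (iso i '' (K i ∩ K j) ∩ iso k '' (K k ∩ K l)).Infinite →
    (iso i '' interior (K i) ∩ iso k '' interior (K k)).Nonempty →
    iso i ≠ iso j → iso k ≠ iso l → ¬ (below i k ∧ below k j ∧ below j l)
  /-- a fold and a flat joint on top of each other (taco-tortilla): the flat sheet does not pass
  between the two folded facets -/
  fold_flat : ∀ i j k l, i ≠ j → i ≠ k → i ≠ l → j ≠ k → j ≠ l → k ≠ l →
    (K i ∩ K j).Infinite → (K k ∩ K l).Infinite →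
    (iso i '' (K i ∩ K j) ∩ iso k '' (K k ∩ K l)).Infinite →
    (iso i '' interior (K i) ∩ iso k '' interior (K k)).Nonempty →
    iso i ≠ iso j → iso k = iso l → (below i k ↔ below j k)
  /-- two flat joints on top of each other (tortilla-tortilla): the sheets do not cross -/
  flat_flat : ∀ i j k l, i ≠ j → i ≠ k → i ≠ l → j ≠ k → j ≠ l → k ≠ l →
    (K i ∩ K j).Infinite → (K k ∩ K l).Infinite →
    (iso i '' (K i ∩ K j) ∩ iso k '' (K k ∩ K l)).Infinite →
    (iso i '' interior (K i) ∩ iso k '' interior (K k)).Nonempty →
    iso i = iso j → iso k = iso l → (below i k ↔ below j l)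

/-- Condition (E): some line `L` has `f⁻¹(L) = ∂P`. -/
def CutsBoundary {P : Set ℂ} (F : FlatFolding P) : Prop :=
  ∃ a b : ℂ, a ≠ b ∧ ∀ z ∈ P, F.f z ∈ line[ℝ, a, b] ↔ z ∈ frontier P

/-- Condition (V): all vertices of `P` go to one point. -/
def VerticesTogether {P : Set ℂ} (F : FlatFolding P) {n : ℕ} (v : ZMod n → ℂ) : Prop :=
  ∃ p : ℂ, ∀ i, F.f (v i) = p

end Pool.Agent.Lib.FoldCut
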