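import Mathlib
import Pool.Agent.Lib.MP_12ced6_co.Defs

section
/-!
# Plane geometry for the simple fold

`side a b z` is (up to the factor `|b - a|`) the signed distance of `z` from the line `ab`.
-/
namespace Pool.Agent.Lib.FoldCut

open ComplexConjugate

/-- Signed distance of `z` from the line through `a` and `b`, times `|b - a|`. -/
noncomputable def side (a b z : ℂ) : ℝ := ((z - a) * conj (b - a)).im

lemma side_eq (a b z : ℂ) :
    side a b z = (z.im - a.im) * (b.re - a.re) - (z.re - a.re) * (b.im - a.im) := by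
  simp [side]; ring

/-- A real-linear functional taking the same value at `a` and `b` is proportional to the signed
distance from the line `ab`. -/
lemma functional_side (f : StrongDual ℝ ℂ) {a b : ℂ} (hab : a ≠ b) (h : f a = f b) :
    ∃ c : ℝ, ∀ z, f z - f a = side a b z * c := by
  have hn : (b.re - a.re) ^ 2 + (b.im - a.im) ^ 2 ≠ 0 := by
    intro h0
    apply hab
    have h1 : b.re - a.re = 0 := by nlinarith [sq_nonneg (b.re - a.re), sq_nonneg (b.im - a.im)]
    have h2 : b.im - a.im = 0 := by nlinarith [sq_nonneg (b.re - a.re), sq_nonneg (b.im - a.im)]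
    exact Complex.ext (by linarith) (by linarith)
  have hf : ∀ z : ℂ, f z = z.re * f 1 + z.im * f Complex.I := by
    intro z
    have : z = z.re • (1 : ℂ) + z.im • Complex.I := by
      apply Complex.ext <;> simp
    conv_lhs => rw [this]
    rw [map_add, map_smul, map_smul, smul_eq_mul, smul_eq_mul]
  have h0 : (b.re - a.re) * f 1 + (b.im - a.im) * f Complex.I = 0 := by
    rw [hf a, hf b] at h; linarith
  refine ⟨((b.re - a.re) * f Complex.I - (b.im - a.im) * f 1) /
    ((b.re - a.re) ^ 2 + (b.im - a.im) ^ 2), fun z => ?_⟩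
  rw [hf z, hf a, side_eq]
  field_simp
  linear_combination ((z.re - a.re) * (b.re - a.re) + (z.im - a.im) * (b.im - a.im)) * h0

/-- Two open convex sets whose closures contain two common points `a ≠ b`, and which have points
on the same side of the line `ab`, intersect. -/
lemma inter_of_side {U V : Set ℂ} (hU : IsOpen U) (hV : IsOpen V) (cU : Convex ℝ U)
    (cV : Convex ℝ V) {a b : ℂ} (hab : a ≠ b) (haU : a ∈ closure U) (hbU : b ∈ closure U)
    (haV : a ∈ closure V) (hbV : b ∈ closure V) {x y : ℂ} (hx : x ∈ U) (hy : y ∈ V)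
    (hxy : 0 < side a b x * side a b y) : (U ∩ V).Nonempty := by
  by_contra hne
  rw [Set.not_nonempty_iff_eq_empty, ← Set.disjoint_iff_inter_eq_empty] at hne
  obtain ⟨f, u, hfU, hfV⟩ := geometric_hahn_banach_open_open cU hU cV hV hne
  have h1 : ∀ z ∈ closure U, f z ≤ u := by
    intro z hz
    have : closure U ⊆ {z | f z ≤ u} :=
      closure_minimal (fun w hw => (hfU w hw).le) (isClosed_le f.continuous continuous_const)
    exact this hz
  have h2 : ∀ z ∈ closure V, u ≤ f z := by
    intro z hz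
    have : closure V ⊆ {z | u ≤ f z} :=
      closure_minimal (fun w hw => (hfV w hw).le) (isClosed_le continuous_const f.continuous)
    exact this hz
  have ha : f a = u := le_antisymm (h1 a haU) (h2 a haV)
  have hb : f b = u := le_antisymm (h1 b hbU) (h2 b hbV)
  obtain ⟨c, hc⟩ := functional_side f hab (ha.trans hb.symm)
  have hx' := hc x
  have hy' := hc y
  have h3 := hfU x hx
  have h4 := hfV y hy
  rw [ha] at hx' hy'
  have h5 : side a b x * c < 0 := by linarith
  have h6 : 0 < side a b y * c := by linarith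
  nlinarith [mul_neg_of_neg_of_pos h5 h6, mul_nonneg hxy.le (sq_nonneg c)]

/-- Two different isometries of the plane which agree at two points differ by the reflection in
the line through the image points: the signed distance from this line changes sign. -/
lemma side_flip {e₁ e₂ : ℂ ≃ᵢ ℂ} (hne : e₁ ≠ e₂) {p q : ℂ} (hpq : p ≠ q) (hp : e₁ p = e₂ p)
    (hq : e₁ q = e₂ q) (z : ℂ) : side (e₁ p) (e₁ q) (e₁ z) = - side (e₁ p) (e₁ q) (e₂ z) := by
  set g : ℂ ≃ᵢ ℂ := e₂.symm.trans e₁ with hg
  set G := g.toRealAffineIsometryEquiv with hG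
  have hGg : ∀ w, G w = g w := fun w => rfl
  set a := e₁ p with ha
  set b := e₁ q with hb
  have hab : a ≠ b := fun h => hpq (e₁.injective h)
  have hga : g a = a := by
    rw [hg, IsometryEquiv.trans_apply, hp, IsometryEquiv.symm_apply_apply]
    exact hp
  have hgb : g b = b := by
    rw [hg, IsometryEquiv.trans_apply, hq, IsometryEquiv.symm_apply_apply]
    exact hq
  have hform : ∀ w, g w = G.linearIsometryEquiv (w - a) + a := by
    intro w
    have h := G.map_vadd a (w - a)
    rw [hGg, hGg, hga] at h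
    simpa using h
  have hba : G.linearIsometryEquiv (b - a) = b - a := by
    have := hform b
    rw [hgb] at this
    exact (eq_sub_of_add_eq this.symm)
  have hba0 : b - a ≠ 0 := sub_ne_zero.2 (Ne.symm hab)
  have hgz : e₁ z = g (e₂ z) := by
    rw [hg, IsometryEquiv.trans_apply, IsometryEquiv.symm_apply_apply]
  obtain ⟨c, hc | hc⟩ := linear_isometry_complex G.linearIsometryEquiv
  · exfalso
    rw [hc, rotation_apply] at hba
    have hc1 : (c : ℂ) = 1 := by
      have : ((c : ℂ) - 1) * (b - a) = 0 := by linear_combination hba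
      rcases mul_eq_zero.1 this with h | h
      · linear_combination h
      · exact absurd h hba0
    apply hne
    ext w
    have hw := hform (e₂ w)
    rw [hc, rotation_apply, hc1, one_mul, sub_add_cancel, hg, IsometryEquiv.trans_apply,
      IsometryEquiv.symm_apply_apply] at hw
    exact hw
  · have hρ : ∀ w, G.linearIsometryEquiv w = c * conj w := by
      intro w; rw [hc]; simp [rotation_apply]
    rw [hρ] at hba
    rw [hgz, side, side, hform, hρ, add_sub_cancel_right]
    have h1 : (c : ℂ) * conj (e₂ z - a) * conj (b - a) = conj (e₂ z - a) * (b - a) := by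
      calc (c : ℂ) * conj (e₂ z - a) * conj (b - a) = conj (e₂ z - a) * (c * conj (b - a)) := by
            ring
        _ = conj (e₂ z - a) * (b - a) := by rw [hba]
    rw [h1]
    have h2 : conj ((e₂ z - a) * conj (b - a)) = conj (e₂ z - a) * (b - a) := by
      rw [map_mul, Complex.conj_conj]
    rw [← h2, Complex.conj_im]

/-- An open convex set with points on both sides of the line `re = m` contains all but at most two
of the points of its closure on this line. -/
lemma exists_mem_of_cross {U : Set ℂ} (hU : IsOpen U) (cU : Convex ℝ U) {m : ℝ} {x y : ℂ}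
    (hx : x ∈ U) (hy : y ∈ U) (hxm : x.re < m) (hym : m < y.re) {S : Set ℂ} (hS : S.Infinite)
    (hSU : S ⊆ closure U) (hSm : ∀ z ∈ S, z.re = m) : ∃ z ∈ S, z ∈ U := by
  -- a point of `U` on the line
  obtain ⟨w, hwU, hwm⟩ : ∃ w ∈ U, w.re = m := by
    have hd : 0 < y.re - x.re := by linarith
    refine ⟨((y.re - m) / (y.re - x.re)) • x + ((m - x.re) / (y.re - x.re)) • y,
      cU hx hy (div_nonneg (by linarith) hd.le) (div_nonneg (by linarith) hd.le) ?_, ?_⟩
    · field_simp; ring
    · simp only [Complex.add_re, Complex.real_smul, Complex.mul_re, Complex.ofReal_re,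
        Complex.ofReal_im, zero_mul, sub_zero]
      field_simp
      ring
  -- the segment argument
  have key : ∀ z₁ ∈ S, ∀ z₂ ∈ S, (w.im < z₁.im ∧ z₁.im < z₂.im) ∨
      (z₂.im < z₁.im ∧ z₁.im < w.im) → z₁ ∈ U := by
    intro z₁ h1 z₂ h2 h
    have hseg := cU.openSegment_interior_closure_subset_interior (x := w) (y := z₂)
      (by rwa [hU.interior_eq]) (hSU h2)
    rw [hU.interior_eq] at hseg
    apply hseg
    have hne : z₂.im - w.im ≠ 0 := by rcases h with h | h <;> intro h' <;> linarith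
    have hz : z₁ = ((z₂.im - z₁.im) / (z₂.im - w.im)) • w +
        ((z₁.im - w.im) / (z₂.im - w.im)) • z₂ := by
      apply Complex.ext
      · simp only [Complex.add_re, Complex.real_smul, Complex.mul_re, Complex.ofReal_re,
          Complex.ofReal_im, zero_mul, sub_zero, hwm, hSm z₁ h1, hSm z₂ h2]
        field_simp
        ring
      · simp only [Complex.add_im, Complex.real_smul, Complex.mul_im, Complex.ofReal_re,
          Complex.ofReal_im, zero_mul, add_zero]
        field_simp
        ring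
    refine ⟨_, _, ?_, ?_, ?_, hz.symm⟩
    · rcases h with h | h
      · exact div_pos (by linarith) (by linarith)
      · exact div_pos_of_neg_of_neg (by linarith) (by linarith)
    · rcases h with h | h
      · exact div_pos (by linarith) (by linarith)
      · exact div_pos_of_neg_of_neg (by linarith) (by linarith)
    · field_simp; ring
  by_contra hcon
  push Not at hcon
  have him : ∀ z ∈ S, z.im ≠ w.im := by
    intro z hz h
    apply hcon z hz
    have : z = w := Complex.ext ((hSm z hz).trans hwm.symm) h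
    rwa [this]
  have hsplit : S = (S ∩ {z | w.im < z.im}) ∪ (S ∩ {z | z.im < w.im}) := by
    ext z
    constructor
    · intro hz
      rcases lt_or_gt_of_ne (him z hz) with h | h
      · exact Or.inr ⟨hz, h⟩
      · exact Or.inl ⟨hz, h⟩
    · rintro (h | h) <;> exact h.1
  have hinj : ∀ z₁ ∈ S, ∀ z₂ ∈ S, z₁ ≠ z₂ → z₁.im ≠ z₂.im := by
    intro z₁ h1 z₂ h2 hne h
    exact hne (Complex.ext ((hSm z₁ h1).trans (hSm z₂ h2).symm) h)
  rw [hsplit, Set.infinite_union] at hS
  rcases hS with h | h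
  · obtain ⟨z₁, h1, z₂, h2, hne⟩ := h.nontrivial
    rcases lt_or_gt_of_ne (hinj z₁ h1.1 z₂ h2.1 hne) with h' | h'
    · exact hcon z₁ h1.1 (key z₁ h1.1 z₂ h2.1 (Or.inl ⟨h1.2, h'⟩))
    · exact hcon z₂ h2.1 (key z₂ h2.1 z₁ h1.1 (Or.inl ⟨h2.2, h'⟩))
  · obtain ⟨z₁, h1, z₂, h2, hne⟩ := h.nontrivial
    rcases lt_or_gt_of_ne (hinj z₁ h1.1 z₂ h2.1 hne) with h' | h'
    · exact hcon z₂ h2.1 (key z₂ h2.1 z₁ h1.1 (Or.inr ⟨h', h2.2⟩))
    · exact hcon z₁ h1.1 (key z₁ h1.1 z₂ h2.1 (Or.inr ⟨h', h1.2⟩))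

/-- For a line `re = m` the product of signed distances has the expected sign. -/
lemma side_vert {a b : ℂ} (hab : a ≠ b) {m : ℝ} (ha : a.re = m) (hb : b.re = m) (x y : ℂ) :
    0 < side a b x * side a b y ↔ 0 < (x.re - m) * (y.re - m) := by
  have h : side a b x * side a b y = (b.im - a.im) ^ 2 * ((x.re - m) * (y.re - m)) := by
    rw [side_eq, side_eq, ha, hb]; ring
  have h0 : b.im - a.im ≠ 0 := by
    intro h0
    exact hab (Complex.ext (ha.trans hb.symm) (by linarith))
  have h1 : 0 < (b.im - a.im) ^ 2 := by positivity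
  rw [h, mul_pos_iff_of_pos_left h1]

/-- A nonempty open set contains a point off the line `ab`. -/
lemma exists_side_ne_zero {U : Set ℂ} (hU : IsOpen U) (hne : U.Nonempty) {a b : ℂ} (hab : a ≠ b) :
    ∃ x ∈ U, side a b x ≠ 0 := by
  obtain ⟨x, hx⟩ := hne
  by_cases h : side a b x = 0
  · -- move a little in the direction orthogonal to the line
    have hc : Continuous fun t : ℝ => x + t • (Complex.I * (b - a)) := by fun_prop
    have h1 : ∀ᶠ t : ℝ in nhds 0, x + t • (Complex.I * (b - a)) ∈ U := by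
      apply hc.continuousAt.eventually_mem
      apply hU.mem_nhds
      simpa using hx
    obtain ⟨ε, hε, h2⟩ := Metric.eventually_nhds_iff.1 h1
    refine ⟨x + (ε / 2) • (Complex.I * (b - a)), h2 ?_, ?_⟩
    · rw [Real.dist_eq, sub_zero, abs_of_pos (by linarith)]; linarith
    · have hn : 0 < (b.re - a.re) ^ 2 + (b.im - a.im) ^ 2 := by
        rcases eq_or_ne a.re b.re with h3 | h3
        · have h4 : b.im - a.im ≠ 0 := fun h4 => hab (Complex.ext h3 (by linarith))
          positivity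
        · have h4 : b.re - a.re ≠ 0 := fun h4 => h3 (by linarith)
          positivity
      have h3 : side a b (x + (ε / 2) • (Complex.I * (b - a))) =
          side a b x + (ε / 2) * ((b.re - a.re) ^ 2 + (b.im - a.im) ^ 2) := by
        rw [side_eq, side_eq]
        simp
        ring
      rw [h3, h, zero_add]
      positivity
  · exact ⟨x, hx, h⟩

end Pool.Agent.Lib.FoldCut
end

section
/-!
# Images of facets and hinges under a flat folding
-/
namespace Pool.Agent.Lib.FoldCut

lemma IsConvexPolygon.convex {K : Set ℂ} (h : IsConvexPolygon K) : Convex ℝ K := by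
  obtain ⟨-, -, H, rfl⟩ := h
  have : {z : ℂ | ∀ h ∈ H, inner ℝ h.1 z ≤ h.2} = ⋂ h ∈ H, {z : ℂ | inner ℝ h.1 z ≤ h.2} := by
    ext z; simp
  rw [this]
  refine convex_iInter fun h => convex_iInter fun _ => ?_
  have := convex_halfSpace_le (𝕜 := ℝ) (E := ℂ) (f := fun z => inner ℝ h.1 z)
    ⟨fun x y => inner_add_right _ _ _, fun c x => by rw [real_inner_smul_right, smul_eq_mul]⟩ h.2
  exact this

lemma IsConvexPolygon.closure_interior {K : Set ℂ} (h : IsConvexPolygon K) :
    closure (interior K) = K := by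
  rw [h.convex.closure_interior_eq_closure_of_nonempty_interior h.2.1, h.1.isClosed.closure_eq]

variable {P : Set ℂ} (F : FlatFolding P)

/-- The open image of the facet `i`. -/
def FlatFolding.J (i : F.ι) : Set ℂ := F.iso i '' interior (F.K i)

/-- The image of the common part of the facets `i` and `j`. -/
def FlatFolding.hinge (i j : F.ι) : Set ℂ := F.iso i '' (F.K i ∩ F.K j)

lemma convex_isom_image (e : ℂ ≃ᵢ ℂ) {s : Set ℂ} (hs : Convex ℝ s) : Convex ℝ (e '' s) := by
  have h := hs.affine_image (e.toRealAffineIsometryEquiv.toAffineEquiv : ℂ →ᵃ[ℝ] ℂ)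
  exact h

lemma isOpen_isom_image (e : ℂ ≃ᵢ ℂ) {s : Set ℂ} (hs : IsOpen s) : IsOpen (e '' s) :=
  e.toHomeomorph.isOpenMap s hs

lemma closure_isom_image (e : ℂ ≃ᵢ ℂ) (s : Set ℂ) : closure (e '' s) = e '' closure s :=
  (e.toHomeomorph.image_closure s).symm

namespace FlatFolding

lemma isOpen_J (i : F.ι) : IsOpen (F.J i) := isOpen_isom_image _ isOpen_interior

lemma convex_J (i : F.ι) : Convex ℝ (F.J i) :=
  convex_isom_image _ (F.polygon i).convex.interior

lemma nonempty_J (i : F.ι) : (F.J i).Nonempty := (F.polygon i).2.1.image _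

lemma closure_J (i : F.ι) : closure (F.J i) = F.iso i '' F.K i := by
  rw [J, closure_isom_image, (F.polygon i).closure_interior]

lemma iso_eq {i j : F.ι} {z : ℂ} (hi : z ∈ F.K i) (hj : z ∈ F.K j) : F.iso i z = F.iso j z := by
  rw [← F.map_eq i z hi, ← F.map_eq j z hj]

lemma hinge_comm (i j : F.ι) : F.hinge i j = F.hinge j i := by
  ext w
  constructor
  · rintro ⟨z, ⟨hi, hj⟩, rfl⟩
    exact ⟨z, ⟨hj, hi⟩, F.iso_eq hj hi⟩
  · rintro ⟨z, ⟨hj, hi⟩, rfl⟩
    exact ⟨z, ⟨hi, hj⟩, F.iso_eq hi hj⟩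

lemma hinge_subset_left (i j : F.ι) : F.hinge i j ⊆ closure (F.J i) := by
  rw [closure_J]; exact Set.image_mono Set.inter_subset_left

lemma hinge_subset_right (i j : F.ι) : F.hinge i j ⊆ closure (F.J j) := by
  rw [hinge_comm]; exact F.hinge_subset_left j i

lemma infinite_K_of_hinge {i j : F.ι} {S : Set ℂ} (hS : S.Infinite) (h : S ⊆ F.hinge i j) :
    (F.K i ∩ F.K j).Infinite := by
  have h1 : (F.hinge i j).Infinite := hS.mono h
  intro h2
  exact h1 (h2.image _)

lemma infinite_hinge_inter {i j k l : F.ι} {S : Set ℂ} (hS : S.Infinite) (h : S ⊆ F.hinge i j)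
    (h' : S ⊆ F.hinge k l) :
    (F.iso i '' (F.K i ∩ F.K j) ∩ F.iso k '' (F.K k ∩ F.K l)).Infinite :=
  hS.mono fun _ hx => ⟨h hx, h' hx⟩

/-- **Sides of a joint.** If the open facets `i`, `j` have image points `x`, `y` on the same side
of the line `ab` of the joint, the joint is folded; otherwise it is flat. -/
lemma side_of_flat {i j : F.ι} (hij : i ≠ j) {a b : ℂ} (hab : a ≠ b) (ha : a ∈ F.hinge i j)
    (hb : b ∈ F.hinge i j) (hiso : F.iso i = F.iso j) {x y : ℂ} (hx : x ∈ F.J i)
    (hy : y ∈ F.J j) : side a b x * side a b y ≤ 0 := by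
  by_contra h
  push Not at h
  obtain ⟨w, ⟨u, hu, rfl⟩, ⟨v, hv, hvw⟩⟩ := inter_of_side (F.isOpen_J i) (F.isOpen_J j)
    (F.convex_J i) (F.convex_J j) hab (F.hinge_subset_left i j ha) (F.hinge_subset_left i j hb)
    (F.hinge_subset_right i j ha) (F.hinge_subset_right i j hb) hx hy h
  rw [← hiso] at hvw
  have := (F.iso i).injective hvw
  subst this
  exact Set.disjoint_left.1 (F.interiors i j hij) hu hv

lemma side_of_fold {i j : F.ι} (hij : i ≠ j) {a b : ℂ} (hab : a ≠ b) (ha : a ∈ F.hinge i j)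
    (hb : b ∈ F.hinge i j) (hiso : F.iso i ≠ F.iso j) {x y : ℂ} (hx : x ∈ F.J i)
    (hy : y ∈ F.J j) : 0 ≤ side a b x * side a b y := by
  by_contra h
  push Not at h
  obtain ⟨p, ⟨hpi, hpj⟩, hpa⟩ := ha
  obtain ⟨q, ⟨hqi, hqj⟩, hqb⟩ := hb
  have hpq : p ≠ q := by
    rintro rfl; exact hab (hpa.symm.trans hqb)
  obtain ⟨v, hv, hvy⟩ := hy
  have hflip := side_flip hiso hpq (F.iso_eq hpi hpj) (F.iso_eq hqi hqj) v
  rw [hpa, hqb, hvy] at hflip
  have hV : closure (F.iso i '' interior (F.K j)) = F.iso i '' F.K j := by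
    rw [closure_isom_image, (F.polygon j).closure_interior]
  obtain ⟨w, ⟨u, hu, huw⟩, ⟨v', hv', hvw⟩⟩ := inter_of_side (F.isOpen_J i)
    (isOpen_isom_image (F.iso i) (isOpen_interior (s := F.K j)))
    (F.convex_J i) (convex_isom_image _ (F.polygon j).convex.interior) hab
    (by rw [closure_J]; exact ⟨p, hpi, hpa⟩) (by rw [closure_J]; exact ⟨q, hqi, hqb⟩)
    (by rw [hV]; exact ⟨p, hpj, hpa⟩) (by rw [hV]; exact ⟨q, hqj, hqb⟩) hx ⟨v, hv, rfl⟩
    (by rw [hflip]; linarith)
  have := (F.iso i).injective (huw.trans hvw.symm)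
  subst this
  exact Set.disjoint_left.1 (F.interiors i j hij) hu hv'

/-- `U ∩ V ≠ ∅` as soon as there are points on the same side of the line of two common points. -/
lemma overlap_of_side {i j : F.ι} {a b : ℂ} (hab : a ≠ b) (hai : a ∈ closure (F.J i))
    (hbi : b ∈ closure (F.J i)) (haj : a ∈ closure (F.J j)) (hbj : b ∈ closure (F.J j)) {x y : ℂ}
    (hx : x ∈ F.J i) (hy : y ∈ F.J j) (h : 0 < side a b x * side a b y) :
    (F.J i ∩ F.J j).Nonempty :=
  inter_of_side (F.isOpen_J i) (F.isOpen_J j) (F.convex_J i) (F.convex_J j) hab hai hbi haj hbj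
    hx hy h

/-- A point of the closure of `J i` in `J k` gives an overlap. -/
lemma overlap_of_mem {i k : F.ι} {w : ℂ} (hi : w ∈ closure (F.J i)) (hk : w ∈ F.J k) :
    (F.J i ∩ F.J k).Nonempty := by
  have := mem_closure_iff.1 hi (F.J k) (F.isOpen_J k) hk
  rwa [Set.inter_comm] at this

lemma overlap_symm {i k : F.ι} (h : (F.J i ∩ F.J k).Nonempty) : (F.J k ∩ F.J i).Nonempty := by
  rwa [Set.inter_comm]

lemma below_iff {i k : F.ι} (hik : i ≠ k) (h : (F.J i ∩ F.J k).Nonempty) :
    F.below i k ↔ ¬ F.below k i := F.order i k hik h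

/-- Reversed version of the hinge-facet condition. -/
lemma hinge_facet_rev {i j k : F.ι} (hij : i ≠ j) (hki : k ≠ i) (hkj : k ≠ j)
    (hinf : (F.K i ∩ F.K j).Infinite) {w : ℂ} (hw : w ∈ F.hinge i j) (hwk : w ∈ F.J k) :
    F.below k i ↔ F.below k j := by
  have h1 := F.hinge_facet i j k hij hki hkj hinf ⟨w, hw, hwk⟩
  have h2 := F.below_iff hki.symm (F.overlap_of_mem (F.hinge_subset_left i j hw) hwk)
  have h3 := F.below_iff hkj.symm (F.overlap_of_mem (F.hinge_subset_right i j hw) hwk)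
  tauto

section general_line

variable {i j k l : F.ι} {S : Set ℂ}

/-- The four facets at two overlapping joints: choose points off the line. -/
lemma two_joints (hS : S.Infinite) (h1 : S ⊆ F.hinge i j) (h2 : S ⊆ F.hinge k l)
    (hik : (F.J i ∩ F.J k).Nonempty) :
    ∃ a b x y v, a ≠ b ∧ a ∈ F.hinge i j ∧ b ∈ F.hinge i j ∧ a ∈ F.hinge k l ∧ b ∈ F.hinge k l ∧
      x ∈ F.J i ∧ x ∈ F.J k ∧ y ∈ F.J j ∧ v ∈ F.J l ∧ side a b x ≠ 0 ∧ side a b y ≠ 0 ∧
      side a b v ≠ 0 := by
  obtain ⟨a, ha, b, hb, hab⟩ := hS.nontrivial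
  obtain ⟨x, hx, hx0⟩ := exists_side_ne_zero ((F.isOpen_J i).inter (F.isOpen_J k)) hik hab
  obtain ⟨y, hy, hy0⟩ := exists_side_ne_zero (F.isOpen_J j) (F.nonempty_J j) hab
  obtain ⟨v, hv, hv0⟩ := exists_side_ne_zero (F.isOpen_J l) (F.nonempty_J l) hab
  exact ⟨a, b, x, y, v, hab, h1 ha, h1 hb, h2 ha, h2 hb, hx.1, hx.2, hy, hv, hx0, hy0, hv0⟩

lemma overlap_jk_of_fold (hij : i ≠ j) (hS : S.Infinite)
    (h1 : S ⊆ F.hinge i j) (h2 : S ⊆ F.hinge k l) (hik : (F.J i ∩ F.J k).Nonempty)
    (hi : F.iso i ≠ F.iso j) : (F.J j ∩ F.J k).Nonempty := by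
  obtain ⟨a, b, x, y, v, hab, ha, hb, ha', hb', hxi, hxk, hyj, hvl, hx0, hy0, hv0⟩ :=
    F.two_joints hS h1 h2 hik
  have h3 := F.side_of_fold hij hab ha hb hi hxi hyj
  have h4 : side a b x * side a b y ≠ 0 := mul_ne_zero hx0 hy0
  refine F.overlap_of_side hab (F.hinge_subset_right i j ha) (F.hinge_subset_right i j hb)
    (F.hinge_subset_left k l ha') (F.hinge_subset_left k l hb') hyj hxk ?_
  rw [mul_comm]; exact lt_of_le_of_ne h3 h4.symm

lemma overlap_jl_of_fold_fold (hij : i ≠ j) (hkl : k ≠ l) (hS : S.Infinite)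
    (h1 : S ⊆ F.hinge i j) (h2 : S ⊆ F.hinge k l) (hik : (F.J i ∩ F.J k).Nonempty)
    (hi : F.iso i ≠ F.iso j) (hk : F.iso k ≠ F.iso l) : (F.J j ∩ F.J l).Nonempty := by
  have h3 := F.overlap_jk_of_fold hij hS h1 h2 hik hi
  have h4 := F.overlap_jk_of_fold (i := k) (j := l) (k := j) (l := i) hkl hS h2
    (by rwa [hinge_comm]) (F.overlap_symm h3) hk
  exact F.overlap_symm h4

lemma overlap_jl_of_flat_flat (hij : i ≠ j) (hkl : k ≠ l) (hS : S.Infinite)
    (h1 : S ⊆ F.hinge i j) (h2 : S ⊆ F.hinge k l) (hik : (F.J i ∩ F.J k).Nonempty)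
    (hi : F.iso i = F.iso j) (hk : F.iso k = F.iso l) : (F.J j ∩ F.J l).Nonempty := by
  obtain ⟨a, b, x, y, v, hab, ha, hb, ha', hb', hxi, hxk, hyj, hvl, hx0, hy0, hv0⟩ :=
    F.two_joints hS h1 h2 hik
  have h3 := F.side_of_flat hij hab ha hb hi hxi hyj
  have h4 := F.side_of_flat hkl hab ha' hb' hk hxk hvl
  have h5 : side a b x * side a b y ≠ 0 := mul_ne_zero hx0 hy0
  have h6 : side a b x * side a b v ≠ 0 := mul_ne_zero hx0 hv0
  refine F.overlap_of_side hab (F.hinge_subset_right i j ha) (F.hinge_subset_right i j hb)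
    (F.hinge_subset_right k l ha') (F.hinge_subset_right k l hb') hyj hvl ?_
  have h7 : side a b x * side a b y < 0 := lt_of_le_of_ne h3 h5
  have h8 : side a b x * side a b v < 0 := lt_of_le_of_ne h4 h6
  have h9 := mul_pos_of_neg_of_neg h7 h8
  have h10 : side a b x * side a b y * (side a b x * side a b v) =
      side a b x ^ 2 * (side a b y * side a b v) := by ring
  rw [h10] at h9
  exact (mul_pos_iff_of_pos_left (by positivity)).1 h9

end general_line

end FlatFolding

end Pool.Agent.Lib.FoldCut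
end

section
/-!
# Joints lying on the fold line `re = m`
-/
namespace Pool.Agent.Lib.FoldCut

/-- `x` lies strictly to the left (`s = false`) or to the right (`s = true`) of `re = m`. -/
def sideIn (m : ℝ) : Bool → ℂ → Prop
  | false, x => x.re < m
  | true, x => m < x.re

lemma sideIn_same {m : ℝ} {s : Bool} {x y : ℂ} (hx : sideIn m s x) (hy : sideIn m s y) :
    0 < (x.re - m) * (y.re - m) := by
  cases s
  · exact mul_pos_of_neg_of_neg (sub_neg.2 hx) (sub_neg.2 hy)
  · exact mul_pos (sub_pos.2 hx) (sub_pos.2 hy)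

lemma sideIn_opp {m : ℝ} {s : Bool} {x y : ℂ} (hx : sideIn m s x) (hy : sideIn m (!s) y) :
    (x.re - m) * (y.re - m) < 0 := by
  cases s
  · exact mul_neg_of_neg_of_pos (sub_neg.2 hx) (sub_pos.2 hy)
  · exact mul_neg_of_pos_of_neg (sub_pos.2 hx) (sub_neg.2 hy)

variable {P : Set ℂ} (F : FlatFolding P)

namespace FlatFolding

/-- The open facet `i` has an image point strictly on the side `s` of the line `re = m`. -/
def OnSide (m : ℝ) (s : Bool) (i : F.ι) : Prop := ∃ x ∈ F.J i, sideIn m s x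

variable {F} {m : ℝ} {s : Bool} {i j k l : F.ι} {S : Set ℂ}

lemma not_onSide_of_flat (hij : i ≠ j) (hS : S.Nontrivial) (h1 : S ⊆ F.hinge i j)
    (hm : ∀ z ∈ S, z.re = m) (hiso : F.iso i = F.iso j) (hi : F.OnSide m s i) :
    ¬ F.OnSide m s j := by
  rintro ⟨y, hy, hys⟩
  obtain ⟨x, hx, hxs⟩ := hi
  obtain ⟨a, ha, b, hb, hab⟩ := hS
  have h2 := F.side_of_flat hij hab (h1 ha) (h1 hb) hiso hx hy
  exact absurd ((side_vert hab (hm a ha) (hm b hb) x y).2 (sideIn_same hxs hys)) (not_lt.2 h2)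

lemma not_onSide_of_fold (hij : i ≠ j) (hS : S.Nontrivial) (h1 : S ⊆ F.hinge i j)
    (hm : ∀ z ∈ S, z.re = m) (hiso : F.iso i ≠ F.iso j) (hi : F.OnSide m s i) :
    ¬ F.OnSide m (!s) j := by
  rintro ⟨y, hy, hys⟩
  obtain ⟨x, hx, hxs⟩ := hi
  obtain ⟨a, ha, b, hb, hab⟩ := hS
  have h2 := F.side_of_fold hij hab (h1 ha) (h1 hb) hiso hx hy
  have h3 := sideIn_opp hxs hys
  have h4 := side_vert hab (hm a ha) (hm b hb) x y
  have h5 : side a b x * side a b y = 0 := by
    apply le_antisymm _ h2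
    by_contra h6
    push Not at h6
    have := h4.1 h6
    linarith
  have h7 : side a b x * side a b y = (b.im - a.im) ^ 2 * ((x.re - m) * (y.re - m)) := by
    rw [side_eq, side_eq, hm a ha, hm b hb]; ring
  have h8 : b.im - a.im ≠ 0 := by
    intro h0
    exact hab (Complex.ext ((hm a ha).trans (hm b hb).symm) (by linarith))
  have h9 : 0 < (b.im - a.im) ^ 2 := by positivity
  rw [h7] at h5
  nlinarith [mul_neg_of_pos_of_neg h9 h3]

lemma overlap_of_onSide (hS : S.Nontrivial) (h1 : S ⊆ closure (F.J i))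
    (h2 : S ⊆ closure (F.J k)) (hm : ∀ z ∈ S, z.re = m) (hi : F.OnSide m s i)
    (hk : F.OnSide m s k) : (F.J i ∩ F.J k).Nonempty := by
  obtain ⟨x, hx, hxs⟩ := hi
  obtain ⟨y, hy, hys⟩ := hk
  obtain ⟨a, ha, b, hb, hab⟩ := hS
  exact F.overlap_of_side hab (h1 ha) (h1 hb) (h2 ha) (h2 hb) hx hy
    ((side_vert hab (hm a ha) (hm b hb) x y).2 (sideIn_same hxs hys))

lemma exists_mem_J (hS : S.Infinite) (h1 : S ⊆ closure (F.J i)) (hm : ∀ z ∈ S, z.re = m)
    (hi : F.OnSide m s i) (hi' : F.OnSide m (!s) i) : ∃ z ∈ S, z ∈ F.J i := by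
  obtain ⟨x, hx, hxs⟩ := hi
  obtain ⟨y, hy, hys⟩ := hi'
  cases s
  · exact exists_mem_of_cross (F.isOpen_J i) (F.convex_J i) hx hy hxs hys hS h1 hm
  · exact exists_mem_of_cross (F.isOpen_J i) (F.convex_J i) hy hx hys hxs hS h1 hm

/-- Opposite sides at a joint on the line: the joint is flat. -/
lemma iso_eq_of_sides (hij : i ≠ j) (hS : S.Nontrivial) (h1 : S ⊆ F.hinge i j)
    (hm : ∀ z ∈ S, z.re = m) (hi : F.OnSide m s i) (hj : F.OnSide m (!s) j) :
    F.iso i = F.iso j := by
  by_contra h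
  exact not_onSide_of_fold hij hS h1 hm h hi hj

/-- **Two sheets through the line.** -/
lemma sheet_sheet (hS : S.Infinite) (h1 : S ⊆ F.hinge i j) (h2 : S ⊆ F.hinge k l)
    (hm : ∀ z ∈ S, z.re = m) (hi : F.OnSide m s i) (hj : F.OnSide m (!s) j)
    (hk : F.OnSide m s k) (hl : F.OnSide m (!s) l) (hik : i ≠ k) (hjl : j ≠ l) :
    (F.below i k ↔ F.below j l) ∧ (F.J i ∩ F.J k).Nonempty ∧ (F.J j ∩ F.J l).Nonempty := by
  have c1 : S ⊆ closure (F.J i) := h1.trans (F.hinge_subset_left i j)
  have c2 : S ⊆ closure (F.J j) := h1.trans (F.hinge_subset_right i j)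
  have c3 : S ⊆ closure (F.J k) := h2.trans (F.hinge_subset_left k l)
  have c4 : S ⊆ closure (F.J l) := h2.trans (F.hinge_subset_right k l)
  have nt := hS.nontrivial
  have oik := overlap_of_onSide nt c1 c3 hm hi hk
  have ojl := overlap_of_onSide nt c2 c4 hm hj hl
  refine ⟨?_, oik, ojl⟩
  by_cases hij : i = j
  · subst hij
    by_cases hkl : k = l
    · subst hkl; rfl
    · obtain ⟨z, hz, hzi⟩ := exists_mem_J hS c1 hm hi hj
      exact F.hinge_facet_rev hkl hik hjl (F.infinite_K_of_hinge hS h2) (h2 hz) hzi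
  · by_cases hkl : k = l
    · subst hkl
      obtain ⟨z, hz, hzk⟩ := exists_mem_J hS c3 hm hk hl
      exact F.hinge_facet i j k hij hik.symm hjl.symm (F.infinite_K_of_hinge hS h1)
        ⟨z, h1 hz, hzk⟩
    · have e1 := iso_eq_of_sides hij nt h1 hm hi hj
      have e2 := iso_eq_of_sides hkl nt h2 hm hk hl
      have n1 : ¬ F.OnSide m s j := not_onSide_of_flat hij nt h1 hm e1 hi
      have n2 : ¬ F.OnSide m s l := not_onSide_of_flat hkl nt h2 hm e2 hk
      have hil : i ≠ l := by rintro rfl; exact n2 hi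
      have hjk : j ≠ k := by rintro rfl; exact n1 hk
      exact F.flat_flat i j k l hij hik hil hjk hjl hkl (F.infinite_K_of_hinge hS h1)
        (F.infinite_K_of_hinge hS h2) (F.infinite_hinge_inter hS h1 h2) oik e1 e2

/-- **A fold on the line and a sheet through the line.** -/
lemma fold_sheet (hS : S.Infinite) (h1 : S ⊆ F.hinge k l) (h2 : S ⊆ F.hinge i j)
    (hm : ∀ z ∈ S, z.re = m) (hkl : k ≠ l) (hiso : F.iso k ≠ F.iso l) (hk : F.OnSide m s k)
    (hl : F.OnSide m s l) (hi : F.OnSide m s i) (hj : F.OnSide m (!s) j) (hik : i ≠ k)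
    (hil : i ≠ l) :
    (F.below k i ↔ F.below l i) ∧ (F.J k ∩ F.J i).Nonempty ∧ (F.J l ∩ F.J i).Nonempty := by
  have c1 : S ⊆ closure (F.J k) := h1.trans (F.hinge_subset_left k l)
  have c2 : S ⊆ closure (F.J l) := h1.trans (F.hinge_subset_right k l)
  have c3 : S ⊆ closure (F.J i) := h2.trans (F.hinge_subset_left i j)
  have nt := hS.nontrivial
  have oki := overlap_of_onSide nt c1 c3 hm hk hi
  have oli := overlap_of_onSide nt c2 c3 hm hl hi
  refine ⟨?_, oki, oli⟩
  by_cases hij : i = j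
  · subst hij
    obtain ⟨z, hz, hzi⟩ := exists_mem_J hS c3 hm hi hj
    exact F.hinge_facet k l i hkl hik hil (F.infinite_K_of_hinge hS h1) ⟨z, h1 hz, hzi⟩
  · have e := iso_eq_of_sides hij nt h2 hm hi hj
    have n1 : ¬ F.OnSide m s j := not_onSide_of_flat hij nt h2 hm e hi
    have hkj : k ≠ j := by rintro rfl; exact n1 hk
    have hlj : l ≠ j := by rintro rfl; exact n1 hl
    exact F.fold_flat k l i j hkl hik.symm hkj hil.symm hlj hij (F.infinite_K_of_hinge hS h1)
      (F.infinite_K_of_hinge hS h2) (F.infinite_hinge_inter hS h1 h2) oki hiso e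

end FlatFolding

end Pool.Agent.Lib.FoldCut
end
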