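import Pool.Agent.Lib.MP_12ced6_co.AccLine

/-!
# The pieces of a simple fold through all layers
-/

namespace Pool.Agent.Lib.FoldCut

/-- The reflection of the plane in the line `re = m`. -/
noncomputable def reflv (m : ℝ) : ℂ ≃ᵢ ℂ :=
  IsometryEquiv.mk' (fun z => ⟨2 * m - z.re, z.im⟩) (fun z => ⟨2 * m - z.re, z.im⟩)
    (fun z => by apply Complex.ext <;> simp)
    (Isometry.of_dist_eq fun z w => by
      rw [Complex.dist_eq_re_im, Complex.dist_eq_re_im]
      congr 1
      ring)

@[simp] lemma reflv_re (m : ℝ) (z : ℂ) : (reflv m z).re = 2 * m - z.re := rfl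
@[simp] lemma reflv_im (m : ℝ) (z : ℂ) : (reflv m z).im = z.im := rfl

@[simp] lemma reflv_reflv (m : ℝ) (z : ℂ) : reflv m (reflv m z) = z := by
  apply Complex.ext <;> simp

lemma reflv_of_re {m : ℝ} {z : ℂ} (h : z.re = m) : reflv m z = z := by
  apply Complex.ext
  · simp [h]; ring
  · simp

/-- The part of the plane placed by `e` to the left / to the right of `re = m`. -/
def halfPl (e : ℂ ≃ᵢ ℂ) (m : ℝ) : Bool → Set ℂ
  | false => {z | (e z).re ≤ m}
  | true => {z | m ≤ (e z).re}

lemma isClosed_halfPl (e : ℂ ≃ᵢ ℂ) (m : ℝ) (s : Bool) : IsClosed (halfPl e m s) := by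
  have hc : Continuous fun z => (e z).re := Complex.continuous_re.comp e.continuous
  cases s
  · exact isClosed_le hc continuous_const
  · exact isClosed_le continuous_const hc

lemma interior_halfPl (e : ℂ ≃ᵢ ℂ) (m : ℝ) (s : Bool) :
    interior (halfPl e m s) = {z | sideIn m s (e z)} := by
  cases s
  · have h : halfPl e m false = e.toHomeomorph ⁻¹' {w : ℂ | w.re ≤ m} := rfl
    rw [h, ← Homeomorph.preimage_interior, Complex.interior_setOfPred_re_le]
    rfl
  · have h : halfPl e m true = e.toHomeomorph ⁻¹' {w : ℂ | m ≤ w.re} := rfl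
    rw [h, ← Homeomorph.preimage_interior, Complex.interior_setOfPred_le_re]
    rfl

lemma halfPl_eq (e : ℂ ≃ᵢ ℂ) (m : ℝ) (s : Bool) :
    ∃ h : ℂ × ℝ, halfPl e m s = {z | inner ℝ h.1 z ≤ h.2} := by
  set G := e.toRealAffineIsometryEquiv with hG
  have hform : ∀ z, (e z).re = inner ℝ (G.linearIsometryEquiv.symm 1) z + (e 0).re := by
    intro z
    have h := G.map_vadd (0 : ℂ) z
    have h' : e z = G.linearIsometryEquiv z + e 0 := by
      rw [vadd_eq_add, vadd_eq_add, add_zero] at h
      exact h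
    rw [h', Complex.add_re]
    congr 1
    rw [← G.linearIsometryEquiv.inner_map_map, LinearIsometryEquiv.apply_symm_apply,
      Complex.inner]
    simp
  cases s
  · refine ⟨(G.linearIsometryEquiv.symm 1, m - (e 0).re), ?_⟩
    ext z
    simp only [halfPl, Set.mem_ofPred_eq, hform z]
    constructor <;> intro h <;> linarith
  · refine ⟨(- G.linearIsometryEquiv.symm 1, (e 0).re - m), ?_⟩
    ext z
    simp only [halfPl, Set.mem_ofPred_eq, hform z, inner_neg_left]
    constructor <;> intro h <;> linarith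

/-- Reflect (`b = true`) or not (`b = false`). -/
noncomputable def sg (m : ℝ) (b : Bool) (w : ℂ) : ℂ := bif b then reflv m w else w

lemma sg_injective (m : ℝ) (b : Bool) : Function.Injective (sg m b) := by
  cases b
  · exact fun _ _ h => h
  · exact (reflv m).injective

lemma sg_of_re {m : ℝ} (b : Bool) {w : ℂ} (h : w.re = m) : sg m b w = w := by
  cases b
  · rfl
  · exact reflv_of_re h

variable {P : Set ℂ}

namespace FlatFolding

variable (F : FlatFolding P) (m : ℝ)

/-- The new facets. -/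
def accK (p : F.ι × Bool) : Set ℂ := F.K p.1 ∩ halfPl (F.iso p.1) m p.2

/-- The new isometries. -/
noncomputable def accIso : F.ι × Bool → (ℂ ≃ᵢ ℂ)
  | (i, false) => F.iso i
  | (i, true) => (F.iso i).trans (reflv m)

/-- The new layer order. -/
def accBelow : F.ι × Bool → F.ι × Bool → Prop
  | (i, false), (j, false) => F.below i j
  | (_, false), (_, true) => True
  | (_, true), (_, false) => False
  | (i, true), (j, true) => F.below j i

variable {F m}

lemma interior_accK (p : F.ι × Bool) :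
    interior (F.accK m p) = interior (F.K p.1) ∩ {z | sideIn m p.2 (F.iso p.1 z)} := by
  rw [accK, interior_inter, interior_halfPl]

lemma accK_polygon {p : F.ι × Bool} (hp : F.OnSide m p.2 p.1) : IsConvexPolygon (F.accK m p) := by
  classical
  refine ⟨(F.polygon p.1).1.inter_right (isClosed_halfPl _ _ _), ?_, ?_⟩
  · obtain ⟨x, ⟨z, hz, rfl⟩, hx⟩ := hp
    rw [interior_accK]
    exact ⟨z, hz, hx⟩
  · obtain ⟨-, -, H, hH⟩ := F.polygon p.1
    obtain ⟨h, hh⟩ := halfPl_eq (F.iso p.1) m p.2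
    refine ⟨insert h H, ?_⟩
    rw [accK, hH, hh]
    ext z
    simp only [Set.mem_inter_iff, Set.mem_ofPred_eq, Finset.mem_insert, forall_eq_or_imp]
    tauto

lemma accIso_apply (p : F.ι × Bool) (z : ℂ) : F.accIso m p z = sg m p.2 (F.iso p.1 z) := by
  obtain ⟨i, b⟩ := p
  cases b <;> rfl

lemma sg_accIso (p : F.ι × Bool) (z : ℂ) : sg m p.2 (F.accIso m p z) = F.iso p.1 z := by
  obtain ⟨i, b⟩ := p
  cases b
  · rfl
  · exact reflv_reflv m _

/-- Image points of the new open facets. -/
lemma mem_J_of_acc {p : F.ι × Bool} {w : ℂ} (hw : w ∈ F.accIso m p '' interior (F.accK m p)) :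
    sg m p.2 w ∈ F.J p.1 ∧ w.re < m := by
  obtain ⟨z, hz, rfl⟩ := hw
  rw [interior_accK] at hz
  refine ⟨by rw [sg_accIso]; exact ⟨z, hz.1, rfl⟩, ?_⟩
  obtain ⟨i, b⟩ := p
  have h2 := hz.2
  cases b
  · exact h2
  · have h3 : m < (F.iso i z).re := h2
    show (reflv m (F.iso i z)).re < m
    rw [reflv_re]; linarith

/-- Image points of the new joints. -/
lemma mem_hinge_of_acc {p q : F.ι × Bool} {w : ℂ}
    (hw : w ∈ F.accIso m p '' (F.accK m p ∩ F.accK m q)) :
    sg m p.2 w ∈ F.hinge p.1 q.1 ∧ (p.2 ≠ q.2 → w.re = m) := by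
  obtain ⟨z, ⟨hzp, hzq⟩, rfl⟩ := hw
  refine ⟨by rw [sg_accIso]; exact ⟨z, ⟨hzp.1, hzq.1⟩, rfl⟩, fun hne => ?_⟩
  have he : F.iso p.1 z = F.iso q.1 z := F.iso_eq hzp.1 hzq.1
  obtain ⟨i, b⟩ := p
  obtain ⟨j, c⟩ := q
  have h1 := hzp.2
  have h2 := hzq.2
  have he' : F.iso i z = F.iso j z := he
  cases b <;> cases c
  · exact absurd rfl hne
  · have h1' : (F.iso i z).re ≤ m := h1
    have h2' : m ≤ (F.iso j z).re := h2
    rw [← he'] at h2'
    exact le_antisymm h1' h2'
  · have h1' : m ≤ (F.iso i z).re := h1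
    have h2' : (F.iso j z).re ≤ m := h2
    rw [← he'] at h2'
    have : (F.iso i z).re = m := le_antisymm h2' h1'
    show (reflv m (F.iso i z)).re = m
    rw [reflv_re, this]; ring
  · exact absurd rfl hne

lemma infinite_K_of_acc {p q : F.ι × Bool} (h : (F.accK m p ∩ F.accK m q).Infinite) :
    (F.K p.1 ∩ F.K q.1).Infinite :=
  h.mono fun _ hz => ⟨hz.1.1, hz.2.1⟩

/-- Overlap of new facets with the same orientation. -/
lemma overlap_of_acc {i j : F.ι} {b : Bool}
    (h : (F.accIso m (i, b) '' interior (F.accK m (i, b)) ∩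
      F.accIso m (j, b) '' interior (F.accK m (j, b))).Nonempty) : (F.J i ∩ F.J j).Nonempty := by
  obtain ⟨w, h1, h2⟩ := h
  exact ⟨sg m b w, (mem_J_of_acc h1).1, (mem_J_of_acc h2).1⟩

lemma acc_iso_eq_iff {i j : F.ι} {b : Bool} :
    F.accIso m (i, b) = F.accIso m (j, b) ↔ F.iso i = F.iso j := by
  constructor
  · intro h
    ext z
    have h1 := sg_accIso (F := F) (m := m) (i, b) z
    have h2 := sg_accIso (F := F) (m := m) (j, b) z
    rw [h] at h1
    exact h1.symm.trans h2
  · intro h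
    ext z
    rw [accIso_apply, accIso_apply]
    show sg m b (F.iso i z) = sg m b (F.iso j z)
    rw [h]

end FlatFolding

end Pool.Agent.Lib.FoldCut
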