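import Pool.Agent.Lib.MP_12ced6_co.AccParts

section
/-!
# The non-crossing conditions after a simple fold through all layers
-/
namespace Pool.Agent.Lib.FoldCut

variable {P : Set ℂ} {F : FlatFolding P} {m : ℝ}

namespace FlatFolding

lemma acc_order {p q : F.ι × Bool} (hpq : p ≠ q)
    (h : (F.accIso m p '' interior (F.accK m p) ∩
      F.accIso m q '' interior (F.accK m q)).Nonempty) :
    F.accBelow p q ↔ ¬ F.accBelow q p := by
  obtain ⟨i, b⟩ := p
  obtain ⟨j, c⟩ := q
  cases b <;> cases c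
  · have hij : i ≠ j := by rintro rfl; exact hpq rfl
    exact F.below_iff hij (overlap_of_acc h)
  · simp [accBelow]
  · simp [accBelow]
  · have hij : j ≠ i := by rintro rfl; exact hpq rfl
    exact F.below_iff hij (F.overlap_symm (overlap_of_acc h))

lemma acc_trans {p q r : F.ι × Bool} (hpq : p ≠ q) (hqr : q ≠ r) (hpr : p ≠ r)
    (h : (F.accIso m p '' interior (F.accK m p) ∩ F.accIso m q '' interior (F.accK m q) ∩
      F.accIso m r '' interior (F.accK m r)).Nonempty) (h1 : F.accBelow p q)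
    (h2 : F.accBelow q r) : F.accBelow p r := by
  obtain ⟨w, ⟨hp, hq⟩, hr⟩ := h
  obtain ⟨i, b⟩ := p
  obtain ⟨j, c⟩ := q
  obtain ⟨k, d⟩ := r
  have hp' := (mem_J_of_acc hp).1
  have hq' := (mem_J_of_acc hq).1
  have hr' := (mem_J_of_acc hr).1
  cases b <;> cases c <;> cases d <;> simp only [accBelow] at h1 h2 ⊢
  · exact F.trans i j k (by rintro rfl; exact hpq rfl) (by rintro rfl; exact hqr rfl)
      (by rintro rfl; exact hpr rfl) ⟨w, ⟨hp', hq'⟩, hr'⟩ h1 h2
  · exact F.trans k j i (by rintro rfl; exact hqr rfl) (by rintro rfl; exact hpq rfl)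
      (by rintro rfl; exact hpr rfl) ⟨_, ⟨hr', hq'⟩, hp'⟩ h2 h1

lemma acc_hinge_facet {p q r : F.ι × Bool} (hpq : p ≠ q) (hrp : r ≠ p) (hrq : r ≠ q)
    (hinf : (F.accK m p ∩ F.accK m q).Infinite)
    (h : (F.accIso m p '' (F.accK m p ∩ F.accK m q) ∩
      F.accIso m r '' interior (F.accK m r)).Nonempty) :
    F.accBelow p r ↔ F.accBelow q r := by
  obtain ⟨w, hw, hr⟩ := h
  obtain ⟨i, b⟩ := p
  obtain ⟨j, c⟩ := q
  obtain ⟨k, d⟩ := r
  have hw' := mem_hinge_of_acc hw
  have hr' := mem_J_of_acc hr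
  by_cases hbc : b = c
  · subst hbc
    by_cases hbd : b = d
    · subst hbd
      have hij : i ≠ j := by rintro rfl; exact hpq rfl
      have hki : k ≠ i := by rintro rfl; exact hrp rfl
      have hkj : k ≠ j := by rintro rfl; exact hrq rfl
      have hK := infinite_K_of_acc hinf
      cases b
      · exact F.hinge_facet i j k hij hki hkj hK ⟨w, hw'.1, hr'.1⟩
      · exact F.hinge_facet_rev hij hki hkj hK hw'.1 hr'.1
    · cases b <;> cases d
      · exact absurd rfl hbd
      · exact Iff.rfl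
      · exact Iff.rfl
      · exact absurd rfl hbd
  · have h1 := hw'.2 hbc
    have h2 := hr'.2
    linarith

/-- Data carried by two overlapping new joints. -/
lemma acc_joints {p q r s : F.ι × Bool}
    (h : (F.accIso m p '' (F.accK m p ∩ F.accK m q) ∩
      F.accIso m r '' (F.accK m r ∩ F.accK m s)).Infinite) :
    (p.2 = r.2 → ∃ S : Set ℂ, S.Infinite ∧ S ⊆ F.hinge p.1 q.1 ∧ S ⊆ F.hinge r.1 s.1) ∧
    ((p.2 ≠ q.2 ∨ r.2 ≠ s.2) → ∃ S : Set ℂ, S.Infinite ∧ S ⊆ F.hinge p.1 q.1 ∧
      S ⊆ F.hinge r.1 s.1 ∧ ∀ z ∈ S, z.re = m) := by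
  constructor
  · intro hpr
    refine ⟨_, h.image (sg_injective m p.2).injOn, ?_, ?_⟩
    · rintro _ ⟨w, hw, rfl⟩
      exact (mem_hinge_of_acc hw.1).1
    · rintro _ ⟨w, hw, rfl⟩
      rw [hpr]
      exact (mem_hinge_of_acc hw.2).1
  · intro hor
    have hre : ∀ w ∈ (F.accIso m p '' (F.accK m p ∩ F.accK m q) ∩
        F.accIso m r '' (F.accK m r ∩ F.accK m s)), w.re = m := by
      intro w hw
      rcases hor with h1 | h1
      · exact (mem_hinge_of_acc hw.1).2 h1
      · exact (mem_hinge_of_acc hw.2).2 h1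
    refine ⟨_, h, ?_, ?_, hre⟩
    · intro w hw
      have := (mem_hinge_of_acc hw.1).1
      rwa [sg_of_re _ (hre w hw)] at this
    · intro w hw
      have := (mem_hinge_of_acc hw.2).1
      rwa [sg_of_re _ (hre w hw)] at this

/-- A new joint across the fold line is folded. -/
lemma acc_iso_ne {p q : F.ι × Bool} (hp : F.OnSide m p.2 p.1) (hq : F.OnSide m q.2 q.1)
    (hne : p.2 ≠ q.2) (hinf : (F.accK m p ∩ F.accK m q).Infinite) :
    F.accIso m p ≠ F.accIso m q := by
  intro heq
  -- the old isometries agree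
  have hS : (F.accIso m p '' (F.accK m p ∩ F.accK m q)).Infinite :=
    hinf.image (F.accIso m p).injective.injOn
  have hre : ∀ w ∈ F.accIso m p '' (F.accK m p ∩ F.accK m q), w.re = m :=
    fun w hw => (mem_hinge_of_acc hw).2 hne
  have hsub : F.accIso m p '' (F.accK m p ∩ F.accK m q) ⊆ F.hinge p.1 q.1 := by
    intro w hw
    have := (mem_hinge_of_acc hw).1
    rwa [sg_of_re _ (hre w hw)] at this
  have hq' : q.2 = !p.2 := by
    cases h1 : p.2 <;> cases h2 : q.2 <;> simp_all
  have hiso : F.iso p.1 = F.iso q.1 := by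
    by_cases hpq : p.1 = q.1
    · rw [hpq]
    · exact iso_eq_of_sides hpq hS.nontrivial hsub hre hp (by rw [← hq']; exact hq)
  obtain ⟨x, ⟨z, hz, rfl⟩, hx⟩ := hp
  have h1 := accIso_apply (F := F) (m := m) p z
  have h2 := accIso_apply (F := F) (m := m) q z
  rw [← heq, h1, hq', ← hiso] at h2
  have h3 : (F.iso p.1 z).re = m := by
    cases hb : p.2
    · rw [hb] at h2
      have h4 : F.iso p.1 z = reflv m (F.iso p.1 z) := h2
      have h5 := congrArg Complex.re h4
      rw [reflv_re] at h5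
      linarith
    · rw [hb] at h2
      have h4 : reflv m (F.iso p.1 z) = F.iso p.1 z := h2
      have h5 := congrArg Complex.re h4
      rw [reflv_re] at h5
      linarith
  cases hb : p.2
  · rw [hb] at hx
    have hx' : (F.iso p.1 z).re < m := hx
    linarith
  · rw [hb] at hx
    have hx' : m < (F.iso p.1 z).re := hx
    linarith

lemma acc_fold_fold {p q r s : F.ι × Bool} (hp : F.OnSide m p.2 p.1) (hq : F.OnSide m q.2 q.1)
    (hr : F.OnSide m r.2 r.1) (hs : F.OnSide m s.2 s.1) (hpq : p ≠ q) (hpr : p ≠ r) (hps : p ≠ s)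
    (hqr : q ≠ r) (hqs : q ≠ s) (hrs : r ≠ s) (hinf : (F.accK m p ∩ F.accK m q).Infinite)
    (hinf' : (F.accK m r ∩ F.accK m s).Infinite)
    (hJ : (F.accIso m p '' (F.accK m p ∩ F.accK m q) ∩
      F.accIso m r '' (F.accK m r ∩ F.accK m s)).Infinite)
    (hov : (F.accIso m p '' interior (F.accK m p) ∩
      F.accIso m r '' interior (F.accK m r)).Nonempty)
    (hiso : F.accIso m p ≠ F.accIso m q) (hiso' : F.accIso m r ≠ F.accIso m s) :
    ¬ (F.accBelow p r ∧ F.accBelow r q ∧ F.accBelow q s) := by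
  obtain ⟨h1, h2⟩ := acc_joints hJ
  obtain ⟨i, b⟩ := p
  obtain ⟨j, c⟩ := q
  obtain ⟨k, d⟩ := r
  obtain ⟨l, e⟩ := s
  have neq : ∀ {x y : F.ι} {t : Bool}, ((x, t) : F.ι × Bool) ≠ (y, t) → x ≠ y := by
    intro x y t h hxy; exact h (by rw [hxy])
  rintro ⟨h3, h4, h5⟩
  cases b <;> cases c <;> cases d <;> cases e <;> simp only [accBelow] at h3 h4 h5
  · -- all left
    obtain ⟨S, hS, hS1, hS2⟩ := h1 rfl
    exact F.fold_fold i j k l (neq hpq) (neq hpr) (neq hps) (neq hqr) (neq hqs) (neq hrs)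
      (infinite_K_of_acc hinf) (infinite_K_of_acc hinf') (F.infinite_hinge_inter hS hS1 hS2)
      (overlap_of_acc hov) (fun h => hiso (acc_iso_eq_iff.2 h))
      (fun h => hiso' (acc_iso_eq_iff.2 h)) ⟨h3, h4, h5⟩
  · -- fold `(i, j)` on the left, sheet `(k, l)`
    obtain ⟨S, hS, hS1, hS2, hm⟩ := h2 (Or.inr (by simp))
    obtain ⟨g1, g2, g3⟩ := fold_sheet (s := false) (k := i) (l := j) (i := k) (j := l) hS hS1 hS2
      hm (neq hpq) (fun h => hiso (acc_iso_eq_iff.2 h)) hp hq hr hs (neq hpr).symm (neq hqr).symm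
    exact (F.below_iff (neq hqr) g3).1 (g1.1 h3) h4
  · -- two sheets
    obtain ⟨S, hS, hS1, hS2, hm⟩ := h2 (Or.inr (by simp))
    obtain ⟨g1, g2, g3⟩ := sheet_sheet (s := false) hS hS1 hS2 hm hp hq hr hs (neq hpr) (neq hqs)
    exact (F.below_iff (neq hqs) g3).1 (g1.1 h3) h5
  · -- fold `(k, l)` on the right, sheet `(j, i)`
    obtain ⟨S, hS, hS1, hS2, hm⟩ := h2 (Or.inl (by simp))
    obtain ⟨g1, g2, g3⟩ := fold_sheet (s := true) (k := k) (l := l) (i := j) (j := i) hS hS2
      (by rw [hinge_comm]; exact hS1) hm (neq hrs) (fun h => hiso' (acc_iso_eq_iff.2 h)) hr hs hq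
      hp (neq hqr) (neq hqs)
    exact (F.below_iff (neq hqs).symm g3).1 h5 |> fun h => by
      have h6 := g1.2 h5
      exact (F.below_iff (neq hqr).symm g2).1 h6 h4
  · -- all right
    obtain ⟨S, hS, hS1, hS2⟩ := h1 rfl
    have i1 : F.iso i ≠ F.iso j := fun h => hiso (acc_iso_eq_iff.2 h)
    have i2 : F.iso k ≠ F.iso l := fun h => hiso' (acc_iso_eq_iff.2 h)
    have ojl := F.overlap_jl_of_fold_fold (neq hpq) (neq hrs) hS hS1 hS2 (overlap_of_acc hov)
      i1 i2
    have hS1' : S ⊆ F.hinge j i := by rw [hinge_comm]; exact hS1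
    have hS2' : S ⊆ F.hinge l k := by rw [hinge_comm]; exact hS2
    exact F.fold_fold l k j i (neq hrs).symm (neq hqs).symm (neq hps).symm (neq hqr).symm
      (neq hpr).symm (neq hpq).symm (F.infinite_K_of_hinge hS hS2')
      (F.infinite_K_of_hinge hS hS1') (F.infinite_hinge_inter hS hS2' hS1')
      (F.overlap_symm ojl) i2.symm i1.symm ⟨h5, h4, h3⟩

/-- The two pieces at a flat new joint have the same orientation. -/
lemma acc_flat {p q : F.ι × Bool} (hp : F.OnSide m p.2 p.1) (hq : F.OnSide m q.2 q.1)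
    (hinf : (F.accK m p ∩ F.accK m q).Infinite) (h : F.accIso m p = F.accIso m q) :
    p.2 = q.2 := by
  by_contra hne
  exact acc_iso_ne hp hq hne hinf h

lemma acc_fold_flat {p q r s : F.ι × Bool} (hp : F.OnSide m p.2 p.1) (hq : F.OnSide m q.2 q.1)
    (hr : F.OnSide m r.2 r.1) (hs : F.OnSide m s.2 s.1) (hpq : p ≠ q) (hpr : p ≠ r) (hps : p ≠ s)
    (hqr : q ≠ r) (hqs : q ≠ s) (hrs : r ≠ s) (hinf : (F.accK m p ∩ F.accK m q).Infinite)
    (hinf' : (F.accK m r ∩ F.accK m s).Infinite)
    (hJ : (F.accIso m p '' (F.accK m p ∩ F.accK m q) ∩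
      F.accIso m r '' (F.accK m r ∩ F.accK m s)).Infinite)
    (hov : (F.accIso m p '' interior (F.accK m p) ∩
      F.accIso m r '' interior (F.accK m r)).Nonempty)
    (hiso : F.accIso m p ≠ F.accIso m q) (hiso' : F.accIso m r = F.accIso m s) :
    F.accBelow p r ↔ F.accBelow q r := by
  have hrs2 := acc_flat hr hs hinf' hiso'
  obtain ⟨h1, h2⟩ := acc_joints hJ
  obtain ⟨i, b⟩ := p
  obtain ⟨j, c⟩ := q
  obtain ⟨k, d⟩ := r
  obtain ⟨l, e⟩ := s
  have hde : d = e := hrs2
  subst hde
  have neq : ∀ {x y : F.ι} {t : Bool}, ((x, t) : F.ι × Bool) ≠ (y, t) → x ≠ y := by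
    intro x y t h hxy; exact h (by rw [hxy])
  have e2 : F.iso k = F.iso l := acc_iso_eq_iff.1 hiso'
  by_cases hbc : b = c
  · subst hbc
    have e1 : F.iso i ≠ F.iso j := fun h => hiso (acc_iso_eq_iff.2 h)
    by_cases hbd : b = d
    · subst hbd
      obtain ⟨S, hS, hS1, hS2⟩ := h1 rfl
      have oik := overlap_of_acc hov
      have base := F.fold_flat i j k l (neq hpq) (neq hpr) (neq hps) (neq hqr) (neq hqs)
        (neq hrs) (infinite_K_of_acc hinf) (infinite_K_of_acc hinf')
        (F.infinite_hinge_inter hS hS1 hS2) oik e1 e2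
      cases b
      · exact base
      · have ojk := F.overlap_jk_of_fold (neq hpq) hS hS1 hS2 oik e1
        have b1 := F.below_iff (neq hpr) oik
        have b2 := F.below_iff (neq hqr) ojk
        show F.below k i ↔ F.below k j
        tauto
    · cases b <;> cases d
      · exact absurd rfl hbd
      · exact Iff.rfl
      · exact Iff.rfl
      · exact absurd rfl hbd
  · exfalso
    obtain ⟨S, hS, hS1, hS2, hm⟩ := h2 (Or.inl hbc)
    exact not_onSide_of_flat (neq hrs) hS.nontrivial hS2 hm e2 hr hs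

lemma acc_flat_flat {p q r s : F.ι × Bool} (hp : F.OnSide m p.2 p.1) (hq : F.OnSide m q.2 q.1)
    (hr : F.OnSide m r.2 r.1) (hs : F.OnSide m s.2 s.1) (hpq : p ≠ q) (hpr : p ≠ r) (hps : p ≠ s)
    (hqr : q ≠ r) (hqs : q ≠ s) (hrs : r ≠ s) (hinf : (F.accK m p ∩ F.accK m q).Infinite)
    (hinf' : (F.accK m r ∩ F.accK m s).Infinite)
    (hJ : (F.accIso m p '' (F.accK m p ∩ F.accK m q) ∩
      F.accIso m r '' (F.accK m r ∩ F.accK m s)).Infinite)
    (hov : (F.accIso m p '' interior (F.accK m p) ∩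
      F.accIso m r '' interior (F.accK m r)).Nonempty)
    (hiso : F.accIso m p = F.accIso m q) (hiso' : F.accIso m r = F.accIso m s) :
    F.accBelow p r ↔ F.accBelow q s := by
  have hpq2 := acc_flat hp hq hinf hiso
  have hrs2 := acc_flat hr hs hinf' hiso'
  obtain ⟨h1, h2⟩ := acc_joints hJ
  obtain ⟨i, b⟩ := p
  obtain ⟨j, c⟩ := q
  obtain ⟨k, d⟩ := r
  obtain ⟨l, e⟩ := s
  have hbc : b = c := hpq2
  have hde : d = e := hrs2
  subst hbc hde
  have neq : ∀ {x y : F.ι} {t : Bool}, ((x, t) : F.ι × Bool) ≠ (y, t) → x ≠ y := by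
    intro x y t h hxy; exact h (by rw [hxy])
  have e1 : F.iso i = F.iso j := acc_iso_eq_iff.1 hiso
  have e2 : F.iso k = F.iso l := acc_iso_eq_iff.1 hiso'
  by_cases hbd : b = d
  · subst hbd
    obtain ⟨S, hS, hS1, hS2⟩ := h1 rfl
    have oik := overlap_of_acc hov
    have base := F.flat_flat i j k l (neq hpq) (neq hpr) (neq hps) (neq hqr) (neq hqs)
      (neq hrs) (infinite_K_of_acc hinf) (infinite_K_of_acc hinf')
      (F.infinite_hinge_inter hS hS1 hS2) oik e1 e2
    cases b
    · exact base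
    · have ojl := F.overlap_jl_of_flat_flat (neq hpq) (neq hrs) hS hS1 hS2 oik e1 e2
      have b1 := F.below_iff (neq hpr) oik
      have b2 := F.below_iff (neq hqs) ojl
      show F.below k i ↔ F.below l j
      tauto
  · cases b <;> cases d
    · exact absurd rfl hbd
    · exact Iff.rfl
    · exact Iff.rfl
    · exact absurd rfl hbd

end FlatFolding

end Pool.Agent.Lib.FoldCut
end

section
/-!
# Simple folds through all layers, and the accordion fold

`foldAllLayers`: a flat folding can be folded once more, through all layers, along a vertical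
line.  `accordion`: by finitely many such folds a given finite set of points is brought to a
common vertical line.
-/
namespace Pool.Agent.Lib.FoldCut

variable {P : Set ℂ}

/-- The folding map after the fold through all layers at `re = m`. -/
noncomputable def accF (f : ℂ → ℂ) (m : ℝ) (z : ℂ) : ℂ :=
  ⟨min (f z).re (2 * m - (f z).re), (f z).im⟩

lemma accF_eq (f : ℂ → ℂ) (m : ℝ) :
    accF f m = fun z => ((min (f z).re (2 * m - (f z).re) : ℝ) : ℂ) +
      (((f z).im : ℝ) : ℂ) * Complex.I := by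
  funext z
  apply Complex.ext <;> simp [accF]

lemma continuousOn_accF {f : ℂ → ℂ} (m : ℝ) {s : Set ℂ} (hf : ContinuousOn f s) :
    ContinuousOn (accF f m) s := by
  rw [accF_eq]
  have hre : ContinuousOn (fun z => (f z).re) s := Complex.continuous_re.comp_continuousOn hf
  have him : ContinuousOn (fun z => (f z).im) s := Complex.continuous_im.comp_continuousOn hf
  have h1 : ContinuousOn (fun z => min (f z).re (2 * m - (f z).re)) s :=
    ContinuousOn.inf hre (continuousOn_const.sub hre)
  exact (Complex.continuous_ofReal.comp_continuousOn h1).add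
    ((Complex.continuous_ofReal.comp_continuousOn him).mul continuousOn_const)

namespace FlatFolding

/-- Every point of a facet is in one of the non-degenerate parts. -/
lemma exists_onSide (F : FlatFolding P) (m : ℝ) (i : F.ι) {z : ℂ} (hz : z ∈ F.K i) :
    ∃ s, F.OnSide m s i ∧ z ∈ halfPl (F.iso i) m s := by
  have hcl : F.iso i z ∈ closure (F.J i) := by
    rw [F.closure_J]
    exact ⟨z, hz, rfl⟩
  rcases lt_trichotomy (F.iso i z).re m with h | h | h
  · have hopen : IsOpen {w : ℂ | w.re < m} := isOpen_lt Complex.continuous_re continuous_const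
    obtain ⟨x, hx, hxJ⟩ := mem_closure_iff.1 hcl _ hopen h
    exact ⟨false, ⟨x, hxJ, hx⟩, le_of_lt h⟩
  · obtain ⟨x, hx⟩ := F.nonempty_J i
    obtain ⟨ε, hε, hball⟩ := Metric.isOpen_iff.1 (F.isOpen_J i) x hx
    have hy : x + ((ε / 2 : ℝ) : ℂ) ∈ F.J i := by
      apply hball
      rw [Metric.mem_ball, dist_eq_norm, add_sub_cancel_left, Complex.norm_real,
        Real.norm_of_nonneg (by positivity)]
      linarith
    rcases lt_or_ge x.re m with h' | h'
    · exact ⟨false, ⟨x, hx, h'⟩, le_of_eq h⟩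
    · refine ⟨true, ⟨_, hy, ?_⟩, ge_of_eq h⟩
      show m < (x + ((ε / 2 : ℝ) : ℂ)).re
      rw [Complex.add_re, Complex.ofReal_re]
      linarith
  · have hopen : IsOpen {w : ℂ | m < w.re} := isOpen_lt continuous_const Complex.continuous_re
    obtain ⟨x, hx, hxJ⟩ := mem_closure_iff.1 hcl _ hopen h
    exact ⟨true, ⟨x, hxJ, hx⟩, le_of_lt h⟩

lemma acc_interiors (F : FlatFolding P) (m : ℝ) {p q : F.ι × Bool} (hpq : p ≠ q) :
    Disjoint (interior (F.accK m p)) (interior (F.accK m q)) := by
  rw [interior_accK, interior_accK]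
  obtain ⟨i, b⟩ := p
  obtain ⟨j, c⟩ := q
  by_cases hij : i = j
  · subst hij
    rw [Set.disjoint_left]
    rintro z ⟨-, h1⟩ ⟨-, h2⟩
    cases b <;> cases c
    · exact hpq rfl
    · have h1' : (F.iso i z).re < m := h1
      have h2' : m < (F.iso i z).re := h2
      linarith
    · have h1' : m < (F.iso i z).re := h1
      have h2' : (F.iso i z).re < m := h2
      linarith
    · exact hpq rfl
  · exact (F.interiors i j hij).mono Set.inter_subset_left Set.inter_subset_left

/-- The folding obtained from `F` by one more fold, through all layers, at the line `re = m`: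
everything to the right of the line is reflected to the left and put on top. -/
noncomputable def acc (F : FlatFolding P) (m : ℝ) : FlatFolding P where
  ι := {p : F.ι × Bool // F.OnSide m p.2 p.1}
  finite := by
    have := F.finite
    infer_instance
  K p := F.accK m p.1
  f := accF F.f m
  iso p := F.accIso m p.1
  below p q := F.accBelow p.1 q.1
  polygon p := accK_polygon p.2
  cover := by
    apply Set.Subset.antisymm
    · refine Set.iUnion_subset fun p z hz => ?_
      rw [← F.cover]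
      exact Set.mem_iUnion.2 ⟨p.1.1, hz.1⟩
    · intro z hz
      rw [← F.cover] at hz
      obtain ⟨i, hi⟩ := Set.mem_iUnion.1 hz
      obtain ⟨s, hs, hz'⟩ := F.exists_onSide m i hi
      exact Set.mem_iUnion.2 ⟨⟨(i, s), hs⟩, hi, hz'⟩
  interiors p q hpq := F.acc_interiors m fun h => hpq (Subtype.ext h)
  continuousOn := continuousOn_accF m F.continuousOn
  map_eq := by
    rintro ⟨⟨i, b⟩, hp⟩ z ⟨hz1, hz2⟩
    have hz1' : z ∈ F.K i := hz1
    cases b
    · have h : (F.iso i z).re ≤ m := hz2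
      show accF F.f m z = F.iso i z
      apply Complex.ext
      · show min (F.f z).re (2 * m - (F.f z).re) = _
        rw [F.map_eq i z hz1', min_eq_left (by linarith)]
      · show (F.f z).im = _
        rw [F.map_eq i z hz1']
    · have h : m ≤ (F.iso i z).re := hz2
      show accF F.f m z = reflv m (F.iso i z)
      apply Complex.ext
      · show min (F.f z).re (2 * m - (F.f z).re) = _
        rw [F.map_eq i z hz1', min_eq_right (by linarith), reflv_re]
      · show (F.f z).im = _
        rw [F.map_eq i z hz1', reflv_im]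
  order p q hpq h := acc_order (fun e => hpq (Subtype.ext e)) h
  trans p q r hpq hqr hpr h := acc_trans (fun e => hpq (Subtype.ext e))
    (fun e => hqr (Subtype.ext e)) (fun e => hpr (Subtype.ext e)) h
  hinge_facet p q r hpq hrp hrq h h' := acc_hinge_facet (fun e => hpq (Subtype.ext e))
    (fun e => hrp (Subtype.ext e)) (fun e => hrq (Subtype.ext e)) h h'
  fold_fold p q r s hpq hpr hps hqr hqs hrs h h' hJ hov hiso hiso' :=
    acc_fold_fold p.2 q.2 r.2 s.2 (fun e => hpq (Subtype.ext e)) (fun e => hpr (Subtype.ext e))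
      (fun e => hps (Subtype.ext e)) (fun e => hqr (Subtype.ext e)) (fun e => hqs (Subtype.ext e))
      (fun e => hrs (Subtype.ext e)) h h' hJ hov hiso hiso'
  fold_flat p q r s hpq hpr hps hqr hqs hrs h h' hJ hov hiso hiso' :=
    acc_fold_flat p.2 q.2 r.2 s.2 (fun e => hpq (Subtype.ext e)) (fun e => hpr (Subtype.ext e))
      (fun e => hps (Subtype.ext e)) (fun e => hqr (Subtype.ext e)) (fun e => hqs (Subtype.ext e))
      (fun e => hrs (Subtype.ext e)) h h' hJ hov hiso hiso'
  flat_flat p q r s hpq hpr hps hqr hqs hrs h h' hJ hov hiso hiso' :=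
    acc_flat_flat p.2 q.2 r.2 s.2 (fun e => hpq (Subtype.ext e)) (fun e => hpr (Subtype.ext e))
      (fun e => hps (Subtype.ext e)) (fun e => hqr (Subtype.ext e)) (fun e => hqs (Subtype.ext e))
      (fun e => hrs (Subtype.ext e)) h h' hJ hov hiso hiso'

end FlatFolding

/-- A flat folding can be folded once more through all layers at the line `re = m`. -/
theorem foldAllLayers {P : Set ℂ} (F : FlatFolding P) (m : ℝ) :
    ∃ F1 : FlatFolding P, ∀ z ∈ P, (F1.f z).im = (F.f z).im ∧
      (F1.f z).re = min (F.f z).re (2 * m - (F.f z).re) :=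
  ⟨F.acc m, fun _ _ => ⟨rfl, rfl⟩⟩

/-- By finitely many folds through all layers at vertical lines a finite set of points of the
paper is brought to one vertical line; the heights do not change. -/
theorem accordion {P : Set ℂ} (F : FlatFolding P) (S : Set ℂ) (hS : S.Finite) (hSP : S ⊆ P) :
    ∃ F1 : FlatFolding P, (∀ z ∈ P, (F1.f z).im = (F.f z).im) ∧
      ∃ x : ℝ, ∀ z ∈ S, (F1.f z).re = x := by
  suffices h : ∀ n : ℕ, ∀ F : FlatFolding P, ((fun z => (F.f z).re) '' S).ncard = n →
      ∃ F1 : FlatFolding P, (∀ z ∈ P, (F1.f z).im = (F.f z).im) ∧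
      ∃ x : ℝ, ∀ z ∈ S, (F1.f z).re = x from h _ F rfl
  intro n
  induction n using Nat.strong_induction_on with
  | _ n ih =>
    intro F hn
    set T := (fun z => (F.f z).re) '' S with hT
    have hTf : T.Finite := hS.image _
    by_cases hsub : T.Subsingleton
    · rcases T.eq_empty_or_nonempty with he | ⟨x, hx⟩
      · refine ⟨F, fun _ _ => rfl, 0, fun z hz => ?_⟩
        have h1 : (F.f z).re ∈ T := ⟨z, hz, rfl⟩
        rw [he] at h1
        exact h1.elim
      · exact ⟨F, fun _ _ => rfl, x, fun z hz => hsub ⟨z, hz, rfl⟩ hx⟩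
    · rw [Set.not_subsingleton_iff] at hsub
      obtain ⟨M, hM, hMmax⟩ := Set.exists_max_image T id hTf hsub.nonempty
      have hne : (T \ {M}).Nonempty := by
        obtain ⟨y, hy, hyM⟩ := hsub.exists_ne M
        exact ⟨y, hy, hyM⟩
      obtain ⟨M', hM', hM'max⟩ := Set.exists_max_image (T \ {M}) id hTf.sdiff hne
      have hlt' : M' ≤ M := hMmax M' hM'.1
      obtain ⟨F1, hF1⟩ := foldAllLayers F ((M + M') / 2)
      have hlt : ((fun z => (F1.f z).re) '' S).ncard < n := by
        rw [← hn]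
        refine lt_of_le_of_lt (Set.ncard_le_ncard (t := T \ {M}) ?_ hTf.sdiff) ?_
        · rintro _ ⟨z, hz, rfl⟩
          show (F1.f z).re ∈ T \ {M}
          rw [(hF1 z (hSP hz)).2]
          have h1 : (F.f z).re ∈ T := ⟨z, hz, rfl⟩
          by_cases h2 : (F.f z).re = M
          · rw [h2, min_eq_right (by linarith)]
            have h3 : 2 * ((M + M') / 2) - M = M' := by ring
            rw [h3]
            exact hM'
          · have h3 : (F.f z).re ≤ M' := hM'max _ ⟨h1, h2⟩
            rw [min_eq_left (by linarith)]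
            exact ⟨h1, h2⟩
        · exact Set.ncard_lt_ncard (Set.sdiff_singleton_ssubset.2 hM) hTf
      obtain ⟨F2, h2, x, hx⟩ := ih _ hlt F1 rfl
      exact ⟨F2, fun z hz => (h2 z hz).trans (hF1 z hz).1, x, hx⟩

end Pool.Agent.Lib.FoldCut
end
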