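import Pool.Agent.Lib.MP_12ced6_co.Glue
import Pool.Agent.Lib.MP_12ced6_co.Defs

section
/-!
# Every simple polygon is good, up to orientation
-/
namespace Pool.Agent.Lib.FoldCut

open Complex Real Topology

/-- leaving a corner region -/
theorem lemK {u v w p q z : ℂ} {κ : ℝ} (hκ : κ ≤ ori u v w)
    (hp : ¬ (0 ≤ ori v w p ∧ 0 ≤ ori u v p ∧ ori v w p + ori u v p < κ))
    (hq : ¬ (0 ≤ ori v w q ∧ 0 ≤ ori u v q ∧ ori v w q + ori u v q < κ))
    (hvw : ∀ r ∈ segment ℝ p q, ori v w r = 0 → 0 ≤ ori u v r → ori u v r < ori u v w → False)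
    (huv : ∀ r ∈ segment ℝ p q, ori u v r = 0 → 0 ≤ ori v w r → ori v w r < ori u v w → False)
    (hz : z ∈ segment ℝ p q) (ha : 0 < ori v w z) (hb : 0 < ori u v z) :
    κ ≤ ori v w z + ori u v z := by
  by_contra hlt
  push Not at hlt
  have aux : ∀ e, segment ℝ z e ⊆ segment ℝ p q →
      ¬ (0 ≤ ori v w e ∧ 0 ≤ ori u v e ∧ ori v w e + ori u v e < κ) →
      κ ≤ ori v w e + ori u v e := by
    intro e hsub he
    by_contra hlt2
    push Not at hlt2
    set A := ori v w z with hA
    set B := ori u v z with hB
    set A' := ori v w e with hA'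
    set B' := ori u v e with hB'
    have pt : ∀ s : ℝ, 0 ≤ s → s ≤ 1 → ((1 - s) • z + s • e ∈ segment ℝ p q) ∧
        ori v w ((1 - s) • z + s • e) = (1 - s) * A + s * A' ∧
        ori u v ((1 - s) • z + s • e) = (1 - s) * B + s * B' := by
      intro s h0 h1
      refine ⟨hsub ⟨1 - s, s, by linarith, h0, by ring, rfl⟩, ?_, ?_⟩
      · rw [ori_lin _ _ _ _ _ _ (by ring)]
      · rw [ori_lin _ _ _ _ _ _ (by ring)]
    have sum_lt : ∀ s : ℝ, 0 ≤ s → s ≤ 1 → ((1 - s) * A + s * A') + ((1 - s) * B + s * B') < κ := by
      intro s h0 h1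
      rcases h0.eq_or_lt with h | h
      · rw [← h]; linarith
      · have e1 := mul_pos h (sub_pos.mpr hlt2)
        have e2 := mul_nonneg (sub_nonneg.mpr h1) (sub_pos.mpr hlt).le
        nlinarith
    -- the exit through the line `u v`
    have exitB : B' < 0 → A' * B ≥ A * B' → False := by
      intro hB'0 hAB
      have hden : 0 < B - B' := by linarith
      obtain ⟨h1, h2, h3⟩ := pt (B / (B - B')) (by positivity) (by
        rw [div_le_one hden]; linarith)
      have hs := sum_lt (B / (B - B')) (by positivity) (by rw [div_le_one hden]; linarith)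
      have e3 : (1 - B / (B - B')) * B + B / (B - B') * B' = 0 := by field_simp; ring
      have e2 : (1 - B / (B - B')) * A + B / (B - B') * A' = (A' * B - A * B') / (B - B') := by
        field_simp; ring
      rw [e3] at h3 hs
      have h4 : 0 ≤ (A' * B - A * B') / (B - B') := div_nonneg (by linarith) hden.le
      refine huv _ h1 h3 (by rw [h2, e2]; exact h4) ?_
      rw [h2]; linarith
    by_cases hA'0 : A' < 0
    · have hden : 0 < A - A' := by linarith
      obtain ⟨h1, h2, h3⟩ := pt (A / (A - A')) (by positivity) (by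
        rw [div_le_one hden]; linarith)
      have hs := sum_lt (A / (A - A')) (by positivity) (by rw [div_le_one hden]; linarith)
      have e2 : (1 - A / (A - A')) * A + A / (A - A') * A' = 0 := by field_simp; ring
      have e3 : (1 - A / (A - A')) * B + A / (A - A') * B' = (A * B' - A' * B) / (A - A') := by
        field_simp; ring
      rw [e2] at h2 hs
      by_cases hc : 0 ≤ A * B' - A' * B
      · have h4 : 0 ≤ (A * B' - A' * B) / (A - A') := div_nonneg hc hden.le
        refine hvw _ h1 h2 (by rw [h3, e3]; exact h4) ?_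
        rw [h3]; linarith
      · push Not at hc
        apply exitB
        · by_contra hn
          push Not at hn
          nlinarith [mul_nonneg ha.le hn, mul_neg_of_neg_of_pos hA'0 hb]
        · linarith
    · push Not at hA'0
      have hB'0 : B' < 0 := by
        by_contra hn
        push Not at hn
        exact he ⟨hA'0, hn, hlt2⟩
      apply exitB hB'0
      nlinarith [mul_nonneg hA'0 hb.le, mul_neg_of_pos_of_neg ha hB'0]
  have h1 := aux p ((convex_segment p q).segment_subset hz (left_mem_segment _ _ _)) hp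
  have h2 := aux q ((convex_segment p q).segment_subset hz (right_mem_segment _ _ _)) hq
  obtain ⟨s, t, hs, ht, hst, rfl⟩ := hz
  rw [ori_lin _ _ _ _ _ _ hst, ori_lin _ _ _ _ _ _ hst] at hlt
  have : s = 1 - t := by linarith
  subst this
  nlinarith

theorem good_tri {a b c : ℂ} (h : 0 < ori a b c) : Good [a, b, c] := by
  have hpi := Real.pi_pos
  refine ⟨?_, ?_, ?_⟩
  · have := TriOK.node a b c [] [] (TriOK.edge a b) (TriOK.edge b c) h
    simpa using this
  · intro p hp
    by_cases hT : p ∈ triC a b c
    · right; exact wsum_tri_in (mem_triO_of_triC h hT hp)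
    · left; exact wsum_tri_out h hT
  · have : {p | p ∉ curve [a, b, c] ∧ wsum p [a, b, c] = 2 * π} = triO a b c := by
      ext p
      constructor
      · rintro ⟨h1, h2⟩
        by_cases hT : p ∈ triC a b c
        · exact mem_triO_of_triC h hT h1
        · rw [wsum_tri_out h hT] at h2; linarith
      · intro hp
        exact ⟨triO_disjoint_curve hp, wsum_tri_in hp⟩
    rw [this]
    exact (triO_convex a b c).isPreconnected

theorem cyc_corner (v w u : ℂ) (M : List ℂ) :
    cyc (v :: w :: (M ++ [u])) = (v, w) :: (chain (w :: (M ++ [u])) ++ [(u, v)]) := by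
  have : v :: (w :: (M ++ [u]) ++ [v]) = (v :: w :: M) ++ u :: [v] := by simp
  rw [cyc, this, chain_append]
  simp

/-- points on edges strictly apart from the diagonal ends are not on the other part -/
theorem not_mem_curve_left {A B C : List ℂ} {x y : ℂ} (hs : Simple (A ++ x :: (B ++ y :: C)))
    (hd : ∀ e ∈ cyc (A ++ x :: (B ++ y :: C)),
      Disjoint (segment ℝ e.1 e.2) (openSegment ℝ x y)) :
    ∀ e ∈ chain (x :: (B ++ [y])), ∀ p ∈ segment ℝ e.1 e.2, p ≠ x → p ≠ y →
      p ∉ curve (A ++ x :: y :: C) := by
  intro e he p hp hpx hpy hpc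
  obtain ⟨P, R, e1, e2, e3⟩ := cyc_split A B C x y
  have heL : e ∈ cyc (A ++ x :: (B ++ y :: C)) := by rw [e1]; simp only [List.mem_append]; tauto
  obtain ⟨e', he', hpe'⟩ := hpc
  have he'V := he'
  rw [e2] at he'
  simp only [List.mem_append, List.mem_cons] at he'
  have hcase : e' = (x, y) ∨ e' ∈ P ++ R := by
    simp only [List.mem_append]; tauto
  rcases hcase with rfl | hPR
  · rcases mem_segment_cases hpe' with h | h | h
    · exact hpx h
    · exact hpy h
    · exact Set.disjoint_left.mp (hd e heL) hp h
  · have he'L : e' ∈ cyc (A ++ x :: (B ++ y :: C)) := by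
      rw [e1]; simp only [List.mem_append] at hPR ⊢; tauto
    have hdisj : Disjoint (openSegment ℝ e.1 e.2) (openSegment ℝ e'.1 e'.2) := by
      have hpw := hs.disj
      rw [e1, List.pairwise_append, List.pairwise_append] at hpw
      rw [List.mem_append] at hPR
      rcases hPR with h | h
      · exact (hpw.1.2.2 e' h e he).symm
      · exact hpw.2.2 e (List.mem_append_right _ he) e' h
    have hL : ∀ e'' ∈ cyc (A ++ x :: (B ++ y :: C)), e''.1 ∈ (A ++ x :: (B ++ y :: C)) ∧
        e''.2 ∈ (A ++ x :: (B ++ y :: C)) := fun e'' h =>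
      ⟨fst_mem_of_mem_cyc h, snd_mem_of_mem_cyc h⟩
    have hvert : ∀ r, (r = e.1 ∨ r = e.2) → r ≠ x → r ≠ y → r ∈ B := by
      intro r hr hrx hry
      have : r ∈ x :: (B ++ [y]) := by
        rcases hr with h | h
        · rw [h]; exact fst_mem_of_mem_chain he
        · rw [h]; exact snd_mem_of_mem_chain he
      simp at this
      tauto
    have hvert' : ∀ r, (r = e'.1 ∨ r = e'.2) → r ∈ A ++ x :: y :: C := by
      intro r hr
      rcases hr with h | h
      · rw [h]; exact fst_mem_of_mem_cyc he'V
      · rw [h]; exact snd_mem_of_mem_cyc he'V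
    have hB : ∀ r, r ∈ B → r ∉ A ++ x :: y :: C := by
      intro r hrB hrV
      have hn := hs.nodup
      rw [List.nodup_append, List.nodup_cons, List.nodup_append, List.nodup_cons] at hn
      obtain ⟨h1, ⟨h2, h3, ⟨h4, h5⟩, h6⟩, h7⟩ := hn
      simp only [List.mem_append, List.mem_cons] at hrV
      rcases hrV with h | h | h | h
      · exact h7 r h r (by simp [hrB]) rfl
      · exact h2 (by rw [← h]; simp [hrB])
      · exact h6 r hrB y (by simp) h
      · exact h6 r hrB r (by simp [h]) rfl
    rcases mem_segment_cases hp with h | h | h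
    · rcases mem_segment_cases hpe' with h' | h' | h'
      · exact hB p (hvert p (Or.inl h) hpx hpy) (hvert' p (Or.inl h'))
      · exact hB p (hvert p (Or.inl h) hpx hpy) (hvert' p (Or.inr h'))
      · exact hs.vert _ (hL e heL).1 e' he'L (h ▸ h')
    · rcases mem_segment_cases hpe' with h' | h' | h'
      · exact hB p (hvert p (Or.inr h) hpx hpy) (hvert' p (Or.inl h'))
      · exact hB p (hvert p (Or.inr h) hpx hpy) (hvert' p (Or.inr h'))
      · exact hs.vert _ (hL e heL).2 e' he'L (h ▸ h')
    · rcases mem_segment_cases hpe' with h' | h' | h'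
      · exact hs.vert _ (hL e' he'L).1 e heL (h' ▸ h)
      · exact hs.vert _ (hL e' he'L).2 e heL (h' ▸ h)
      · exact Set.disjoint_left.mp hdisj h h'

theorem wsum_segment {V : List ℂ} {a b : ℂ} (h : ∀ p ∈ segment ℝ a b, p ∉ curve V)
    {p q : ℂ} (hp : p ∈ segment ℝ a b) (hq : q ∈ segment ℝ a b) : wsum p V = wsum q V :=
  wsum_const (convex_segment a b).isPreconnected (Set.disjoint_left.mpr h) hp hq

theorem wsum_half {V : List ℂ} {a b : ℂ} (h : ∀ p ∈ segment ℝ a b, p ≠ b → p ∉ curve V)
    (hab : a ≠ b) {p : ℂ} (hp : p ∈ segment ℝ a b) (hpb : p ≠ b) : wsum p V = wsum a V := by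
  have hpre : IsPreconnected ((fun t : ℝ => (1 - t) • a + t • b) '' Set.Ico 0 1) :=
    isPreconnected_Ico.image _ (by fun_prop)
  refine wsum_const hpre ?_ ?_ ?_
  · rw [Set.disjoint_left]
    rintro _ ⟨t, ⟨h0, h1⟩, rfl⟩
    apply h
    · exact ⟨1 - t, t, by linarith, h0, by ring, rfl⟩
    · intro he
      have : (1 - t) • (a - b) = 0 := by
        have e : (1 - t) • (a - b) = ((1 - t) • a + t • b) - b := by
          rw [smul_sub, sub_smul 1 t b, one_smul]; abel
        rw [e]
        simp only at he
        rw [he, sub_self]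
      rw [smul_eq_zero, sub_eq_zero (a := a)] at this
      rcases this with h2 | h2
      · linarith
      · exact hab h2
  · obtain ⟨s, t, hs, ht, hst, rfl⟩ := hp
    have : s = 1 - t := by linarith
    subst this
    refine ⟨t, ⟨ht, ?_⟩, rfl⟩
    rcases (show t ≤ 1 by linarith).lt_or_eq with h1 | h1
    · exact h1
    · exfalso; apply hpb; rw [h1]; simp
  · exact ⟨0, by simp, by simp⟩

theorem wsum_chain {V : List ℂ} {y : ℂ} : ∀ (B : List ℂ) (a : ℂ), (a :: (B ++ [y])).Nodup →
    (∀ e ∈ chain (a :: (B ++ [y])), y ∉ openSegment ℝ e.1 e.2) →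
    (∀ e ∈ chain (a :: (B ++ [y])), ∀ p ∈ segment ℝ e.1 e.2, p ≠ y → p ∉ curve V) →
    ∀ e ∈ chain (a :: (B ++ [y])), ∀ p ∈ segment ℝ e.1 e.2, p ≠ y → wsum p V = wsum a V
  | [], a, hn, ho, h, e, he, p, hp, hpy => by
    simp only [List.nil_append, chain_cons_cons, chain_single, List.mem_cons, List.not_mem_nil,
      or_false] at he
    subst he
    have hay : a ≠ y := by
      simp at hn; exact hn
    exact wsum_half (fun p hp hpy => h (a, y) (by simp) p hp hpy) hay hp hpy
  | b :: B, a, hn, ho, h, e, he, p, hp, hpy => by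
    rw [List.cons_append, chain_cons_cons, List.mem_cons] at he
    have hn' : (b :: (B ++ [y])).Nodup := by
      rw [List.cons_append, List.nodup_cons] at hn; exact hn.2
    have hay : a ≠ y := by
      rintro rfl
      rw [List.nodup_cons] at hn
      exact hn.1 (by simp)
    have hby : b ≠ y := by
      rintro rfl
      rw [List.nodup_cons] at hn'
      exact hn'.1 (by simp)
    have hseg : ∀ p ∈ segment ℝ a b, p ∉ curve V := by
      intro p hp
      apply h (a, b) (by simp) p hp
      rintro rfl
      rcases mem_segment_cases hp with h1 | h1 | h1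
      · exact hay h1.symm
      · exact hby h1.symm
      · exact ho (a, b) (by simp) h1
    rcases he with rfl | he
    · exact wsum_segment hseg hp (left_mem_segment _ _ _)
    · rw [wsum_chain B b hn' (fun e he => ho e (by rw [List.cons_append, chain_cons_cons]; exact List.mem_cons_of_mem _ he))
        (fun e he => h e (by rw [List.cons_append, chain_cons_cons]; exact List.mem_cons_of_mem _ he)) e he p hp hpy]
      exact wsum_segment hseg (right_mem_segment _ _ _) (left_mem_segment _ _ _)

/-- the functional that separates an extreme vertex -/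
theorem norm_sep {v x : ℂ} (h : ‖x‖ ≤ ‖v‖) (hne : x ≠ v) :
    0 < ((-(starRingEnd ℂ) v) * (x - v)).re := by
  have h1 : normSq x ≤ normSq v := by
    rw [normSq_eq_norm_sq, normSq_eq_norm_sq]
    exact pow_le_pow_left₀ (norm_nonneg _) h 2
  have h2 : 0 < normSq (x - v) := normSq_pos.mpr (sub_ne_zero.mpr hne)
  simp only [normSq_apply, sub_re, sub_im] at h1 h2
  simp only [mul_re, neg_re, neg_im, conj_re, conj_im, sub_re, sub_im]
  nlinarith

def StepProp (n : ℕ) : Prop := ∀ (v w u : ℂ) (M : List ℂ), M.length ≤ n →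
  Simple (v :: w :: (M ++ [u])) → (∀ x ∈ w :: (M ++ [u]), ‖x‖ ≤ ‖v‖) → 0 < ori u v w →
  Good (v :: w :: (M ++ [u]))

theorem ori_ne_zero {v w u : ℂ} {M : List ℂ} (hs : Simple (v :: w :: (M ++ [u])))
    (hn : ∀ x ∈ w :: (M ++ [u]), ‖x‖ ≤ ‖v‖) : ori u v w ≠ 0 := by
  intro h0
  have hnd := hs.nodup
  have hwv : w ≠ v := by rintro rfl; simp at hnd
  have huv : u ≠ v := by rintro rfl; simp at hnd
  have huw : u ≠ w := by rintro rfl; simp at hnd
  have h1 := norm_sep (hn w (by simp)) hwv
  have h2 := norm_sep (hn u (by simp)) huv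
  set W : ℝ := ((-(starRingEnd ℂ) v) * (w - v)).re with hW
  set U : ℝ := ((-(starRingEnd ℂ) v) * (u - v)).re with hU
  -- u - v = (U / W) (w - v)
  have hpar : (W : ℂ) * (u - v) = (U : ℂ) * (w - v) := by
    have hcr : (w.re - v.re) * (u.im - v.im) - (w.im - v.im) * (u.re - v.re) = 0 := by
      rw [ori_def] at h0; linarith
    have hWe : W = -(v.re * (w.re - v.re) + v.im * (w.im - v.im)) := by
      rw [hW]; simp only [mul_re, neg_re, neg_im, conj_re, conj_im, sub_re, sub_im]; ring
    have hUe : U = -(v.re * (u.re - v.re) + v.im * (u.im - v.im)) := by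
      rw [hU]; simp only [mul_re, neg_re, neg_im, conj_re, conj_im, sub_re, sub_im]; ring
    apply Complex.ext
    · simp only [mul_re, ofReal_re, ofReal_im, sub_re, sub_im]
      rw [hWe, hUe]; linear_combination (v.im) * hcr
    · simp only [mul_im, ofReal_re, ofReal_im, sub_re, sub_im]
      rw [hWe, hUe]; linear_combination (-v.re) * hcr
  have hWc : (W : ℂ) ≠ 0 := by exact_mod_cast h1.ne'
  have hUc : (U : ℂ) ≠ 0 := by exact_mod_cast h2.ne'
  have hcyc := cyc_corner v w u M
  rcases lt_trichotomy U W with hlt | heq | hlt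
  · -- u lies between v and w
    apply hs.vert u (by simp) (v, w) (by rw [hcyc]; simp)
    refine ⟨1 - U / W, U / W, ?_, by positivity, by ring, ?_⟩
    · rw [sub_pos, div_lt_one h1]; exact hlt
    · simp only [real_smul]
      push_cast
      field_simp
      linear_combination -hpar
  · rw [heq] at hpar
    have := mul_left_cancel₀ hWc hpar
    exact huw (by linear_combination this)
  · apply hs.vert w (by simp) (u, v) (by rw [hcyc]; simp)
    refine ⟨W / U, 1 - W / U, by positivity, ?_, by ring, ?_⟩
    · rw [sub_pos, div_lt_one h2]; exact hlt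
    · simp only [real_smul]
      push_cast
      field_simp
      linear_combination hpar

theorem good_isRotated {L L' : List ℂ} (h : L ~r L') (hL : Good L) : Good L' := by
  obtain ⟨k, rfl⟩ := h
  exact good_rotate hL k

theorem simple_isRotated {L L' : List ℂ} (h : L ~r L') (hL : Simple L) : Simple L' := by
  obtain ⟨k, rfl⟩ := h
  exact simple_rotate hL k

theorem good_of_step {n : ℕ} (hn : StepProp n) (L : List ℂ) (h3 : 3 ≤ L.length)
    (hlen : L.length ≤ n + 3) (hs : Simple L) : Good L ∨ Good L.reverse := by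
  classical
  have hne : L.toFinset.Nonempty := by
    rw [List.toFinset_nonempty_iff]
    rintro rfl
    simp at h3
  obtain ⟨v, hv, hmax⟩ := L.toFinset.exists_max_image (fun x => ‖x‖) hne
  rw [List.mem_toFinset] at hv
  obtain ⟨A, B, rfl⟩ := List.append_of_mem hv
  have hrot : (A ++ v :: B) ~r (v :: (B ++ A)) := by
    have := List.isRotated_append (l := A) (l' := v :: B)
    simpa using this
  -- shape of the rest
  obtain ⟨w, N, hN⟩ : ∃ w N, B ++ A = w :: N := by
    cases h : B ++ A with
    | nil =>
      have := congrArg List.length h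
      simp only [List.length_append, List.length_cons, List.length_nil] at this h3
      omega
    | cons w N => exact ⟨w, N, rfl⟩
  obtain ⟨M, u, hM⟩ : ∃ M u, N = M ++ [u] := by
    rcases List.eq_nil_or_concat N with rfl | ⟨M, u, rfl⟩
    · have := congrArg List.length hN
      simp only [List.length_append, List.length_cons, List.length_nil] at this h3
      omega
    · exact ⟨M, u, by simp⟩
  subst hM
  rw [hN] at hrot
  have hs' := simple_isRotated hrot hs
  have hmem : ∀ x ∈ w :: (M ++ [u]), x ∈ A ++ v :: B := by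
    intro x hx
    rw [← hN] at hx
    simp at hx ⊢; tauto
  have hnorm : ∀ x ∈ w :: (M ++ [u]), ‖x‖ ≤ ‖v‖ := fun x hx =>
    hmax x (by rw [List.mem_toFinset]; exact hmem x hx)
  have hMlen : M.length ≤ n := by
    have := congrArg List.length hN
    simp only [List.length_append, List.length_cons, List.length_nil] at this hlen
    omega
  rcases lt_or_gt_of_ne (ori_ne_zero hs' hnorm) with ho | ho
  · right
    have hr1 : (A ++ v :: B).reverse ~r (v :: w :: (M ++ [u])).reverse := hrot.reverse
    have hr2 : (v :: w :: (M ++ [u])).reverse ~r (v :: u :: (M.reverse ++ [w])) := by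
      have := List.isRotated_append (l := (w :: (M ++ [u])).reverse) (l' := [v])
      simpa using this
    have hs2 : Simple (v :: u :: (M.reverse ++ [w])) :=
      simple_isRotated hr2 (simple_reverse hs')
    have hg := hn v u w M.reverse (by simpa using hMlen) hs2 (by
      intro x hx
      apply hnorm
      simp at hx ⊢; tauto) (by
      have : ori w v u = - ori u v w := by simp only [ori_def]; ring
      linarith)
    exact good_isRotated (hr1.trans hr2).symm hg
  · left
    exact good_isRotated hrot.symm (hn v w u M hMlen hs' hnorm ho)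

end Pool.Agent.Lib.FoldCut
end

section
/-!
# The induction step
-/
namespace Pool.Agent.Lib.FoldCut

open Complex Real Topology

/-- facts about the edges of a corner polygon away from the corner -/
theorem corner_edges {v w u : ℂ} {M : List ℂ} (hs : Simple (v :: w :: (M ++ [u]))) :
    ∀ e ∈ chain (w :: (M ++ [u])), Disjoint (segment ℝ e.1 e.2) (openSegment ℝ v w) ∧
      Disjoint (segment ℝ e.1 e.2) (openSegment ℝ u v) ∧ v ∉ segment ℝ e.1 e.2 := by
  intro e he
  have hcyc := cyc_corner v w u M
  have heL : e ∈ cyc (v :: w :: (M ++ [u])) := by rw [hcyc]; simp [he]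
  have hvw : (v, w) ∈ cyc (v :: w :: (M ++ [u])) := by rw [hcyc]; simp
  have huv : (u, v) ∈ cyc (v :: w :: (M ++ [u])) := by rw [hcyc]; simp
  have hpw := hs.disj
  rw [hcyc, List.pairwise_cons, List.pairwise_append] at hpw
  have hm1 : e.1 ∈ w :: (M ++ [u]) := fst_mem_of_mem_chain he
  have hm2 : e.2 ∈ w :: (M ++ [u]) := snd_mem_of_mem_chain he
  have hv : v ∉ w :: (M ++ [u]) := by
    have := hs.nodup
    rw [List.nodup_cons] at this
    exact this.1
  refine ⟨?_, ?_, ?_⟩
  · rw [Set.disjoint_left]
    intro p hp hpo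
    rcases mem_segment_cases hp with h | h | h
    · exact hs.vert e.1 (List.mem_cons_of_mem _ hm1) _ hvw (h ▸ hpo)
    · exact hs.vert e.2 (List.mem_cons_of_mem _ hm2) _ hvw (h ▸ hpo)
    · exact Set.disjoint_left.mp (hpw.1 e (by simp [he])) hpo h
  · rw [Set.disjoint_left]
    intro p hp hpo
    rcases mem_segment_cases hp with h | h | h
    · exact hs.vert e.1 (List.mem_cons_of_mem _ hm1) _ huv (h ▸ hpo)
    · exact hs.vert e.2 (List.mem_cons_of_mem _ hm2) _ huv (h ▸ hpo)
    · exact Set.disjoint_left.mp (hpw.2.2.2 e he (u, v) (by simp)) h hpo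
  · intro h
    rcases mem_segment_cases h with h | h | h
    · exact hv (h ▸ hm1)
    · exact hv (h ▸ hm2)
    · exact hs.vert v (by simp) e heL h

/-- points on the line `v w` in the triangle range -/
theorem on_vw {u v w r : ℂ} (hD : 0 < ori u v w) (h0 : ori v w r = 0) (h1 : 0 ≤ ori u v r)
    (h2 : ori u v r < ori u v w) : r = v ∨ r ∈ openSegment ℝ v w := by
  have hb := bary u v w r
  rw [h0, zero_smul, zero_add] at hb
  have hs := ori_add u v w r
  rw [h0] at hs
  set D := ori u v w with hDdef
  set t := ori u v r with ht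
  have hw : ori w u r = D - t := by linarith
  rw [hw] at hb
  have hr : r = ((D - t) / D) • v + (t / D) • w := by
    have e : r = D⁻¹ • (D • r) := by rw [smul_smul, inv_mul_cancel₀ hD.ne', one_smul]
    rw [e, hb, smul_add, smul_smul, smul_smul]
    simp only [div_eq_inv_mul]
  rcases h1.eq_or_lt with h | h
  · left
    rw [hr, ← h, sub_zero, div_self hD.ne', zero_div, zero_smul, one_smul, add_zero]
  · right
    exact ⟨(D - t) / D, t / D, div_pos (by linarith) hD, div_pos h hD, by field_simp; ring, hr.symm⟩

theorem on_uv {u v w r : ℂ} (hD : 0 < ori u v w) (h0 : ori u v r = 0) (h1 : 0 ≤ ori v w r)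
    (h2 : ori v w r < ori u v w) : r = v ∨ r ∈ openSegment ℝ u v := by
  have hb := bary u v w r
  rw [h0, zero_smul, add_zero] at hb
  have hs := ori_add u v w r
  rw [h0] at hs
  set D := ori u v w with hDdef
  set t := ori v w r with ht
  have hw : ori w u r = D - t := by linarith
  rw [hw] at hb
  have hr : r = (t / D) • u + ((D - t) / D) • v := by
    have e : r = D⁻¹ • (D • r) := by rw [smul_smul, inv_mul_cancel₀ hD.ne', one_smul]
    rw [e, hb, smul_add, smul_smul, smul_smul]
    simp only [div_eq_inv_mul]
  rcases h1.eq_or_lt with h | h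
  · left
    rw [hr, ← h, sub_zero, div_self hD.ne', zero_div, zero_smul, one_smul, zero_add]
  · right
    exact ⟨t / D, (D - t) / D, div_pos h hD, div_pos (by linarith) hD, by field_simp; ring, hr.symm⟩

/-- `lemK` for the edges of a corner polygon -/
theorem corner_lemK {v w u : ℂ} {M : List ℂ} (hs : Simple (v :: w :: (M ++ [u])))
    (hD : 0 < ori u v w) {κ : ℝ} (hκ : κ ≤ ori u v w)
    (hM : ∀ m ∈ M, ¬ (0 ≤ ori v w m ∧ 0 ≤ ori u v m ∧ ori v w m + ori u v m < κ))
    {e : ℂ × ℂ} (he : e ∈ chain (w :: (M ++ [u]))) {z : ℂ} (hz : z ∈ segment ℝ e.1 e.2)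
    (ha : 0 < ori v w z) (hb : 0 < ori u v z) : κ ≤ ori v w z + ori u v z := by
  obtain ⟨h1, h2, h3⟩ := corner_edges hs e he
  have hend : ∀ x ∈ w :: (M ++ [u]),
      ¬ (0 ≤ ori v w x ∧ 0 ≤ ori u v x ∧ ori v w x + ori u v x < κ) := by
    intro x hx
    simp only [List.mem_cons, List.mem_append, List.not_mem_nil, or_false] at hx
    rcases hx with rfl | hx | rfl
    · rw [ori_self_right]; rintro ⟨-, -, h⟩; linarith
    · exact hM x hx
    · have : ori v w x = ori x v w := (ori_cyc x v w).symm
      rw [ori_self_left, this]; rintro ⟨-, -, h⟩; linarith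
  refine lemK hκ (hend _ (fst_mem_of_mem_chain he)) (hend _ (snd_mem_of_mem_chain he)) ?_ ?_ hz ha hb
  · intro r hr h4 h5 h6
    rcases on_vw hD h4 h5 h6 with h | h
    · exact h3 (h ▸ hr)
    · exact Set.disjoint_left.mp h1 hr h
  · intro r hr h4 h5 h6
    rcases on_uv hD h4 h5 h6 with h | h
    · exact h3 (h ▸ hr)
    · exact Set.disjoint_left.mp h2 hr h

/-- consecutive pairs in a list without repetition -/
theorem chain_first {w x : ℂ} {N : List ℂ} (hn : (w :: N).Nodup) (h : (w, x) ∈ chain (w :: N)) :
    ∃ N', N = x :: N' := by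
  cases N with
  | nil => simp at h
  | cons y N =>
    rw [chain_cons_cons, List.mem_cons] at h
    rcases h with h | h
    · simp only [Prod.mk.injEq, true_and] at h
      exact ⟨N, by rw [h]⟩
    · have := fst_mem_of_mem_chain h
      rw [List.nodup_cons] at hn
      exact absurd this hn.1

theorem chain_last {u x : ℂ} : ∀ {N : List ℂ}, (N ++ [u]).Nodup → (u, x) ∉ chain (N ++ [u])
  | [], _, h => by simp at h
  | [a], hn, h => by
    simp only [List.cons_append, List.nil_append, chain_cons_cons, chain_single, List.mem_cons,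
      List.not_mem_nil, or_false, Prod.mk.injEq] at h
    obtain ⟨rfl, rfl⟩ := h
    simp at hn
  | a :: b :: N, hn, h => by
    simp only [List.cons_append, chain_cons_cons, List.mem_cons, Prod.mk.injEq] at h
    rcases h with ⟨rfl, rfl⟩ | h
    · simp at hn
    · have hn' : (b :: N ++ [u]).Nodup := by
        rw [List.cons_append, List.nodup_cons] at hn; exact hn.2
      exact chain_last hn' (by simpa using h)

/-- the corner triangle is empty: the edges meet it only at `u`, `w` -/
theorem empty_corner {v w u : ℂ} {M : List ℂ} (hs : Simple (v :: w :: (M ++ [u])))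
    (hD : 0 < ori u v w) (hM0 : M ≠ [])
    (hM : ∀ m ∈ M, m ∉ triC u v w) {e : ℂ × ℂ} (he : e ∈ chain (w :: (M ++ [u]))) {z : ℂ}
    (hz : z ∈ segment ℝ e.1 e.2) (hzT : z ∈ triC u v w) : z = w ∨ z = u := by
  by_contra hne
  push Not at hne
  obtain ⟨hzw, hzu⟩ := hne
  obtain ⟨h1, h2, h3⟩ := corner_edges hs e he
  have hadd := ori_add u v w
  have hM' : ∀ m ∈ M, ¬ (0 ≤ ori v w m ∧ 0 ≤ ori u v m ∧ ori v w m + ori u v m < ori u v w) := by
    rintro m hm ⟨h4, h5, h6⟩
    have := hadd m
    exact hM m hm ⟨h5, h4, by linarith⟩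
  obtain ⟨hT1, hT2, hT3⟩ := hzT
  have hzadd := hadd z
  -- not on the sides
  have hz1 : 0 < ori u v z := by
    rcases hT1.lt_or_eq with h | h
    · exact h
    · exfalso
      rcases (show ori v w z ≤ ori u v w by linarith).lt_or_eq with h4 | h4
      · rcases on_uv hD h.symm hT2 h4 with h5 | h5
        · exact h3 (h5 ▸ hz)
        · exact Set.disjoint_left.mp h2 hz h5
      · apply hzu
        have hb := bary u v w z
        rw [← h, h4, show ori w u z = 0 by linarith] at hb
        simp only [zero_smul, add_zero] at hb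
        exact (smul_right_injective ℂ hD.ne') hb
  have hz2 : 0 < ori v w z := by
    rcases hT2.lt_or_eq with h | h
    · exact h
    · exfalso
      rcases (show ori u v z ≤ ori u v w by linarith).lt_or_eq with h4 | h4
      · rcases on_vw hD h.symm hT1 h4 with h5 | h5
        · exact h3 (h5 ▸ hz)
        · exact Set.disjoint_left.mp h1 hz h5
      · apply hzw
        have hb := bary u v w z
        rw [← h, h4, show ori w u z = 0 by linarith] at hb
        simp only [zero_smul, zero_add] at hb
        exact (smul_right_injective ℂ hD.ne') hb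
  have hK := corner_lemK hs hD le_rfl hM' he hz hz2 hz1
  have hz3 : ori w u z = 0 := by linarith
  -- the ends of the edge lie on the line `u w`
  set g : ℂ → ℝ := fun r => ori w u r with hg
  have hends : ∀ x, segment ℝ z x ⊆ segment ℝ e.1 e.2 → g x ≤ 0 := by
    intro x hx
    by_contra hgx
    push Not at hgx
    -- points near z towards x
    have hev : ∀ᶠ t : ℝ in 𝓝 0, 0 < ori v w ((1 - t) • z + t • x) ∧
        0 < ori u v ((1 - t) • z + t • x) := by
      have hc1 : ContinuousAt (fun t : ℝ => ori v w ((1 - t) • z + t • x)) 0 :=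
        ((continuous_ori v w).comp (by fun_prop)).continuousAt
      have hc2 : ContinuousAt (fun t : ℝ => ori u v ((1 - t) • z + t • x)) 0 :=
        ((continuous_ori u v).comp (by fun_prop)).continuousAt
      have h4 := hc1.eventually_const_lt (u := 0) (by simpa using hz2)
      have h5 := hc2.eventually_const_lt (u := 0) (by simpa using hz1)
      exact h4.and h5
    have hev2 : ∀ᶠ t : ℝ in 𝓝[>] 0, t < 1 := by
      have : ∀ᶠ t : ℝ in 𝓝 0, t < 1 := gt_mem_nhds (by norm_num)
      exact nhdsWithin_le_nhds this
    have hev3 : ∀ᶠ t : ℝ in 𝓝[>] 0, 0 < ori v w ((1 - t) • z + t • x) ∧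
        0 < ori u v ((1 - t) • z + t • x) := nhdsWithin_le_nhds hev
    obtain ⟨t, ⟨h4, h5⟩, h6, h7⟩ := (hev3.and (hev2.and self_mem_nhdsWithin)).exists
    have h7' : 0 < t := h7
    have hr : (1 - t) • z + t • x ∈ segment ℝ e.1 e.2 :=
      hx ⟨1 - t, t, by linarith, h7'.le, by ring, rfl⟩
    have hK2 := corner_lemK hs hD le_rfl hM' he hr h4 h5
    have hadd2 := hadd ((1 - t) • z + t • x)
    have hgr : ori w u ((1 - t) • z + t • x) = (1 - t) * ori w u z + t * ori w u x :=
      ori_lin _ _ _ _ _ _ (by ring)
    rw [hz3, mul_zero, zero_add] at hgr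
    have : 0 < t * ori w u x := mul_pos h7' hgx
    linarith
  have hg1 := hends e.1 ((convex_segment _ _).segment_subset hz (left_mem_segment _ _ _))
  have hg2 := hends e.2 ((convex_segment _ _).segment_subset hz (right_mem_segment _ _ _))
  have hm1 : e.1 ∈ w :: (M ++ [u]) := fst_mem_of_mem_chain he
  have hm2 : e.2 ∈ w :: (M ++ [u]) := snd_mem_of_mem_chain he
  -- z is strictly between the ends
  have hnotend : ∀ x ∈ w :: (M ++ [u]), z ≠ x := by
    rintro x hx rfl
    simp only [List.mem_cons, List.mem_append, List.not_mem_nil, or_false] at hx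
    rcases hx with h | h | h
    · exact hzw h
    · exact hM _ h ⟨hT1, hT2, hT3⟩
    · exact hzu h
  have hzo : z ∈ openSegment ℝ e.1 e.2 := by
    rcases mem_segment_cases hz with h | h | h
    · exact absurd h (hnotend _ hm1)
    · exact absurd h (hnotend _ hm2)
    · exact h
  obtain ⟨s, t, hs0, ht0, hst, hzeq⟩ := hzo
  have hg3 : s * g e.1 + t * g e.2 = 0 := by
    have : ori w u z = s * ori w u e.1 + t * ori w u e.2 := by
      rw [← hzeq]; exact ori_lin _ _ _ _ _ _ hst
    rw [hz3] at this
    exact this.symm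
  have hge1 : ori w u e.1 = 0 := by
    have := mul_nonpos_of_nonneg_of_nonpos ht0.le hg2
    have h4 : 0 ≤ s * g e.1 := by linarith
    by_contra hn
    have : s * g e.1 < 0 := mul_neg_of_pos_of_neg hs0 (lt_of_le_of_ne hg1 hn)
    linarith
  have hge2 : ori w u e.2 = 0 := by
    have := mul_nonpos_of_nonneg_of_nonpos hs0.le hg1
    have h4 : 0 ≤ t * g e.2 := by linarith
    by_contra hn
    have : t * g e.2 < 0 := mul_neg_of_pos_of_neg ht0 (lt_of_le_of_ne hg2 hn)
    linarith
  -- the coordinate along the line
  have hout : ∀ x ∈ w :: (M ++ [u]), ori w u x = 0 → ori v w x ≤ 0 ∨ ori u v w ≤ ori v w x := by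
    intro x hx hx0
    simp only [List.mem_cons, List.mem_append, List.not_mem_nil, or_false] at hx
    rcases hx with rfl | hx | rfl
    · left; rw [ori_self_right]
    · by_contra hn
      push Not at hn
      have := hadd x
      exact hM x hx ⟨by linarith, hn.1.le, by linarith⟩
    · right; rw [← ori_cyc x v w]
  have ha : ori v w z = s * ori v w e.1 + t * ori v w e.2 := by
    rw [← hzeq]; exact ori_lin _ _ _ _ _ _ hst
  have hazlt : ori v w z < ori u v w := by linarith
  -- u and w lie on the edge
  have online : ∀ x y r : ℂ, ori w u x = 0 → ori w u y = 0 → ori w u r = 0 →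
      ori v w x ≤ ori v w r → ori v w r ≤ ori v w y → r ∈ segment ℝ x y := by
    intro x y r hx hy hr h4 h5
    rcases (h4.trans h5).eq_or_lt with h6 | h6
    · -- all equal
      have hxr : x = r := by
        have b1 := bary u v w x
        have b2 := bary u v w r
        have a1 := hadd x
        have a2 := hadd r
        rw [hx] at a1 b1
        rw [hr] at a2 b2
        have e1 : ori v w x = ori v w r := by linarith
        have e2 : ori u v x = ori u v r := by linarith
        rw [e1, e2, ← b2] at b1
        exact (smul_right_injective ℂ hD.ne') b1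
      rw [hxr]; exact left_mem_segment _ _ _
    · set X := ori v w x
      set Y := ori v w y
      set R := ori v w r
      have hYX : 0 < Y - X := by linarith
      refine ⟨(Y - R) / (Y - X), (R - X) / (Y - X), div_nonneg (by linarith) hYX.le,
        div_nonneg (by linarith) hYX.le, by field_simp; ring, ?_⟩
      have b1 := bary u v w x
      have b2 := bary u v w y
      have b3 := bary u v w r
      have a1 := hadd x
      have a2 := hadd y
      have a3 := hadd r
      rw [hx] at a1 b1
      rw [hy] at a2 b2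
      rw [hr] at a3 b3
      simp only [zero_smul, add_zero] at a1 a2 a3 b1 b2 b3
      have c1 : ori u v x = ori u v w - X := by linarith
      have c2 : ori u v y = ori u v w - Y := by linarith
      have c3 : ori u v r = ori u v w - R := by linarith
      rw [c1] at b1
      rw [c2] at b2
      rw [c3] at b3
      apply smul_right_injective ℂ hD.ne'
      simp only
      have e1 : ori u v w • (((Y - R) / (Y - X)) • x + ((R - X) / (Y - X)) • y) =
          ((Y - R) / (Y - X)) • (ori u v w • x) + ((R - X) / (Y - X)) • (ori u v w • y) := by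
        rw [smul_add, smul_comm, smul_comm (ori u v w)]
      rw [e1, b1, b2, b3]
      have hYX' : ((Y : ℂ) - X) ≠ 0 := by
        have : ((Y - X : ℝ) : ℂ) ≠ 0 := by exact_mod_cast hYX.ne'
        simpa using this
      simp only [real_smul]
      push_cast
      field_simp
      ring
  have hw0 : ori w u w = 0 := ori_self_left _ _
  have hu0 : ori w u u = 0 := ori_self_right _ _
  have haw : ori v w w = 0 := ori_self_right _ _
  have hau : ori v w u = ori u v w := (ori_cyc u v w).symm
  have hboth : w ∈ segment ℝ e.1 e.2 ∧ u ∈ segment ℝ e.1 e.2 := by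
    rcases hout _ hm1 hge1 with h4 | h4 <;> rcases hout _ hm2 hge2 with h5 | h5
    · exfalso
      have := mul_nonpos_of_nonneg_of_nonpos hs0.le h4
      have := mul_nonpos_of_nonneg_of_nonpos ht0.le h5
      linarith
    · exact ⟨online _ _ _ hge1 hge2 hw0 (by linarith) (by linarith),
        online _ _ _ hge1 hge2 hu0 (by linarith) (by linarith)⟩
    · rw [segment_symm]
      exact ⟨online _ _ _ hge2 hge1 hw0 (by linarith) (by linarith),
        online _ _ _ hge2 hge1 hu0 (by linarith) (by linarith)⟩
    · exfalso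
      have e1 := mul_le_mul_of_nonneg_left h4 hs0.le
      have e2 := mul_le_mul_of_nonneg_left h5 ht0.le
      have : (s + t) * ori u v w = ori u v w := by rw [hst, one_mul]
      linarith
  have heL : e ∈ cyc (v :: w :: (M ++ [u])) := by rw [cyc_corner]; simp [he]
  have hnd := hs.nodup
  have hwu : w ≠ u := by rintro rfl; simp at hnd
  have hwe : w = e.1 ∨ w = e.2 := by
    rcases mem_segment_cases hboth.1 with h | h | h
    · exact Or.inl h
    · exact Or.inr h
    · exact absurd h (hs.vert w (by simp) e heL)
  have hue : u = e.1 ∨ u = e.2 := by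
    rcases mem_segment_cases hboth.2 with h | h | h
    · exact Or.inl h
    · exact Or.inr h
    · exact absurd h (hs.vert u (by simp) e heL)
  have hnd2 : (w :: (M ++ [u])).Nodup := by rw [List.nodup_cons] at hnd; exact hnd.2
  rcases hwe with h4 | h4 <;> rcases hue with h5 | h5
  · exact hwu (h4.trans h5.symm)
  · have : e = (w, u) := Prod.ext h4.symm h5.symm
    rw [this] at he
    obtain ⟨N', hN'⟩ := chain_first hnd2 he
    cases M with
    | nil => exact hM0 rfl
    | cons m M =>
      simp only [List.cons_append, List.cons.injEq] at hN'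
      obtain ⟨rfl, -⟩ := hN'
      simp at hnd2
  · have : e = (u, w) := Prod.ext h5.symm h4.symm
    rw [this] at he
    have hnd3 : ((w :: M) ++ [u]).Nodup := by simpa using hnd2
    exact chain_last hnd3 (by simpa using he)
  · exact hwu (h4.trans h5.symm)

end Pool.Agent.Lib.FoldCut
end

section
/-!
# Every simple polygon is good, up to orientation: end of the proof
-/
namespace Pool.Agent.Lib.FoldCut

open Complex Real Topology

theorem ori_open_pos {a b x y : ℂ} {z : ℂ} (hz : z ∈ openSegment ℝ x y) (hx : ori a b x = 0)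
    (hy : 0 < ori a b y) : 0 < ori a b z ∧ ori a b z < ori a b y := by
  obtain ⟨s, t, hs, ht, hst, rfl⟩ := hz
  rw [ori_lin _ _ _ _ _ _ hst, hx, mul_zero, zero_add]
  have : t < 1 := by linarith
  exact ⟨mul_pos ht hy, by nlinarith⟩

/-- the case of an empty corner triangle -/
theorem stepA {n : ℕ} (ih : StepProp n) (v w u : ℂ) (M : List ℂ) (hlen : M.length ≤ n + 1)
    (hM0 : M ≠ []) (hs : Simple (v :: w :: (M ++ [u])))
    (hn : ∀ x ∈ w :: (M ++ [u]), ‖x‖ ≤ ‖v‖) (hD : 0 < ori u v w)
    (hM : ∀ m ∈ M, m ∉ triC u v w) : Good (v :: w :: (M ++ [u])) := by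
  have hpi := Real.pi_pos
  have hnd := hs.nodup
  have hwu : w ≠ u := by rintro rfl; simp at hnd
  have hvu : v ≠ u := by rintro rfl; simp at hnd
  have hcyc := cyc_corner v w u M
  have hl : v :: w :: (M ++ [u]) = [v] ++ w :: (M ++ u :: []) := by simp
  have hDw : 0 < ori v w u := by rw [← ori_cyc]; exact hD
  have hDwu : 0 < ori w u v := by rw [← ori_cyc]; exact hDw
  -- the diagonal `w u` is clean
  have hd : ∀ e ∈ cyc (v :: w :: (M ++ [u])),
      Disjoint (segment ℝ e.1 e.2) (openSegment ℝ w u) := by
    intro e he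
    rw [Set.disjoint_left]
    intro p hp hpo
    have h1 := ori_open_pos (a := v) (b := w) hpo (ori_self_right v w) hDw
    rw [openSegment_symm] at hpo
    have h2 := ori_open_pos (a := u) (b := v) hpo (ori_self_left u v) hD
    have h3 : ori w u p = 0 := by
      obtain ⟨s, t, hs, ht, hst, rfl⟩ := hpo
      rw [ori_lin _ _ _ _ _ _ hst, ori_self_left, ori_self_right]; simp
    rw [hcyc, List.mem_cons, List.mem_append, List.mem_singleton] at he
    rcases he with rfl | he | rfl
    · obtain ⟨s, t, hs, ht, hst, rfl⟩ := hp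
      rw [ori_lin _ _ _ _ _ _ hst, ori_self_left, ori_self_right] at h1
      simp at h1
    · rcases empty_corner hs hD hM0 hM he hp ⟨h2.1.le, h1.1.le, h3.ge⟩ with h4 | h4
      · rw [h4] at h1; rw [ori_self_right] at h1; exact lt_irrefl _ h1.1
      · rw [h4] at h2; rw [ori_self_left] at h2; exact lt_irrefl _ h2.1
    · obtain ⟨s, t, hs, ht, hst, rfl⟩ := hp
      rw [ori_lin _ _ _ _ _ _ hst, ori_self_left, ori_self_right] at h2
      simp at h2
  have hs' := hs
  have hd' := hd
  rw [hl] at hs' hd'
  have sW : Simple (w :: (M ++ [u])) := simple_split_right hs' hd'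
  obtain ⟨-, -, -, -, e3⟩ := cyc_split [v] M [] w u
  have hclose : (u, w) ∈ cyc (w :: (M ++ [u])) := by rw [e3]; simp
  -- the winding sum of the rest vanishes at the corner
  have hv0 : wsum v (w :: (M ++ [u])) = 0 := by
    apply wsum_hull (w := -(starRingEnd ℂ) v)
    intro x hx
    apply norm_sep (hn x hx)
    rintro rfl
    rw [List.nodup_cons] at hnd
    exact hnd.1 hx
  -- the corner region
  have hTconv : Convex ℝ {p | 0 ≤ ori u v p ∧ 0 ≤ ori v w p ∧ 0 < ori w u p} := by
    rintro x ⟨hx1, hx2, hx3⟩ y ⟨hy1, hy2, hy3⟩ s t hs ht hst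
    refine ⟨?_, ?_, ?_⟩
    · rw [ori_lin _ _ _ _ _ _ hst]
      have := mul_nonneg hs hx1; have := mul_nonneg ht hy1; linarith
    · rw [ori_lin _ _ _ _ _ _ hst]
      have := mul_nonneg hs hx2; have := mul_nonneg ht hy2; linarith
    · rw [ori_lin _ _ _ _ _ _ hst]
      rcases hs.lt_or_eq with h | h
      · have := mul_pos h hx3; have := mul_nonneg ht hy3.le; linarith
      · have : t = 1 := by linarith
        rw [← h, this]; linarith
  have hTdisj : Disjoint {p | 0 ≤ ori u v p ∧ 0 ≤ ori v w p ∧ 0 < ori w u p}
      (curve (w :: (M ++ [u]))) := by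
    rw [Set.disjoint_left]
    rintro p ⟨h1, h2, h3⟩ ⟨e, he, hpe⟩
    rw [e3, List.mem_append, List.mem_singleton] at he
    rcases he with he | rfl
    · rcases empty_corner hs hD hM0 hM he hpe ⟨h1, h2, h3.le⟩ with h4 | h4
      · rw [h4, ori_self_left] at h3; exact lt_irrefl _ h3
      · rw [h4, ori_self_right] at h3; exact lt_irrefl _ h3
    · obtain ⟨s, t, hs, ht, hst, rfl⟩ := hpe
      rw [ori_lin _ _ _ _ _ _ hst, ori_self_left, ori_self_right] at h3
      simp at h3
  have hvT : v ∈ {p | 0 ≤ ori u v p ∧ 0 ≤ ori v w p ∧ 0 < ori w u p} :=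
    ⟨(ori_self_right u v).ge, (ori_self_left v w).ge, hDwu⟩
  have hT0 : ∀ p, 0 ≤ ori u v p → 0 ≤ ori v w p → 0 < ori w u p →
      wsum p (w :: (M ++ [u])) = 0 := by
    intro p h1 h2 h3
    rw [wsum_const hTconv.isPreconnected hTdisj (x := p) (y := v) ⟨h1, h2, h3⟩ hvT, hv0]
  -- a point of the diagonal
  obtain ⟨c0, hc0⟩ : (openSegment ℝ u w).Nonempty :=
    ⟨_, 1/2, 1/2, by norm_num, by norm_num, by norm_num, rfl⟩
  obtain ⟨K, hK⟩ := sW.jump hclose hc0
  have hc0' : c0 ∈ openSegment ℝ w u := by rw [openSegment_symm]; exact hc0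
  have hpos : ∀ᶠ p in 𝓝 c0, 0 < ori u v p ∧ 0 < ori v w p := by
    have h1 := (ori_open_pos (a := u) (b := v) hc0 (ori_self_left u v) hD).1
    have h2 := (ori_open_pos (a := v) (b := w) hc0' (ori_self_right v w) hDw).1
    exact ((continuous_ori u v).continuousAt.eventually_const_lt h1).and
      ((continuous_ori v w).continuousAt.eventually_const_lt h2)
  have hK2 : K = 2 * π := by
    obtain ⟨p, ⟨h1, h2⟩, h3⟩ := exists_right u w c0 hwu.symm hc0 (hK.and hpos)
    have h4 : 0 < ori w u p := by rw [ori_swap]; linarith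
    have h5 := hT0 p h2.1.le h2.2.le h4
    have h6 := (h1.2 h3).2
    rw [h5] at h6
    linarith
  obtain ⟨p', h1, h2⟩ := exists_left u w c0 hwu.symm hc0 hK
  have hp' := h1.1 h2
  rw [hK2] at hp'
  have hlenW : (w :: (M ++ [u])).length = M.length + 2 := by simp
  have hMpos : 0 < M.length := List.length_pos_iff.mpr hM0
  have gW : Good (w :: (M ++ [u])) := by
    rcases good_of_step ih (w :: (M ++ [u])) (by omega) (by omega) sW with h | h
    · exact h
    · exfalso
      have hpr : p' ∉ curve (w :: (M ++ [u])).reverse := by rw [curve_reverse]; exact hp'.1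
      have h3 := h.w p' hpr
      rw [wsum_reverse hp'.1, hp'.2] at h3
      rcases h3 with h3 | h3 <;> linarith
  have gV : Good ([v] ++ w :: u :: []) := good_tri hDw
  rw [hl]
  refine glue hs' hd' hwu gV gW ?_
  intro e he p hp hpw hpu
  have hpT : p ∉ triC v w u := by
    rw [← triC_cyc]
    intro hpT
    rcases empty_corner hs hD hM0 hM he hp hpT with h | h
    · exact hpw h
    · exact hpu h
  exact wsum_tri_out hDw hpT

/-- the case of a corner triangle with a vertex in it -/
theorem stepB {n : ℕ} (ih : StepProp n) (v w u : ℂ) (M : List ℂ) (hlen : M.length ≤ n + 1)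
    (hs : Simple (v :: w :: (M ++ [u])))
    (hn : ∀ x ∈ w :: (M ++ [u]), ‖x‖ ≤ ‖v‖) (hD : 0 < ori u v w)
    (hM : ∃ m ∈ M, m ∈ triC u v w) : Good (v :: w :: (M ++ [u])) := by
  classical
  have hadd := ori_add u v w
  -- the highest vertex in the corner
  obtain ⟨z, hzM, hzT, hzmin⟩ : ∃ z ∈ M, z ∈ triC u v w ∧ ∀ m ∈ M, m ∈ triC u v w →
      ori v w z + ori u v z ≤ ori v w m + ori u v m := by
    obtain ⟨m, hm1, hm2⟩ := hM
    have hne : (M.toFinset.filter (· ∈ triC u v w)).Nonempty :=
      ⟨m, by rw [Finset.mem_filter, List.mem_toFinset]; exact ⟨hm1, hm2⟩⟩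
    obtain ⟨z, hz, hmin⟩ := (M.toFinset.filter (· ∈ triC u v w)).exists_min_image
      (fun m => ori v w m + ori u v m) hne
    rw [Finset.mem_filter, List.mem_toFinset] at hz
    refine ⟨z, hz.1, hz.2, ?_⟩
    intro m hm1 hm2
    exact hmin m (by rw [Finset.mem_filter, List.mem_toFinset]; exact ⟨hm1, hm2⟩)
  obtain ⟨M1, M2, rfl⟩ := List.append_of_mem hzM
  have hnd := hs.nodup
  have hcyc := cyc_corner v w u (M1 ++ z :: M2)
  obtain ⟨hz1, hz2, hz3⟩ := hzT
  have hzadd := hadd z
  have hzv : z ≠ v := by rintro rfl; simp at hnd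
  have hzw : z ≠ w := by rintro rfl; simp at hnd
  have hzu : z ≠ u := by
    rintro rfl
    rw [List.nodup_cons, List.nodup_cons, List.nodup_append] at hnd
    exact hnd.2.2.2.2 z (by simp) z (by simp) rfl
  have hzL : z ∈ v :: w :: (M1 ++ z :: M2 ++ [u]) := by simp
  have hb : 0 < ori u v z := by
    rcases hz1.lt_or_eq with h | h
    · exact h
    · exfalso
      rcases (show ori v w z ≤ ori u v w by linarith).lt_or_eq with h4 | h4
      · rcases on_uv hD h.symm hz2 h4 with h5 | h5
        · exact hzv h5
        · exact hs.vert z hzL (u, v) (by rw [hcyc]; simp) h5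
      · apply hzu
        have hb := bary u v w z
        rw [← h, h4, show ori w u z = 0 by linarith] at hb
        simp only [zero_smul, add_zero] at hb
        exact (smul_right_injective ℂ hD.ne') hb
  have ha : 0 < ori v w z := by
    rcases hz2.lt_or_eq with h | h
    · exact h
    · exfalso
      rcases (show ori u v z ≤ ori u v w by linarith).lt_or_eq with h4 | h4
      · rcases on_vw hD h.symm hz1 h4 with h5 | h5
        · exact hzv h5
        · exact hs.vert z hzL (v, w) (by rw [hcyc]; simp) h5
      · apply hzw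
        have hb := bary u v w z
        rw [← h, h4, show ori w u z = 0 by linarith] at hb
        simp only [zero_smul, zero_add] at hb
        exact (smul_right_injective ℂ hD.ne') hb
  set κ := ori v w z + ori u v z with hκdef
  have hκ : κ ≤ ori u v w := by linarith
  have hMκ : ∀ m ∈ M1 ++ z :: M2, ¬ (0 ≤ ori v w m ∧ 0 ≤ ori u v m ∧
      ori v w m + ori u v m < κ) := by
    rintro m hm ⟨h1, h2, h3⟩
    have := hadd m
    have := hzmin m hm ⟨h2, h1, by linarith⟩
    linarith
  -- the diagonal `v z` is clean
  have hd : ∀ e ∈ cyc (v :: w :: (M1 ++ z :: M2 ++ [u])),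
      Disjoint (segment ℝ e.1 e.2) (openSegment ℝ v z) := by
    intro e he
    rw [Set.disjoint_left]
    intro p hp hpo
    have h1 := ori_open_pos (a := v) (b := w) hpo (ori_self_left v w) ha
    have h2 := ori_open_pos (a := u) (b := v) hpo (ori_self_right u v) hb
    rw [hcyc, List.mem_cons, List.mem_append, List.mem_singleton] at he
    rcases he with rfl | he | rfl
    · obtain ⟨s, t, hs, ht, hst, rfl⟩ := hp
      rw [ori_lin _ _ _ _ _ _ hst, ori_self_left, ori_self_right] at h1
      simp at h1
    · have := corner_lemK hs hD hκ hMκ he hp h1.1 h2.1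
      linarith
    · obtain ⟨s, t, hs, ht, hst, rfl⟩ := hp
      rw [ori_lin _ _ _ _ _ _ hst, ori_self_left, ori_self_right] at h2
      simp at h2
  have hl : v :: w :: (M1 ++ z :: M2 ++ [u]) = [] ++ v :: ((w :: M1) ++ z :: (M2 ++ [u])) := by simp
  have hs' := hs
  have hd' := hd
  rw [hl] at hs' hd'
  have sV : Simple (v :: z :: (M2 ++ [u])) := simple_split_left hs' hd'
  have sW : Simple (v :: w :: (M1 ++ [z])) := simple_split_right hs' hd'
  have hbz : 0 < ori v z u := by rw [← ori_cyc]; exact hb
  have hlen1 : M1.length ≤ n := by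
    simp only [List.length_append, List.length_cons] at hlen; omega
  have hlen2 : M2.length ≤ n := by
    simp only [List.length_append, List.length_cons] at hlen; omega
  have gV : Good (v :: z :: (M2 ++ [u])) := ih v z u M2 hlen2 sV (by
    intro x hx; apply hn; simp at hx ⊢; tauto) hb
  have gW : Good (v :: w :: (M1 ++ [z])) := ih v w z M1 hlen1 sW (by
    intro x hx; apply hn; simp at hx ⊢; tauto) (by rw [ori_cyc]; exact ha)
  rw [hl]
  refine glue hs' hd' hzv.symm gV gW ?_
  have hnc := not_mem_curve_left hs' hd'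
  simp only [List.nil_append] at hnc
  -- near the corner
  have hvnot : ∀ e ∈ chain (w :: (M1 ++ [z])), v ∉ segment ℝ e.1 e.2 := by
    intro e he
    have := (corner_edges sW e he).2.2
    exact this
  have hznot : ∀ e ∈ chain (w :: (M1 ++ [z])), z ∉ openSegment ℝ e.1 e.2 := by
    intro e he
    exact sW.vert z (by simp) e (by rw [cyc_corner]; simp [he])
  have hwnd : (w :: (M1 ++ [z])).Nodup := by
    have := sW.nodup
    rw [List.nodup_cons] at this; exact this.2
  have hchainV : ∀ e ∈ chain (w :: (M1 ++ [z])), ∀ p ∈ segment ℝ e.1 e.2, p ≠ z →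
      p ∉ curve (v :: z :: (M2 ++ [u])) := by
    intro e he p hp hpz
    refine hnc e ?_ p hp ?_ hpz
    · rw [List.cons_append, chain_cons_cons]; exact List.mem_cons_of_mem _ he
    · rintro rfl; exact hvnot e he hp
  have hfirst : ∀ p ∈ segment ℝ w v, p ≠ v → p ∉ curve (v :: z :: (M2 ++ [u])) := by
    intro p hp hpv
    rw [segment_symm] at hp
    refine hnc (v, w) (by simp) p hp hpv ?_
    rintro rfl
    rcases mem_segment_cases hp with h | h | h
    · exact hpv h
    · exact hzw h
    · exact sW.vert p (by simp) (v, w) (by rw [cyc_corner]; simp) h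
  have hwv : w ≠ v := by rintro rfl; simp at hnd
  -- the value at `w`
  have hw0 : wsum w (v :: z :: (M2 ++ [u])) = 0 := by
    have hhull : ∀ᶠ t : ℝ in 𝓝 0, ∀ x ∈ (z :: (M2 ++ [u])).toFinset,
        0 < ((-(starRingEnd ℂ) v) * (x - ((1 - t) • v + t • w))).re := by
      rw [Filter.eventually_all_finset]
      intro x hx
      rw [List.mem_toFinset] at hx
      have hxL : x ∈ w :: (M1 ++ z :: M2 ++ [u]) := by simp at hx ⊢; tauto
      have h0 := norm_sep (hn x hxL) (by
        rintro rfl
        rw [List.nodup_cons] at hnd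
        exact hnd.1 hxL)
      have hc : ContinuousAt (fun t : ℝ =>
          ((-(starRingEnd ℂ) v) * (x - ((1 - t) • v + t • w))).re) 0 := by
        apply Continuous.continuousAt
        fun_prop
      exact hc.eventually_const_lt (by simpa using h0)
    have h3 : ∀ᶠ t : ℝ in 𝓝[>] 0, ∀ x ∈ (z :: (M2 ++ [u])).toFinset,
        0 < ((-(starRingEnd ℂ) v) * (x - ((1 - t) • v + t • w))).re := nhdsWithin_le_nhds hhull
    have h4 : ∀ᶠ t : ℝ in 𝓝[>] 0, t < 1 := by
      have : ∀ᶠ t : ℝ in 𝓝 0, t < 1 := gt_mem_nhds (by norm_num)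
      exact nhdsWithin_le_nhds this
    obtain ⟨t, h5, h6, h7⟩ := (h3.and (h4.and self_mem_nhdsWithin)).exists
    have h7' : 0 < t := h7
    set p := (1 - t) • v + t • w with hp
    have hpseg : p ∈ segment ℝ w v := ⟨t, 1 - t, h7'.le, by linarith, by ring, by rw [hp]; abel⟩
    have hpv : p ≠ v := by
      intro h
      have : t • (w - v) = 0 := by
        have e : t • (w - v) = p - v := by
          rw [hp, smul_sub, sub_smul 1 t v, one_smul]; abel
        rw [e, h, sub_self]
      rw [smul_eq_zero, sub_eq_zero] at this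
      rcases this with h8 | h8
      · exact h7'.ne' h8
      · exact hwv h8
    rw [← wsum_half hfirst hwv hpseg hpv]
    have hpos : ∀ x ∈ z :: (M2 ++ [u]), 0 < ((-(starRingEnd ℂ) v) * (x - p)).re := fun x hx =>
      h5 x (by rw [List.mem_toFinset]; exact hx)
    have hpzu : p ∉ segment ℝ z u := by
      rintro ⟨s, r, hs, hr, hsr, he⟩
      have h8 := hpos z (by simp)
      have h9 := hpos u (by simp)
      have e : s * ((-(starRingEnd ℂ) v) * (z - p)).re + r * ((-(starRingEnd ℂ) v) * (u - p)).re
          = 0 := by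
        have e1 : (s:ℂ) * ((-(starRingEnd ℂ) v) * (z - p)) + (r:ℂ) * ((-(starRingEnd ℂ) v) * (u - p))
            = 0 := by
          have e2 : (s:ℂ) + r = 1 := by exact_mod_cast congrArg (fun x : ℝ => (x : ℂ)) hsr
          have e3 : (s:ℂ) * z + r * u = p := by simpa [real_smul] using he
          linear_combination (-(starRingEnd ℂ) v) * e3 - (-(starRingEnd ℂ) v) * p * e2
        have := congrArg Complex.re e1
        simpa only [add_re, re_ofReal_mul, zero_re] using this
      rcases hs.lt_or_eq with h | h
      · have := mul_pos h h8; have := mul_nonneg hr h9.le; linarith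
      · have hr1 : r = 1 := by linarith
        rw [← h, hr1] at e; linarith
    have hsplit := wsum_split [v] M2 [] hpzu
    have e4 : [v] ++ z :: (M2 ++ [u]) = v :: z :: (M2 ++ [u]) := by simp
    rw [e4] at hsplit
    rw [hsplit, wsum_hull hpos, add_zero]
    have hneg : ori v z p < 0 := by
      have e5 : ori v z p = - (t * ori v w z) := by
        rw [hp, ori_lin _ _ _ _ _ _ (by ring), ori_self_left]
        simp only [ori_def]; ring
      rw [e5]
      have := mul_pos h7' ha
      linarith
    have : p ∉ triC v z u := fun h => absurd h.1 (not_le.mpr hneg)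
    exact wsum_tri_out hbz this
  intro e he p hp hpv hpz
  rw [List.cons_append, chain_cons_cons, List.mem_cons] at he
  rcases he with rfl | he
  · have hp' : p ∈ segment ℝ w v := by rw [segment_symm]; exact hp
    have := wsum_half hfirst hwv hp' hpv
    exact this.trans hw0
  · have := wsum_chain M1 w hwnd hznot hchainV e he p hp hpz
    exact this.trans hw0

theorem stepProp : ∀ n, StepProp n
  | 0 => by
    intro v w u M hlen hs hn hD
    have : M = [] := List.eq_nil_of_length_eq_zero (by omega)
    subst this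
    exact good_tri (by rw [← ori_cyc]; exact hD)
  | n + 1 => by
    intro v w u M hlen hs hn hD
    by_cases hM0 : M = []
    · subst hM0
      exact good_tri (by rw [← ori_cyc]; exact hD)
    by_cases hM : ∃ m ∈ M, m ∈ triC u v w
    · exact stepB (stepProp n) v w u M hlen hs hn hD hM
    · push Not at hM
      exact stepA (stepProp n) v w u M hlen hM0 hs hn hD hM

/-- every simple polygon, suitably oriented, is triangulated by positively oriented triangles,
has winding numbers `0` and `1` only, and a connected inside -/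
theorem good_or {L : List ℂ} (h3 : 3 ≤ L.length) (hs : Simple L) : Good L ∨ Good L.reverse :=
  good_of_step (stepProp L.length) L h3 (by omega) hs

end Pool.Agent.Lib.FoldCut
end

section
/-!
# A compact regular closed set bounded by a good polygon is the closure of its inside
-/
namespace Pool.Agent.Lib.FoldCut

open Complex Real Topology

theorem inside_open (L : List ℂ) : IsOpen (inside L) := by
  rw [isOpen_iff_mem_nhds]
  rintro p ⟨h1, h2⟩
  filter_upwards [wsum_eventually h1] with z hz
  exact ⟨hz.1, hz.2.trans h2⟩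

theorem inside_isRotated {L L' : List ℂ} (h : L ~r L') : inside L = inside L' ∧
    curve L = curve L' := by
  obtain ⟨k, rfl⟩ := h
  induction k with
  | zero => simp
  | succ k ih =>
    rw [← List.rotate_rotate L k 1]
    cases hL : L.rotate k with
    | nil => rw [hL] at ih; simpa using ih
    | cons x l =>
      rw [hL] at ih
      have e : (x :: l).rotate 1 = l ++ [x] := by simp
      rw [e, ih.1, ih.2]
      constructor
      · ext p
        simp only [inside, Set.mem_ofPred_eq, curve_rot, wsum_rot]
      · rw [curve_rot]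

/-- for a connected set off the frontier of a closed set -/
theorem subset_interior {P S : Set ℂ} (hP : IsClosed P) (hS : IsPreconnected S)
    (hd : Disjoint S (frontier P)) {x : ℂ} (hx : x ∈ S) (hxP : x ∈ P) : S ⊆ interior P := by
  have hxi : x ∈ interior P := by
    by_contra h
    exact Set.disjoint_left.mp hd hx ⟨subset_closure hxP, h⟩
  refine hS.subset_of_closure_inter_subset isOpen_interior ⟨x, hx, hxi⟩ ?_
  rintro y ⟨hy1, hy2⟩
  by_contra h
  have : y ∈ P := hP.closure_subset_iff.mpr interior_subset hy1
  exact Set.disjoint_left.mp hd hy2 ⟨subset_closure this, h⟩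

theorem norm_le_of_mem_curve {L : List ℂ} {r : ℝ} (h : ∀ x ∈ L, ‖x‖ ≤ r) {p : ℂ}
    (hp : p ∈ curve L) : ‖p‖ ≤ r := by
  obtain ⟨e, he, hpe⟩ := hp
  have h1 := h _ (fst_mem_of_mem_cyc he)
  have h2 := h _ (snd_mem_of_mem_cyc he)
  have := (convex_closedBall (0:ℂ) r).segment_subset (by simpa using h1) (by simpa using h2) hpe
  simpa using this

theorem wsum_of_norm {L : List ℂ} {p : ℂ} (h : ∀ x ∈ L, ‖x‖ < ‖p‖) : wsum p L = 0 := by
  apply wsum_hull (w := -(starRingEnd ℂ) p)
  intro x hx
  apply norm_sep (h x hx).le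
  rintro rfl
  exact lt_irrefl _ (h _ hx)

/-- the orientation at the extreme vertex of a good polygon -/
theorem ori_pos_of_good {v w u : ℂ} {M : List ℂ} (hs : Simple (v :: w :: (M ++ [u])))
    (hn : ∀ x ∈ w :: (M ++ [u]), ‖x‖ ≤ ‖v‖) (hg : Good (v :: w :: (M ++ [u]))) :
    0 < ori u v w := by
  have hpi := Real.pi_pos
  rcases lt_or_gt_of_ne (ori_ne_zero hs hn) with ho | ho
  swap
  · exact ho
  exfalso
  have hr2 : (v :: w :: (M ++ [u])).reverse ~r (v :: u :: (M.reverse ++ [w])) := by
    have := List.isRotated_append (l := (w :: (M ++ [u])).reverse) (l' := [v])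
    simpa using this
  have hs2 : Simple (v :: u :: (M.reverse ++ [w])) :=
    simple_isRotated hr2 (simple_reverse hs)
  have hg2 := stepProp _ v u w M.reverse le_rfl hs2 (by
    intro x hx
    apply hn
    simp at hx ⊢; tauto) (by
    have : ori w v u = - ori u v w := by simp only [ori_def]; ring
    linarith)
  have hg3 : Good (v :: w :: (M ++ [u])).reverse := good_isRotated hr2.symm hg2
  have hmem : (v, w) ∈ cyc (v :: w :: (M ++ [u])) := by rw [cyc_corner]; simp
  obtain ⟨c0, hc0⟩ : (openSegment ℝ v w).Nonempty :=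
    ⟨_, 1/2, 1/2, by norm_num, by norm_num, by norm_num, rfl⟩
  obtain ⟨p, h1, h2⟩ := exists_left v w c0 (hs.ne hmem) hc0 (hs.jump' hg.w hmem hc0)
  have h3 := h1.1 h2
  have h4 := hg3.w p (by rw [curve_reverse]; exact h3.1)
  rw [wsum_reverse h3.1, h3.2] at h4
  rcases h4 with h4 | h4 <;> linarith

/-- near an extreme vertex, everything outside the corner is joined to the far points -/
theorem near_corner {v w u : ℂ} {M : List ℂ} (hs : Simple (v :: w :: (M ++ [u])))
    (hn : ∀ x ∈ w :: (M ++ [u]), ‖x‖ ≤ ‖v‖) (hD : 0 < ori u v w) :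
    ∃ δ > 0, (∀ p ∈ Metric.ball v δ, 0 < ori u v p → 0 < ori v w p →
        p ∉ curve (v :: w :: (M ++ [u]))) ∧
      (∀ p ∈ Metric.ball v δ, p ∉ curve (v :: w :: (M ++ [u])) →
        (0 < ori u v p ∧ 0 < ori v w p) ∨
        ∃ q : ℂ, ‖v‖ < ‖q‖ ∧ ∀ z ∈ segment ℝ p q, z ∉ curve (v :: w :: (M ++ [u]))) := by
  set L := v :: w :: (M ++ [u]) with hL
  have hnd := hs.nodup
  have hwv : w ≠ v := by rintro rfl; simp [hL] at hnd
  have huv : u ≠ v := by rintro rfl; simp [hL] at hnd
  have hcyc : cyc L = (v, w) :: (chain (w :: (M ++ [u])) ++ [(u, v)]) := cyc_corner v w u M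
  -- near `v` only the two edges
  have hvE : v ∉ support (chain (w :: (M ++ [u]))) := by
    rintro ⟨e, he, hve⟩
    exact (corner_edges hs e he).2.2 hve
  obtain ⟨ε, hε, hball⟩ := Metric.isOpen_iff.mp (support_closed _).isOpen_compl v hvE
  have hcone : ∀ p ∈ Metric.ball v ε, p ∈ curve L →
      (ori v w p = 0 ∧ 0 ≤ ori u v p) ∨ (ori u v p = 0 ∧ 0 ≤ ori v w p) := by
    intro p hp hpc
    rw [curve, hcyc, support_cons, support_append, support_cons] at hpc
    rcases hpc with hpc | hpc | hpc | hpc
    · left
      obtain ⟨s, t, hs, ht, hst, rfl⟩ := hpc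
      rw [ori_lin _ _ _ _ _ _ hst, ori_lin _ _ _ _ _ _ hst, ori_self_left, ori_self_right,
        ori_self_right]
      have := mul_nonneg ht hD.le
      constructor
      · simp
      · linarith
    · exact absurd hpc (hball hp)
    · right
      obtain ⟨s, t, hs, ht, hst, rfl⟩ := hpc
      rw [ori_lin _ _ _ _ _ _ hst, ori_lin _ _ _ _ _ _ hst, ori_self_left, ori_self_right,
        ori_self_left, ← ori_cyc]
      have := mul_nonneg hs hD.le
      constructor
      · simp
      · linarith
    · simp [support] at hpc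
  -- the outward direction
  set η : ℂ := -((u - v) + (w - v)) with hη
  have h1 := norm_sep (hn w (by simp)) hwv
  have h2 := norm_sep (hn u (by simp)) huv
  have hηpos : 0 < ((starRingEnd ℂ) v * η).re := by
    have : (starRingEnd ℂ) v * η = (-(starRingEnd ℂ) v) * (u - v) + (-(starRingEnd ℂ) v) * (w - v) := by
      rw [hη]; ring
    rw [this, add_re]; linarith
  have hηne : η ≠ 0 := by
    intro h; rw [h] at hηpos; simp at hηpos
  have hηn : 0 < ‖η‖ := norm_pos_iff.mpr hηne
  set t0 : ℝ := ε / (2 * ‖η‖) with ht0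
  have ht0pos : 0 < t0 := by positivity
  have hbig : ‖v‖ < ‖v + (t0 : ℂ) * η‖ := by
    have e : normSq v < normSq (v + (t0 : ℂ) * η) := by
      have e1 : normSq (v + (t0 : ℂ) * η) = normSq v + 2 * t0 * ((starRingEnd ℂ) v * η).re +
          t0 ^ 2 * normSq η := by
        simp only [normSq_apply, add_re, add_im, mul_re, mul_im, ofReal_re, ofReal_im, conj_re,
          conj_im]
        ring
      rw [e1]
      have := mul_pos ht0pos hηpos
      have := mul_nonneg (sq_nonneg t0) (normSq_nonneg η)
      linarith
    rw [normSq_eq_norm_sq, normSq_eq_norm_sq] at e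
    exact lt_of_pow_lt_pow_left₀ 2 (norm_nonneg _) e
  have hcont : ContinuousAt (fun p : ℂ => ‖p + (t0 : ℂ) * η‖) v := by fun_prop
  have hev := hcont.eventually_const_lt hbig
  have hev2 : ∀ᶠ p in 𝓝 v, 0 < ori w u p := by
    apply (continuous_ori w u).continuousAt.eventually_const_lt
    show 0 < ori w u v
    rw [ori_cyc]; exact hD
  obtain ⟨δ', hδ', hb''⟩ := Metric.eventually_nhds_iff_ball.mp (hev.and hev2)
  have hb' : ∀ p ∈ Metric.ball v δ', ‖v‖ < ‖p + (t0 : ℂ) * η‖ := fun p hp => (hb'' p hp).1
  refine ⟨min δ' (ε / 2), lt_min hδ' (by linarith), ?_, ?_⟩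
  · intro p hp h3 h4 hpc
    have hpε : p ∈ Metric.ball v ε := by
      rw [Metric.mem_ball] at hp ⊢
      have := lt_of_lt_of_le hp (min_le_right _ _)
      linarith
    rcases hcone p hpε hpc with h | h
    · linarith [h.1]
    · linarith [h.1]
  · intro p hp hpc
    by_cases hclosed : 0 ≤ ori u v p ∧ 0 ≤ ori v w p
    · left
      obtain ⟨h3, h4⟩ := hclosed
      have h5 : 0 < ori w u p := (hb'' p (by
        rw [Metric.mem_ball] at hp ⊢
        exact lt_of_lt_of_le hp (min_le_left _ _))).2
      have hadd := ori_add u v w p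
      constructor
      · rcases h3.lt_or_eq with h | h
        · exact h
        · exfalso
          rcases on_uv hD h.symm h4 (by linarith) with h6 | h6
          · exact hpc (h6 ▸ mem_curve_of_mem (by simp [hL]))
          · exact hpc ⟨(u, v), by rw [hcyc]; simp, openSegment_subset_segment ℝ _ _ h6⟩
      · rcases h4.lt_or_eq with h | h
        · exact h
        · exfalso
          rcases on_vw hD h.symm h3 (by linarith) with h6 | h6
          · exact hpc (h6 ▸ mem_curve_of_mem (by simp [hL]))
          · exact hpc ⟨(v, w), by rw [hcyc]; simp, openSegment_subset_segment ℝ _ _ h6⟩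
    right
    have hnot := hclosed
    refine ⟨p + (t0 : ℂ) * η, hb' p ?_, ?_⟩
    · rw [Metric.mem_ball] at hp ⊢
      exact lt_of_lt_of_le hp (min_le_left _ _)
    · intro z hz hzc
      obtain ⟨s, t, hs', ht', hst, rfl⟩ := hz
      have hzeq : s • p + t • (p + (t0 : ℂ) * η) = p + (t * t0 : ℝ) • η := by
        have : (s : ℂ) + t = 1 := by exact_mod_cast congrArg (fun x : ℝ => (x : ℂ)) hst
        simp only [real_smul]
        push_cast
        linear_combination p * this
      rw [hzeq] at hzc
      have hzε : p + (t * t0 : ℝ) • η ∈ Metric.ball v ε := by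
        rw [Metric.mem_ball, dist_eq_norm] at hp ⊢
        have e : p + (t * t0 : ℝ) • η - v = (p - v) + (t * t0 : ℝ) • η := by ring
        rw [e]
        have h3 : ‖(t * t0 : ℝ) • η‖ ≤ ε / 2 := by
          rw [norm_smul, Real.norm_eq_abs, abs_of_nonneg (mul_nonneg ht' ht0pos.le)]
          have : t * t0 * ‖η‖ ≤ 1 * (t0 * ‖η‖) := by
            rw [mul_assoc]
            exact mul_le_mul_of_nonneg_right (by linarith) (by positivity)
          have e2 : t0 * ‖η‖ = ε / 2 := by rw [ht0]; field_simp
          linarith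
        have h4 := lt_of_lt_of_le hp (min_le_right _ _)
        calc ‖(p - v) + (t * t0 : ℝ) • η‖ ≤ ‖p - v‖ + ‖(t * t0 : ℝ) • η‖ := norm_add_le _ _
          _ < ε := by linarith
      apply hnot
      set r := t * t0 with hr
      have hr0 : 0 ≤ r := mul_nonneg ht' ht0pos.le
      have e1 : ori u v (p + r • η) = ori u v p - r * ori u v w := by
        simp only [ori_def, hη, add_re, add_im, real_smul, mul_re, mul_im, ofReal_re, ofReal_im,
          neg_re, neg_im, sub_re, sub_im]
        ring
      have e2 : ori v w (p + r • η) = ori v w p - r * ori u v w := by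
        simp only [ori_def, hη, add_re, add_im, real_smul, mul_re, mul_im, ofReal_re, ofReal_im,
          neg_re, neg_im, sub_re, sub_im]
        ring
      have hrD := mul_nonneg hr0 hD.le
      rcases hcone _ hzε hzc with h | h
      · rw [e1, e2] at h
        exact ⟨by linarith [h.2], by linarith [h.1]⟩
      · rw [e1, e2] at h
        exact ⟨by linarith [h.1], by linarith [h.2]⟩

/-- in compact sets with small boundary all points are small -/
theorem norm_le_of_frontier {P : Set ℂ} (hc : IsCompact P) {r : ℝ}
    (h : ∀ x ∈ frontier P, ‖x‖ ≤ r) {p : ℂ} (hp : p ∈ P) : ‖p‖ ≤ r := by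
  obtain ⟨m, hm, hmax⟩ := hc.exists_isMaxOn ⟨p, hp⟩ continuous_norm.continuousOn
  have hpm : ‖p‖ ≤ ‖m‖ := hmax hp
  refine hpm.trans ?_
  by_cases hmi : m ∈ interior P
  · exfalso
    -- move outwards
    by_cases hm0 : m = 0
    · -- then P is {0}-like: some point near 0 in the interior has larger norm
      subst hm0
      obtain ⟨ε, hε, hb⟩ := Metric.isOpen_iff.mp isOpen_interior (0:ℂ) hmi
      have hq : ((ε / 2 : ℝ) : ℂ) ∈ P := interior_subset (hb (by
        rw [Metric.mem_ball, dist_zero_right, norm_real, Real.norm_eq_abs, abs_of_pos (by linarith)]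
        linarith))
      have := hmax hq
      simp only [Set.mem_ofPred_eq, norm_real, norm_zero, Real.norm_eq_abs] at this
      rw [abs_of_pos (by linarith)] at this
      linarith
    · have hcont : ContinuousAt (fun t : ℝ => ((1 + t : ℝ) : ℂ) * m) 0 := by fun_prop
      have h1 : ∀ᶠ t : ℝ in 𝓝 0, ((1 + t : ℝ) : ℂ) * m ∈ interior P := by
        apply hcont.eventually
        simpa using isOpen_interior.mem_nhds hmi
      have h2 : ∀ᶠ t : ℝ in 𝓝[>] 0, ((1 + t : ℝ) : ℂ) * m ∈ interior P := nhdsWithin_le_nhds h1
      obtain ⟨t, h3, h4⟩ := (h2.and self_mem_nhdsWithin).exists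
      have h4' : 0 < t := h4
      have := hmax (interior_subset h3)
      simp only [Set.mem_ofPred_eq, norm_mul, norm_real, Real.norm_eq_abs] at this
      rw [abs_of_pos (by linarith)] at this
      have hmn : 0 < ‖m‖ := norm_pos_iff.mpr hm0
      nlinarith
  · exact h m ⟨subset_closure hm, hmi⟩

theorem region_eq {P : Set ℂ} {L : List ℂ} (h3 : 3 ≤ L.length) (hc : IsCompact P)
    (hreg : closure (interior P) = P) (hf : frontier P = curve L) (hs : Simple L) (hg : Good L) :
    P = closure (inside L) := by
  classical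
  have hpi := Real.pi_pos
  have hPc : IsClosed P := hc.isClosed
  -- step 1: the inside is contained in the interior of P
  have step1 : inside L ⊆ interior P := by
    by_contra hnot
    have hdisj : Disjoint (inside L) P := by
      rw [Set.disjoint_left]
      intro x hx hxP
      apply hnot
      refine subset_interior hPc hg.conn ?_ hx hxP
      rw [hf, Set.disjoint_left]
      rintro y ⟨hy, -⟩
      exact hy
    -- choose an extreme vertex and rotate
    have hne : L.toFinset.Nonempty := by
      rw [List.toFinset_nonempty_iff]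
      rintro rfl
      simp at h3
    obtain ⟨v, hv, hmax⟩ := L.toFinset.exists_max_image (fun x => ‖x‖) hne
    rw [List.mem_toFinset] at hv
    have hmaxL : ∀ x ∈ L, ‖x‖ ≤ ‖v‖ := fun x hx => hmax x (by rw [List.mem_toFinset]; exact hx)
    obtain ⟨A, B, hAB⟩ := List.append_of_mem hv
    have hrot0 : L ~r (v :: (B ++ A)) := by
      have := List.isRotated_append (l := A) (l' := v :: B)
      rw [hAB]
      simpa using this
    obtain ⟨w, N, hN⟩ : ∃ w N, B ++ A = w :: N := by
      cases h : B ++ A with
      | nil =>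
        have := congrArg List.length h
        rw [hAB] at h3
        simp only [List.length_append, List.length_cons, List.length_nil] at this h3
        omega
      | cons w N => exact ⟨w, N, rfl⟩
    obtain ⟨M, u, hM⟩ : ∃ M u, N = M ++ [u] := by
      rcases List.eq_nil_or_concat N with rfl | ⟨M, u, rfl⟩
      · have := congrArg List.length hN
        rw [hAB] at h3
        simp only [List.length_append, List.length_cons, List.length_nil] at this h3
        omega
      · exact ⟨M, u, by simp⟩
    subst hM
    rw [hN] at hrot0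
    set L' := v :: w :: (M ++ [u]) with hL'
    have hs' : Simple L' := simple_isRotated hrot0 hs
    have hg' : Good L' := good_isRotated hrot0 hg
    obtain ⟨hin, hcur⟩ := inside_isRotated hrot0
    have hmem : ∀ x, x ∈ L' ↔ x ∈ L := fun x => hrot0.mem_iff.symm
    have hn : ∀ x ∈ w :: (M ++ [u]), ‖x‖ ≤ ‖v‖ := fun x hx =>
      hmaxL x ((hmem x).mp (List.mem_cons_of_mem _ hx))
    have hD := ori_pos_of_good hs' hn hg'
    obtain ⟨δ, hδ, hn1, hn2⟩ := near_corner hs' hn hD
    rw [← hL'] at hn1 hn2
    rw [← hcur] at hn1 hn2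
    have hvc : v ∈ curve L := mem_curve_of_mem hv
    -- the corner region is connected and off the curve
    have hconv : Convex ℝ (Metric.ball v δ ∩ {p | 0 < ori u v p ∧ 0 < ori v w p}) := by
      apply (convex_ball v δ).inter
      rintro x ⟨hx1, hx2⟩ y ⟨hy1, hy2⟩ s t hs ht hst
      have key : ∀ a b : ℂ, 0 < ori a b x → 0 < ori a b y → 0 < ori a b (s • x + t • y) := by
        intro a b h1 h2
        rw [ori_lin _ _ _ _ _ _ hst]
        rcases hs.lt_or_eq with h | h
        · have := mul_pos h h1; have := mul_nonneg ht h2.le; linarith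
        · have : t = 1 := by linarith
          rw [← h, this]; linarith
      exact ⟨key _ _ hx1 hy1, key _ _ hx2 hy2⟩
    have hcoff : ∀ p ∈ Metric.ball v δ ∩ {p | 0 < ori u v p ∧ 0 < ori v w p}, p ∉ curve L :=
      fun p hp => hn1 p hp.1 hp.2.1 hp.2.2
    -- a point of the inside near v
    have hva : v ∈ closure (inside L) := curve_subset_closure hs hg.w hvc
    obtain ⟨a, ha1, ha2⟩ := mem_closure_iff_nhds.mp hva _ (Metric.ball_mem_nhds v hδ)
    have ha3 : 0 < ori u v a ∧ 0 < ori v w a := by
      rcases hn2 a ha1 ha2.1 with h | ⟨q, hq1, hq2⟩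
      · exact h
      · exfalso
        have h1 := wsum_segment hq2 (left_mem_segment _ _ _) (right_mem_segment _ _ _)
        have h2 : wsum q L = 0 := wsum_of_norm fun x hx => lt_of_le_of_lt (hmaxL x hx) hq1
        rw [ha2.2, h2] at h1
        linarith
    -- a point of the interior of P near v
    have hvb : v ∈ closure (interior P) := by
      rw [hreg]
      exact hPc.frontier_subset (by rw [hf]; exact hvc)
    obtain ⟨b, hb1, hb2⟩ := mem_closure_iff_nhds.mp hvb _ (Metric.ball_mem_nhds v hδ)
    have hbc : b ∉ curve L := by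
      rw [← hf]
      exact fun h => h.2 hb2
    have hb3 : 0 < ori u v b ∧ 0 < ori v w b := by
      rcases hn2 b hb1 hbc with h | ⟨q, hq1, hq2⟩
      · exact h
      · exfalso
        have h1 : segment ℝ b q ⊆ interior P := by
          refine subset_interior hPc (convex_segment b q).isPreconnected ?_
            (left_mem_segment _ _ _) (interior_subset hb2)
          rw [hf, Set.disjoint_left]
          exact hq2
        have h2 := norm_le_of_frontier hc (r := ‖v‖) (by
          intro x hx; rw [hf] at hx; exact norm_le_of_mem_curve hmaxL hx)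
          (interior_subset (h1 (right_mem_segment _ _ _)))
        linarith
    -- the two meet
    have h1 := subset_interior hPc hconv.isPreconnected (by
      rw [hf, Set.disjoint_left]; exact hcoff) (x := b) ⟨hb1, hb3⟩ (interior_subset hb2)
    have h2 : a ∈ interior P := h1 ⟨ha1, ha3⟩
    exact Set.disjoint_left.mp hdisj ha2 (interior_subset h2)
  -- step 2: the interior of P has no other points
  have step2 : interior P ⊆ inside L := by
    by_contra hnot
    set O : Set ℂ := interior P ∩ {p | wsum p L = 0} with hO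
    have hoff : ∀ p ∈ interior P, p ∉ curve L := by
      intro p hp hpc
      rw [← hf] at hpc
      exact hpc.2 hp
    have hOne : O.Nonempty := by
      rw [Set.not_subset] at hnot
      obtain ⟨p, hp1, hp2⟩ := hnot
      have hpc := hoff p hp1
      rcases hg.w p hpc with h | h
      · exact ⟨p, hp1, h⟩
      · exact absurd ⟨hpc, h⟩ hp2
    have hOopen : IsOpen O := by
      rw [isOpen_iff_mem_nhds]
      rintro p ⟨hp1, hp2⟩
      filter_upwards [isOpen_interior.mem_nhds hp1, wsum_eventually (hoff p hp1)] with z h1 h2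
      exact ⟨h1, h2.2.trans hp2⟩
    have hOcl : ∀ x ∈ closure O, x ∉ O → x ∈ curve L := by
      intro x hx hxO
      by_contra hxc
      have hxP : x ∈ P := hPc.closure_subset_iff.mpr (Set.inter_subset_left.trans interior_subset) hx
      have hxi : x ∈ interior P := by
        by_contra h
        apply hxc
        rw [← hf]
        exact ⟨subset_closure hxP, h⟩
      obtain ⟨y, hy1, hy2⟩ := mem_closure_iff_nhds.mp hx _ (wsum_eventually hxc)
      exact hxO ⟨hxi, hy1.2.symm.trans hy2.2⟩
    -- a generic point of the boundary of O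
    obtain ⟨c, hc1, hc2, hc3⟩ : ∃ c, c ∈ closure O ∧ c ∉ O ∧ c ∉ L := by
      by_contra hcon
      push Not at hcon
      have hcomp : IsPreconnected ((L.toFinset : Set ℂ)ᶜ) :=
        (Set.Countable.isPathConnected_compl_of_one_lt_rank (by
          rw [Complex.rank_real_complex]; norm_num) (Finset.countable_toSet _)).isConnected.isPreconnected
      obtain ⟨o, ho⟩ := hOne
      have ho2 : o ∈ (L.toFinset : Set ℂ)ᶜ := by
        intro h
        rw [Finset.mem_coe, List.mem_toFinset] at h
        exact hoff o ho.1 (mem_curve_of_mem h)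
      have hsub : (L.toFinset : Set ℂ)ᶜ ⊆ O := by
        refine hcomp.subset_of_closure_inter_subset hOopen ⟨o, ho2, ho⟩ ?_
        rintro x ⟨hx1, hx2⟩
        by_contra hxO
        apply hx2
        rw [Finset.mem_coe, List.mem_toFinset]
        exact hcon x hx1 hxO
      -- unbounded
      obtain ⟨r, hr⟩ := hc.isBounded.exists_norm_le
      obtain ⟨r', hr'⟩ := (L.toFinset.finite_toSet.isBounded).exists_norm_le
      have hbig : ((max (max r r') 0 + 1 : ℝ) : ℂ) ∈ (L.toFinset : Set ℂ)ᶜ := by
        intro h
        have := hr' _ h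
        rw [norm_real, Real.norm_eq_abs, abs_of_pos (by positivity)] at this
        have := le_max_right r r'
        have := le_max_left (max r r') 0
        linarith
      have h4 := hr _ (interior_subset (hsub hbig).1)
      rw [norm_real, Real.norm_eq_abs, abs_of_pos (by positivity)] at h4
      have := le_max_left r r'
      have := le_max_left (max r r') 0
      linarith
    have hcc := hOcl c hc1 hc2
    obtain ⟨e, he, hce⟩ := hcc
    have hco : c ∈ openSegment ℝ e.1 e.2 := by
      rcases mem_segment_cases hce with h | h | h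
      · exact absurd (h ▸ fst_mem_of_mem_cyc he) hc3
      · exact absurd (h ▸ snd_mem_of_mem_cyc he) hc3
      · exact h
    obtain ⟨ε, hε, hball⟩ := Metric.eventually_nhds_iff_ball.mp (hs.jump' hg.w he hco)
    -- the right side lies in the interior of P
    have hRconv : Convex ℝ (Metric.ball c ε ∩ {p | ori e.1 e.2 p < 0}) := by
      apply (convex_ball c ε).inter
      rintro x hx y hy s t hs ht hst
      simp only [Set.mem_ofPred_eq] at *
      rw [ori_lin _ _ _ _ _ _ hst]
      rcases hs.lt_or_eq with h | h
      · have := mul_neg_of_pos_of_neg h hx; have := mul_nonpos_of_nonneg_of_nonpos ht hy.le; linarith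
      · have : t = 1 := by linarith
        rw [← h, this]; linarith
    have hR : Metric.ball c ε ∩ {p | ori e.1 e.2 p < 0} ⊆ interior P := by
      obtain ⟨y, hy1, hy2⟩ := mem_closure_iff_nhds.mp hc1 _ (Metric.ball_mem_nhds c hε)
      -- y is on the right side: not on the left by the winding sum; not on the line
      have hyn : ¬ 0 < ori e.1 e.2 y := by
        intro h
        have := ((hball y hy1).1 h).2
        rw [hy2.2] at this
        linarith
      -- move y slightly to the right
      have hopen : IsOpen (Metric.ball c ε ∩ O) := Metric.isOpen_ball.inter hOopen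
      obtain ⟨y', hy'1, hy'2⟩ : ∃ y', y' ∈ Metric.ball c ε ∩ O ∧ ori e.1 e.2 y' < 0 := by
        rcases lt_or_eq_of_le (not_lt.mp hyn) with h | h
        · exact ⟨y, ⟨hy1, hy2⟩, h⟩
        · have hcont : ContinuousAt (fun t : ℝ => y + (t : ℂ) * (-(I * (e.2 - e.1)))) 0 := by
            fun_prop
          have h1 : ∀ᶠ t : ℝ in 𝓝 0, y + (t : ℂ) * (-(I * (e.2 - e.1))) ∈ Metric.ball c ε ∩ O := by
            have h0 : Metric.ball c ε ∩ O ∈ 𝓝 (y + ((0 : ℝ) : ℂ) * (-(I * (e.2 - e.1)))) := by
              rw [ofReal_zero, zero_mul, add_zero]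
              exact hopen.mem_nhds ⟨hy1, hy2⟩
            exact hcont h0
          have h2 : ∀ᶠ t : ℝ in 𝓝[>] 0, y + (t : ℂ) * (-(I * (e.2 - e.1))) ∈
              Metric.ball c ε ∩ O := nhdsWithin_le_nhds h1
          obtain ⟨t, h3, h4⟩ := (h2.and self_mem_nhdsWithin).exists
          have h4' : 0 < t := h4
          refine ⟨_, h3, ?_⟩
          have e1 : ori e.1 e.2 (y + (t : ℂ) * (-(I * (e.2 - e.1)))) =
              ori e.1 e.2 y - t * normSq (e.2 - e.1) := by
            simp only [ori_def, normSq_apply, add_re, add_im, mul_re, mul_im, ofReal_re, ofReal_im,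
              I_re, I_im, sub_re, sub_im, neg_re, neg_im]
            ring
          rw [e1, h]
          have := mul_pos h4' (normSq_pos.mpr (sub_ne_zero.mpr (hs.ne he).symm))
          linarith
      refine subset_interior hPc hRconv.isPreconnected ?_ (x := y') ⟨hy'1.1, hy'2⟩
        (interior_subset hy'1.2.1)
      rw [hf, Set.disjoint_left]
      rintro z ⟨hz1, hz2⟩
      exact ((hball z hz1).2 hz2).1
    have hL' : Metric.ball c ε ∩ {p | 0 < ori e.1 e.2 p} ⊆ interior P := by
      rintro z ⟨hz1, hz2⟩
      exact step1 ((hball z hz1).1 hz2)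
    -- hence the whole ball lies in P
    have hballP : Metric.ball c ε ⊆ P := by
      intro z hz
      rcases lt_trichotomy (ori e.1 e.2 z) 0 with h | h | h
      · exact interior_subset (hR ⟨hz, h⟩)
      · -- limit of points on the right
        rw [← hPc.closure_eq, mem_closure_iff_nhds]
        intro t ht
        have hcont : ContinuousAt (fun t : ℝ => z + (t : ℂ) * (-(I * (e.2 - e.1)))) 0 := by
          fun_prop
        have h1 : ∀ᶠ r : ℝ in 𝓝 0, z + (r : ℂ) * (-(I * (e.2 - e.1))) ∈ Metric.ball c ε ∩ t := by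
          have h0 : Metric.ball c ε ∩ t ∈ 𝓝 (z + ((0 : ℝ) : ℂ) * (-(I * (e.2 - e.1)))) := by
            rw [ofReal_zero, zero_mul, add_zero]
            exact Filter.inter_mem (Metric.isOpen_ball.mem_nhds hz) ht
          exact hcont h0
        have h2 : ∀ᶠ r : ℝ in 𝓝[>] 0, z + (r : ℂ) * (-(I * (e.2 - e.1))) ∈
            Metric.ball c ε ∩ t := nhdsWithin_le_nhds h1
        obtain ⟨r, h3, h4⟩ := (h2.and self_mem_nhdsWithin).exists
        have h4' : 0 < r := h4
        refine ⟨_, h3.2, interior_subset (hR ⟨h3.1, ?_⟩)⟩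
        have e1 : ori e.1 e.2 (z + (r : ℂ) * (-(I * (e.2 - e.1)))) =
            ori e.1 e.2 z - r * normSq (e.2 - e.1) := by
          simp only [ori_def, normSq_apply, add_re, add_im, mul_re, mul_im, ofReal_re, ofReal_im,
            I_re, I_im, sub_re, sub_im, neg_re, neg_im]
          ring
        show ori e.1 e.2 _ < 0
        rw [e1, h]
        have := mul_pos h4' (normSq_pos.mpr (sub_ne_zero.mpr (hs.ne he).symm))
        linarith
      · exact interior_subset (hL' ⟨hz, h⟩)
    have hci : c ∈ interior P := mem_interior.mpr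
      ⟨_, hballP, Metric.isOpen_ball, Metric.mem_ball_self hε⟩
    exact hoff c hci ⟨e, he, hce⟩
  have hint : interior P = inside L := Set.Subset.antisymm step2 step1
  rw [← hint, hreg]

end Pool.Agent.Lib.FoldCut
end

section
/-!
# From pieces of paper to good lists
-/
namespace Pool.Agent.Lib.FoldCut

open Complex Real Topology

/-- consecutive pairs of a list given by a function -/
theorem chain_range (q : ℕ → ℂ) (n : ℕ) :
    chain ((List.range (n + 1)).map q) = (List.range n).map fun k => (q k, q (k + 1)) := by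
  induction n with
  | zero => simp
  | succ n ih =>
    rw [List.range_succ, List.map_append, List.range_succ, List.map_append, List.append_assoc]
    have e : (List.range n).map q ++ (List.map q [n] ++ List.map q [n + 1]) =
        (List.range n).map q ++ q n :: [q (n + 1)] := by simp
    rw [e, chain_append]
    have e2 : (List.range n).map q ++ [q n] = (List.range (n + 1)).map q := by
      rw [List.range_succ, List.map_append]; simp
    rw [e2, ih]
    simp

theorem cyc_range (q : ℕ → ℂ) {n : ℕ} (hn : 0 < n) (hq : q n = q 0) :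
    cyc ((List.range n).map q) = (List.range n).map fun k => (q k, q (k + 1)) := by
  rw [← chain_range, List.range_succ, List.map_append]
  obtain ⟨m, rfl⟩ : ∃ m, n = m + 1 := ⟨n - 1, by omega⟩
  rw [List.range_succ_eq_map]
  simp only [List.map_cons, List.map_nil, cyc, List.cons_append]
  rw [hq]

theorem exists_list {P : Set ℂ} {n : ℕ} {v : ZMod n → ℂ} (h : IsPaper P n v) :
    ∃ L : List ℂ, L.length = n ∧ Simple L ∧ Good L ∧ frontier P = curve L ∧
      P = closure (inside L) ∧ ∀ i, v i ∈ L := by
  have h3 := h.three_le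
  have : NeZero n := ⟨by omega⟩
  set q : ℕ → ℂ := fun k => v (k : ZMod n) with hq
  have hqn : q n = q 0 := by simp [hq]
  set L := (List.range n).map q with hL
  have hcyc : cyc L = (List.range n).map fun k => (q k, q (k + 1)) := cyc_range q (by omega) hqn
  have hpt : ∀ (k : ℕ) (t : ℝ) (ht : t ∈ Set.Ico (0:ℝ) 1),
      curvePt v ((k : ZMod n), ⟨t, ht⟩) = (1 - t) • q k + t • q (k + 1) := by
    intro k t ht
    simp [curvePt, hq]
  have hcast : ∀ k l : ℕ, k < n → l < n → (k : ZMod n) = l → k = l := by
    intro k l hk hl hkl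
    rw [ZMod.natCast_eq_natCast_iff'] at hkl
    rwa [Nat.mod_eq_of_lt hk, Nat.mod_eq_of_lt hl] at hkl
  have hinj : ∀ (k l : ℕ) (t s : ℝ) (ht : t ∈ Set.Ico (0:ℝ) 1) (hs : s ∈ Set.Ico (0:ℝ) 1),
      k < n → l < n → (1 - t) • q k + t • q (k + 1) = (1 - s) • q l + s • q (l + 1) →
      k = l ∧ t = s := by
    intro k l t s ht hs hk hl he
    rw [← hpt k t ht, ← hpt l s hs] at he
    have := h.simple he
    simp only [Prod.mk.injEq, Subtype.mk.injEq] at this
    exact ⟨hcast k l hk hl this.1, this.2⟩
  have h0 : (0:ℝ) ∈ Set.Ico (0:ℝ) 1 := ⟨le_rfl, by norm_num⟩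
  have hopen : ∀ (k : ℕ) (p : ℂ), p ∈ openSegment ℝ (q k) (q (k + 1)) →
      ∃ t : ℝ, 0 < t ∧ t < 1 ∧ p = (1 - t) • q k + t • q (k + 1) := by
    rintro k p ⟨s, t, hs, ht, hst, rfl⟩
    exact ⟨t, ht, by linarith, by rw [show s = 1 - t by linarith]⟩
  have hsimple : Simple L := by
    refine ⟨?_, ?_, ?_⟩
    · rw [hL]
      apply List.Nodup.map_on _ List.nodup_range
      intro k hk l hl hkl
      rw [List.mem_range] at hk hl
      exact (hinj k l 0 0 h0 h0 hk hl (by simpa using hkl)).1
    · intro x hx e he hxe
      rw [hL, List.mem_map] at hx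
      obtain ⟨l, hl, rfl⟩ := hx
      rw [hcyc, List.mem_map] at he
      obtain ⟨k, hk, rfl⟩ := he
      rw [List.mem_range] at hk hl
      obtain ⟨t, ht0, ht1, he⟩ := hopen k _ hxe
      have := (hinj l k 0 t h0 ⟨ht0.le, ht1⟩ hl hk (by
        rw [sub_zero, one_smul, zero_smul, add_zero]; exact he)).2
      linarith
    · rw [hcyc, List.pairwise_map]
      refine List.Nodup.pairwise_of_forall_ne List.nodup_range ?_
      intro k hk l hl hkl
      rw [List.mem_range] at hk hl
      rw [Set.disjoint_left]
      intro p hp1 hp2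
      obtain ⟨t, ht0, ht1, rfl⟩ := hopen k _ hp1
      obtain ⟨s, hs0, hs1, he⟩ := hopen l _ hp2
      exact hkl (hinj k l t s ⟨ht0.le, ht1⟩ ⟨hs0.le, hs1⟩ hk hl he).1
  have hcurve : polygonCurve v = curve L := by
    ext p
    simp only [polygonCurve, Set.mem_iUnion, curve, mem_support, hcyc, List.mem_map]
    constructor
    · rintro ⟨i, hi⟩
      refine ⟨(q i.val, q (i.val + 1)), ⟨i.val, ?_, rfl⟩, ?_⟩
      · rw [List.mem_range]; exact ZMod.val_lt i
      · simpa [hq] using hi
    · rintro ⟨e, ⟨k, hk, rfl⟩, hp⟩
      refine ⟨(k : ZMod n), ?_⟩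
      simpa [hq] using hp
  have hmem : ∀ i, v i ∈ L := by
    intro i
    rw [hL, List.mem_map]
    exact ⟨i.val, by rw [List.mem_range]; exact ZMod.val_lt i, by simp [hq]⟩
  have hlen : L.length = n := by simp [hL]
  have hf := h.frontier_eq
  rw [hcurve] at hf
  rcases good_or (by omega) hsimple with hg | hg
  · exact ⟨L, hlen, hsimple, hg, hf, region_eq (by omega) h.compact h.regular hf hsimple hg, hmem⟩
  · have hf' : frontier P = curve L.reverse := by rw [curve_reverse]; exact hf
    have hs' := simple_reverse hsimple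
    exact ⟨L.reverse, by simpa using hlen, hs', hg, hf',
      region_eq (by simpa using (by omega : 3 ≤ L.length)) h.compact h.regular hf' hs' hg,
      fun i => by simpa using hmem i⟩

end Pool.Agent.Lib.FoldCut
end
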