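import Pool.Agent.Lib.MP_12ced6_co.FoldMap

/-!
# The hinges
-/

namespace Pool.Agent.Lib.FoldCut

open Complex Real Topology

/-- coordinates preserve distances -/
theorem coord_dist {A B : ℂ} (h : A ≠ B) (w w' : ℂ) :
    (cx A B w - cx A B w') ^ 2 + (cy A B w - cy A B w') ^ 2 = ‖w - w'‖ ^ 2 := by
  have hn : 0 < ‖B - A‖ := norm_pos_iff.mpr (sub_ne_zero.mpr h.symm)
  have hsq := norm_sq_eq (B - A)
  have hsq' := norm_sq_eq (w - w')
  rw [hsq']
  simp only [sub_re, sub_im] at hsq ⊢
  unfold cx cy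
  rw [← sub_div, ← sub_div, div_pow, div_pow, ← add_div, hsq]
  simp only [dt, ori_def, sub_re, sub_im]
  have hpos : (B.re - A.re) ^ 2 + (B.im - A.im) ^ 2 ≠ 0 := by rw [← hsq]; positivity
  rw [div_eq_iff hpos]
  ring

/-- the placement of a facet -/
noncomputable def isoG (A B : ℂ) (h : A ≠ B) (X d σ : ℝ) (hσ : σ = 1 ∨ σ = -1) : ℂ ≃ᵢ ℂ :=
  IsometryEquiv.mk' (fun w => (⟨X - cx A B w, d + σ * cy A B w⟩ : ℂ))
    (fun z => pt A B (X - z.re) (σ * (z.im - d)))
    (by
      intro z
      have h2 : σ * σ = 1 := by rcases hσ with rfl | rfl <;> norm_num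
      apply Complex.ext
      · simp only [cx_pt h]; ring
      · simp only [cy_pt h]
        linear_combination (z.im - d) * h2)
    (by
      apply Isometry.of_dist_eq
      intro w w'
      have h2 : σ ^ 2 = 1 := by rcases hσ with rfl | rfl <;> norm_num
      rw [Complex.dist_eq, Complex.dist_eq]
      have e1 := coord_dist h w w'
      have e2 := norm_sq_eq ((⟨X - cx A B w, d + σ * cy A B w⟩ : ℂ) -
        (⟨X - cx A B w', d + σ * cy A B w'⟩ : ℂ))
      simp only [sub_re, sub_im] at e2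
      have e3 : ‖((⟨X - cx A B w, d + σ * cy A B w⟩ : ℂ) -
        (⟨X - cx A B w', d + σ * cy A B w'⟩ : ℂ))‖ ^ 2 = ‖w - w'‖ ^ 2 := by
        rw [e2, ← e1]
        linear_combination (cy A B w - cy A B w') ^ 2 * h2
      exact (sq_eq_sq₀ (norm_nonneg _) (norm_nonneg _)).mp e3)

theorem isoG_apply (A B : ℂ) (h : A ≠ B) (X d σ : ℝ) (hσ : σ = 1 ∨ σ = -1) (w : ℂ) :
    isoG A B h X d σ hσ w = ⟨X - cx A B w, d + σ * cy A B w⟩ := rfl

/-- the orientation of the placement is determined -/
theorem isoG_sign {A B A' B' : ℂ} {h : A ≠ B} {h' : A' ≠ B'} {X d σ X' d' σ' : ℝ}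
    {hσ : σ = 1 ∨ σ = -1} {hσ' : σ' = 1 ∨ σ' = -1}
    (he : isoG A B h X d σ hσ = isoG A' B' h' X' d' σ' hσ') : σ = σ' := by
  have hn : 0 < ‖B - A‖ := norm_pos_iff.mpr (sub_ne_zero.mpr h.symm)
  have hn' : 0 < ‖B' - A'‖ := norm_pos_iff.mpr (sub_ne_zero.mpr h'.symm)
  have key : ∀ w, (⟨X - cx A B w, d + σ * cy A B w⟩ : ℂ) =
      ⟨X' - cx A' B' w, d' + σ' * cy A' B' w⟩ := by
    intro w
    have := congrArg (fun f : ℂ ≃ᵢ ℂ => f w) he
    simpa only [isoG_apply] using this
  have k0 := key 0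
  have k1 := key 1
  have k2 := key I
  have r0 := congrArg Complex.re k0
  have i0 := congrArg Complex.im k0
  have r1 := congrArg Complex.re k1
  have i1 := congrArg Complex.im k1
  have r2 := congrArg Complex.re k2
  have i2 := congrArg Complex.im k2
  simp only at r0 i0 r1 i1 r2 i2
  -- the orientation as a determinant
  have det : ∀ A B : ℂ, A ≠ B → (cx A B 1 - cx A B 0) * (cy A B I - cy A B 0) -
      (cx A B I - cx A B 0) * (cy A B 1 - cy A B 0) = 1 := by
    intro A B hAB
    have hn : 0 < ‖B - A‖ := norm_pos_iff.mpr (sub_ne_zero.mpr hAB.symm)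
    have hsq := norm_sq_eq (B - A)
    simp only [sub_re, sub_im] at hsq
    unfold cx cy
    rw [← sub_div, ← sub_div, ← sub_div, ← sub_div, div_mul_div_comm, div_mul_div_comm, ← sub_div,
      div_eq_iff (by positivity), ← sq, hsq]
    simp only [dt, ori_def, sub_re, sub_im, zero_re, zero_im, one_re, one_im, I_re, I_im]
    ring
  have d1 := det A B h
  have d2 := det A' B' h'
  have e1 : cx A B 1 - cx A B 0 = cx A' B' 1 - cx A' B' 0 := by linarith
  have e2 : cx A B I - cx A B 0 = cx A' B' I - cx A' B' 0 := by linarith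
  have e3 : σ * (cy A B 1 - cy A B 0) = σ' * (cy A' B' 1 - cy A' B' 0) := by linarith
  have e4 : σ * (cy A B I - cy A B 0) = σ' * (cy A' B' I - cy A' B' 0) := by linarith
  calc σ = σ * ((cx A B 1 - cx A B 0) * (cy A B I - cy A B 0) -
      (cx A B I - cx A B 0) * (cy A B 1 - cy A B 0)) := by rw [d1, mul_one]
    _ = (cx A B 1 - cx A B 0) * (σ * (cy A B I - cy A B 0)) -
      (cx A B I - cx A B 0) * (σ * (cy A B 1 - cy A B 0)) := by ring
    _ = σ' * ((cx A' B' 1 - cx A' B' 0) * (cy A' B' I - cy A' B' 0) -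
      (cx A' B' I - cx A' B' 0) * (cy A' B' 1 - cy A' B' 0)) := by rw [e1, e2, e3, e4]; ring
    _ = σ' := by rw [d2, mul_one]

namespace Setup

variable (S : Setup)

/-- points on a bisector are determined by their distance along the side -/
theorem bis_unique {u v c : ℕ} (h : Tri S.t u v c) {w w' : ℂ} (h1 : w ∈ Poly (S.pl u v))
    (h2 : w ∈ Poly (S.pl v c)) (h1' : w' ∈ Poly (S.pl u v)) (h2' : w' ∈ Poly (S.pl v c))
    (he : cx (S.q v) (S.q c) w = cx (S.q v) (S.q c) w') : w = w' := by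
  obtain ⟨a1, a2, a3, -⟩ := S.bis h h1 h2
  obtain ⟨b1, b2, b3, -⟩ := S.bis h h1' h2'
  have hpos : 0 < ori (S.q v) (S.q c) (S.q u) := by
    have := S.tri_pos h
    rwa [ori_cyc] at this
  obtain ⟨ht, -⟩ := corner hpos
  apply eq_of_coord (S.q_ne_of_dir h.rot.dir) he
  rw [a1, b1]
  rw [he, b3] at a3
  exact (mul_left_cancel₀ ht.ne' a3).symm

theorem edge_unique {u v : ℕ} (h : Dir S.t u v) {w w' : ℂ} (h1 : w ∈ Poly (S.pl u v))
    (h2 : w ∈ Poly (S.pl v u)) (h1' : w' ∈ Poly (S.pl u v)) (h2' : w' ∈ Poly (S.pl v u))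
    (he : cx (S.q u) (S.q v) w = cx (S.q u) (S.q v) w') : w = w' := by
  apply eq_of_coord (S.q_ne_of_dir h) he
  rw [S.on_edge h h1 h2, S.on_edge h h1' h2']

end Setup

/-- the sign of the placement of a facet -/
noncomputable def Setup.sg (S : Setup) (φ : ℕ × ℕ × Bool) : ℝ :=
  if φ.2.2 then - S.ep (pc φ).1 (pc φ).2 else S.ep (pc φ).1 (pc φ).2

theorem Setup.sg_cases (S : Setup) (φ : ℕ × ℕ × Bool) : S.sg φ = 1 ∨ S.sg φ = -1 := by
  unfold Setup.sg
  rcases S.ep_cases (pc φ).1 (pc φ).2 with h | h <;> rw [h] <;> split_ifs <;> norm_num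

variable {S : Setup} (R : Par S)

namespace Par


/-- the placement of the facet `φ` -/
noncomputable def iso (φ : ℕ × ℕ × Bool) (h : Fac S.t φ) : ℂ ≃ᵢ ℂ :=
  isoG (S.q φ.1) (S.q φ.2.1) (S.q_ne_of_dir h) (R.X φ.1) S.d (S.sg φ) (S.sg_cases φ)

/-- the values of the folding map on a facet -/
theorem F_re {φ : ℕ × ℕ × Bool} (h : Fac S.t φ) {w : ℂ} (hw : w ∈ R.K φ) :
    (R.F w).re = R.X φ.1 - cx (S.q φ.1) (S.q φ.2.1) w := by
  have h1 := R.mem_K.mp hw
  rw [R.F_eq h.dir h1.1]
  unfold g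
  simp only
  obtain ⟨i, j, b⟩ := φ
  cases b
  · have h2 := h1.2
    simp only [pc, Bool.false_eq_true, if_false] at h2 ⊢
    rw [abs_of_nonpos (by linarith)]; ring
  · have h2 := h1.2
    have h3 := R.g_re (Dir.symm h) w
    simp only [pc, if_true] at h2 h3 ⊢
    rw [h3, abs_of_nonpos (by linarith)]; ring

theorem F_im {φ : ℕ × ℕ × Bool} (h : Fac S.t φ) {w : ℂ} (hw : w ∈ R.K φ) :
    (R.F w).im = S.d + S.ep (pc φ).1 (pc φ).2 * cy (S.q (pc φ).1) (S.q (pc φ).2) w := by
  rw [R.F_eq h.dir (R.mem_K.mp hw).1]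
  rfl

theorem F_iso {φ : ℕ × ℕ × Bool} (h : Fac S.t φ) {w : ℂ} (hw : w ∈ R.K φ) :
    R.F w = R.iso φ h w := by
  unfold iso
  rw [isoG_apply]
  apply Complex.ext
  · exact R.F_re h hw
  · simp only
    rw [R.F_im h hw]
    obtain ⟨i, j, b⟩ := φ
    cases b
    · simp [Setup.sg, pc]
    · simp only [Setup.sg, pc, if_true]
      rw [cy_swap (S.q i) (S.q j)]; ring

/-- the least abscissa of a facet -/
noncomputable def cc (φ : ℕ × ℕ × Bool) : ℝ := R.X φ.1 - R.sd φ.1 φ.2.1

theorem cc_le {φ : ℕ × ℕ × Bool} (h : Fac S.t φ) {w : ℂ} (hw : w ∈ R.K φ) :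
    R.cc φ ≤ (R.F w).re := by
  rw [R.F_re h hw]
  have := (R.mem_K.mp hw).2
  unfold cc; linarith

theorem cc_lt {φ : ℕ × ℕ × Bool} (h : Fac S.t φ) {w : ℂ} (hw : w ∈ interior (R.K φ)) :
    R.cc φ < (R.F w).re := by
  rw [R.F_re h (interior_subset hw)]
  rw [R.K_interior h, mem_KO] at hw
  have := hw.2
  unfold cc; linarith

theorem cc_pc {φ : ℕ × ℕ × Bool} (h : Fac S.t φ) :
    R.cc φ = R.X (pc φ).1 - R.sd (pc φ).1 (pc φ).2 := by
  obtain ⟨i, j, b⟩ := φ
  cases b
  · simp [cc, pc]
  · simp only [cc, pc, if_true]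
    exact R.val _ _ h

theorem nested_cc {u v : ℕ} (h : Dir S.t u v) {χ : ℕ × ℕ × Bool} (hχ : Fac S.t χ)
    (hn : Nested u v χ) : R.X u - R.sd u v ≤ R.cc χ :=
  R.mono _ _ _ _ h hχ hn.1 hn.2

/-- the turning point of a piece -/
theorem turn {φ : ℕ × ℕ × Bool} (h : Fac S.t φ) {w : ℂ} (hw : w ∈ R.K φ)
    (he : (R.F w).re = R.cc φ) :
    cx (S.q (pc φ).1) (S.q (pc φ).2) w = R.sd (pc φ).1 (pc φ).2 := by
  rw [R.F_re h hw] at he
  have h1 : cx (S.q φ.1) (S.q φ.2.1) w = R.sd φ.1 φ.2.1 := by unfold cc at he; linarith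
  obtain ⟨i, j, b⟩ := φ
  cases b
  · simpa [pc] using h1
  · have h2 := R.cx_add (Dir.symm h) w
    simp only [pc, if_true] at h1 h2 ⊢
    linarith

/-- separated hinges -/
def Sepd (φ ψ : ℕ × ℕ × Bool) : Prop :=
  S.sg φ ≠ S.sg ψ ∧ ∀ χ, Fac S.t χ → Btw S.t φ ψ χ →
    (∀ w ∈ R.K φ ∩ R.K ψ, ∀ z ∈ interior (R.K χ), R.F w ≠ R.F z) ∧
    {w | w ∈ R.K φ ∩ R.K ψ ∧ ∃ z ∈ R.K χ, R.F w = R.F z}.Finite

theorem Sepd.symm {R : Par S} {φ ψ : ℕ × ℕ × Bool} (h : R.Sepd φ ψ) : R.Sepd ψ φ := by
  refine ⟨h.1.symm, fun χ h1 h2 => ?_⟩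
  obtain ⟨h3, h4⟩ := h.2 χ h1 (by unfold Btw at *; tauto)
  refine ⟨fun w hw => h3 w hw.symm, ?_⟩
  rw [Set.inter_comm]; exact h4

theorem not_sub {A : Set ℂ} (h : A.Infinite) (h' : ∀ w ∈ A, ∀ w' ∈ A, w = w') : False :=
  h (Set.Subsingleton.finite h')

/-- related pieces: the possible hinges -/
theorem hinge_rel {φ ψ : ℕ × ℕ × Bool} (hφ : Fac S.t φ) (hψ : Fac S.t ψ)
    (hinf : (R.K φ ∩ R.K ψ).Infinite)
    (hr : Rel S.t (pc φ).1 (pc φ).2 (pc ψ).1 (pc ψ).2) : Adj S.t φ ψ ∨ R.Sepd φ ψ := by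
  have hd := hφ.dir
  have hd' := hψ.dir
  obtain ⟨u, hu⟩ : ∃ u, (pc φ).1 = u := ⟨_, rfl⟩
  obtain ⟨v, hv⟩ : ∃ v, (pc φ).2 = v := ⟨_, rfl⟩
  obtain ⟨u', hu'⟩ : ∃ u, (pc ψ).1 = u := ⟨_, rfl⟩
  obtain ⟨v', hv'⟩ : ∃ v, (pc ψ).2 = v := ⟨_, rfl⟩
  have hφK : ∀ w ∈ R.K φ ∩ R.K ψ, w ∈ Poly (S.pl u v) := fun w hw => by
    rw [← hu, ← hv]; exact R.K_sub_pl φ hw.1
  have hψK : ∀ w ∈ R.K φ ∩ R.K ψ, w ∈ Poly (S.pl u' v') := fun w hw => by
    rw [← hu', ← hv']; exact R.K_sub_pl ψ hw.2
  have hTφ : ∀ w ∈ R.K φ ∩ R.K ψ, cx (S.q φ.1) (S.q φ.2.1) w ≤ R.sd φ.1 φ.2.1 :=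
    fun w hw => (R.mem_K.mp hw.1).2
  have hTψ : ∀ w ∈ R.K φ ∩ R.K ψ, cx (S.q ψ.1) (S.q ψ.2.1) w ≤ R.sd ψ.1 ψ.2.1 :=
    fun w hw => (R.mem_K.mp hw.2).2
  rw [hu, hv] at hd
  rw [hu', hv'] at hd'
  rw [hu, hv, hu', hv'] at hr
  rcases hr with ⟨ht, rfl⟩ | ⟨rfl, rfl⟩ | ⟨hvn, hun, rfl, rfl⟩
  · -- bisector at `u'`, triangle `u u' v'`
    have htri := R.tri _ _ _ ht
    have hbis := fun w hw => S.bis ht (hφK w hw) (hψK w hw)
    rcases pc_eq hu hv with rfl | rfl <;> rcases pc_eq hu' hv' with rfl | rfl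
    · -- far, near
      exfalso
      refine not_sub hinf fun w hw w' hw' => ?_
      have key : ∀ w ∈ R.K (u, u', false) ∩ R.K (u', v', false),
          cx (S.q u') (S.q v') w = R.sd u' u := by
        intro w hw
        obtain ⟨-, e2, -, e3⟩ := hbis w hw
        have k1 := hTφ w hw
        have k2 := hTψ w hw
        have k3 := R.cx_add hd w
        simp only at k1 k2 k3
        have k4 : cx (S.q u') (S.q v') w ≤ min (R.sd u' v') (ta S.q u' u v') := le_min k2 e3
        rw [← htri] at k4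
        have k5 := min_le_left (R.sd u' u) (ta S.q u' u v')
        linarith
      exact S.bis_unique ht (hφK w hw) (hψK w hw) (hφK w' hw') (hψK w' hw')
        (by rw [key w hw, key w' hw'])
    · -- far, far
      rcases lt_or_ge (R.sd u' u) (ta S.q u' u v') with hlt | hge
      · right
        rw [min_eq_left hlt.le] at htri
        have hsd : R.sd u' v' = R.sd u' u := by
          rcases le_total (R.sd u' v') (ta S.q u' u v') with h3 | h3
          · rw [min_eq_left h3] at htri; exact htri.symm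
          · rw [min_eq_right h3] at htri; linarith
        have hmid : ¬ (u < u' ∧ u' < v') := by
          rintro ⟨g1, g2⟩
          have := R.mid _ _ _ ht g1 g2
          linarith
        have hdc : Dir S.t u v' := ht.rot.rot.dir.symm
        -- the separating abscissa
        have hC : R.X u' - 2 * R.sd u' u + ta S.q u' u v' ≤ R.X u - R.sd u v' := by
          have t1 := R.tri _ _ _ ht.rot.rot
          have t2 := R.tri _ _ _ ht.rot
          have a1 := R.add _ _ hd
          have a2 := R.add _ _ hd'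
          have a3 := R.add _ _ hdc
          have b1 := ta_add S.q u u' v'
          have b2 := ta_add S.q u' v' u
          have b3 := ta_add S.q u v' u'
          have c1 := ta_comm S.q u u' v'
          have c2 := ta_comm S.q u' v' u
          have c3 := ta_comm S.q v' u u'
          have v1 := R.val _ _ hd
          -- at `u`
          have u1 : ta S.q u v' u' ≤ R.sd u u' := by linarith
          -- at `v'`
          have u2 : ta S.q v' u' u ≤ R.sd v' u' := by linarith
          rw [min_eq_right u2] at t2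
          have u3 : ta S.q v' u' u ≤ R.sd v' u := by
            rw [t2]; exact min_le_left _ _
          linarith
        refine ⟨?_, fun χ hχ hb => ?_⟩
        · have e1 := S.ep_tri ht
          have e2 := S.ep_tri ht.rot
          simp only [Setup.sg, pc, if_true, Bool.false_eq_true, if_false, e1, e2]
          norm_num
        · have hnest := btw_tri ht hmid hχ hb
          have hcc := R.nested_cc hdc hχ hnest
          have hbound : ∀ w ∈ R.K (u, u', false) ∩ R.K (v', u', true),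
              (R.F w).re = R.X u' - 2 * R.sd u' u + cx (S.q u') (S.q v') w ∧
              cx (S.q u') (S.q v') w ≤ ta S.q u' u v' := by
            intro w hw
            obtain ⟨-, e2, -, e3⟩ := hbis w hw
            have k1 := R.F_re hφ hw.1
            have k2 := R.cx_add hd w
            have k3 := R.val _ _ hd
            simp only at k1
            refine ⟨?_, e3⟩
            rw [k1]
            linarith
          constructor
          · intro w hw z hz he
            have h1 := hbound w hw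
            have h2 := R.cc_lt hχ hz
            rw [← he, h1.1] at h2
            linarith [h1.2]
          · apply Set.Subsingleton.finite
            rintro w ⟨hw, z, hz, he⟩ w' ⟨hw', z', hz', he'⟩
            have h1 := hbound w hw
            have h1' := hbound w' hw'
            have h2 := R.cc_le hχ hz
            have h2' := R.cc_le hχ hz'
            rw [← he, h1.1] at h2
            rw [← he', h1'.1] at h2'
            apply S.bis_unique ht (hφK w hw) (hψK w hw) (hφK w' hw') (hψK w' hw')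
            linarith [h1.2, h1'.2]
      · exfalso
        refine not_sub hinf fun w hw w' hw' => ?_
        have key : ∀ w ∈ R.K (u, u', false) ∩ R.K (v', u', true),
            cx (S.q u') (S.q v') w = ta S.q u' u v' := by
          intro w hw
          obtain ⟨-, e2, -, e3⟩ := hbis w hw
          have k1 := hTφ w hw
          have k3 := R.cx_add hd w
          simp only at k1 k3
          linarith
        exact S.bis_unique ht (hφK w hw) (hψK w hw) (hφK w' hw') (hψK w' hw')
          (by rw [key w hw, key w' hw'])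
    · -- near, near
      left
      exact adj_tri ht
    · -- near, far
      exfalso
      refine not_sub hinf fun w hw w' hw' => ?_
      have key : ∀ w ∈ R.K (u', u, true) ∩ R.K (v', u', true),
          cx (S.q u') (S.q v') w = R.sd u' v' := by
        intro w hw
        obtain ⟨-, e2, -, e3⟩ := hbis w hw
        have k1 := hTφ w hw
        have k2 := hTψ w hw
        have k3 := R.cx_add hd' w
        simp only at k1 k2 k3
        have k4 : cx (S.q u') (S.q v') w ≤ min (R.sd u' u) (ta S.q u' u v') :=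
          le_min (by linarith) e3
        rw [htri] at k4
        have k5 := min_le_left (R.sd u' v') (ta S.q u' u v')
        linarith
      exact S.bis_unique ht (hφK w hw) (hψK w hw) (hφK w' hw') (hψK w' hw')
        (by rw [key w hw, key w' hw'])
  · -- the edge
    rcases pc_eq hu hv with rfl | rfl <;> rcases pc_eq hu' hv' with rfl | rfl
    · exfalso
      refine not_sub hinf fun w hw w' hw' => ?_
      have key : ∀ w ∈ R.K (v', u', false) ∩ R.K (u', v', false),
          cx (S.q v') (S.q u') w = R.sd v' u' := by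
        intro w hw
        have k1 := hTφ w hw
        have k2 := hTψ w hw
        have k3 := R.cx_add hd w
        simp only at k1 k2 k3
        linarith
      exact S.edge_unique hd (hφK w hw) (hψK w hw) (hφK w' hw') (hψK w' hw')
        (by rw [key w hw, key w' hw'])
    · left
      exact adj_edge hd
    · left
      exact (adj_edge hd').symm
    · exfalso
      refine not_sub hinf fun w hw w' hw' => ?_
      have key : ∀ w ∈ R.K (u', v', true) ∩ R.K (v', u', true),
          cx (S.q v') (S.q u') w = R.sd v' u' := by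
        intro w hw
        have k1 := hTφ w hw
        have k2 := hTψ w hw
        have k3 := R.cx_add hd w
        simp only at k1 k2 k3
        linarith
      exact S.edge_unique hd (hφK w hw) (hψK w hw) (hφK w' hw') (hψK w' hw')
        (by rw [key w hw, key w' hw'])
  · -- the mitre
    have hvn' : v' ≤ S.t.size := hd.bd.2.1
    have hmit := fun w hw => S.on_mitre hvn hun (hφK w hw) (hψK w hw)
    have hp1 := R.pos v' v hd
    have hp2 := R.pos v' _ hd'.symm
    rcases pc_eq hu hv with rfl | rfl <;> rcases pc_eq hu' hv' with rfl | rfl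
    · exfalso
      obtain ⟨w, hw⟩ := hinf.nonempty
      obtain ⟨H, -, -, k1, k2, k3, k4, k5⟩ := hmit w hw
      have k6 := hTψ w hw
      have k7 := R.cx_add hd' w
      simp only at k6 k7
      rw [abs_lt] at k1
      linarith
    · right
      refine ⟨?_, fun χ hχ hb => ?_⟩
      · have e1 := S.ep_out hvn hun
        have e2 := S.ep_out hvn' rfl
        simp only [Setup.sg, pc, if_true, Bool.false_eq_true, if_false, e1, e2]
        norm_num
      · obtain ⟨x, hx⟩ := btw_ribbon hun hvn rfl hχ hb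
        have him : ∀ w ∈ R.K (v', v, false) ∩ R.K (v', (v' + 1) % (S.t.size + 1), true),
            ∃ H ≤ 0, (R.F w).im = S.d + H ∧ cy (S.q v') (S.q v) w = - H ∧
              cx (S.q v') (S.q v) w = S.μ v' * H := by
          intro w hw
          obtain ⟨H, -, k0, k1, k2, k3, k4, k5⟩ := hmit w hw
          refine ⟨H, k0, ?_, k2, k3⟩
          rw [R.F_im hφ hw.1]
          have e1 := S.ep_out hvn hun
          simp only [pc, Bool.false_eq_true, if_false, e1, k2]
          ring
        have hz0 : ∀ z ∈ R.K χ, S.d ≤ (R.F z).im := by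
          intro z hz
          rw [R.F_im hχ hz, S.ep_tri hx]
          have := R.K_sub_pl χ hz
          rw [S.pl_tri hx, mem_secL] at this
          linarith [this.1]
        have hz1 : ∀ z ∈ interior (R.K χ), S.d < (R.F z).im := by
          intro z hz
          rw [R.F_im hχ (interior_subset hz), S.ep_tri hx]
          rw [R.K_interior hχ, mem_KO] at hz
          have := hz.1
          rw [S.pl_tri hx, mem_secLO] at this
          linarith [this.1]
        constructor
        · intro w hw z hz he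
          obtain ⟨H, k0, k1, -, -⟩ := him w hw
          have := hz1 z hz
          rw [← he, k1] at this
          linarith
        · apply Set.Subsingleton.finite
          rintro w ⟨hw, z, hz, he⟩ w' ⟨hw', z', hz', he'⟩
          obtain ⟨H, k0, k1, k2, k3⟩ := him w hw
          obtain ⟨H', k0', k1', k2', k3'⟩ := him w' hw'
          have g1 := hz0 z hz
          have g2 := hz0 z' hz'
          rw [← he, k1] at g1
          rw [← he', k1'] at g2
          have h0 : H = 0 := by linarith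
          have h0' : H' = 0 := by linarith
          apply eq_of_coord (S.q_ne_of_dir hd)
          · rw [k3, k3', h0, h0']
          · rw [k2, k2', h0, h0']
    · exfalso
      obtain ⟨w, hw⟩ := hinf.nonempty
      obtain ⟨H, -, -, k1, k2, k3, k4, k5⟩ := hmit w hw
      have k6 := hTφ w hw
      have k7 := R.cx_add hd w
      simp only at k6 k7
      rw [abs_lt] at k1
      linarith
    · exfalso
      obtain ⟨w, hw⟩ := hinf.nonempty
      obtain ⟨H, -, -, k1, k2, k3, k4, k5⟩ := hmit w hw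
      have k6 := hTφ w hw
      have k7 := R.cx_add hd w
      simp only at k6 k7
      rw [abs_lt] at k1
      linarith

/-- a point of an infinite intersection that is not a corner -/
theorem exists_rel {φ ψ : ℕ × ℕ × Bool} (hφ : Fac S.t φ) (hψ : Fac S.t ψ)
    (hinf : (R.K φ ∩ R.K ψ).Infinite) (hp : ¬ ((pc φ).1 = (pc ψ).1 ∧ (pc φ).2 = (pc ψ).2)) :
    Rel S.t (pc φ).1 (pc φ).2 (pc ψ).1 (pc ψ).2 ∨
      Rel S.t (pc ψ).1 (pc ψ).2 (pc φ).1 (pc φ).2 := by
  obtain ⟨w, hw, hw'⟩ := hinf.exists_notMem_finite ((Set.finite_Iic S.t.size).image S.q)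
  rcases S.meet hφ.dir hψ.dir hp (R.K_sub_pl _ hw.1) (R.K_sub_pl _ hw.2) with h | h | ⟨j, h1, h2, h3⟩
  · exact Or.inl h
  · exact Or.inr h
  · exfalso
    apply hw'
    refine ⟨j, ?_, h3.symm⟩
    have b := hφ.dir.bd
    rcases h1 with rfl | rfl
    · exact b.2.1
    · exact b.2.2

theorem hinge {φ ψ : ℕ × ℕ × Bool} (hφ : Fac S.t φ) (hψ : Fac S.t ψ)
    (hinf : (R.K φ ∩ R.K ψ).Infinite) (hp : ¬ ((pc φ).1 = (pc ψ).1 ∧ (pc φ).2 = (pc ψ).2)) :
    Adj S.t φ ψ ∨ R.Sepd φ ψ := by
  rcases R.exists_rel hφ hψ hinf hp with h | h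
  · exact R.hinge_rel hφ hψ hinf h
  · rw [Set.inter_comm] at hinf
    rcases R.hinge_rel hψ hφ hinf h with h1 | h1
    · exact Or.inl h1.symm
    · exact Or.inr h1.symm

/-- only one point of a hinge between different pieces is mapped to the extreme abscissa -/
theorem extreme_rel {φ ψ : ℕ × ℕ × Bool} (hφ : Fac S.t φ) (hψ : Fac S.t ψ)
    (hr : Rel S.t (pc φ).1 (pc φ).2 (pc ψ).1 (pc ψ).2) {w w' : ℂ} (hw : w ∈ R.K φ ∩ R.K ψ)
    (hw' : w' ∈ R.K φ ∩ R.K ψ) :
    ((R.F w).re = R.cc φ → (R.F w').re = R.cc φ → w = w') ∧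
    ((R.F w).re = R.cc ψ → (R.F w').re = R.cc ψ → w = w') := by
  have a1 := R.K_sub_pl φ hw.1
  have a2 := R.K_sub_pl ψ hw.2
  have a3 := R.K_sub_pl φ hw'.1
  have a4 := R.K_sub_pl ψ hw'.2
  have hd := hφ.dir
  have hd' := hψ.dir
  have t1 := R.turn hφ hw.1
  have t2 := R.turn hφ hw'.1
  have t3 := R.turn hψ hw.2
  have t4 := R.turn hψ hw'.2
  generalize (pc φ).1 = u at *
  generalize (pc φ).2 = v at *
  generalize (pc ψ).1 = u' at *
  generalize (pc ψ).2 = v' at *
  rcases hr with ⟨ht, rfl⟩ | ⟨rfl, rfl⟩ | ⟨hvn, hun, rfl, rfl⟩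
  · obtain ⟨-, e2, -, -⟩ := S.bis ht a1 a2
    obtain ⟨-, e2', -, -⟩ := S.bis ht a3 a4
    constructor
    · intro h1 h2
      apply S.bis_unique ht a1 a2 a3 a4
      have k1 := t1 h1
      have k2 := t2 h2
      have k3 := R.cx_add hd w
      have k4 := R.cx_add hd w'
      rw [← e2, ← e2']
      linarith
    · intro h1 h2
      apply S.bis_unique ht a1 a2 a3 a4
      rw [t3 h1, t4 h2]
  · constructor
    · intro h1 h2
      apply S.edge_unique hd a1 a2 a3 a4
      rw [t1 h1, t2 h2]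
    · intro h1 h2
      apply S.edge_unique hd' a2 a1 a4 a3
      rw [t3 h1, t4 h2]
  · obtain ⟨H, -, -, k1, k2, k3, k4, k5⟩ := S.on_mitre hvn hun a1 a2
    have hp1 := R.pos v' v hd
    have hp2 := R.pos v' _ hd'.symm
    rw [abs_lt] at k1
    constructor
    · intro h1 h2
      have := t1 h1
      linarith
    · intro h1 h2
      have := t3 h1
      have k7 := R.cx_add hd' w
      linarith

theorem extreme {φ ψ : ℕ × ℕ × Bool} (hφ : Fac S.t φ) (hψ : Fac S.t ψ)
    (hinf : (R.K φ ∩ R.K ψ).Infinite) (hp : ¬ ((pc φ).1 = (pc ψ).1 ∧ (pc φ).2 = (pc ψ).2)) :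
    {w | w ∈ R.K φ ∩ R.K ψ ∧ (R.F w).re = R.cc φ}.Finite := by
  apply Set.Subsingleton.finite
  rintro w ⟨hw, he⟩ w' ⟨hw', he'⟩
  rcases R.exists_rel hφ hψ hinf hp with h | h
  · exact (R.extreme_rel hφ hψ h hw hw').1 he he'
  · exact (R.extreme_rel hψ hφ h hw.symm hw'.symm).2 he he'

end Par

end Pool.Agent.Lib.FoldCut
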