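import Pool.Agent.Lib.MP_12ced6_co.Setup
import Pool.Agent.Lib.MP_12ced6_co.FromPaper
import Pool.Agent.Lib.MP_12ced6_co.Hinge
import Pool.Agent.Lib.MP_12ced6_co.Accordion

section
/-!
# The parallel inner polygon exists
-/
namespace Pool.Agent.Lib.FoldCut

open Complex Real Topology

/-- the left bisector vector in terms of the outgoing edge -/
theorem bisector_left {σ τ : ℂ} (hσ : ‖σ‖ = 1) (hτ : ‖τ‖ = 1)
    (h : 1 + ((starRingEnd ℂ) σ * τ).re ≠ 0) :
    I * (σ + τ) / ((1 + ((starRingEnd ℂ) σ * τ).re : ℝ) : ℂ) =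
      (((((starRingEnd ℂ) σ * τ).im / (1 + ((starRingEnd ℂ) σ * τ).re) : ℝ) : ℂ) + I) * τ := by
  have hσ2 : σ.re ^ 2 + σ.im ^ 2 = 1 := by rw [← norm_sq_eq, hσ]; norm_num
  have hτ2 : τ.re ^ 2 + τ.im ^ 2 = 1 := by rw [← norm_sq_eq, hτ]; norm_num
  have h' : ((1 + ((starRingEnd ℂ) σ * τ).re : ℝ) : ℂ) ≠ 0 := by exact_mod_cast h
  rw [div_eq_iff h']
  have e1 : (((((starRingEnd ℂ) σ * τ).im / (1 + ((starRingEnd ℂ) σ * τ).re) : ℝ) : ℂ) + I) * τ *
      ((1 + ((starRingEnd ℂ) σ * τ).re : ℝ) : ℂ) =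
      ((((starRingEnd ℂ) σ * τ).im : ℂ) + I * ((1 + ((starRingEnd ℂ) σ * τ).re : ℝ) : ℂ)) * τ := by
    rw [ofReal_div]
    field_simp
  rw [e1]
  apply Complex.ext
  · simp only [mul_re, mul_im, add_re, add_im, I_re, I_im, ofReal_re, ofReal_im, conj_re, conj_im]
    linear_combination (σ.im) * hτ2
  · simp only [mul_re, mul_im, add_re, add_im, I_re, I_im, ofReal_re, ofReal_im, conj_re, conj_im]
    linear_combination (-σ.re) * hτ2

/-- the left bisector vector in terms of the incoming edge -/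
theorem bisector_right {σ τ : ℂ} (hσ : ‖σ‖ = 1) (hτ : ‖τ‖ = 1)
    (h : 1 + ((starRingEnd ℂ) σ * τ).re ≠ 0) :
    I * (σ + τ) / ((1 + ((starRingEnd ℂ) σ * τ).re : ℝ) : ℂ) =
      (-((((starRingEnd ℂ) σ * τ).im / (1 + ((starRingEnd ℂ) σ * τ).re) : ℝ) : ℂ) + I) * σ := by
  have hσ2 : σ.re ^ 2 + σ.im ^ 2 = 1 := by rw [← norm_sq_eq, hσ]; norm_num
  have hτ2 : τ.re ^ 2 + τ.im ^ 2 = 1 := by rw [← norm_sq_eq, hτ]; norm_num
  have h' : ((1 + ((starRingEnd ℂ) σ * τ).re : ℝ) : ℂ) ≠ 0 := by exact_mod_cast h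
  rw [div_eq_iff h']
  have e1 : (-((((starRingEnd ℂ) σ * τ).im / (1 + ((starRingEnd ℂ) σ * τ).re) : ℝ) : ℂ) + I) * σ *
      ((1 + ((starRingEnd ℂ) σ * τ).re : ℝ) : ℂ) =
      (-(((starRingEnd ℂ) σ * τ).im : ℂ) + I * ((1 + ((starRingEnd ℂ) σ * τ).re : ℝ) : ℂ)) * σ := by
    rw [ofReal_div]
    field_simp
  rw [e1]
  apply Complex.ext
  · simp only [mul_re, mul_im, add_re, add_im, neg_re, neg_im, I_re, I_im, ofReal_re, ofReal_im,
      conj_re, conj_im]
    linear_combination (τ.im) * hσ2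
  · simp only [mul_re, mul_im, add_re, add_im, neg_re, neg_im, I_re, I_im, ofReal_re, ofReal_im,
      conj_re, conj_im]
    linear_combination (-τ.re) * hσ2

/-- opposite unit vectors -/
theorem eq_neg_of_one_add {σ τ : ℂ} (hσ : ‖σ‖ = 1) (hτ : ‖τ‖ = 1)
    (h : 1 + ((starRingEnd ℂ) σ * τ).re = 0) : τ = -σ := by
  have hσ2 : σ.re ^ 2 + σ.im ^ 2 = 1 := by rw [← norm_sq_eq, hσ]; norm_num
  have hτ2 : τ.re ^ 2 + τ.im ^ 2 = 1 := by rw [← norm_sq_eq, hτ]; norm_num
  simp only [mul_re, conj_re, conj_im] at h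
  have h2 : (σ.re + τ.re) ^ 2 + (σ.im + τ.im) ^ 2 = 0 := by
    linear_combination hσ2 + hτ2 + 2 * h
  have h3 : σ.re + τ.re = 0 := by nlinarith [sq_nonneg (σ.re + τ.re), sq_nonneg (σ.im + τ.im)]
  have h4 : σ.im + τ.im = 0 := by nlinarith [sq_nonneg (σ.re + τ.re), sq_nonneg (σ.im + τ.im)]
  apply Complex.ext
  · simp only [neg_re]; linarith
  · simp only [neg_im]; linarith

/-- the vertices of a list, periodically -/
def vtx (L : List ℂ) (j : ℕ) : ℂ := L.getD (j % L.length) 0

theorem vtx_per (L : List ℂ) (j : ℕ) : vtx L (j + L.length) = vtx L j := by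
  unfold vtx; rw [Nat.add_mod_right]

theorem vtx_mod (L : List ℂ) (j : ℕ) : vtx L (j % L.length) = vtx L j := by
  unfold vtx; rw [Nat.mod_mod]

theorem vtx_mod_succ (L : List ℂ) (j : ℕ) : vtx L (j % L.length + 1) = vtx L (j + 1) := by
  unfold vtx; rw [Nat.mod_add_mod]

theorem map_vtx (L : List ℂ) : (List.range L.length).map (vtx L) = L := by
  apply List.ext_getElem
  · simp
  · intro i h1 h2
    simp only [List.getElem_map, List.getElem_range, vtx, Nat.mod_eq_of_lt h2]
    rw [List.getD_eq_getElem _ _ h2]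

theorem vtx_inj {L : List ℂ} (hs : L.Nodup) {i j : ℕ} (hi : i < L.length) (hj : j < L.length)
    (h : vtx L i = vtx L j) : i = j := by
  simp only [vtx, Nat.mod_eq_of_lt hi, Nat.mod_eq_of_lt hj] at h
  rw [List.getD_eq_getElem _ _ hi, List.getD_eq_getElem _ _ hj] at h
  exact (List.Nodup.getElem_inj_iff hs).mp h

theorem vtx_succ_ne {L : List ℂ} (h3 : 3 ≤ L.length) (hs : L.Nodup) (j : ℕ) :
    vtx L (j + 1) ≠ vtx L j := by
  intro h
  rw [← vtx_mod L j, ← vtx_mod L (j + 1)] at h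
  have hpos : 0 < L.length := by omega
  have h1 := vtx_inj hs (Nat.mod_lt _ hpos) (Nat.mod_lt _ hpos) h
  have h2 : (j + 1) % L.length = (j % L.length + 1) % L.length := by rw [Nat.mod_add_mod]
  have h4 := Nat.mod_lt j hpos
  rcases Nat.lt_or_ge (j % L.length + 1) L.length with h5 | h5
  · rw [h2, Nat.mod_eq_of_lt h5] at h1; omega
  · have h6 : j % L.length + 1 = L.length := by omega
    rw [h2, h6, Nat.mod_self] at h1
    omega

theorem cyc_vtx {L : List ℂ} (h3 : 3 ≤ L.length) :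
    cyc L = (List.range L.length).map fun k => (vtx L k, vtx L (k + 1)) := by
  have h := cyc_range (vtx L) (n := L.length) (by omega) (by
    have := vtx_per L 0; simpa using this)
  rw [map_vtx] at h
  exact h

theorem vtx_disj {L : List ℂ} (h3 : 3 ≤ L.length) (hs : Simple L) {a b : ℕ}
    (hab : a % L.length ≠ b % L.length) :
    Disjoint (openSegment ℝ (vtx L a) (vtx L (a + 1))) (openSegment ℝ (vtx L b) (vtx L (b + 1))) := by
  have hpos : 0 < L.length := by omega
  have h1 := hs.disj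
  rw [cyc_vtx h3, List.pairwise_map] at h1
  have hsym : Std.Symm fun a b : ℕ => Disjoint
    (openSegment ℝ (vtx L a) (vtx L (a + 1))) (openSegment ℝ (vtx L b) (vtx L (b + 1))) :=
    ⟨fun _ _ h => h.symm⟩
  have h2 := List.Pairwise.forall h1 (List.mem_range.mpr (Nat.mod_lt a hpos))
    (List.mem_range.mpr (Nat.mod_lt b hpos)) hab
  rw [vtx_mod, vtx_mod, vtx_mod_succ, vtx_mod_succ] at h2
  exact h2

/-- the unit tangent vectors -/
noncomputable def tgt (L : List ℂ) (j : ℕ) : ℂ :=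
  (vtx L (j + 1) - vtx L j) / (‖vtx L (j + 1) - vtx L j‖ : ℂ)

theorem tgt_per (L : List ℂ) (j : ℕ) : tgt L (j + L.length) = tgt L j := by
  have : j + L.length + 1 = j + 1 + L.length := by ring
  unfold tgt; rw [this, vtx_per, vtx_per]

theorem norm_tgt {L : List ℂ} (h3 : 3 ≤ L.length) (hs : L.Nodup) (j : ℕ) : ‖tgt L j‖ = 1 := by
  have h : ‖vtx L (j + 1) - vtx L j‖ ≠ 0 :=
    norm_ne_zero_iff.mpr (sub_ne_zero.mpr (vtx_succ_ne h3 hs j))
  unfold tgt
  rw [norm_div, norm_real, Real.norm_eq_abs, abs_norm, div_self h]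

theorem tgt_step {L : List ℂ} (h3 : 3 ≤ L.length) (hs : L.Nodup) (j : ℕ) :
    vtx L (j + 1) - vtx L j = (‖vtx L (j + 1) - vtx L j‖ : ℂ) * tgt L j := by
  have h : (‖vtx L (j + 1) - vtx L j‖ : ℂ) ≠ 0 := by
    exact_mod_cast norm_ne_zero_iff.mpr (sub_ne_zero.mpr (vtx_succ_ne h3 hs j))
  unfold tgt
  rw [mul_div_cancel₀ _ h]

/-- the incoming unit tangent vector -/
noncomputable def tgp (L : List ℂ) (j : ℕ) : ℂ := tgt L (j + (L.length - 1))

theorem tgp_succ {L : List ℂ} (h3 : 3 ≤ L.length) (j : ℕ) : tgp L (j + 1) = tgt L j := by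
  unfold tgp
  rw [show j + 1 + (L.length - 1) = j + L.length by omega, tgt_per]

theorem tgp_per (L : List ℂ) (j : ℕ) : tgp L (j + L.length) = tgp L j := by
  unfold tgp
  rw [show j + L.length + (L.length - 1) = j + (L.length - 1) + L.length by omega, tgt_per]

theorem turn_ne {L : List ℂ} (h3 : 3 ≤ L.length) (hs : Simple L) (j : ℕ) :
    1 + ((starRingEnd ℂ) (tgp L j) * tgt L j).re ≠ 0 := by
  intro h
  have hpos : 0 < L.length := by omega
  have h1 := eq_neg_of_one_add (norm_tgt h3 hs.nodup _) (norm_tgt h3 hs.nodup _) h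
  set k := j + (L.length - 1) with hk
  have hk1 : vtx L (k + 1) = vtx L j := by
    rw [show k + 1 = j + L.length by omega, vtx_per]
  have hτ : tgt L j = - tgt L k := h1
  have s1 := tgt_step h3 hs.nodup j
  have s2 := tgt_step h3 hs.nodup k
  rw [hk1] at s2
  set r1 := ‖vtx L (j + 1) - vtx L j‖ with hr1
  set r2 := ‖vtx L j - vtx L k‖ with hr2
  have hr1p : 0 < r1 := norm_pos_iff.mpr (sub_ne_zero.mpr (vtx_succ_ne h3 hs.nodup j))
  have hr2p : 0 < r2 := by
    have := vtx_succ_ne h3 hs.nodup k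
    rw [hk1] at this
    exact norm_pos_iff.mpr (sub_ne_zero.mpr this)
  have hdis := vtx_disj h3 hs (a := j) (b := k) (by
    intro h
    have h4 := Nat.mod_lt j hpos
    have h5 : k % L.length = (j % L.length + (L.length - 1)) % L.length := by
      rw [hk, Nat.mod_add_mod]
    rw [h5] at h
    generalize j % L.length = a at h h4
    rcases Nat.eq_zero_or_pos a with h6 | h6
    · subst h6
      rw [zero_add, Nat.mod_eq_of_lt (by omega)] at h; omega
    · have h7 : a + (L.length - 1) = (a - 1) + L.length := by omega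
      rw [h7, Nat.add_mod_right, Nat.mod_eq_of_lt (by omega)] at h
      omega)
  rw [hk1] at hdis
  -- a common point
  set ε := min r1 r2 / 2 with hε
  have hε0 : 0 < ε := by positivity
  have hε1 : ε < r1 := by have := min_le_left r1 r2; linarith
  have hε2 : ε < r2 := by have := min_le_right r1 r2; linarith
  refine Set.disjoint_left.mp hdis (?_ : vtx L j + (ε : ℂ) * tgt L j ∈ _) ?_
  · refine ⟨1 - ε / r1, ε / r1, ?_, by positivity, by ring, ?_⟩
    · rw [sub_pos, div_lt_one hr1p]; exact hε1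
    · have e1 : vtx L (j + 1) = vtx L j + (r1 : ℂ) * tgt L j := by rw [← s1]; ring
      rw [e1]
      simp only [real_smul, ofReal_sub, ofReal_one, ofReal_div]
      have : (r1 : ℂ) ≠ 0 := by exact_mod_cast hr1p.ne'
      field_simp
      ring
  · refine ⟨ε / r2, 1 - ε / r2, by positivity, ?_, by ring, ?_⟩
    · rw [sub_pos, div_lt_one hr2p]; exact hε2
    · have e1 : vtx L k = vtx L j - (r2 : ℂ) * tgt L k := by rw [← s2]; ring
      rw [hτ, e1]
      simp only [real_smul, ofReal_sub, ofReal_one, ofReal_div]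
      have : (r2 : ℂ) ≠ 0 := by exact_mod_cast hr2p.ne'
      field_simp
      ring

/-- the slope of the bisector -/
noncomputable def slp (L : List ℂ) (j : ℕ) : ℝ :=
  ((starRingEnd ℂ) (tgp L j) * tgt L j).im / (1 + ((starRingEnd ℂ) (tgp L j) * tgt L j).re)

/-- the bisector vector -/
noncomputable def bis (L : List ℂ) (j : ℕ) : ℂ :=
  I * (tgp L j + tgt L j) / ((1 + ((starRingEnd ℂ) (tgp L j) * tgt L j).re : ℝ) : ℂ)

theorem slp_per (L : List ℂ) (j : ℕ) : slp L (j + L.length) = slp L j := by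
  unfold slp; rw [tgp_per, tgt_per]

theorem bis_per (L : List ℂ) (j : ℕ) : bis L (j + L.length) = bis L j := by
  unfold bis; rw [tgp_per, tgt_per]

theorem bis_left {L : List ℂ} (h3 : 3 ≤ L.length) (hs : Simple L) (j : ℕ) :
    bis L j = ((slp L j : ℂ) + I) * tgt L j :=
  bisector_left (norm_tgt h3 hs.nodup _) (norm_tgt h3 hs.nodup _) (turn_ne h3 hs j)

theorem bis_right {L : List ℂ} (h3 : 3 ≤ L.length) (hs : Simple L) (j : ℕ) :
    bis L (j + 1) = (-(slp L (j + 1) : ℂ) + I) * tgt L j := by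
  have h := bisector_right (σ := tgp L (j + 1)) (τ := tgt L (j + 1)) (norm_tgt h3 hs.nodup _)
    (norm_tgt h3 hs.nodup _) (turn_ne h3 hs (j + 1))
  unfold bis
  rw [h, tgp_succ h3]
  unfold slp
  rw [tgp_succ h3]

/-- a uniform bound for the slopes -/
noncomputable def slB (L : List ℂ) : ℝ := 1 + ∑ i ∈ Finset.range L.length, |slp L i|

theorem slB_pos (L : List ℂ) : 0 < slB L := by
  unfold slB
  have : 0 ≤ ∑ i ∈ Finset.range L.length, |slp L i| := Finset.sum_nonneg fun _ _ => abs_nonneg _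
  linarith

theorem slp_mod (L : List ℂ) (j : ℕ) : slp L (j % L.length) = slp L j := by
  conv_rhs => rw [← Nat.mod_add_div j L.length]
  generalize j / L.length = k
  induction k with
  | zero => simp
  | succ k ih =>
    rw [ih, Nat.mul_succ, ← Nat.add_assoc, slp_per]

theorem slp_lt {L : List ℂ} (h3 : 3 ≤ L.length) (j : ℕ) : |slp L j| < slB L := by
  have hpos : 0 < L.length := by omega
  rw [← slp_mod]
  unfold slB
  have h := Finset.single_le_sum (f := fun i => |slp L i|) (fun _ _ => abs_nonneg _)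
    (Finset.mem_range.mpr (Nat.mod_lt j hpos))
  have h' : |slp L (j % L.length)| ≤ ∑ i ∈ Finset.range L.length, |slp L i| := h
  linarith

/-- the vertices of the parallel polygon at distance `d` -/
noncomputable def off (L : List ℂ) (d : ℝ) (j : ℕ) : ℂ := vtx L j + (d : ℂ) * bis L j

theorem off_zero (L : List ℂ) (j : ℕ) : off L 0 j = vtx L j := by simp [off]

theorem continuous_off (L : List ℂ) (j : ℕ) : Continuous fun d => off L d j := by
  unfold off; fun_prop

theorem off_step {L : List ℂ} (h3 : 3 ≤ L.length) (hs : Simple L) (d : ℝ) (j : ℕ) :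
    off L d (j + 1) - off L d j =
      ((‖vtx L (j + 1) - vtx L j‖ - d * (slp L j + slp L (j + 1)) : ℝ) : ℂ) * tgt L j := by
  have h1 := tgt_step h3 hs.nodup j
  unfold off
  rw [bis_left h3 hs j, bis_right h3 hs j]
  push_cast
  linear_combination h1

theorem continuous_ln_off (L : List ℂ) (i j : ℕ) : Continuous fun d => ln (off L d) i j := by
  unfold ln
  exact ((continuous_off L j).sub (continuous_off L i)).norm

theorem continuous_ta_off (L : List ℂ) (i j k : ℕ) :
    Continuous fun d => ta (off L d) i j k := by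
  unfold ta
  exact (((continuous_ln_off L i j).add (continuous_ln_off L i k)).sub
    (continuous_ln_off L j k)).div_const 2

theorem continuous_ori_off (L : List ℂ) (i j k : ℕ) :
    Continuous fun d => ori (off L d i) (off L d j) (off L d k) := by
  have h1 := continuous_off L i
  have h2 := continuous_off L j
  have h3 := continuous_off L k
  simp only [ori_def]
  fun_prop

theorem eventually_lt_of_continuous {f g : ℝ → ℝ} (hf : Continuous f) (hg : Continuous g)
    (h : f 0 < g 0) : ∀ᶠ d in 𝓝[>] (0 : ℝ), f d < g d :=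
  nhdsWithin_le_nhds (hf.continuousAt.eventually_lt hg.continuousAt h)

theorem exists_setup {L : List ℂ} (h3 : 3 ≤ L.length) (hs : Simple L) (hg : Good L) :
    ∃ S : Setup, (List.range (S.t.size + 1)).map S.V = L := by
  obtain ⟨t, ht1, ht2⟩ := hg.tri.tree
  have hnd := hs.nodup
  have hB := slB_pos L
  have hpos : t.All 0 (fun x z y => 0 < ori (vtx L x) (vtx L z) (vtx L y)) := by
    apply ht2
    intro i hi
    simp [vtx, Nat.mod_eq_of_lt hi]
  have hc0 : Continuous fun d : ℝ => d * slB L := by fun_prop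
  -- conditions valid for all small positive `d`
  have e1 : ∀ᶠ d in 𝓝[>] (0 : ℝ),
      t.All 0 (fun x z y => 0 < ori (off L d x) (off L d z) (off L d y)) := by
    apply Tr.All.eventually
    refine Tr.All.mono (fun x z y h => ?_) t 0 hpos
    exact eventually_lt_of_continuous continuous_const (continuous_ori_off L x z y) (by
      simpa [off_zero] using h)
  have e2 : ∀ᶠ d in 𝓝[>] (0 : ℝ),
      t.All 0 (fun x z y => d * slB L < ta (off L d) x z y ∧ d * slB L < ta (off L d) z x y ∧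
        d * slB L < ta (off L d) y x z) := by
    apply Tr.All.eventually
    refine Tr.All.mono (fun x z y h => ?_) t 0 hpos
    have key : ∀ i j k, 0 < ta (vtx L) i j k → ∀ᶠ d in 𝓝[>] (0 : ℝ),
        d * slB L < ta (off L d) i j k := by
      intro i j k hh
      refine eventually_lt_of_continuous hc0 (continuous_ta_off L i j k) ?_
      have e : ta (off L 0) i j k = ta (vtx L) i j k := by
        simp only [ta, ln, off_zero]
      rw [zero_mul, e]; exact hh
    have h1 := (corner h).1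
    have h2 := (corner (A := vtx L z) (B := vtx L y) (C := vtx L x) (by rw [← ori_cyc]; exact h)).1
    have h4 := (corner (A := vtx L y) (B := vtx L x) (C := vtx L z) (by
      rw [← ori_cyc, ← ori_cyc]; exact h)).1
    refine (key x z y ?_).and ((key z x y ?_).and (key y x z ?_))
    · have : ta (vtx L) x z y = tng (vtx L x) (vtx L z) (vtx L y) := by
        simp only [ta, ln, tng]
      rw [this]; exact h1
    · have : ta (vtx L) z x y = tng (vtx L z) (vtx L y) (vtx L x) := by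
        simp only [ta, ln, tng]
        rw [norm_sub_rev (vtx L y) (vtx L x)]; ring
      rw [this]; exact h2
    · have : ta (vtx L) y x z = tng (vtx L y) (vtx L x) (vtx L z) := by
        simp only [ta, ln, tng]
      rw [this]; exact h4
  have e3 : ∀ᶠ d in 𝓝[>] (0 : ℝ), 2 * (d * slB L) < ln (off L d) 0 t.size := by
    refine eventually_lt_of_continuous (by fun_prop) (continuous_ln_off L 0 t.size) ?_
    have hne : vtx L t.size ≠ vtx L 0 := by
      intro h
      have := vtx_inj hnd (i := t.size) (j := 0) (by omega) (by omega) h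
      omega
    simp only [ln, off_zero]
    rw [zero_mul, mul_zero]
    exact norm_pos_iff.mpr (sub_ne_zero.mpr hne)
  have e4 : ∀ᶠ d in 𝓝[>] (0 : ℝ), ∀ i ∈ Finset.range L.length, ∀ j ∈ Finset.range L.length,
      off L d i = off L d j → i = j := by
    rw [Filter.eventually_all_finset]
    intro i hi
    rw [Filter.eventually_all_finset]
    intro j hj
    rw [Finset.mem_range] at hi hj
    by_cases hij : i = j
    · exact Filter.Eventually.of_forall fun _ _ => hij
    · have h0 : off L 0 i ≠ off L 0 j := by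
        rw [off_zero, off_zero]
        exact fun h => hij (vtx_inj hnd hi hj h)
      have h1 : ∀ᶠ d in 𝓝 (0 : ℝ), off L d i ≠ off L d j := by
        have hc : ContinuousAt (fun d => off L d i - off L d j) 0 :=
          ((continuous_off L i).sub (continuous_off L j)).continuousAt
        filter_upwards [hc.eventually_ne (sub_ne_zero.mpr h0)] with d hd h
        exact hd (sub_eq_zero.mpr h)
      filter_upwards [nhdsWithin_le_nhds h1] with d hd h
      exact absurd h hd
  have e5 : ∀ᶠ d in 𝓝[>] (0 : ℝ), ∀ j ∈ Finset.range L.length,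
      0 < ‖vtx L (j + 1) - vtx L j‖ - d * (slp L j + slp L (j + 1)) := by
    rw [Filter.eventually_all_finset]
    intro j _
    refine eventually_lt_of_continuous continuous_const (by fun_prop) ?_
    rw [zero_mul, sub_zero]
    exact norm_pos_iff.mpr (sub_ne_zero.mpr (vtx_succ_ne h3 hnd j))
  obtain ⟨d, h1, h2, h4, h5, h6, h7⟩ :=
    (e1.and (e2.and (e3.and (e4.and (e5.and self_mem_nhdsWithin))))).exists
  have hd : 0 < d := h7
  have hper : t.size + 1 = L.length := ht1
  have h6' : ∀ j, 0 < ‖vtx L (j + 1) - vtx L j‖ - d * (slp L j + slp L (j + 1)) := by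
    intro j
    have := h6 (j % L.length) (Finset.mem_range.mpr (Nat.mod_lt _ (by omega)))
    rw [vtx_mod_succ, vtx_mod, slp_mod] at this
    have e : slp L (j % L.length + 1) = slp L (j + 1) := by
      rw [← slp_mod L (j % L.length + 1), ← slp_mod L (j + 1), Nat.mod_add_mod]
    rw [e] at this
    exact this
  have hnorm : ∀ j, ‖off L d (j + 1) - off L d j‖ =
      ‖vtx L (j + 1) - vtx L j‖ - d * (slp L j + slp L (j + 1)) := by
    intro j
    rw [off_step h3 hs, norm_mul, norm_tgt h3 hnd, mul_one, norm_real, Real.norm_eq_abs,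
      abs_of_pos (h6' j)]
  have hmap : (List.range (t.size + 1)).map (vtx L) = L := by rw [hper, map_vtx]
  refine ⟨{
    t := t
    two_le := by omega
    V := vtx L
    q := off L d
    M := bis L
    τ := tgt L
    μ := slp L
    d := d
    μ0 := d * slB L
    perV := fun j => by rw [hper, vtx_per]
    perq := fun j => by unfold off; rw [hper, vtx_per, bis_per]
    perM := fun j => by rw [hper, bis_per]
    perτ := fun j => by rw [hper, tgt_per]
    perμ := fun j => by rw [hper, slp_per]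
    d_pos := hd
    bound := fun j => mul_lt_mul_of_pos_left (slp_lt h3 j) hd
    norm_τ := norm_tgt h3 hnd
    M_left := bis_left h3 hs
    M_right := bis_right h3 hs
    q_eq := fun _ => rfl
    V_step := tgt_step h3 hnd
    q_step := fun j => by rw [hnorm j, off_step h3 hs]
    q_ne := fun j h => by
      have h8 := hnorm j
      rw [← h, sub_self, norm_zero] at h8
      have := h6' j
      linarith
    inj := fun i j hi hj h => h5 i (Finset.mem_range.mpr (by omega)) j
      (Finset.mem_range.mpr (by omega)) h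
    pos := h1
    tan := h2
    root := h4
    simple := by rw [hmap]; exact hs
    good := by rw [hmap]; exact hg }, hmap⟩

end Pool.Agent.Lib.FoldCut
end

section
/-!
# The flat folded state
-/
namespace Pool.Agent.Lib.FoldCut

open Complex Real Topology

theorem Btw.symm {t : Tr} {φ ψ χ : ℕ × ℕ × Bool} (h : Btw t φ ψ χ) : Btw t ψ φ χ := Or.symm h

theorem adj_not_btw {t : Tr} {φ ψ χ : ℕ × ℕ × Bool} (h : Adj t φ ψ) (hχ : Fac t χ)
    (hb : Btw t φ ψ χ) : False := by
  have h1 : χ ≠ φ := by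
    rintro rfl
    rcases hb with hb | hb
    · exact Lt.irrefl hb.1
    · exact Lt.irrefl hb.2
  have h2 : χ ≠ ψ := by
    rintro rfl
    rcases hb with hb | hb
    · exact Lt.irrefl hb.2
    · exact Lt.irrefl hb.1
  have h3 := h χ hχ h1 h2
  rcases hb with hb | hb
  · exact (h3.mp hb.1).asymm hb.2
  · exact (h3.mpr hb.1).asymm hb.2

theorem btw_of_not_iff {t : Tr} {φ ψ χ : ℕ × ℕ × Bool} (hφ : Fac t φ) (hψ : Fac t ψ)
    (hχ : Fac t χ) (h1 : χ ≠ φ) (h2 : χ ≠ ψ) (h : ¬ (Lt t φ χ ↔ Lt t ψ χ)) : Btw t φ ψ χ := by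
  by_cases h3 : Lt t φ χ
  · by_cases h4 : Lt t ψ χ
    · exact absurd (iff_of_true h3 h4) h
    · rcases Lt.total hψ hχ h2.symm with h5 | h5
      · exact absurd h5 h4
      · exact Or.inl ⟨h3, h5⟩
  · by_cases h4 : Lt t ψ χ
    · rcases Lt.total hφ hχ h1.symm with h5 | h5
      · exact absurd h5 h3
      · exact Or.inr ⟨h4, h5⟩
    · exact absurd (iff_of_false h3 h4) h

variable {S : Setup} (R : Par S)

namespace Par

/-- the two facets of a piece -/
theorem same_pc {φ ψ : ℕ × ℕ × Bool} (hne : φ ≠ ψ)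
    (hp : (pc φ).1 = (pc ψ).1 ∧ (pc φ).2 = (pc ψ).2) :
    (φ = ((pc φ).1, (pc φ).2, false) ∧ ψ = ((pc φ).2, (pc φ).1, true)) ∨
    (φ = ((pc φ).2, (pc φ).1, true) ∧ ψ = ((pc φ).1, (pc φ).2, false)) := by
  rcases pc_eq (φ := φ) rfl rfl with e1 | e1 <;> rcases pc_eq (φ := ψ) hp.1.symm hp.2.symm with e2 | e2
  · exact absurd (e1.trans e2.symm) hne
  · exact Or.inl ⟨e1, e2⟩
  · exact Or.inr ⟨e1, e2⟩
  · exact absurd (e1.trans e2.symm) hne

theorem same_sg {φ ψ : ℕ × ℕ × Bool} (hne : φ ≠ ψ)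
    (hp : (pc φ).1 = (pc ψ).1 ∧ (pc φ).2 = (pc ψ).2) : S.sg φ ≠ S.sg ψ := by
  have h := S.ep_cases (pc φ).1 (pc φ).2
  have e : ∀ χ : ℕ × ℕ × Bool, S.sg χ = if χ.2.2 then - S.ep (pc χ).1 (pc χ).2 else
      S.ep (pc χ).1 (pc χ).2 := fun _ => rfl
  rw [e, e, ← hp.1, ← hp.2]
  rcases same_pc hne hp with ⟨h1, h2⟩ | ⟨h1, h2⟩
  · have b1 : φ.2.2 = false := by rw [h1]
    have b2 : ψ.2.2 = true := by rw [h2]
    rw [b1, b2]
    rcases h with h | h <;> rw [h] <;> norm_num
  · have b1 : φ.2.2 = true := by rw [h1]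
    have b2 : ψ.2.2 = false := by rw [h2]
    rw [b1, b2]
    rcases h with h | h <;> rw [h] <;> norm_num

theorem same_re {φ ψ : ℕ × ℕ × Bool} (hφ : Fac S.t φ) (hne : φ ≠ ψ)
    (hp : (pc φ).1 = (pc ψ).1 ∧ (pc φ).2 = (pc ψ).2) {w : ℂ} (hw : w ∈ R.K φ ∩ R.K ψ) :
    (R.F w).re = R.cc φ := by
  have h1 := (R.mem_K.mp hw.1).2
  have h2 := (R.mem_K.mp hw.2).2
  have h3 := R.cx_add hφ.dir w
  rw [R.F_re hφ hw.1]
  unfold cc
  rcases same_pc hne hp with ⟨g1, g2⟩ | ⟨g1, g2⟩
  · have b1 : φ.1 = (pc φ).1 := congrArg (fun x => x.1) g1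
    have b2 : φ.2.1 = (pc φ).2 := congrArg (fun x => x.2.1) g1
    have c1 : ψ.1 = (pc φ).2 := congrArg (fun x => x.1) g2
    have c2 : ψ.2.1 = (pc φ).1 := congrArg (fun x => x.2.1) g2
    rw [b1, b2] at h1 ⊢
    rw [c1, c2] at h2
    linarith
  · have b1 : φ.1 = (pc φ).2 := congrArg (fun x => x.1) g1
    have b2 : φ.2.1 = (pc φ).1 := congrArg (fun x => x.2.1) g1
    have c1 : ψ.1 = (pc φ).1 := congrArg (fun x => x.1) g2
    have c2 : ψ.2.1 = (pc φ).2 := congrArg (fun x => x.2.1) g2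
    rw [b1, b2] at h1 ⊢
    rw [c1, c2] at h2
    linarith

theorem same_btw {φ ψ χ : ℕ × ℕ × Bool} (hφ : Fac S.t φ) (hne : φ ≠ ψ)
    (hp : (pc φ).1 = (pc ψ).1 ∧ (pc φ).2 = (pc ψ).2) (hχ : Fac S.t χ) (hb : Btw S.t φ ψ χ) :
    R.cc φ ≤ R.cc χ := by
  rw [R.cc_pc hφ]
  apply R.nested_cc hφ.dir hχ
  apply btw_piece hφ.dir hχ
  rcases same_pc hne hp with ⟨g1, g2⟩ | ⟨g1, g2⟩
  · rwa [← g1, ← g2]
  · rw [← g1, ← g2]; exact hb.symm

/-- no open facet between two joined facets meets the fold -/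
theorem no_facet {φ ψ χ : ℕ × ℕ × Bool} (hφ : Fac S.t φ) (hψ : Fac S.t ψ) (hne : φ ≠ ψ)
    (hinf : (R.K φ ∩ R.K ψ).Infinite) (hχ : Fac S.t χ) (hb : Btw S.t φ ψ χ) {w z : ℂ}
    (hw : w ∈ R.K φ ∩ R.K ψ) (hz : z ∈ interior (R.K χ)) : R.F w ≠ R.F z := by
  by_cases hp : (pc φ).1 = (pc ψ).1 ∧ (pc φ).2 = (pc ψ).2
  · intro he
    have h1 := R.same_re hφ hne hp hw
    have h2 := R.same_btw hφ hne hp hχ hb
    have h3 := R.cc_lt hχ hz
    rw [← he, h1] at h3
    linarith
  · rcases R.hinge hφ hψ hinf hp with h | h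
    · exact (adj_not_btw h hχ hb).elim
    · exact (h.2 χ hχ hb).1 w hw z hz

/-- hinges that meet the closed facets between them in infinitely many points join the two facets
of a piece -/
theorem same_of_inf {φ ψ χ : ℕ × ℕ × Bool} (hφ : Fac S.t φ) (hψ : Fac S.t ψ)
    (hinf : (R.K φ ∩ R.K ψ).Infinite) (hχ : Fac S.t χ) (hb : Btw S.t φ ψ χ)
    (hmeet : (R.F '' {w | w ∈ R.K φ ∩ R.K ψ ∧ ∃ z ∈ R.K χ, R.F w = R.F z}).Infinite) :
    (pc φ).1 = (pc ψ).1 ∧ (pc φ).2 = (pc ψ).2 := by
  by_contra hp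
  rcases R.hinge hφ hψ hinf hp with h | h
  · exact adj_not_btw h hχ hb
  · exact hmeet ((h.2 χ hχ hb).2.image _)

theorem iso_sg {φ ψ : ℕ × ℕ × Bool} {hφ : Fac S.t φ} {hψ : Fac S.t ψ}
    (h : R.iso φ hφ = R.iso ψ hψ) : S.sg φ = S.sg ψ := isoG_sign h

theorem image_eq {φ : ℕ × ℕ × Bool} (h : Fac S.t φ) {A : Set ℂ} (hA : A ⊆ R.K φ) :
    R.iso φ h '' A = R.F '' A := by
  apply Set.image_congr
  intro w hw
  exact (R.F_iso h (hA hw)).symm

/-- flat joints are neighbours in the layer order -/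
theorem adj_of_flat {φ ψ : ℕ × ℕ × Bool} (hφ : Fac S.t φ) (hψ : Fac S.t ψ) (hne : φ ≠ ψ)
    (hinf : (R.K φ ∩ R.K ψ).Infinite) (he : R.iso φ hφ = R.iso ψ hψ) : Adj S.t φ ψ := by
  have hs := R.iso_sg he
  by_cases hp : (pc φ).1 = (pc ψ).1 ∧ (pc φ).2 = (pc ψ).2
  · exact absurd hs (same_sg hne hp)
  · rcases R.hinge hφ hψ hinf hp with h | h
    · exact h
    · exact absurd hs h.1

theorem finite_fac : Finite {φ // Fac S.t φ} := by
  have : {φ : ℕ × ℕ × Bool | Fac S.t φ}.Finite := by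
    apply Set.Finite.subset
      ((Set.finite_Iic S.t.size).prod ((Set.finite_Iic S.t.size).prod (Set.finite_univ (α := Bool))))
    rintro ⟨i, j, b⟩ h
    have := Dir.bd h
    exact ⟨this.2.1, this.2.2, trivial⟩
  exact this.to_subtype

/-- the flat folded state -/
noncomputable def folding (hP : IsCompact S.P) : FlatFolding S.P where
  ι := {φ // Fac S.t φ}
  finite := finite_fac
  K := fun φ => R.K φ.1
  f := R.F
  iso := fun φ => R.iso φ.1 φ.2
  below := fun φ ψ => Lt S.t φ.1 ψ.1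
  polygon := fun φ => isConvexPolygon (R.fl_aff φ.1) (R.fl_nonempty φ.2)
    (hP.isBounded.subset fun z hz => S.pl_sub φ.2.dir (R.K_sub_pl φ.1 hz))
  cover := by
    rw [← R.K_cover]
    ext z
    simp
  interiors := by
    intro φ ψ h
    exact R.K_disjoint φ.2 ψ.2 fun h' => h (Subtype.ext h')
  continuousOn := R.continuousOn_F
  map_eq := fun φ z hz => R.F_iso φ.2 hz
  order := by
    intro φ ψ h _
    constructor
    · exact fun h1 => h1.asymm
    · intro h1
      rcases Lt.total φ.2 ψ.2 (fun h' => h (Subtype.ext h')) with h2 | h2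
      · exact h2
      · exact absurd h2 h1
  trans := by
    intro φ ψ χ _ _ _ _ h1 h2
    exact h1.trans h2
  hinge_facet := by
    intro φ ψ χ h1 h2 h3 hinf hne
    by_contra hc
    have h1' : φ.1 ≠ ψ.1 := fun h' => h1 (Subtype.ext h')
    have hb := btw_of_not_iff φ.2 ψ.2 χ.2 (fun h' => h2 (Subtype.ext h'))
      (fun h' => h3 (Subtype.ext h')) hc
    rw [R.image_eq φ.2 Set.inter_subset_left, R.image_eq χ.2 interior_subset] at hne
    obtain ⟨p, ⟨w, hw, rfl⟩, ⟨z, hz, he⟩⟩ := hne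
    exact R.no_facet φ.2 ψ.2 h1' hinf χ.2 hb hw hz he.symm
  fold_fold := by
    intro i j k l hij hik hil hjk hjl hkl inf1 inf2 inf3 _ _ _ h
    obtain ⟨l1, l2, l3⟩ := h
    rw [R.image_eq i.2 Set.inter_subset_left, R.image_eq k.2 Set.inter_subset_left] at inf3
    have hij' : i.1 ≠ j.1 := fun h' => hij (Subtype.ext h')
    have hkl' : k.1 ≠ l.1 := fun h' => hkl (Subtype.ext h')
    have b1 : Btw S.t i.1 j.1 k.1 := Or.inl ⟨l1, l2⟩
    have b2 : Btw S.t k.1 l.1 j.1 := Or.inl ⟨l2, l3⟩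
    have p1 := R.same_of_inf i.2 j.2 inf1 k.2 b1 (inf3.mono (by
      rintro p ⟨⟨w, hw, rfl⟩, ⟨z, hz, he⟩⟩
      exact ⟨w, ⟨hw, z, hz.1, he.symm⟩, rfl⟩))
    have p2 := R.same_of_inf k.2 l.2 inf2 j.2 b2 (inf3.mono (by
      rintro p ⟨⟨w, hw, he⟩, ⟨z, hz, rfl⟩⟩
      exact ⟨z, ⟨hz, w, hw.2, he.symm⟩, rfl⟩))
    have b3 : Btw S.t i.1 j.1 l.1 := by
      have hbb := btw_btw i.2.dir k.2.dir
      rcases same_pc hij' p1 with ⟨g1, g2⟩ | ⟨g1, g2⟩ <;>
      rcases same_pc hkl' p2 with ⟨g3, g4⟩ | ⟨g3, g4⟩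
      · rw [← g1, ← g2, ← g3, ← g4] at hbb
        exact hbb.1 b1
      · rw [← g1, ← g2, ← g3, ← g4] at hbb
        exact hbb.2 b1
      · rw [← g1, ← g2, ← g3, ← g4] at hbb
        exact (hbb.1 b1.symm).symm
      · rw [← g1, ← g2, ← g3, ← g4] at hbb
        exact (hbb.2 b1.symm).symm
    rcases b3 with b3 | b3
    · exact b3.2.asymm l3
    · exact b3.2.asymm (l1.trans (l2.trans l3))
  fold_flat := by
    intro i j k l hij hik hil hjk hjl hkl inf1 inf2 inf3 _ _ hflat
    by_contra hc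
    rw [R.image_eq i.2 Set.inter_subset_left, R.image_eq k.2 Set.inter_subset_left] at inf3
    have hij' : i.1 ≠ j.1 := fun h' => hij (Subtype.ext h')
    have hkl' : k.1 ≠ l.1 := fun h' => hkl (Subtype.ext h')
    have b1 := btw_of_not_iff i.2 j.2 k.2 (fun h' => hik (Subtype.ext h').symm)
      (fun h' => hjk (Subtype.ext h').symm) hc
    have p1 := R.same_of_inf i.2 j.2 inf1 k.2 b1 (inf3.mono (by
      rintro p ⟨⟨w, hw, rfl⟩, ⟨z, hz, he⟩⟩
      exact ⟨w, ⟨hw, z, hz.1, he.symm⟩, rfl⟩))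
    have p2 : ¬ ((pc k.1).1 = (pc l.1).1 ∧ (pc k.1).2 = (pc l.1).2) := fun hp =>
      same_sg hkl' hp (R.iso_sg hflat)
    have hcc := R.same_btw i.2 hij' p1 k.2 b1
    apply inf3
    apply ((R.extreme k.2 l.2 inf2 p2).image R.F).subset
    rintro p ⟨⟨w, hw, he⟩, ⟨z, hz, rfl⟩⟩
    refine ⟨z, ⟨hz, ?_⟩, rfl⟩
    have h1 := R.same_re i.2 hij' p1 hw
    have h2 := R.cc_le k.2 hz.1
    rw [he] at h1
    linarith
  flat_flat := by
    intro i j k l hij hik hil hjk hjl hkl inf1 inf2 _ _ hf1 hf2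
    have hij' : i.1 ≠ j.1 := fun h' => hij (Subtype.ext h')
    have hkl' : k.1 ≠ l.1 := fun h' => hkl (Subtype.ext h')
    have a1 := R.adj_of_flat i.2 j.2 hij' inf1 hf1
    have a2 := R.adj_of_flat k.2 l.2 hkl' inf2 hf2
    have e1 := a1 k.1 k.2 (fun h' => hik (Subtype.ext h').symm) (fun h' => hjk (Subtype.ext h').symm)
    have e2 := a2 j.1 j.2 (fun h' => hjk (Subtype.ext h')) (fun h' => hjl (Subtype.ext h'))
    rw [e1]
    constructor
    · intro h
      rcases Lt.total j.2 l.2 (fun h' => hjl (Subtype.ext h')) with h2 | h2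
      · exact h2
      · exact absurd (e2.mpr h2) h.asymm
    · intro h
      rcases Lt.total j.2 k.2 (fun h' => hjk (Subtype.ext h')) with h2 | h2
      · exact h2
      · exact absurd (e2.mp h2) h.asymm

/-- the boundary of the paper is what is mapped to the real axis -/
theorem im_eq_zero {z : ℂ} (hz : z ∈ S.P) : (R.F z).im = 0 ↔ z ∈ curve S.L := by
  have hdpos := S.d_pos
  constructor
  · intro him
    obtain ⟨u, v, h1, h2⟩ := S.cover hz
    have h3 := congrArg Complex.im (R.F_eq h1 h2)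
    rw [him] at h3
    unfold g at h3
    simp only at h3
    rcases dir_cases h1 with ⟨c, ht⟩ | ⟨hv, hu⟩
    · exfalso
      rw [S.ep_tri ht] at h3
      rw [S.pl_tri ht, mem_secL] at h2
      linarith [h2.1]
    · rw [S.ep_out hv hu] at h3
      rw [S.pl_out' hv hu, S.mem_wL] at h2
      obtain ⟨k1, k2, k3, k4⟩ := h2
      have hq : S.q u = S.q (v + 1) := by rw [hu, S.q_mod]
      rw [hq, cy_swap (S.q v) (S.q (v + 1))] at h3
      have hV : cy (S.q v) (S.q (v + 1)) z = - S.d := by linarith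
      refine ⟨(S.V v, S.V (v + 1)), S.edge_mem v, ?_⟩
      rw [hV] at k3 k4
      have hL := S.len_V_pos v
      set a := (cx (S.q v) (S.q (v + 1)) z + S.μ v * S.d) /
        (S.ell v + S.d * (S.μ v + S.μ (v + 1))) with ha
      have ha0 : 0 ≤ a := by
        apply div_nonneg _ hL.le; linarith
      have ha1 : a ≤ 1 := by
        rw [ha, div_le_one hL]; linarith
      refine ⟨1 - a, a, by linarith, ha0, by ring, ?_⟩
      apply eq_of_coord (S.q_ne v)
      · rw [cx_lin _ _ (by ring), S.cx_V, S.cx_V', ha]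
        field_simp
        ring
      · rw [cy_lin _ _ (by ring), S.cy_V, S.cy_V', hV]; ring
  · rintro ⟨e, he, hze⟩
    rw [S.cyc_L, List.mem_map] at he
    obtain ⟨k, hk, rfl⟩ := he
    rw [List.mem_range] at hk
    simp only at hze
    have hk' : k ≤ S.t.size := by omega
    have h1 : z ∈ Poly (S.wL k) :=
      (Poly_convex (S.wL_aff k)).segment_subset (S.V_mem_wL k) (S.V_mem_wL' k) hze
    have h2 : cy (S.q k) (S.q (k + 1)) z = - S.d := by
      obtain ⟨a, b, ha, hb, hab, rfl⟩ := hze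
      rw [cy_lin _ _ hab, S.cy_V, S.cy_V']
      linear_combination (- S.d) * hab
    have h3 := R.F_eq (dir_outer S.t hk') (w := z) (by rw [S.pl_out hk']; exact h1)
    rw [h3]
    unfold g
    simp only
    rw [S.ep_out hk' rfl, S.q_mod, cy_swap (S.q k) (S.q (k + 1)), h2]
    ring

end Par

theorem mem_line_iff (z : ℂ) : z ∈ line[ℝ, (0:ℂ), (1:ℂ)] ↔ z.im = 0 := by
  rw [mem_affineSpan_pair_iff_exists_lineMap_eq]
  constructor
  · rintro ⟨r, rfl⟩
    simp [AffineMap.lineMap_apply]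
  · intro h
    refine ⟨z.re, ?_⟩
    apply Complex.ext <;> simp [AffineMap.lineMap_apply, h]

/-- every polygonal paper has a flat folding with the boundary on a line that no other point of
the paper reaches, and with all vertices at one point -/
theorem exists_flat_folding {n : ℕ} {v : ZMod n → ℂ} {P : Set ℂ} (h : IsPaper P n v) :
    ∃ F : FlatFolding P, CutsBoundary F ∧ VerticesTogether F v := by
  obtain ⟨L, hlen, hs, hg, hf, hP, hv⟩ := exists_list h
  obtain ⟨S, hS⟩ := exists_setup (L := L) (by rw [hlen]; exact h.three_le) hs hg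
  have hSL : S.L = L := hS
  have hPS : P = S.P := by rw [hP]; unfold Setup.P; rw [hSL]
  obtain ⟨R⟩ := exists_par S
  have hc := h.compact
  have hn : NeZero n := ⟨by have := h.three_le; omega⟩
  subst hPS
  have hvf : ∀ i, v i ∈ frontier S.P := by
    intro i; rw [hf]; exact mem_curve_of_mem (hv i)
  have hcl : frontier S.P ⊆ S.P := hc.isClosed.frontier_subset
  obtain ⟨F1, h1, x, h2⟩ := accordion (R.folding hc) (Set.range v) (Set.finite_range v)
    (by rintro _ ⟨i, rfl⟩; exact hcl (hvf i))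
  have him : ∀ z ∈ S.P, (F1.f z).im = 0 ↔ z ∈ frontier S.P := by
    intro z hz
    rw [h1 z hz, hf, ← hSL]
    exact R.im_eq_zero hz
  refine ⟨F1, ⟨0, 1, by norm_num, ?_⟩, ⟨(x : ℂ), ?_⟩⟩
  · intro z hz
    rw [mem_line_iff]
    exact him z hz
  · intro i
    apply Complex.ext
    · rw [h2 _ ⟨i, rfl⟩]; simp
    · rw [(him _ (hcl (hvf i))).mpr (hvf i)]; simp

end Pool.Agent.Lib.FoldCut
end
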