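import Pool.Agent.Lib.MP_12ced6_co.Ribbon
import Pool.Agent.Lib.MP_12ced6_co.FromPaper

/-!
# The pieces: they cover the paper and do not overlap
-/

namespace Pool.Agent.Lib.FoldCut

open Complex Real Topology

theorem sum_map_range (f : ℕ → ℝ) (n : ℕ) :
    ((List.range n).map f).sum = ∑ i ∈ Finset.range n, f i := by
  induction n with
  | zero => simp
  | succ n ih => rw [List.range_succ, List.map_append, List.sum_append, Finset.sum_range_succ, ih]; simp

theorem wsum_tri_cases {a b c p : ℂ} (h : 0 < ori a b c) (hp : p ∉ curve [a, b, c]) :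
    wsum p [a, b, c] = 0 ∨ wsum p [a, b, c] = 2 * π := by
  by_cases h1 : p ∈ triC a b c
  · exact Or.inr (wsum_tri_in (mem_triO_of_triC h h1 hp))
  · exact Or.inl (wsum_tri_out h h1)

theorem wsum_tri_nonneg {a b c p : ℂ} (h : 0 < ori a b c) (hp : p ∉ curve [a, b, c]) :
    0 ≤ wsum p [a, b, c] := by
  have := Real.pi_pos
  rcases wsum_tri_cases h hp with h1 | h1 <;> rw [h1]
  positivity

theorem wsum_tri_rot (p a b c : ℂ) : wsum p [a, b, c] = wsum p [b, c, a] := by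
  rw [wsum_three, wsum_three]; ring

theorem cy_pos_iff {A B w : ℂ} (h : A ≠ B) : 0 < cy A B w ↔ 0 < ori A B w := by
  have hn : 0 < ‖B - A‖ := norm_pos_iff.mpr (sub_ne_zero.mpr h.symm)
  unfold cy
  constructor
  · intro h1
    by_contra h2
    have := div_nonpos_of_nonpos_of_nonneg (not_lt.mp h2) hn.le
    linarith
  · intro h1; positivity

theorem cy_nonneg_iff {A B w : ℂ} (h : A ≠ B) : 0 ≤ cy A B w ↔ 0 ≤ ori A B w := by
  have hn : 0 < ‖B - A‖ := norm_pos_iff.mpr (sub_ne_zero.mpr h.symm)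
  unfold cy
  constructor
  · intro h1
    by_contra h2
    have := div_neg_of_neg_of_pos (not_le.mp h2) hn
    linarith
  · intro h1; positivity

/-- the part of the triangle `a b c` that is nearest to the side `a b` -/
noncomputable def secL (a b c : ℂ) : List (ℂ → ℝ) :=
  [fun w => cy a b w, fun w => cy b c w - cy a b w, fun w => cy c a w - cy a b w]

theorem secL_aff (a b c : ℂ) : ∀ f ∈ secL a b c, Aff f := by
  intro f hf
  simp only [secL, List.mem_cons, List.not_mem_nil, or_false] at hf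
  rcases hf with rfl | rfl | rfl
  · exact aff_cy a b
  · exact (aff_cy b c).sub (aff_cy a b)
  · exact (aff_cy c a).sub (aff_cy a b)

theorem mem_secL {a b c w : ℂ} : w ∈ Poly (secL a b c) ↔
    0 ≤ cy a b w ∧ cy a b w ≤ cy b c w ∧ cy a b w ≤ cy c a w := by
  simp [Poly, secL]

theorem mem_secLO {a b c w : ℂ} : w ∈ PolyO (secL a b c) ↔
    0 < cy a b w ∧ cy a b w < cy b c w ∧ cy a b w < cy c a w := by
  simp [PolyO, secL]

theorem secL_sub {a b c : ℂ} (h : 0 < ori a b c) : Poly (secL a b c) ⊆ triC a b c := by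
  intro w hw
  rw [mem_secL] at hw
  obtain ⟨h1, h2, h3⟩ := ne_of_ori h
  exact ⟨(cy_nonneg_iff h1).mp hw.1, (cy_nonneg_iff h2).mp (by linarith),
    (cy_nonneg_iff h3).mp (by linarith)⟩

/-- the three parts cover the triangle -/
theorem tri_cover {a b c w : ℂ} (h : 0 < ori a b c) (hw : w ∈ triC a b c) :
    w ∈ Poly (secL a b c) ∨ w ∈ Poly (secL b c a) ∨ w ∈ Poly (secL c a b) := by
  obtain ⟨h1, h2, h3⟩ := ne_of_ori h
  obtain ⟨k1, k2, k3⟩ := hw
  rw [← cy_nonneg_iff h1] at k1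
  rw [← cy_nonneg_iff h2] at k2
  rw [← cy_nonneg_iff h3] at k3
  rw [mem_secL, mem_secL, mem_secL]
  rcases le_total (cy a b w) (cy b c w) with g1 | g1 <;>
  rcases le_total (cy b c w) (cy c a w) with g2 | g2 <;>
  rcases le_total (cy c a w) (cy a b w) with g3 | g3
  · exact Or.inl ⟨k1, g1, by linarith⟩
  · exact Or.inl ⟨k1, g1, g3⟩
  · exact Or.inr (Or.inr ⟨k3, g3, g2⟩)
  · exact Or.inl ⟨k1, g1, g3⟩
  · exact Or.inr (Or.inl ⟨k2, g2, g1⟩)
  · exact Or.inr (Or.inl ⟨k2, g2, g1⟩)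
  · exact Or.inr (Or.inr ⟨k3, g3, g2⟩)
  · exact Or.inl ⟨k1, by linarith, g3⟩

namespace Setup

variable (S : Setup)

/-- the vertex list of the outer polygon -/
def L : List ℂ := (List.range (S.t.size + 1)).map S.V

theorem cyc_L : cyc S.L = (List.range (S.t.size + 1)).map fun k => (S.V k, S.V (k + 1)) := by
  apply cyc_range _ (by omega)
  have := S.perV 0
  rwa [Nat.zero_add] at this

/-- all the vertices -/
def pts : List ℂ :=
  (List.range (S.t.size + 2)).map S.V ++ (List.range (S.t.size + 2)).map S.q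

theorem V_mem_pts {j : ℕ} (h : j ≤ S.t.size + 1) : S.V j ∈ S.pts := by
  unfold pts
  rw [List.mem_append, List.mem_map]
  exact Or.inl ⟨j, List.mem_range.mpr (by omega), rfl⟩

theorem q_mem_pts {j : ℕ} (h : j ≤ S.t.size + 1) : S.q j ∈ S.pts := by
  unfold pts
  rw [List.mem_append, List.mem_map, List.mem_map]
  exact Or.inr ⟨j, List.mem_range.mpr (by omega), rfl⟩

/-- all the segments between the vertices -/
def gl : List (ℂ × ℂ) := S.pts ×ˢ S.pts

/-- points off all the segments -/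
def Gen (p : ℂ) : Prop := p ∉ support S.gl

theorem Gen.seg {S : Setup} {p : ℂ} (hp : S.Gen p) {a b : ℂ} (ha : a ∈ S.pts) (hb : b ∈ S.pts) :
    p ∉ segment ℝ a b := by
  intro h
  exact hp ⟨(a, b), List.mem_product.mpr ⟨ha, hb⟩, h⟩

theorem Gen.curve3 {S : Setup} {p : ℂ} (hp : S.Gen p) {a b c : ℂ} (ha : a ∈ S.pts)
    (hb : b ∈ S.pts) (hc : c ∈ S.pts) : p ∉ curve [a, b, c] := by
  rw [curve_three]
  simp only [Set.mem_union, not_or]
  exact ⟨hp.seg ha hb, hp.seg hb hc, hp.seg hc ha⟩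

theorem Gen.curveL {S : Setup} {p : ℂ} (hp : S.Gen p) : p ∉ curve S.L := by
  rintro ⟨e, he, h⟩
  rw [S.cyc_L, List.mem_map] at he
  obtain ⟨k, hk, rfl⟩ := he
  rw [List.mem_range] at hk
  exact hp.seg (S.V_mem_pts (by omega)) (S.V_mem_pts (by omega)) h

theorem gen_dense : Dense {p | S.Gen p} := dense_compl_support S.gl

/-- every nonempty open set contains generic points -/
theorem exists_gen {U : Set ℂ} (hU : IsOpen U) (hne : U.Nonempty) : ∃ p ∈ U, S.Gen p := by
  obtain ⟨p, h1, h2⟩ := S.gen_dense.exists_mem_open hU hne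
  exact ⟨p, h2, h1⟩

/-- the winding sum of the ribbon over the edge `j` -/
noncomputable def rb (p : ℂ) (j : ℕ) : ℝ :=
  wsum p [S.V j, S.V (j + 1), S.q (j + 1)] + wsum p [S.V j, S.q (j + 1), S.q j]

theorem rb_eq {p : ℂ} (hp : S.Gen p) {j : ℕ} (hj : j ≤ S.t.size) :
    S.rb p j = ang p (S.V j) (S.V (j + 1)) - ang p (S.q j) (S.q (j + 1)) +
      (ang p (S.V (j + 1)) (S.q (j + 1)) - ang p (S.V j) (S.q j)) := by
  unfold rb
  rw [wsum_three, wsum_three]
  have h1 := ang_swap (hp.seg (S.V_mem_pts (j := j) (by omega)) (S.q_mem_pts (j := j + 1) (by omega)))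
  have h2 := ang_swap (hp.seg (S.q_mem_pts (j := j) (by omega)) (S.q_mem_pts (j := j + 1) (by omega)))
  have h3 := ang_swap (hp.seg (S.V_mem_pts (j := j) (by omega)) (S.q_mem_pts (j := j) (by omega)))
  rw [h1, h2, h3]; ring

theorem wind {p : ℂ} (hp : S.Gen p) :
    wsum p S.L = ∑ j ∈ Finset.range (S.t.size + 1), S.rb p j + S.t.wn p S.q 0 := by
  have e1 : ∑ j ∈ Finset.range (S.t.size + 1), S.rb p j =
      ∑ j ∈ Finset.range (S.t.size + 1), (ang p (S.V j) (S.V (j + 1)) -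
        ang p (S.q j) (S.q (j + 1)) +
      (ang p (S.V (j + 1)) (S.q (j + 1)) - ang p (S.V j) (S.q j))) := by
    apply Finset.sum_congr rfl
    intro j hj
    rw [Finset.mem_range] at hj
    exact S.rb_eq hp (by omega)
  have e2 : ∑ j ∈ Finset.range (S.t.size + 1),
      (ang p (S.V (j + 1)) (S.q (j + 1)) - ang p (S.V j) (S.q j)) = 0 := by
    rw [Finset.sum_range_sub (fun j => ang p (S.V j) (S.q j))]
    have h1 := S.perV 0
    have h2 := S.perq 0
    rw [Nat.zero_add] at h1 h2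
    rw [h1, h2]; ring
  have e3 : S.t.wn p S.q 0 = ∑ j ∈ Finset.range (S.t.size + 1), ang p (S.q j) (S.q (j + 1)) := by
    rw [Tr.wn_eq]
    · rw [Finset.sum_range_succ]
      have h2 := S.perq 0
      rw [Nat.zero_add] at h2
      rw [h2]
      simp only [Nat.zero_add]
    · intro x y hxy
      have := S.t.E_lt 0 hxy
      exact hp.seg (S.q_mem_pts (by omega)) (S.q_mem_pts (by omega))
  have e4 : wsum p S.L = ∑ j ∈ Finset.range (S.t.size + 1), ang p (S.V j) (S.V (j + 1)) := by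
    unfold wsum angSum
    rw [S.cyc_L, List.map_map, sum_map_range]
    rfl
  rw [e1, Finset.sum_add_distrib, Finset.sum_sub_distrib, e2, e3, e4]
  ring

theorem tri_pos {u v w : ℕ} (h : Tri S.t u v w) : 0 < ori (S.q u) (S.q v) (S.q w) := by
  obtain ⟨x, y, h1, h2, h3⟩ := h
  have := Tr.All.apply S.t 0 S.pos h1 h2
  rcases h3 with ⟨rfl, rfl, rfl⟩ | ⟨rfl, rfl, rfl⟩ | ⟨rfl, rfl, rfl⟩
  · exact this
  · rwa [← ori_cyc]
  · rwa [ori_cyc]

theorem rb_nonneg {p : ℂ} (hp : S.Gen p) {j : ℕ} (hj : j ≤ S.t.size) : 0 ≤ S.rb p j := by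
  unfold rb
  apply add_nonneg
  · exact wsum_tri_nonneg (S.ori_tri1 j) (hp.curve3 (S.V_mem_pts (by omega))
      (S.V_mem_pts (by omega)) (S.q_mem_pts (by omega)))
  · exact wsum_tri_nonneg (S.ori_tri2 j) (hp.curve3 (S.V_mem_pts (by omega))
      (S.q_mem_pts (by omega)) (S.q_mem_pts (by omega)))

theorem all_nonneg {p : ℂ} (hp : S.Gen p) :
    S.t.All 0 fun x z y => 0 ≤ wsum p [S.q x, S.q z, S.q y] := by
  apply Tr.All.congr S.t 0 _ S.pos
  intro x z y h1 h2 h3 h4 h5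
  exact wsum_tri_nonneg h5 (hp.curve3 (S.q_mem_pts (by omega)) (S.q_mem_pts (by omega))
    (S.q_mem_pts (by omega)))

theorem wn_nonneg {p : ℂ} (hp : S.Gen p) : 0 ≤ S.t.wn p S.q 0 :=
  Tr.wn_nonneg p S.q S.t 0 (S.all_nonneg hp)

theorem sum_rb_nonneg {p : ℂ} (hp : S.Gen p) :
    0 ≤ ∑ j ∈ Finset.range (S.t.size + 1), S.rb p j := by
  apply Finset.sum_nonneg
  intro j hj
  rw [Finset.mem_range] at hj
  exact S.rb_nonneg hp (by omega)

theorem wsum_le {p : ℂ} (hp : S.Gen p) : wsum p S.L ≤ 2 * π := by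
  have := Real.pi_pos
  rcases S.good.w p hp.curveL with h | h
  · have h' : wsum p S.L = 0 := h
    rw [h']; positivity
  · exact h.le

open Classical in
/-- the conditions cutting out the piece `(u, v)` -/
noncomputable def pl (u v : ℕ) : List (ℂ → ℝ) :=
  if h : ∃ w, Tri S.t u v w then secL (S.q u) (S.q v) (S.q h.choose) else S.wL v

theorem pl_tri {u v w : ℕ} (h : Tri S.t u v w) : S.pl u v = secL (S.q u) (S.q v) (S.q w) := by
  have h' : ∃ w, Tri S.t u v w := ⟨w, h⟩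
  unfold pl
  rw [dif_pos h', Tri.unique h'.choose_spec h]

theorem pl_out {v : ℕ} (h : v ≤ S.t.size) : S.pl ((v + 1) % (S.t.size + 1)) v = S.wL v := by
  unfold pl
  rw [dif_neg (no_tri S.t h)]

theorem pl_out' {u v : ℕ} (h : v ≤ S.t.size) (hu : u = (v + 1) % (S.t.size + 1)) :
    S.pl u v = S.wL v := by rw [hu, S.pl_out h]

theorem pl_aff (u v : ℕ) : ∀ f ∈ S.pl u v, Aff f := by
  unfold pl
  split_ifs with h
  · exact secL_aff _ _ _
  · exact S.wL_aff v

/-- generic points of a triangle piece -/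
theorem gen_tri {p : ℂ} (hp : S.Gen p) {u v w : ℕ} (h : Tri S.t u v w)
    (hpu : p ∈ Poly (S.pl u v)) : wsum p [S.q u, S.q v, S.q w] = 2 * π := by
  rw [S.pl_tri h] at hpu
  have h1 := secL_sub (S.tri_pos h) hpu
  have b1 := h.dir.bd
  have b2 := h.rot.dir.bd
  exact wsum_tri_in (mem_triO_of_triC (S.tri_pos h) h1 (hp.curve3 (S.q_mem_pts (by omega))
    (S.q_mem_pts (by omega)) (S.q_mem_pts (by omega))))

/-- generic points of a ribbon -/
theorem gen_rb {p : ℂ} (hp : S.Gen p) {v : ℕ} (h : v ≤ S.t.size)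
    (hpu : p ∈ Poly (S.wL v)) : 2 * π ≤ S.rb p v := by
  have c1 : p ∉ curve [S.V v, S.V (v + 1), S.q (v + 1)] := hp.curve3 (S.V_mem_pts (by omega))
      (S.V_mem_pts (by omega)) (S.q_mem_pts (by omega))
  have c2 : p ∉ curve [S.V v, S.q (v + 1), S.q v] := hp.curve3 (S.V_mem_pts (by omega))
      (S.q_mem_pts (by omega)) (S.q_mem_pts (by omega))
  have n1 := wsum_tri_nonneg (S.ori_tri1 v) c1
  have n2 := wsum_tri_nonneg (S.ori_tri2 v) c2
  unfold rb
  rcases S.wL_sub hpu c1 c2 with h1 | h1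
  · rw [wsum_tri_in h1]; linarith
  · rw [wsum_tri_in h1]; linarith

/-- a node and its winding sum, from a triangle -/
theorem node_of_tri (p : ℂ) {u v w : ℕ} (h : Tri S.t u v w) : ∃ x y, (x, y) ∈ S.t.E 0 ∧
    x + 1 < y ∧ wsum p [S.q x, S.q (S.t.mid 0 x y), S.q y] = wsum p [S.q u, S.q v, S.q w] ∧
    ((u = x ∧ v = S.t.mid 0 x y ∧ w = y) ∨ (u = S.t.mid 0 x y ∧ v = y ∧ w = x) ∨
      (u = y ∧ v = x ∧ w = S.t.mid 0 x y)) := by
  obtain ⟨x, y, h1, h2, h3⟩ := h
  refine ⟨x, y, h1, h2, ?_, h3⟩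
  rcases h3 with ⟨rfl, rfl, rfl⟩ | ⟨rfl, rfl, rfl⟩ | ⟨rfl, rfl, rfl⟩
  · rfl
  · rw [wsum_tri_rot]
  · rw [wsum_tri_rot, wsum_tri_rot]

/-- generic points are in only one piece -/
theorem gen_unique {p : ℂ} (hp : S.Gen p) {u v u' v' : ℕ} (h : Dir S.t u v) (h' : Dir S.t u' v')
    (h1 : p ∈ Poly (S.pl u v)) (h2 : p ∈ PolyO (S.pl u' v')) : u = u' ∧ v = v' := by
  have hpi := Real.pi_pos
  have hw := S.wind hp
  have hle := S.wsum_le hp
  have n1 := S.wn_nonneg hp
  have n2 := S.sum_rb_nonneg hp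
  have h2' := PolyO_subset _ h2
  have key : ∀ {v : ℕ}, v ≤ S.t.size → S.rb p v ≤ ∑ j ∈ Finset.range (S.t.size + 1), S.rb p j := by
    intro v hv
    apply Finset.single_le_sum (f := fun j => S.rb p j)
    · intro j hj
      rw [Finset.mem_range] at hj
      exact S.rb_nonneg hp (by omega)
    · rw [Finset.mem_range]; omega
  rcases dir_cases h with ⟨w, ht⟩ | ⟨hv, hu⟩ <;> rcases dir_cases h' with ⟨w', ht'⟩ | ⟨hv', hu'⟩
  · have e1 := S.gen_tri hp ht h1
    have e2 := S.gen_tri hp ht' h2'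
    obtain ⟨x, y, k1, k2, k3, k4⟩ := S.node_of_tri p ht
    obtain ⟨x', y', k1', k2', k3', k4'⟩ := S.node_of_tri p ht'
    by_cases hxy : x = x' ∧ y = y'
    · obtain ⟨rfl, rfl⟩ := hxy
      rw [S.pl_tri ht, mem_secL] at h1
      rw [S.pl_tri ht', mem_secLO] at h2
      rcases k4 with ⟨rfl, rfl, rfl⟩ | ⟨rfl, rfl, rfl⟩ | ⟨rfl, rfl, rfl⟩ <;>
      rcases k4' with ⟨rfl, rfl, rfl⟩ | ⟨rfl, rfl, rfl⟩ | ⟨rfl, rfl, rfl⟩
      · exact ⟨rfl, rfl⟩
      · linarith [h1.1, h1.2.1, h1.2.2, h2.1, h2.2.1, h2.2.2]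
      · linarith [h1.1, h1.2.1, h1.2.2, h2.1, h2.2.1, h2.2.2]
      · linarith [h1.1, h1.2.1, h1.2.2, h2.1, h2.2.1, h2.2.2]
      · exact ⟨rfl, rfl⟩
      · linarith [h1.1, h1.2.1, h1.2.2, h2.1, h2.2.1, h2.2.2]
      · linarith [h1.1, h1.2.1, h1.2.2, h2.1, h2.2.1, h2.2.2]
      · linarith [h1.1, h1.2.1, h1.2.2, h2.1, h2.2.1, h2.2.2]
      · exact ⟨rfl, rfl⟩
    · exfalso
      have := Tr.two_le_wn p S.q S.t 0 (S.all_nonneg hp) k1 k2 k1' k2' hxy
      rw [k3, k3', e1, e2] at this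
      linarith
  · exfalso
    have e1 := S.gen_tri hp ht h1
    rw [S.pl_out' hv' hu'] at h2'
    have e2 := S.gen_rb hp hv' h2'
    obtain ⟨x, y, k1, k2, k3, k4⟩ := S.node_of_tri p ht
    have := Tr.le_wn p S.q S.t 0 (S.all_nonneg hp) k1 k2
    rw [k3, e1] at this
    have := key hv'
    linarith
  · exfalso
    have e1 := S.gen_tri hp ht' h2'
    rw [S.pl_out' hv hu] at h1
    have e2 := S.gen_rb hp hv h1
    obtain ⟨x, y, k1, k2, k3, k4⟩ := S.node_of_tri p ht'
    have := Tr.le_wn p S.q S.t 0 (S.all_nonneg hp) k1 k2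
    rw [k3, e1] at this
    have := key hv
    linarith
  · by_cases hvv : v = v'
    · subst hvv
      exact ⟨by rw [hu, hu'], rfl⟩
    · exfalso
      rw [S.pl_out' hv hu] at h1
      rw [S.pl_out' hv' hu'] at h2'
      have e1 := S.gen_rb hp hv h1
      have e2 := S.gen_rb hp hv' h2'
      have e3 : ∑ j ∈ {v, v'}, S.rb p j ≤ ∑ j ∈ Finset.range (S.t.size + 1), S.rb p j := by
        apply Finset.sum_le_sum_of_subset_of_nonneg
        · intro j hj
          rw [Finset.mem_insert, Finset.mem_singleton] at hj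
          rw [Finset.mem_range]
          omega
        · intro j hj _
          rw [Finset.mem_range] at hj
          exact S.rb_nonneg hp (by omega)
      rw [Finset.sum_pair hvv] at e3
      linarith

/-- generic points of the pieces are inside -/
theorem gen_inside {p : ℂ} (hp : S.Gen p) {u v : ℕ} (h : Dir S.t u v)
    (h1 : p ∈ Poly (S.pl u v)) : p ∈ inside S.L := by
  have hpi := Real.pi_pos
  have hw := S.wind hp
  have n1 := S.wn_nonneg hp
  have n2 := S.sum_rb_nonneg hp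
  refine ⟨hp.curveL, ?_⟩
  have h3 : 2 * π ≤ wsum p S.L := by
    rcases dir_cases h with ⟨w, ht⟩ | ⟨hv, hu⟩
    · have e1 := S.gen_tri hp ht h1
      obtain ⟨x, y, k1, k2, k3, k4⟩ := S.node_of_tri p ht
      have := Tr.le_wn p S.q S.t 0 (S.all_nonneg hp) k1 k2
      rw [k3, e1] at this
      linarith
    · rw [S.pl_out' hv hu] at h1
      have e1 := S.gen_rb hp hv h1
      have e2 : S.rb p v ≤ ∑ j ∈ Finset.range (S.t.size + 1), S.rb p j := by
        apply Finset.single_le_sum (f := fun j => S.rb p j)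
        · intro j hj
          rw [Finset.mem_range] at hj
          exact S.rb_nonneg hp (by omega)
        · rw [Finset.mem_range]; omega
      linarith
  exact le_antisymm (S.wsum_le hp) h3

/-- generic inside points are in some piece -/
theorem gen_cover {p : ℂ} (hp : S.Gen p) (h : p ∈ inside S.L) :
    ∃ u v, Dir S.t u v ∧ p ∈ Poly (S.pl u v) := by
  have hpi := Real.pi_pos
  have hw := S.wind hp
  rw [h.2] at hw
  by_cases h1 : 0 < S.t.wn p S.q 0
  · obtain ⟨x, y, k1, k2, k3⟩ := Tr.exists_of_wn p S.q S.t 0 h1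
    have ht : Tri S.t x (S.t.mid 0 x y) y := ⟨x, y, k1, k2, Or.inl ⟨rfl, rfl, rfl⟩⟩
    have hpos := S.tri_pos ht
    have hmem : p ∈ triC (S.q x) (S.q (S.t.mid 0 x y)) (S.q y) := by
      by_contra hc
      rw [wsum_tri_out hpos hc] at k3
      exact lt_irrefl _ k3
    rcases tri_cover hpos hmem with h2 | h2 | h2
    · exact ⟨_, _, ht.dir, by rw [S.pl_tri ht]; exact h2⟩
    · exact ⟨_, _, ht.rot.dir, by rw [S.pl_tri ht.rot]; exact h2⟩
    · exact ⟨_, _, ht.rot.rot.dir, by rw [S.pl_tri ht.rot.rot]; exact h2⟩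
  · have h2 : 0 < ∑ j ∈ Finset.range (S.t.size + 1), S.rb p j := by
      have : 0 < 2 * π := by positivity
      linarith
    obtain ⟨j, hj, h3⟩ := Finset.exists_lt_of_sum_lt (s := Finset.range (S.t.size + 1))
      (f := fun _ => (0 : ℝ)) (g := fun j => S.rb p j) (by simpa using h2)
    rw [Finset.mem_range] at hj
    refine ⟨(j + 1) % (S.t.size + 1), j, dir_outer S.t (by omega), ?_⟩
    rw [S.pl_out (by omega)]
    have c1 : p ∉ curve [S.V j, S.V (j + 1), S.q (j + 1)] := hp.curve3 (S.V_mem_pts (by omega))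
      (S.V_mem_pts (by omega)) (S.q_mem_pts (by omega))
    have c2 : p ∉ curve [S.V j, S.q (j + 1), S.q j] := hp.curve3 (S.V_mem_pts (by omega))
      (S.q_mem_pts (by omega)) (S.q_mem_pts (by omega))
    by_contra hc
    have d1 : p ∉ triO (S.V j) (S.V (j + 1)) (S.q (j + 1)) := fun h' => hc (S.tri1_sub j h')
    have d2 : p ∉ triO (S.V j) (S.q (j + 1)) (S.q j) := fun h' => hc (S.tri2_sub j h')
    have g1 : wsum p [S.V j, S.V (j + 1), S.q (j + 1)] = 0 :=
      wsum_tri_out (S.ori_tri1 j) fun h' => d1 (mem_triO_of_triC (S.ori_tri1 j) h' c1)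
    have g2 : wsum p [S.V j, S.q (j + 1), S.q j] = 0 :=
      wsum_tri_out (S.ori_tri2 j) fun h' => d2 (mem_triO_of_triC (S.ori_tri2 j) h' c2)
    simp only [rb] at h3
    rw [g1, g2] at h3
    simp at h3

end Setup

end Pool.Agent.Lib.FoldCut
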