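import Pool.Agent.Lib.MP_12ced6_co.Tree

/-!
# Directed edges, triangles and the layer order

The pieces of paper are indexed by directed edges: the piece `(u, v)` lies on the left of the
edge from `u` to `v`.  The facet `(i, j, b)` lies along the edge `i j`, near the vertex `i`, on the
left (`b = false`) or on the right (`b = true`) of the ray from `i` to `j`.
-/

namespace Pool.Agent.Lib.FoldCut

/-- `u v w` is a triangle of the triangulation, in counterclockwise order -/
def Tri (t : Tr) (u v w : ℕ) : Prop := ∃ x y, (x, y) ∈ t.E 0 ∧ x + 1 < y ∧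
  ((u = x ∧ v = t.mid 0 x y ∧ w = y) ∨ (u = t.mid 0 x y ∧ v = y ∧ w = x) ∨
    (u = y ∧ v = x ∧ w = t.mid 0 x y))

/-- directed edges -/
def Dir (t : Tr) (u v : ℕ) : Prop := (u, v) ∈ t.E 0 ∨ (v, u) ∈ t.E 0

theorem Dir.symm {t : Tr} {u v : ℕ} (h : Dir t u v) : Dir t v u := Or.symm h

theorem Dir.bd {t : Tr} {u v : ℕ} (h : Dir t u v) : u ≠ v ∧ u ≤ t.size ∧ v ≤ t.size := by
  rcases h with h | h
  · have := t.E_lt 0 h; omega
  · have := t.E_lt 0 h; omega

/-- directed edges do not cross -/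
theorem Dir.lam {t : Tr} {a b x y : ℕ} (h : (a, b) ∈ t.E 0) (h' : Dir t x y) (h1 : a < x)
    (h2 : x < b) : a ≤ y ∧ y ≤ b := by
  rcases h' with h' | h'
  · have h3 := t.E_lt 0 h'
    have := t.E_lam 0 h h' h1 h2
    omega
  · have h3 := t.E_lt 0 h'
    refine ⟨?_, by omega⟩
    by_contra hc
    have := t.E_lam 0 h' h (by omega) (by omega)
    omega

theorem Tri.rot {t : Tr} {u v w : ℕ} (h : Tri t u v w) : Tri t v w u := by
  obtain ⟨x, y, h1, h2, h3⟩ := h
  refine ⟨x, y, h1, h2, ?_⟩
  rcases h3 with ⟨rfl, rfl, rfl⟩ | ⟨rfl, rfl, rfl⟩ | ⟨rfl, rfl, rfl⟩ <;> simp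

theorem Tri.dir {t : Tr} {u v w : ℕ} (h : Tri t u v w) : Dir t u v := by
  obtain ⟨x, y, h1, h2, h3⟩ := h
  obtain ⟨h4, h5, h6, h7⟩ := t.E_split 0 h1 h2
  rcases h3 with ⟨rfl, rfl, rfl⟩ | ⟨rfl, rfl, rfl⟩ | ⟨rfl, rfl, rfl⟩
  · exact Or.inl h6
  · exact Or.inl h7
  · exact Or.inr h1

theorem Tri.unique {t : Tr} {u v w w' : ℕ} (h : Tri t u v w) (h' : Tri t u v w') : w = w' := by
  obtain ⟨x, y, h1, h2, h3⟩ := h
  obtain ⟨x', y', h1', h2', h3'⟩ := h'
  obtain ⟨h4, h5, h6, h7⟩ := t.E_split 0 h1 h2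
  obtain ⟨h4', h5', h6', h7'⟩ := t.E_split 0 h1' h2'
  rcases h3 with ⟨e1, e2, e3⟩ | ⟨e1, e2, e3⟩ | ⟨e1, e2, e3⟩ <;>
  rcases h3' with ⟨e1', e2', e3'⟩ | ⟨e1', e2', e3'⟩ | ⟨e1', e2', e3'⟩
  · -- (x, z), (x', z')
    have hx : x = x' := by omega
    subst hx
    by_contra hne
    rcases lt_or_gt_of_ne hne with hlt | hlt
    · have := t.E_lam 0 h1 h7' (by omega) (by omega); omega
    · have := t.E_lam 0 h1' h7 (by omega) (by omega); omega
  · -- (x, z) = (z', y')
    exfalso
    have := t.E_lam 0 h1' h1 (by omega) (by omega); omega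
  · omega
  · -- (z, y) = (x', z')
    exfalso
    have := t.E_lam 0 h1 h1' (by omega) (by omega); omega
  · -- (z, y) = (z', y')
    by_contra hne
    rcases lt_or_gt_of_ne hne with hlt | hlt
    · have := t.E_lam 0 h6 h1' (by omega) (by omega); omega
    · have := t.E_lam 0 h6' h1 (by omega) (by omega); omega
  · omega
  · omega
  · omega
  · have : x = x' := by omega
    subst this
    have : y = y' := by omega
    subst this
    omega

theorem Tri.cases {t : Tr} {u v w : ℕ} (h : Tri t u v w) :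
    (u < v ∧ v < w) ∨ (v < w ∧ w < u) ∨ (w < u ∧ u < v) := by
  obtain ⟨x, y, h1, h2, h3⟩ := h
  obtain ⟨h4, h5, h6, h7⟩ := t.E_split 0 h1 h2
  omega

theorem dir_cases {t : Tr} {u v : ℕ} (h : Dir t u v) :
    (∃ w, Tri t u v w) ∨ (v ≤ t.size ∧ u = (v + 1) % (t.size + 1)) := by
  rcases h with h | h
  · by_cases hr : u = 0 ∧ v = 0 + t.size
    · right
      obtain ⟨rfl, rfl⟩ := hr
      simp
    · left
      obtain ⟨p, r, h1, h2, h3 | h3⟩ := t.E_par 0 h hr
      · exact ⟨r, p, r, h1, h2, Or.inl ⟨h3.1, h3.2, rfl⟩⟩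
      · exact ⟨p, p, r, h1, h2, Or.inr (Or.inl ⟨h3.1, h3.2, rfl⟩)⟩
  · have hb := t.E_lt 0 h
    by_cases hl : v + 1 < u
    · left
      exact ⟨t.mid 0 v u, v, u, h, hl, Or.inr (Or.inr ⟨rfl, rfl, rfl⟩)⟩
    · right
      have hu : u = v + 1 := by omega
      refine ⟨by omega, ?_⟩
      rw [Nat.mod_eq_of_lt (by omega)]
      exact hu

theorem dir_outer (t : Tr) {v : ℕ} (h : v ≤ t.size) : Dir t ((v + 1) % (t.size + 1)) v := by
  rcases h.lt_or_eq with h | h
  · rw [Nat.mod_eq_of_lt (by omega)]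
    right
    exact t.leaf_mem 0 (by omega) (by omega)
  · rw [h, Nat.mod_self]
    left
    have := t.root_mem 0
    simpa using this

theorem no_tri (t : Tr) {v : ℕ} (h : v ≤ t.size) :
    ¬ ∃ w, Tri t ((v + 1) % (t.size + 1)) v w := by
  rintro ⟨w, x, y, h1, h2, h3⟩
  obtain ⟨h4, h5, h6, h7⟩ := t.E_split 0 h1 h2
  have hb := t.E_lt 0 h1
  rcases h.lt_or_eq with h | h
  · rw [Nat.mod_eq_of_lt (by omega)] at h3
    omega
  · rw [h, Nat.mod_self] at h3
    omega

/-! ### the layer order -/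

/-- position of the edge `i j` around the vertex `i`, clockwise from outside -/
def pos (t : Tr) (i j : ℕ) : ℕ := if j < i then t.size + 1 - j else 2 * (t.size + 1) - j

/-- rank of the facet `(i, j, b)` in the block of the vertex `i` -/
def rank (t : Tr) (φ : ℕ × ℕ × Bool) : ℕ := 2 * pos t φ.1 φ.2.1 + (if φ.2.2 then 1 else 0)

/-- the layer order -/
def Lt (t : Tr) (φ ψ : ℕ × ℕ × Bool) : Prop :=
  φ.1 < ψ.1 ∨ (φ.1 = ψ.1 ∧ rank t φ < rank t ψ)

/-- facets -/
def Fac (t : Tr) (φ : ℕ × ℕ × Bool) : Prop := Dir t φ.1 φ.2.1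

/-- neighbours in the layer order -/
def Adj (t : Tr) (φ ψ : ℕ × ℕ × Bool) : Prop :=
  ∀ χ, Fac t χ → χ ≠ φ → χ ≠ ψ → (Lt t φ χ ↔ Lt t ψ χ)

theorem Lt.irrefl {t : Tr} {φ : ℕ × ℕ × Bool} : ¬ Lt t φ φ := by
  unfold Lt; omega

theorem Lt.trans {t : Tr} {φ ψ χ : ℕ × ℕ × Bool} (h : Lt t φ ψ) (h' : Lt t ψ χ) : Lt t φ χ := by
  unfold Lt at *; omega

theorem Lt.asymm {t : Tr} {φ ψ : ℕ × ℕ × Bool} (h : Lt t φ ψ) : ¬ Lt t ψ φ := by
  unfold Lt at *; omega

theorem rank_inj {t : Tr} {φ ψ : ℕ × ℕ × Bool} (hφ : Fac t φ) (hψ : Fac t ψ) (h : φ.1 = ψ.1)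
    (h' : rank t φ = rank t ψ) : φ = ψ := by
  obtain ⟨i, j, b⟩ := φ
  obtain ⟨i', j', b'⟩ := ψ
  have h1 := hφ.bd
  have h2 := hψ.bd
  simp only at h h1 h2
  subst h
  simp only [rank, pos] at h'
  have hb : b = b' := by
    cases b <;> cases b' <;> simp at h' ⊢ <;> split_ifs at h' <;> omega
  subst hb
  have hj : j = j' := by
    split_ifs at h' <;> omega
  subst hj
  rfl

theorem Lt.total {t : Tr} {φ ψ : ℕ × ℕ × Bool} (hφ : Fac t φ) (hψ : Fac t ψ) (h : φ ≠ ψ) :
    Lt t φ ψ ∨ Lt t ψ φ := by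
  by_contra hc
  rw [not_or] at hc
  unfold Lt at hc
  exact h (rank_inj hφ hψ (by omega) (by omega))

theorem Adj.symm {t : Tr} {φ ψ : ℕ × ℕ × Bool} (h : Adj t φ ψ) : Adj t ψ φ :=
  fun χ h1 h2 h3 => (h χ h1 h3 h2).symm

/-- the rule for showing adjacency -/
theorem adj_of {t : Tr} {φ ψ : ℕ × ℕ × Bool} (hψ : Fac t ψ) (hlt : Lt t φ ψ)
    (h : ∀ χ, Fac t χ → Lt t φ χ → Lt t χ ψ → False) : Adj t φ ψ := by
  intro χ hχ h1 h2
  constructor
  · intro h3
    rcases Lt.total hψ hχ h2.symm with h4 | h4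
    · exact h4
    · exact (h χ hχ h3 h4).elim
  · intro h3
    exact hlt.trans h3

/-- the two sides of an edge -/
theorem adj_edge {t : Tr} {i j : ℕ} (h : Dir t i j) : Adj t (i, j, false) (i, j, true) := by
  have hb := h.bd
  refine adj_of h ?_ ?_
  · simp [Lt, rank]
  · rintro ⟨i', j', b⟩ hχ h1 h2
    have hb' := hχ.bd
    simp only [Lt, rank, if_true, Bool.false_eq_true, if_false] at h1 h2 hb'
    omega

/-- the two sides of the bisector of a triangle at the vertex `v` -/
theorem adj_tri {t : Tr} {u v w : ℕ} (h : Tri t u v w) : Adj t (v, u, true) (v, w, false) := by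
  have h1 : Dir t v u := h.dir.symm
  have h2 : Dir t v w := h.rot.dir
  have b1 := h1.bd
  have b2 := h2.bd
  obtain ⟨x, y, hxy, hlt, h3⟩ := h
  obtain ⟨hxz, hzy, e1, e2⟩ := t.E_split 0 hxy hlt
  set z := t.mid 0 x y
  have b3 := t.E_lt 0 hxy
  refine adj_of h2 ?_ ?_
  · right
    refine ⟨rfl, ?_⟩
    simp only [rank, pos, if_true, Bool.false_eq_true, if_false]
    split_ifs <;> omega
  · rintro ⟨i, j, b⟩ hχ k1 k2
    have b4 := hχ.bd
    simp only [Lt] at k1 k2 b4
    have hi : i = v := by omega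
    subst hi
    have k3 : rank t (i, u, true) < rank t (i, j, b) := by omega
    have k4 : rank t (i, j, b) < rank t (i, w, false) := by omega
    simp only [rank, pos, if_true, Bool.false_eq_true, if_false] at k3 k4
    have hju : j ≠ u := by
      rintro rfl
      split_ifs at k3 k4 <;> omega
    have hjw : j ≠ w := by
      rintro rfl
      split_ifs at k3 k4 <;> omega
    rcases h3 with ⟨e3, e4, e5⟩ | ⟨e3, e4, e5⟩ | ⟨e3, e4, e5⟩
    · -- at the apex `z`
      have := Dir.lam hxy hχ (by simp only; omega) (by simp only; omega)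
      simp only at this
      split_ifs at k3 k4 <;> omega
    · -- at `y`
      have hj : x < j ∧ j < z := by split_ifs at k3 k4 <;> omega
      have := Dir.lam e1 hχ.symm (by simp only; omega) (by simp only; omega)
      simp only at this
      omega
    · -- at `x`
      have hj : z < j ∧ j < y := by split_ifs at k3 k4 <;> omega
      have := Dir.lam e2 hχ.symm (by simp only; omega) (by simp only; omega)
      simp only at this
      omega

/-- `χ` lies along an edge inside the range of the edge `u v` -/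
def Nested (u v : ℕ) (χ : ℕ × ℕ × Bool) : Prop :=
  min u v ≤ min χ.1 χ.2.1 ∧ max χ.1 χ.2.1 ≤ max u v

/-- strictly between, in one or the other order -/
def Btw (t : Tr) (φ ψ χ : ℕ × ℕ × Bool) : Prop :=
  (Lt t φ χ ∧ Lt t χ ψ) ∨ (Lt t ψ χ ∧ Lt t χ φ)

/-- the layers between the two halves of a piece -/
theorem btw_piece {t : Tr} {u v : ℕ} (h : Dir t u v) {χ : ℕ × ℕ × Bool} (hχ : Fac t χ)
    (hb : Btw t (u, v, false) (v, u, true) χ) : Nested u v χ := by
  have b1 := h.bd
  obtain ⟨i, j, b⟩ := χ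
  have b2 := hχ.bd
  simp only at b2
  have key : ∀ {a c : ℕ}, (a, c) ∈ t.E 0 → min u v = a → max u v = c → Nested u v (i, j, b) := by
    intro a c hac ha hc
    have b3 := t.E_lt 0 hac
    have l1 : a < i → i < c → a ≤ j ∧ j ≤ c := fun p1 p2 => Dir.lam hac hχ p1 p2
    have l2 : a < j → j < c → a ≤ i ∧ i ≤ c := fun p1 p2 => Dir.lam hac hχ.symm p1 p2
    unfold Btw at hb
    simp only [Lt, rank, pos, if_true, Bool.false_eq_true, if_false] at hb
    simp only [Nested]
    have hi : a ≤ i ∧ i ≤ c := by omega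
    by_cases hai : i = a
    · subst hai
      rcases lt_or_ge u v with huv | huv
      · have : u = i := by omega
        have : v = c := by omega
        subst_vars
        cases b <;> simp at hb <;> split_ifs at hb <;> omega
      · have : v = i := by omega
        have : u = c := by omega
        subst_vars
        cases b <;> simp at hb <;> split_ifs at hb <;> omega
    · by_cases hic : i = c
      · subst hic
        rcases lt_or_ge u v with huv | huv
        · have : u = a := by omega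
          have : v = i := by omega
          subst_vars
          cases b <;> simp at hb <;> split_ifs at hb <;> omega
        · have : v = a := by omega
          have : u = i := by omega
          subst_vars
          cases b <;> simp at hb <;> split_ifs at hb <;> omega
      · have := l1 (by omega) (by omega)
        omega
  rcases h with h | h
  · have := t.E_lt 0 h
    exact key h (by omega) (by omega)
  · have := t.E_lt 0 h
    exact key h (by omega) (by omega)

/-- the two halves of a piece nested in another one -/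
theorem btw_btw {t : Tr} {u v u' v' : ℕ} (h : Dir t u v) (h' : Dir t u' v') :
    (Btw t (u, v, false) (v, u, true) (u', v', false) →
      Btw t (u, v, false) (v, u, true) (v', u', true)) ∧
    (Btw t (u, v, false) (v, u, true) (v', u', true) →
      Btw t (u, v, false) (v, u, true) (u', v', false)) := by
  have b1 := h.bd
  have b2 := h'.bd
  constructor
  · intro hb
    have hn := btw_piece h (χ := (u', v', false)) h' hb
    simp only [Nested] at hn
    simp only [Btw, Lt, rank, pos, if_true, Bool.false_eq_true, if_false] at hb ⊢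
    split_ifs at hb ⊢ <;> omega
  · intro hb
    have hn := btw_piece h (χ := (v', u', true)) h'.symm hb
    simp only [Nested] at hn
    simp only [Btw, Lt, rank, pos, if_true, Bool.false_eq_true, if_false] at hb ⊢
    split_ifs at hb ⊢ <;> omega

/-- the layers between the outer halves of two pieces of a triangle, at the bisector at `v` -/
theorem btw_tri {t : Tr} {u v w : ℕ} (h : Tri t u v w) (hv : ¬ (u < v ∧ v < w))
    {χ : ℕ × ℕ × Bool} (hχ : Fac t χ) (hb : Btw t (u, v, false) (w, v, true) χ) :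
    Nested u w χ := by
  obtain ⟨x, y, hxy, hlt, h3⟩ := h
  obtain ⟨hxz, hzy, e1, e2⟩ := t.E_split 0 hxy hlt
  set z := t.mid 0 x y
  have b3 := t.E_lt 0 hxy
  obtain ⟨i, j, b⟩ := χ
  have b2 := hχ.bd
  simp only at b2
  have l1 : x < i → i < y → x ≤ j ∧ j ≤ y := fun p1 p2 => Dir.lam hxy hχ p1 p2
  have l2 : x < j → j < y → x ≤ i ∧ i ≤ y := fun p1 p2 => Dir.lam hxy hχ.symm p1 p2
  have l3 : x < i → i < z → x ≤ j ∧ j ≤ z := fun p1 p2 => Dir.lam e1 hχ p1 p2
  have l4 : x < j → j < z → x ≤ i ∧ i ≤ z := fun p1 p2 => Dir.lam e1 hχ.symm p1 p2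
  have l5 : z < i → i < y → z ≤ j ∧ j ≤ y := fun p1 p2 => Dir.lam e2 hχ p1 p2
  have l6 : z < j → j < y → z ≤ i ∧ i ≤ y := fun p1 p2 => Dir.lam e2 hχ.symm p1 p2
  rcases h3 with ⟨e3, e4, e5⟩ | ⟨e3, e4, e5⟩ | ⟨e3, e4, e5⟩
  · omega
  · -- `(u, v, w) = (z, y, x)`
    rw [e3, e4, e5] at hb
    rw [e3, e5]
    simp only [Btw, Lt, rank, pos, if_true, Bool.false_eq_true, if_false] at hb
    simp only [Nested]
    cases b <;> simp at hb <;> split_ifs at hb <;> omega
  · -- `(u, v, w) = (y, x, z)`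
    rw [e3, e4, e5] at hb
    rw [e3, e5]
    simp only [Btw, Lt, rank, pos, if_true, Bool.false_eq_true, if_false] at hb
    simp only [Nested]
    cases b <;> simp at hb <;> split_ifs at hb <;> omega

/-- the directed edge of the piece containing a facet -/
def pc (φ : ℕ × ℕ × Bool) : ℕ × ℕ := if φ.2.2 then (φ.2.1, φ.1) else (φ.1, φ.2.1)

theorem Fac.dir {t : Tr} {φ : ℕ × ℕ × Bool} (h : Fac t φ) : Dir t (pc φ).1 (pc φ).2 := by
  obtain ⟨i, j, b⟩ := φ
  cases b
  · exact h
  · exact Dir.symm h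

/-- the layers between two neighbouring ribbons belong to triangles and lie at the same vertex -/
theorem btw_ribbon {t : Tr} {p i s : ℕ} (hp : i = (p + 1) % (t.size + 1)) (hp' : p ≤ t.size)
    (hs : s = (i + 1) % (t.size + 1)) {χ : ℕ × ℕ × Bool} (hχ : Fac t χ)
    (hb : Btw t (i, p, false) (i, s, true) χ) : ∃ w, Tri t (pc χ).1 (pc χ).2 w := by
  obtain ⟨i', j, b⟩ := χ
  have b2 := hχ.bd
  simp only at b2
  have hi : i' = i := by
    simp only [Btw, Lt] at hb; omega
  subst hi
  rcases dir_cases hχ.dir with h | ⟨h1, h2⟩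
  · exact h
  · exfalso
    cases b
    · simp only [pc, Bool.false_eq_true, if_false] at h1 h2
      have : j = p := by
        rcases h1.lt_or_eq with h3 | h3
        · rw [Nat.mod_eq_of_lt (by omega)] at h2
          rcases hp'.lt_or_eq with h4 | h4
          · rw [Nat.mod_eq_of_lt (by omega)] at hp; omega
          · rw [h4, Nat.mod_self] at hp; omega
        · rw [h3, Nat.mod_self] at h2
          rcases hp'.lt_or_eq with h4 | h4
          · rw [Nat.mod_eq_of_lt (by omega)] at hp; omega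
          · omega
      subst this
      unfold Btw at hb
      rcases hb with hb | hb
      · exact Lt.irrefl hb.1
      · exact Lt.irrefl hb.2
    · simp only [pc, if_true] at h1 h2
      have : j = s := by rw [h2, hs]
      subst this
      unfold Btw at hb
      rcases hb with hb | hb
      · exact Lt.irrefl hb.2
      · exact Lt.irrefl hb.1

end Pool.Agent.Lib.FoldCut
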