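import Pool.Agent.Lib.MP_12ced6_co.Par

/-!
# The folding map
-/

namespace Pool.Agent.Lib.FoldCut

open Complex Real Topology

namespace Setup

variable (S : Setup)

/-- points of two sectors of a triangle with the common vertex `v` -/
theorem bis {u v c : ℕ} (h : Tri S.t u v c) {w : ℂ} (h1 : w ∈ Poly (S.pl u v))
    (h2 : w ∈ Poly (S.pl v c)) :
    cy (S.q v) (S.q c) w = cy (S.q u) (S.q v) w ∧
    cx (S.q v) (S.q u) w = cx (S.q v) (S.q c) w ∧
    inr (S.q v) (S.q c) (S.q u) * cx (S.q v) (S.q c) w =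
      tng (S.q v) (S.q c) (S.q u) * cy (S.q u) (S.q v) w ∧
    cx (S.q v) (S.q c) w ≤ ta S.q v u c := by
  rw [S.pl_tri h, mem_secL] at h1
  rw [S.pl_tri h.rot, mem_secL] at h2
  have he : cy (S.q v) (S.q c) w = cy (S.q u) (S.q v) w := by linarith [h1.2.1, h2.2.2]
  have hpos : 0 < ori (S.q v) (S.q c) (S.q u) := by
    have := S.tri_pos h
    rwa [ori_cyc] at this
  obtain ⟨ht, κ, hκ, hc⟩ := corner hpos
  obtain ⟨c1, -, c3⟩ := hc w
  have hinr := inr_pos hpos
  have hsw : - cy (S.q v) (S.q u) w = cy (S.q u) (S.q v) w := (cy_swap _ _ _).symm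
  have e1 : cx (S.q v) (S.q u) w = cx (S.q v) (S.q c) w := (c3 (by rw [hsw]; exact he)).symm
  have e2 : inr (S.q v) (S.q c) (S.q u) * cx (S.q v) (S.q c) w =
      tng (S.q v) (S.q c) (S.q u) * cy (S.q u) (S.q v) w := by
    rw [hsw, he, sub_self, mul_zero] at c1
    have := (mul_eq_zero.mp c1.symm).resolve_left hκ.ne'
    linarith
  refine ⟨he, e1, e2, ?_⟩
  have hsum := heights_sum hpos w
  obtain ⟨n1, n2, n3⟩ := ne_of_ori hpos
  have hb : 0 < ‖S.q c - S.q v‖ := norm_pos_iff.mpr (sub_ne_zero.mpr n1.symm)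
  have ha : 0 < ‖S.q u - S.q c‖ := norm_pos_iff.mpr (sub_ne_zero.mpr n2.symm)
  have hc' : 0 < ‖S.q v - S.q u‖ := norm_pos_iff.mpr (sub_ne_zero.mpr n3.symm)
  have h3 : cy (S.q u) (S.q v) w ≤ inr (S.q v) (S.q c) (S.q u) := by
    unfold inr
    rw [le_div_iff₀ (by positivity), ← hsum, he]
    have : ‖S.q u - S.q c‖ * cy (S.q u) (S.q v) w ≤ ‖S.q u - S.q c‖ * cy (S.q c) (S.q u) w :=
      mul_le_mul_of_nonneg_left h1.2.2 ha.le
    linarith
  have h4 : tng (S.q v) (S.q c) (S.q u) = ta S.q v u c := by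
    unfold tng ta ln
    rw [norm_sub_rev (S.q u) (S.q c)]; ring
  rw [← h4]
  have h5 : inr (S.q v) (S.q c) (S.q u) * cx (S.q v) (S.q c) w ≤
      inr (S.q v) (S.q c) (S.q u) * tng (S.q v) (S.q c) (S.q u) := by
    rw [e2, mul_comm (inr _ _ _)]
    exact mul_le_mul_of_nonneg_left h3 ht.le
  exact le_of_mul_le_mul_left h5 hinr

/-- points of the two pieces at an edge -/
theorem on_edge {u v : ℕ} (h : Dir S.t u v) {w : ℂ} (h1 : w ∈ Poly (S.pl u v))
    (h2 : w ∈ Poly (S.pl v u)) : cy (S.q u) (S.q v) w = 0 := by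
  obtain ⟨tl, e1, -⟩ := S.pl_head h
  obtain ⟨tl', e2, -⟩ := S.pl_head h.symm
  rw [e1] at h1
  rw [e2] at h2
  have k1 : 0 ≤ cy (S.q u) (S.q v) w := h1 _ (List.mem_cons_self)
  have k2 : 0 ≤ cy (S.q v) (S.q u) w := h2 _ (List.mem_cons_self)
  rw [cy_swap] at k2
  linarith

/-- points of two consecutive ribbons -/
theorem on_mitre {u v : ℕ} (hv : v ≤ S.t.size) (hu : u = (v + 1) % (S.t.size + 1))
    {w : ℂ} (h1 : w ∈ Poly (S.pl u v)) (h2 : w ∈ Poly (S.pl ((u + 1) % (S.t.size + 1)) u)) :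
    ∃ H, - S.d ≤ H ∧ H ≤ 0 ∧ |S.μ u * H| < S.μ0 ∧ cy (S.q u) (S.q v) w = - H ∧
      cx (S.q u) (S.q v) w = S.μ u * H ∧
      cy (S.q u) (S.q ((u + 1) % (S.t.size + 1))) w = H ∧
      cx (S.q u) (S.q ((u + 1) % (S.t.size + 1))) w = S.μ u * H := by
  have hun : u ≤ S.t.size := by
    rw [hu]; exact Nat.lt_succ_iff.mp (Nat.mod_lt _ (by omega))
  rw [S.pl_out' hv hu, S.mem_wL] at h1
  rw [S.pl_out hun, S.mem_wL] at h2
  obtain ⟨k1, k2, k3, k4⟩ := h1
  obtain ⟨l1, l2, l3, l4⟩ := h2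
  have e1 : S.q u = S.q (v + 1) := by rw [hu, S.q_mod]
  have e2 : S.q (u + 1) = S.q (v + 2) := by rw [hu, S.q_mod']
  have e3 : S.μ u = S.μ (v + 1) := by rw [hu, S.μ_mod]
  obtain ⟨m1, m2⟩ := S.mitre v w
  have m3 := S.depth v w
  rw [S.q_mod]
  rw [← e1, ← e2, ← e3] at m1 m3
  rw [← e1] at k1 k2 k3 k4
  rw [← e3] at k4
  have hN : S.ell v - cx (S.q v) (S.q u) w - S.μ u * cy (S.q v) (S.q u) w = 0 := by linarith
  rw [hN, mul_zero] at m3
  have m4 := (mul_eq_zero.mp m3).resolve_left (by positivity)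
  have m5 : cy (S.q u) (S.q (u + 1)) w = cy (S.q v) (S.q u) w := by linarith
  have hne : S.q v ≠ S.q u := by rw [e1]; exact S.q_ne v
  have hell : S.ell v = ‖S.q u - S.q v‖ := by rw [e1]; rfl
  refine ⟨cy (S.q v) (S.q u) w, by linarith, by linarith, S.small u (by linarith) (by linarith),
    cy_swap _ _ _, ?_, m5, ?_⟩
  · rw [cx_swap hne, ← hell]; linarith
  · rw [m5] at m1; linarith

open Classical in
/-- `1` for the pieces in triangles, `-1` for the ribbons -/
noncomputable def ep (u v : ℕ) : ℝ := if ∃ w, Tri S.t u v w then 1 else -1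

theorem ep_tri {u v w : ℕ} (h : Tri S.t u v w) : S.ep u v = 1 := if_pos ⟨w, h⟩

theorem ep_out {u v : ℕ} (hv : v ≤ S.t.size) (hu : u = (v + 1) % (S.t.size + 1)) :
    S.ep u v = -1 := by
  unfold ep
  rw [hu, if_neg (no_tri S.t hv)]

theorem ep_cases (u v : ℕ) : S.ep u v = 1 ∨ S.ep u v = -1 := by
  unfold ep
  split_ifs
  · exact Or.inl rfl
  · exact Or.inr rfl

end Setup

variable {S : Setup} (R : Par S)

namespace Par

/-- the folding map on the piece `(u, v)` -/
noncomputable def g (u v : ℕ) (w : ℂ) : ℂ :=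
  ⟨R.X u - R.sd u v + |cx (S.q u) (S.q v) w - R.sd u v|, S.d + S.ep u v * cy (S.q u) (S.q v) w⟩

theorem cx_add {u v : ℕ} (h : Dir S.t u v) (w : ℂ) :
    cx (S.q u) (S.q v) w - R.sd u v = - (cx (S.q v) (S.q u) w - R.sd v u) := by
  have h1 := R.add u v h
  have h2 : ln S.q u v = ‖S.q v - S.q u‖ := rfl
  rw [cx_swap (S.q_ne_of_dir h) w, ← h2]
  linarith

/-- the abscissa seen from the other end -/
theorem g_re {u v : ℕ} (h : Dir S.t u v) (w : ℂ) :
    R.X u - R.sd u v + |cx (S.q u) (S.q v) w - R.sd u v| =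
      R.X v - R.sd v u + |cx (S.q v) (S.q u) w - R.sd v u| := by
  rw [R.val u v h, R.cx_add h, abs_neg]

/-- the value at a corner -/
theorem g_corner {u v : ℕ} (h : Dir S.t u v) {j : ℕ} (hj : j = u ∨ j = v) :
    R.g u v (S.q j) = ⟨R.X j, S.d⟩ := by
  have hp := R.pos u v h
  have hp' := R.pos v u h.symm
  have hμ := S.μ0_pos
  unfold g
  rcases hj with rfl | rfl
  · rw [cx_left, cy_left, zero_sub, abs_neg, abs_of_pos (by linarith)]
    congr 1 <;> ring
  · rw [R.g_re h, cx_left, cy_right, zero_sub, abs_neg, abs_of_pos (by linarith)]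
    congr 1 <;> ring

/-- related pieces are mapped in the same way -/
theorem g_rel {u v u' v' : ℕ} (h : Dir S.t u v) (h' : Dir S.t u' v') (hr : Rel S.t u v u' v')
    {w : ℂ} (hw : w ∈ Poly (S.pl u v)) (hw' : w ∈ Poly (S.pl u' v')) :
    R.g u v w = R.g u' v' w := by
  have hp := R.pos
  rcases hr with ⟨ht, rfl⟩ | ⟨rfl, rfl⟩ | ⟨hv, hu, rfl, rfl⟩
  · obtain ⟨e1, e2, -, e3⟩ := S.bis ht hw hw'
    have htri := R.tri _ _ _ ht
    unfold g
    rw [R.g_re h, S.ep_tri ht, S.ep_tri ht.rot, e1, e2]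
    congr 1
    set T := cx (S.q u') (S.q v') w
    set τ := ta S.q u' u v'
    have hX : ∀ s, R.X u' - s + |T - s| = R.X u' - T + 2 * (max (T - s) 0) := by
      intro s
      rcases le_total T s with h1 | h1
      · rw [abs_of_nonpos (by linarith), max_eq_right (by linarith)]; ring
      · rw [abs_of_nonneg (by linarith), max_eq_left (by linarith)]; ring
    rw [hX, hX]
    rcases le_total (R.sd u' u) τ with h1 | h1
    · rw [min_eq_left h1] at htri
      rcases le_total (R.sd u' v') τ with h2 | h2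
      · rw [min_eq_left h2] at htri
        rw [htri]
      · rw [min_eq_right h2] at htri
        rw [max_eq_right (by linarith), max_eq_right (by linarith)]
    · rw [min_eq_right h1] at htri
      rcases le_total (R.sd u' v') τ with h2 | h2
      · rw [min_eq_left h2] at htri
        rw [max_eq_right (by linarith), max_eq_right (by linarith)]
      · rw [max_eq_right (by linarith), max_eq_right (by linarith)]
  · have e1 := S.on_edge h hw hw'
    unfold g
    rw [R.g_re h, cy_swap (S.q v') (S.q u') w, e1, neg_zero, mul_zero, mul_zero]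
  · obtain ⟨H, -, -, k1, k2, k3, k4, k5⟩ := S.on_mitre hv hu hw hw'
    have hv'n : v' ≤ S.t.size := h.bd.2.1
    have hs1 := hp v' v h
    have hs2 := hp v' _ h'.symm
    rw [abs_lt] at k1
    unfold g
    rw [R.g_re h', S.ep_out hv hu, S.ep_out hv'n rfl, k2, k3, k5, cy_swap (S.q v') (S.q _) w, k4,
      abs_of_neg (by linarith), abs_of_neg (by linarith)]
    congr 1
    ring

/-- the folding map is well defined -/
theorem g_compat {u v u' v' : ℕ} (h : Dir S.t u v) (h' : Dir S.t u' v')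
    {w : ℂ} (hw : w ∈ Poly (S.pl u v)) (hw' : w ∈ Poly (S.pl u' v')) :
    R.g u v w = R.g u' v' w := by
  by_cases hne : u = u' ∧ v = v'
  · obtain ⟨rfl, rfl⟩ := hne; rfl
  · rcases S.meet h h' hne hw hw' with h1 | h1 | ⟨j, hj, hj', rfl⟩
    · exact R.g_rel h h' h1 hw hw'
    · exact (R.g_rel h' h h1 hw' hw).symm
    · rw [R.g_corner h hj, R.g_corner h' hj']

open Classical in
/-- the folding map -/
noncomputable def F (w : ℂ) : ℂ :=
  if h : ∃ e : ℕ × ℕ, Dir S.t e.1 e.2 ∧ w ∈ Poly (S.pl e.1 e.2) then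
    R.g h.choose.1 h.choose.2 w else 0

theorem F_eq {u v : ℕ} (h : Dir S.t u v) {w : ℂ} (hw : w ∈ Poly (S.pl u v)) :
    R.F w = R.g u v w := by
  have hex : ∃ e : ℕ × ℕ, Dir S.t e.1 e.2 ∧ w ∈ Poly (S.pl e.1 e.2) := ⟨(u, v), h, hw⟩
  unfold F
  rw [dif_pos hex]
  exact R.g_compat hex.choose_spec.1 h hex.choose_spec.2 hw

theorem continuous_g (u v : ℕ) : Continuous (R.g u v) := by
  have hx := continuous_cx (S.q u) (S.q v)
  have hy := continuous_cy (S.q u) (S.q v)
  have e : R.g u v = fun w => ((R.X u - R.sd u v + |cx (S.q u) (S.q v) w - R.sd u v| : ℝ) : ℂ) +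
      ((S.d + S.ep u v * cy (S.q u) (S.q v) w : ℝ) : ℂ) * I := by
    funext w
    rw [← mk_eq_add_mul_I]
    rfl
  rw [e]
  fun_prop

/-! ### facets -/

/-- the conditions of the facet `φ` -/
noncomputable def fl (φ : ℕ × ℕ × Bool) : List (ℂ → ℝ) :=
  S.pl (pc φ).1 (pc φ).2 ++ [fun w => R.sd φ.1 φ.2.1 - cx (S.q φ.1) (S.q φ.2.1) w]

/-- the facet `φ` -/
noncomputable def K (φ : ℕ × ℕ × Bool) : Set ℂ := Poly (R.fl φ)

theorem mem_K {φ : ℕ × ℕ × Bool} {w : ℂ} : w ∈ R.K φ ↔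
    w ∈ Poly (S.pl (pc φ).1 (pc φ).2) ∧ cx (S.q φ.1) (S.q φ.2.1) w ≤ R.sd φ.1 φ.2.1 := by
  constructor
  · intro h
    refine ⟨fun f hf => h f (List.mem_append_left _ hf), ?_⟩
    have := h _ (List.mem_append_right _ (List.mem_singleton_self _))
    linarith
  · rintro ⟨h1, h2⟩ f hf
    unfold fl at hf
    rw [List.mem_append, List.mem_singleton] at hf
    rcases hf with hf | rfl
    · exact h1 f hf
    · simp only; linarith

theorem mem_KO {φ : ℕ × ℕ × Bool} {w : ℂ} : w ∈ PolyO (R.fl φ) ↔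
    w ∈ PolyO (S.pl (pc φ).1 (pc φ).2) ∧ cx (S.q φ.1) (S.q φ.2.1) w < R.sd φ.1 φ.2.1 := by
  constructor
  · intro h
    refine ⟨fun f hf => h f (List.mem_append_left _ hf), ?_⟩
    have := h _ (List.mem_append_right _ (List.mem_singleton_self _))
    linarith
  · rintro ⟨h1, h2⟩ f hf
    unfold fl at hf
    rw [List.mem_append, List.mem_singleton] at hf
    rcases hf with hf | rfl
    · exact h1 f hf
    · simp only; linarith

theorem fl_aff (φ : ℕ × ℕ × Bool) : ∀ f ∈ R.fl φ, Aff f := by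
  intro f hf
  unfold fl at hf
  rw [List.mem_append, List.mem_singleton] at hf
  rcases hf with hf | rfl
  · exact S.pl_aff _ _ f hf
  · exact (Aff.const _).sub (aff_cx _ _)

/-- facets have interior points -/
theorem fl_nonempty {φ : ℕ × ℕ × Bool} (h : Fac S.t φ) : (PolyO (R.fl φ)).Nonempty := by
  obtain ⟨i, j, b⟩ := φ
  have hd : Dir S.t i j := h
  have hne := S.q_ne_of_dir hd
  have hμ := S.μ0_pos
  have h1 := R.pos i j hd
  have h2 := R.pos j i hd.symm
  have h3 := R.add i j hd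
  have h4 : ln S.q i j = ‖S.q j - S.q i‖ := rfl
  set w : ℂ := pt (S.q i) (S.q j) (R.sd i j / 2) 0 with hw
  have hx : cx (S.q i) (S.q j) w = R.sd i j / 2 := cx_pt hne _ _
  have hy : cy (S.q i) (S.q j) w = 0 := cy_pt hne _ _
  have ho : w ∈ openSegment ℝ (S.q i) (S.q j) := by
    apply mem_openSegment_of_coord hne hy
    · rw [hx]; linarith
    · rw [hx, ← h4]; linarith
  have ho' : w ∈ openSegment ℝ (S.q (pc (i, j, b)).1) (S.q (pc (i, j, b)).2) := by
    cases b
    · exact ho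
    · rw [openSegment_symm]; exact ho
  apply S.nonempty_aux h.dir ((Aff.const _).sub (aff_cx _ _)) ho'
  simp only
  rw [hx]; linarith

theorem K_interior {φ : ℕ × ℕ × Bool} (h : Fac S.t φ) : interior (R.K φ) = PolyO (R.fl φ) := by
  apply Set.Subset.antisymm
  · intro z hz f hf
    obtain ⟨w0, hw0⟩ := R.fl_nonempty h
    have hfz : 0 ≤ f z := interior_subset hz f hf
    rcases hfz.lt_or_eq with h1 | h1
    · exact h1
    exfalso
    have haff := R.fl_aff φ f hf
    have hcont : ContinuousAt (fun t : ℝ => (1 + t) • z + (-t) • w0) 0 := by fun_prop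
    have h0 : interior (R.K φ) ∈ 𝓝 ((1 + (0:ℝ)) • z + (-(0:ℝ)) • w0) := by
      simpa using isOpen_interior.mem_nhds hz
    have h2 : ∀ᶠ t : ℝ in 𝓝 0, (1 + t) • z + (-t) • w0 ∈ interior (R.K φ) := hcont h0
    have h3 : ∀ᶠ t : ℝ in 𝓝[>] 0, (1 + t) • z + (-t) • w0 ∈ interior (R.K φ) :=
      nhdsWithin_le_nhds h2
    obtain ⟨t, h4, h5⟩ := (h3.and self_mem_nhdsWithin).exists
    have h5' : 0 < t := h5
    have h6 := interior_subset h4 f hf
    rw [haff.lin z w0 (by ring), ← h1] at h6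
    have := mul_pos h5' (hw0 f hf)
    linarith
  · exact PolyO_subset_interior (R.fl_aff φ)

theorem K_sub_pl (φ : ℕ × ℕ × Bool) : R.K φ ⊆ Poly (S.pl (pc φ).1 (pc φ).2) :=
  fun _ h => (R.mem_K.mp h).1

/-- the facets cover the paper -/
theorem K_cover : ⋃ φ ∈ {φ | Fac S.t φ}, R.K φ = S.P := by
  apply Set.Subset.antisymm
  · simp only [Set.iUnion_subset_iff]
    intro φ hφ z hz
    exact S.pl_sub hφ.dir (R.K_sub_pl φ hz)
  · intro z hz
    obtain ⟨u, v, h1, h2⟩ := S.cover hz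
    simp only [Set.mem_iUnion]
    have := R.cx_add h1 z
    rcases le_total (cx (S.q u) (S.q v) z) (R.sd u v) with h3 | h3
    · exact ⟨(u, v, false), h1, R.mem_K.mpr ⟨h2, h3⟩⟩
    · exact ⟨(v, u, true), h1.symm, R.mem_K.mpr ⟨h2, by simp only; linarith⟩⟩

/-- the two facets of a piece -/
theorem pc_eq {φ : ℕ × ℕ × Bool} {u v : ℕ} (h1 : (pc φ).1 = u) (h2 : (pc φ).2 = v) :
    φ = (u, v, false) ∨ φ = (v, u, true) := by
  obtain ⟨i, j, b⟩ := φ
  cases b
  · left
    simp only [pc, Bool.false_eq_true, if_false] at h1 h2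
    rw [h1, h2]
  · right
    simp only [pc, if_true] at h1 h2
    rw [h1, h2]

/-- different facets do not overlap -/
theorem K_disjoint {φ ψ : ℕ × ℕ × Bool} (hφ : Fac S.t φ) (hψ : Fac S.t ψ) (hne : φ ≠ ψ) :
    Disjoint (interior (R.K φ)) (interior (R.K ψ)) := by
  rw [Set.disjoint_iff_inter_eq_empty]
  by_cases hp : (pc φ).1 = (pc ψ).1 ∧ (pc φ).2 = (pc ψ).2
  · rw [R.K_interior hφ, R.K_interior hψ, Set.eq_empty_iff_forall_notMem]
    rintro z ⟨h1, h2⟩
    rw [mem_KO] at h1 h2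
    have hd := hφ.dir
    have hadd := R.cx_add hd z
    rcases pc_eq (φ := φ) rfl rfl with e1 | e1 <;> rcases pc_eq (φ := ψ) rfl rfl with e2 | e2
    · rw [← hp.1, ← hp.2] at e2
      exact hne (e1.trans e2.symm)
    · rw [← hp.1, ← hp.2] at e2
      have k1 := h1.2
      have k2 := h2.2
      rw [e1] at k1
      rw [e2] at k2
      simp only at k1 k2
      simp only [pc] at hadd k1 k2
      linarith
    · rw [← hp.1, ← hp.2] at e2
      have k1 := h1.2
      have k2 := h2.2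
      rw [e1] at k1
      rw [e2] at k2
      simp only at k1 k2
      simp only [pc] at hadd k1 k2
      linarith
    · rw [← hp.1, ← hp.2] at e2
      exact hne (e1.trans e2.symm)
  · apply S.disjoint_pieces hφ.dir hψ.dir hp (isOpen_interior.inter isOpen_interior)
    · exact fun z hz => R.K_sub_pl φ (interior_subset hz.1)
    · exact fun z hz => R.K_sub_pl ψ (interior_subset hz.2)

theorem continuousOn_F : ContinuousOn R.F S.P := by
  have hfin : Finite {φ // Fac S.t φ} := by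
    have : {φ : ℕ × ℕ × Bool | Fac S.t φ}.Finite := by
      apply Set.Finite.subset
        ((Set.finite_Iic S.t.size).prod ((Set.finite_Iic S.t.size).prod (Set.finite_univ (α := Bool))))
      rintro ⟨i, j, b⟩ h
      have := Dir.bd h
      exact ⟨this.2.1, this.2.2, trivial⟩
    exact this.to_subtype
  have e : S.P = ⋃ φ : {φ // Fac S.t φ}, R.K φ := by
    rw [← R.K_cover]
    ext z
    simp
  rw [e]
  apply (locallyFinite_of_finite _).continuousOn_iUnion
  · exact fun φ => Poly_closed (R.fl_aff φ)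
  · intro φ
    have : Set.EqOn R.F (R.g (pc φ.1).1 (pc φ.1).2) (R.K φ) :=
      fun z hz => R.F_eq φ.2.dir (R.K_sub_pl _ hz)
    exact (R.continuous_g _ _).continuousOn.congr this

end Par

end Pool.Agent.Lib.FoldCut
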