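import Pool.Agent.Lib.MP_12ced6_co.Wind

/-!
# Winding sums of triangles, points outside the hull, jumps across edges
-/

namespace Pool.Agent.Lib.FoldCut

open Complex Real Topology

/-- the closed triangle `a b c`, for a positively oriented triangle -/
def triC (a b c : ℂ) : Set ℂ := {p | 0 ≤ ori a b p ∧ 0 ≤ ori b c p ∧ 0 ≤ ori c a p}

/-- the open triangle `a b c`, for a positively oriented triangle -/
def triO (a b c : ℂ) : Set ℂ := {p | 0 < ori a b p ∧ 0 < ori b c p ∧ 0 < ori c a p}

theorem ori_self_left (a b : ℂ) : ori a b a = 0 := by simp only [ori_def]; ring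
theorem ori_self_right (a b : ℂ) : ori a b b = 0 := by simp only [ori_def]; ring

theorem ori_lin (a b x y : ℂ) (s t : ℝ) (h : s + t = 1) :
    ori a b (s • x + t • y) = s * ori a b x + t * ori a b y := by
  have : s = 1 - t := by linarith
  subst this
  simp only [ori_def, add_re, add_im, real_smul, mul_re, mul_im, ofReal_re, ofReal_im]
  ring

theorem bary (a b c p : ℂ) :
    ori a b c • p = ori b c p • a + ori c a p • b + ori a b p • c := by
  apply Complex.ext <;>
  simp only [ori_def, add_re, add_im, real_smul, mul_re, mul_im, ofReal_re, ofReal_im] <;> ring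

/-- a point of the closed triangle on the line of a side is on the side -/
theorem mem_side {a b c p : ℂ} (h : 0 < ori a b c) (hp : p ∈ triC a b c) (h0 : ori a b p = 0) :
    p ∈ segment ℝ a b := by
  obtain ⟨-, h2, h3⟩ := hp
  have hs := ori_add a b c p
  rw [h0, zero_add] at hs
  have hb := bary a b c p
  rw [h0, zero_smul, add_zero] at hb
  refine ⟨ori b c p / ori a b c, ori c a p / ori a b c, div_nonneg h2 h.le, div_nonneg h3 h.le, ?_, ?_⟩
  · rw [← add_div, hs, div_self h.ne']
  · calc (ori b c p / ori a b c) • a + (ori c a p / ori a b c) • b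
        = (ori a b c)⁻¹ • (ori b c p • a + ori c a p • b) := by
          rw [smul_add, smul_smul, smul_smul]; simp only [div_eq_inv_mul]
      _ = (ori a b c)⁻¹ • (ori a b c • p) := by rw [hb]
      _ = p := by rw [smul_smul, inv_mul_cancel₀ h.ne', one_smul]

theorem segment_subset_triC {a b c : ℂ} (h : 0 < ori a b c) : segment ℝ a b ⊆ triC a b c := by
  rintro p ⟨s, t, hs, ht, hst, rfl⟩
  refine ⟨?_, ?_, ?_⟩
  · rw [ori_lin _ _ _ _ _ _ hst, ori_self_left, ori_self_right]; simp
  · rw [ori_lin _ _ _ _ _ _ hst, ori_self_left, ← ori_cyc]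
    have := mul_nonneg hs h.le; linarith
  · rw [ori_lin _ _ _ _ _ _ hst, ori_self_right, ori_cyc c a b]
    have := mul_nonneg ht h.le; linarith

theorem triC_cyc (a b c : ℂ) : triC a b c = triC b c a := by
  ext p; simp only [triC, Set.mem_ofPred_eq]; tauto

theorem triO_cyc (a b c : ℂ) : triO a b c = triO b c a := by
  ext p; simp only [triO, Set.mem_ofPred_eq]; tauto

theorem triO_subset_triC (a b c : ℂ) : triO a b c ⊆ triC a b c :=
  fun _ h => ⟨h.1.le, h.2.1.le, h.2.2.le⟩

theorem triO_convex (a b c : ℂ) : Convex ℝ (triO a b c) := by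
  rintro x hx y hy s t hs ht hst
  simp only [triO, Set.mem_ofPred_eq] at *
  have key : ∀ u v : ℂ, 0 < ori u v x → 0 < ori u v y → 0 < ori u v (s • x + t • y) := by
    intro u v h1 h2
    rw [ori_lin _ _ _ _ _ _ hst]
    rcases hs.lt_or_eq with h | h
    · have := mul_pos h h1; have := mul_nonneg ht h2.le; linarith
    · have : t = 1 := by linarith
      rw [← h, this]; linarith
  exact ⟨key _ _ hx.1 hy.1, key _ _ hx.2.1 hy.2.1, key _ _ hx.2.2 hy.2.2⟩

theorem triC_convex (a b c : ℂ) : Convex ℝ (triC a b c) := by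
  rintro x hx y hy s t hs ht hst
  simp only [triC, Set.mem_ofPred_eq] at *
  have key : ∀ u v : ℂ, 0 ≤ ori u v x → 0 ≤ ori u v y → 0 ≤ ori u v (s • x + t • y) := by
    intro u v h1 h2
    rw [ori_lin _ _ _ _ _ _ hst]
    have := mul_nonneg hs h1; have := mul_nonneg ht h2; linarith
  exact ⟨key _ _ hx.1 hy.1, key _ _ hx.2.1 hy.2.1, key _ _ hx.2.2 hy.2.2⟩

theorem triO_open (a b c : ℂ) : IsOpen (triO a b c) := by
  have key : ∀ u v : ℂ, IsOpen {p | 0 < ori u v p} := fun u v =>
    isOpen_lt continuous_const (continuous_ori u v)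
  exact (key a b).inter ((key b c).inter (key c a))

theorem cyc_three (a b c : ℂ) : cyc [a, b, c] = [(a, b), (b, c), (c, a)] := by
  simp [cyc]

theorem curve_three (a b c : ℂ) :
    curve [a, b, c] = segment ℝ a b ∪ (segment ℝ b c ∪ segment ℝ c a) := by
  rw [curve, cyc_three]
  simp only [support_cons]
  congr 1
  congr 1
  have : support [] = (∅ : Set ℂ) := by simp [support]
  rw [this, Set.union_empty]

theorem wsum_three (p a b c : ℂ) : wsum p [a, b, c] = ang p a b + ang p b c + ang p c a := by
  rw [wsum, cyc_three]; simp; ring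

theorem curve_three_subset {a b c : ℂ} (h : 0 < ori a b c) : curve [a, b, c] ⊆ triC a b c := by
  rw [curve_three]
  rintro p (hp | hp | hp)
  · exact segment_subset_triC h hp
  · rw [triC_cyc]; exact segment_subset_triC (by rwa [← ori_cyc]) hp
  · rw [← triC_cyc c a b]; exact segment_subset_triC (by rwa [ori_cyc]) hp

theorem mem_triO_of_triC {a b c p : ℂ} (h : 0 < ori a b c) (hp : p ∈ triC a b c)
    (hc : p ∉ curve [a, b, c]) : p ∈ triO a b c := by
  rw [curve_three] at hc
  simp only [Set.mem_union, not_or] at hc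
  refine ⟨lt_of_le_of_ne hp.1 fun h0 => hc.1 (mem_side h hp h0.symm),
    lt_of_le_of_ne hp.2.1 fun h0 => hc.2.1 (mem_side (by rwa [← ori_cyc])
      (by rw [← triC_cyc]; exact hp) h0.symm),
    lt_of_le_of_ne hp.2.2 fun h0 => hc.2.2 (mem_side (by rwa [ori_cyc])
      (by rw [triC_cyc]; exact hp) h0.symm)⟩

theorem triO_disjoint_curve {a b c p : ℂ} (hp : p ∈ triO a b c) :
    p ∉ curve [a, b, c] := by
  rw [curve_three]
  have key : ∀ u v : ℂ, 0 < ori u v p → p ∉ segment ℝ u v := by
    rintro u v h ⟨s, t, hs, ht, hst, rfl⟩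
    rw [ori_lin _ _ _ _ _ _ hst, ori_self_left, ori_self_right] at h
    simp at h
  rintro (h1 | h1 | h1)
  · exact key _ _ hp.1 h1
  · exact key _ _ hp.2.1 h1
  · exact key _ _ hp.2.2 h1

/-- the winding sum of a positively oriented triangle at an inner point -/
theorem wsum_tri_in {a b c p : ℂ} (hp : p ∈ triO a b c) :
    wsum p [a, b, c] = 2 * π := by
  have hc := triO_disjoint_curve hp
  obtain ⟨k, hk⟩ := wsum_int hc
  rw [curve_three] at hc
  simp only [Set.mem_union, not_or] at hc
  have h1 := (ang_pos_iff hc.1).mpr hp.1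
  have h2 := (ang_pos_iff hc.2.1).mpr hp.2.1
  have h3 := (ang_pos_iff hc.2.2).mpr hp.2.2
  have h4 := ang_lt_pi hc.1
  have h5 := ang_lt_pi hc.2.1
  have h6 := ang_lt_pi hc.2.2
  have hpi := Real.pi_pos
  have hw := wsum_three p a b c
  rw [hw] at hk ⊢
  have k1 : 0 < k := by
    have : (0:ℝ) < k := by
      by_contra hn; push Not at hn; nlinarith
    exact_mod_cast this
  have k2 : k < 2 := by
    have : (k:ℝ) < 2 := by
      by_contra hn; push Not at hn; nlinarith
    exact_mod_cast this
  have : k = 1 := by omega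
  rw [hk, this]; simp

/-- the winding sum of a positively oriented triangle vanishes outside -/
theorem wsum_tri_out {a b c p : ℂ} (h : 0 < ori a b c) (hp : p ∉ triC a b c) :
    wsum p [a, b, c] = 0 := by
  have hc : p ∉ curve [a, b, c] := fun h' => hp (curve_three_subset h h')
  obtain ⟨k, hk⟩ := wsum_int hc
  rw [curve_three] at hc
  simp only [Set.mem_union, not_or] at hc
  have h4 := ang_lt_pi hc.1
  have h5 := ang_lt_pi hc.2.1
  have h6 := ang_lt_pi hc.2.2
  have g4 := neg_pi_lt_ang p a b
  have g5 := neg_pi_lt_ang p b c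
  have g6 := neg_pi_lt_ang p c a
  have hpi := Real.pi_pos
  have hs := ori_add a b c p
  have hw := wsum_three p a b c
  rw [hw] at hk ⊢
  -- some angle is positive
  have hpos : 0 < ang p a b ∨ 0 < ang p b c ∨ 0 < ang p c a := by
    rw [ang_pos_iff hc.1, ang_pos_iff hc.2.1, ang_pos_iff hc.2.2]
    by_contra hn
    push Not at hn
    linarith [hn.1, hn.2.1, hn.2.2]
  have hneg : ang p a b < 0 ∨ ang p b c < 0 ∨ ang p c a < 0 := by
    rw [ang_neg_iff hc.1, ang_neg_iff hc.2.1, ang_neg_iff hc.2.2]
    by_contra hn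
    push Not at hn
    exact hp ⟨hn.1, hn.2.1, hn.2.2⟩
  have l1 : ang p a b + ang p b c + ang p c a < 2 * π := by
    rcases hneg with h | h | h <;> linarith
  have l2 : -(2 * π) < ang p a b + ang p b c + ang p c a := by
    rcases hpos with h | h | h <;> linarith
  have k1 : -1 < k := by
    have : (-1:ℝ) < k := by
      by_contra hn; push Not at hn; nlinarith
    exact_mod_cast this
  have k2 : k < 1 := by
    have : (k:ℝ) < 1 := by
      by_contra hn; push Not at hn; nlinarith
    exact_mod_cast this
  have : k = 0 := by omega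
  rw [hk, this]; simp

/-- chains seen from a point lying in an open half plane apart from them -/
theorem angSum_chain_hull {p w : ℂ} : ∀ (l : List ℂ) (a b : ℂ),
    (∀ x ∈ a :: (l ++ [b]), 0 < (w * (x - p)).re) →
    angSum p (chain (a :: (l ++ [b]))) = Complex.arg (w * (b - p)) - Complex.arg (w * (a - p)) := by
  have one : ∀ a b : ℂ, 0 < (w * (a - p)).re → 0 < (w * (b - p)).re →
      ang p a b = Complex.arg (w * (b - p)) - Complex.arg (w * (a - p)) := by
    intro a b ha hb
    have hw : w ≠ 0 := by rintro rfl; simp at ha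
    have ha0 : w * (a - p) ≠ 0 := by intro h; rw [h] at ha; simp at ha
    have hb0 : w * (b - p) ≠ 0 := by intro h; rw [h] at hb; simp at hb
    have e : (b - p) / (a - p) = (w * (b - p)) / (w * (a - p)) := by
      rw [mul_div_mul_left _ _ hw]
    have h1 := abs_lt.mp (abs_arg_lt_pi_div_two_iff.mpr (Or.inl ha))
    have h2 := abs_lt.mp (abs_arg_lt_pi_div_two_iff.mpr (Or.inl hb))
    unfold ang
    rw [e]
    have h3 := arg_div_coe_angle hb0 ha0
    rw [← Real.Angle.coe_sub, Complex.arg_coe_angle_eq_iff_eq_toReal] at h3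
    rw [h3, Real.Angle.toReal_coe_eq_self_iff]
    constructor <;> linarith [h1.1, h1.2, h2.1, h2.2]
  intro l
  induction l with
  | nil =>
    intro a b h
    simp only [List.nil_append, chain_cons_cons, chain_single, angSum_cons, angSum_nil, add_zero]
    exact one a b (h a (by simp)) (h b (by simp))
  | cons c l ih =>
    intro a b h
    rw [List.cons_append, chain_cons_cons, angSum_cons, ih c b
      (fun x hx => h x (List.mem_cons_of_mem _ hx)), one a c (h a (by simp)) (h c (by simp))]
    ring

/-- the winding sum vanishes if the polygon lies in an open half plane apart from the point -/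
theorem wsum_hull {p w : ℂ} {L : List ℂ} (h : ∀ x ∈ L, 0 < (w * (x - p)).re) :
    wsum p L = 0 := by
  cases L with
  | nil => simp [wsum, cyc]
  | cons a l =>
    unfold wsum cyc
    rw [angSum_chain_hull (w := w) l a a]
    · simp
    · intro x hx
      apply h
      simp at hx ⊢
      tauto

theorem wsum_two {p a b : ℂ} (h : p ∉ segment ℝ a b) : wsum p [a, b] = 0 := by
  simp only [wsum, cyc, List.cons_append, List.nil_append, chain_cons_cons, chain_single,
    angSum_cons, angSum_nil, add_zero]
  rw [ang_swap h]; ring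

/-- the jump of an angle across its segment -/
theorem ang_jump {a b c : ℂ} (hc : c ∈ openSegment ℝ a b) (hab : a ≠ b) {ε : ℝ} (hε : 0 < ε) :
    ∀ᶠ p in 𝓝 c, (0 < ori a b p → |ang p a b - π| < ε) ∧ (ori a b p < 0 → |ang p a b + π| < ε) := by
  obtain ⟨s, t, hs, ht, hst, rfl⟩ := hc
  set c := s • a + t • b with hcdef
  have hba : b - a ≠ 0 := sub_ne_zero.mpr hab.symm
  have e1 : b - c = (s:ℂ) * (b - a) := by
    have : (s:ℂ) = 1 - t := by
      have : s = 1 - t := by linarith
      rw [this]; push_cast; ring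
    rw [hcdef]; simp only [real_smul]; rw [this]; ring
  have e2 : a - c = -((t:ℂ) * (b - a)) := by
    have : (t:ℂ) = 1 - s := by
      have : t = 1 - s := by linarith
      rw [this]; push_cast; ring
    rw [hcdef]; simp only [real_smul]; rw [this]; ring
  have htc : (t:ℂ) ≠ 0 := by exact_mod_cast ht.ne'
  have hac : a ≠ c := by
    intro h
    rw [← sub_eq_zero, e2, neg_eq_zero, mul_eq_zero] at h
    rcases h with h | h
    · exact htc h
    · exact hba h
  have hz : (b - c) / (a - c) = ((-(s / t) : ℝ) : ℂ) := by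
    rw [e1, e2]
    push_cast
    field_simp
  have hre : ((b - c) / (a - c)).re < 0 := by
    rw [hz, ofReal_re]; have := div_pos hs ht; linarith
  have him : ((b - c) / (a - c)).im = 0 := by rw [hz, ofReal_im]
  have hcont : ContinuousAt (fun p => (b - p) / (a - p)) c :=
    ContinuousAt.div (by fun_prop) (by fun_prop) (sub_ne_zero.mpr hac)
  have t1 := tendsto_arg_nhdsWithin_im_nonneg_of_re_neg_of_im_zero hre him
  have t2 := tendsto_arg_nhdsWithin_im_neg_of_re_neg_of_im_zero hre him
  have w1 : ∀ᶠ z in 𝓝 ((b - c) / (a - c)), 0 ≤ z.im → |Complex.arg z - π| < ε := by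
    have := t1.eventually (Metric.ball_mem_nhds π hε)
    rw [eventually_nhdsWithin_iff] at this
    filter_upwards [this] with z hz hz'
    have := hz hz'
    rwa [Real.dist_eq] at this
  have w2 : ∀ᶠ z in 𝓝 ((b - c) / (a - c)), z.im < 0 → |Complex.arg z + π| < ε := by
    have := t2.eventually (Metric.ball_mem_nhds (-π) hε)
    rw [eventually_nhdsWithin_iff] at this
    filter_upwards [this] with z hz hz'
    have := hz hz'
    rwa [Real.dist_eq, sub_neg_eq_add] at this
  have hne : ∀ᶠ p in 𝓝 c, a ≠ p := by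
    have : IsOpen {p : ℂ | a ≠ p} := by
      have := isOpen_ne (X := ℂ) (x := a)
      convert this using 1
      ext; simp [ne_comm]
    exact this.mem_nhds hac
  filter_upwards [hcont.eventually w1, hcont.eventually w2, hne] with p h1 h2 h3
  have hn : 0 < normSq (a - p) := normSq_pos.mpr (sub_ne_zero.mpr h3)
  have hi := div_im_eq p a b h3
  constructor
  · intro h
    apply h1
    rw [hi]; exact (div_pos h hn).le
  · intro h
    apply h2
    rw [hi]; exact div_neg_of_neg_of_pos h hn

/-- the jump of the winding sum across an edge -/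
theorem wsum_jump {L : List ℂ} {a b c : ℂ} {P R : List (ℂ × ℂ)} (hL : cyc L = P ++ (a, b) :: R)
    (hab : a ≠ b) (hc : c ∈ openSegment ℝ a b) (hP : c ∉ support P) (hR : c ∉ support R) :
    ∃ K : ℝ, ∀ᶠ p in 𝓝 c, (0 < ori a b p → p ∉ curve L ∧ wsum p L = K) ∧
      (ori a b p < 0 → p ∉ curve L ∧ wsum p L = K - 2 * π) := by
  have hpi := Real.pi_pos
  have hcont : ContinuousAt (fun p => angSum p P + angSum p R) c :=
    (continuousAt_angSum hP).add (continuousAt_angSum hR)
  set r : ℝ := angSum c P + angSum c R with hr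
  have e0 : ∀ᶠ p in 𝓝 c, |angSum p P + angSum p R - r| < π / 4 := by
    have := hcont.eventually (Metric.ball_mem_nhds _ (show (0:ℝ) < π / 4 by linarith))
    filter_upwards [this] with p hp
    rwa [Real.dist_eq] at hp
  have e1 := ang_jump hc hab (show (0:ℝ) < π / 4 by linarith)
  have e2 : ∀ᶠ p in 𝓝 c, p ∉ support P := (support_closed P).isOpen_compl.mem_nhds hP
  have e3 : ∀ᶠ p in 𝓝 c, p ∉ support R := (support_closed R).isOpen_compl.mem_nhds hR
  have hcurve : ∀ p, p ∉ support P → p ∉ support R → ori a b p ≠ 0 → p ∉ curve L := by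
    intro p h1 h2 h3 h4
    rw [curve, hL, support_append, support_cons] at h4
    rcases h4 with h4 | h4 | h4
    · exact h1 h4
    · obtain ⟨s, t, hs, ht, hst, rfl⟩ := h4
      apply h3
      rw [ori_lin _ _ _ _ _ _ hst, ori_self_left, ori_self_right]; simp
    · exact h2 h4
  have hw : ∀ p, wsum p L = ang p a b + (angSum p P + angSum p R) := by
    intro p; rw [wsum, hL]; simp; ring
  -- a unique candidate value
  have hex : ∃ K : ℝ, ∀ p, |angSum p P + angSum p R - r| < π / 4 → (∃ k : ℤ, wsum p L = 2 * π * k) →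
      (|ang p a b - π| < π / 4 → wsum p L = K) ∧
      (|ang p a b + π| < π / 4 → wsum p L = K - 2 * π) := by
    -- K is the multiple of 2π nearest to r + π, if close
    refine ⟨2 * π * round ((r + π) / (2 * π)), ?_⟩
    intro p hp ⟨k, hk⟩
    have h2pi : (0:ℝ) < 2 * π := by linarith
    constructor
    · intro h
      rw [hk]
      have h1 : |2 * π * k - (r + π)| < π / 2 := by
        rw [← hk, hw]
        rw [abs_lt] at *
        constructor <;> linarith [hp.1, hp.2, h.1, h.2]
      have h2 : |(r + π) / (2 * π) - k| < 1 / 2 := by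
        have : (r + π) / (2 * π) - k = ((r + π) - 2 * π * k) / (2 * π) := by field_simp
        rw [this, abs_div, abs_of_pos h2pi, div_lt_iff₀ h2pi, abs_sub_comm]
        linarith
      have h3 : round ((r + π) / (2 * π)) = k := by
        rw [round_eq, Int.floor_eq_iff]
        rw [abs_lt] at h2
        constructor <;> linarith [h2.1, h2.2]
      rw [h3]
    · intro h
      rw [hk]
      have h1 : |2 * π * (k + 1) - (r + π)| < π / 2 := by
        have : 2 * π * ((k:ℝ) + 1) = wsum p L + 2 * π := by rw [hk]; ring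
        rw [this, hw]
        rw [abs_lt] at *
        constructor <;> linarith [hp.1, hp.2, h.1, h.2]
      have h2 : |(r + π) / (2 * π) - (k + 1)| < 1 / 2 := by
        have : (r + π) / (2 * π) - (k + 1) = ((r + π) - 2 * π * (k + 1)) / (2 * π) := by field_simp
        rw [this, abs_div, abs_of_pos h2pi, div_lt_iff₀ h2pi, abs_sub_comm]
        linarith
      have h3 : round ((r + π) / (2 * π)) = k + 1 := by
        rw [round_eq, Int.floor_eq_iff]
        rw [abs_lt] at h2
        push_cast
        constructor <;> linarith [h2.1, h2.2]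
      rw [h3]; push_cast; ring
  obtain ⟨K, hK⟩ := hex
  refine ⟨K, ?_⟩
  filter_upwards [e0, e1, e2, e3] with p h0 h1 h2 h3
  constructor
  · intro ho
    have hn := hcurve p h2 h3 ho.ne'
    exact ⟨hn, (hK p h0 (wsum_int hn)).1 (h1.1 ho)⟩
  · intro ho
    have hn := hcurve p h2 h3 ho.ne
    exact ⟨hn, (hK p h0 (wsum_int hn)).2 (h1.2 ho)⟩

end Pool.Agent.Lib.FoldCut
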