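import Pool.Agent.Lib.MP_12ced6_co.Param
import Pool.Agent.Lib.MP_12ced6_co.WindTri

/-!
# Coordinates along a segment and the geometry of a triangle at its corners
-/

namespace Pool.Agent.Lib.FoldCut

open Complex Real Topology

/-- the dot product -/
def dt (u w : ℂ) : ℝ := u.re * w.re + u.im * w.im

/-- coordinate along `A B`, measured from `A` -/
noncomputable def cx (A B w : ℂ) : ℝ := dt (B - A) (w - A) / ‖B - A‖

/-- signed distance from the line `A B`, positive on the left -/
noncomputable def cy (A B w : ℂ) : ℝ := ori A B w / ‖B - A‖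

theorem norm_sq_eq (u : ℂ) : ‖u‖ ^ 2 = u.re ^ 2 + u.im ^ 2 := by
  rw [← normSq_eq_norm_sq, normSq_apply]; ring

theorem cx_swap {A B : ℂ} (h : A ≠ B) (w : ℂ) : cx B A w = ‖B - A‖ - cx A B w := by
  have hn : 0 < ‖B - A‖ := norm_pos_iff.mpr (sub_ne_zero.mpr h.symm)
  unfold cx
  rw [norm_sub_rev A B]
  have h1 := norm_sq_eq (B - A)
  simp only [sub_re, sub_im] at h1
  field_simp
  rw [h1]
  simp only [dt, sub_re, sub_im]; ring

theorem cy_swap (A B w : ℂ) : cy B A w = - cy A B w := by
  unfold cy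
  rw [norm_sub_rev A B, ori_swap B A w]; ring

theorem cx_lin {A B : ℂ} (x y : ℂ) {s t : ℝ} (h : s + t = 1) :
    cx A B (s • x + t • y) = s * cx A B x + t * cx A B y := by
  have : s = 1 - t := by linarith
  subst this
  simp only [cx, dt, sub_re, sub_im, add_re, add_im, real_smul, mul_re, mul_im, ofReal_re,
    ofReal_im]
  ring

theorem cy_lin {A B : ℂ} (x y : ℂ) {s t : ℝ} (h : s + t = 1) :
    cy A B (s • x + t • y) = s * cy A B x + t * cy A B y := by
  simp only [cy]
  rw [ori_lin _ _ _ _ _ _ h]; ring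

@[simp] theorem cx_left (A B : ℂ) : cx A B A = 0 := by simp [cx, dt]
@[simp] theorem cy_left (A B : ℂ) : cy A B A = 0 := by simp [cy, ori_self_left]
@[simp] theorem cy_right (A B : ℂ) : cy A B B = 0 := by simp [cy, ori_self_right]

theorem cx_right {A B : ℂ} (h : A ≠ B) : cx A B B = ‖B - A‖ := by
  have hn : 0 < ‖B - A‖ := norm_pos_iff.mpr (sub_ne_zero.mpr h.symm)
  have h1 := norm_sq_eq (B - A)
  simp only [sub_re, sub_im] at h1
  unfold cx
  field_simp
  rw [h1]; simp only [dt, sub_re, sub_im]; ring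

theorem continuous_cx (A B : ℂ) : Continuous fun w => cx A B w := by
  unfold cx dt
  apply Continuous.div_const
  simp only [sub_re, sub_im]
  fun_prop

theorem continuous_cy (A B : ℂ) : Continuous fun w => cy A B w := by
  unfold cy
  exact (continuous_ori A B).div_const _

/-- a point is determined by its coordinates -/
theorem eq_of_coord {A B : ℂ} (h : A ≠ B) {w w' : ℂ} (h1 : cx A B w = cx A B w')
    (h2 : cy A B w = cy A B w') : w = w' := by
  have hn : 0 < ‖B - A‖ := norm_pos_iff.mpr (sub_ne_zero.mpr h.symm)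
  have hsq := norm_sq_eq (B - A)
  have hpos : 0 < (B - A).re ^ 2 + (B - A).im ^ 2 := by rw [← hsq]; positivity
  unfold cx at h1
  unfold cy at h2
  rw [div_left_inj' hn.ne'] at h1 h2
  simp only [dt, ori_def, sub_re, sub_im] at h1 h2 hpos
  have e1 : ((B.re - A.re) ^ 2 + (B.im - A.im) ^ 2) * (w.re - w'.re) = 0 := by
    linear_combination (B.re - A.re) * h1 - (B.im - A.im) * h2
  have e2 : ((B.re - A.re) ^ 2 + (B.im - A.im) ^ 2) * (w.im - w'.im) = 0 := by
    linear_combination (B.im - A.im) * h1 + (B.re - A.re) * h2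
  have e3 := (mul_eq_zero.mp e1).resolve_left hpos.ne'
  have e4 := (mul_eq_zero.mp e2).resolve_left hpos.ne'
  exact Complex.ext (by linarith) (by linarith)

theorem ne_of_ori {A B C : ℂ} (h : 0 < ori A B C) : A ≠ B ∧ B ≠ C ∧ C ≠ A := by
  refine ⟨?_, ?_, ?_⟩
  · rintro rfl; simp [ori_def] at h
  · rintro rfl; rw [ori_self_right] at h; exact lt_irrefl _ h
  · rintro rfl; rw [ori_self_left] at h; exact lt_irrefl _ h

/-- the inradius -/
noncomputable def inr (A B C : ℂ) : ℝ := ori A B C / (‖B - A‖ + ‖C - B‖ + ‖A - C‖)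

/-- tangent length at `A` -/
noncomputable def tng (A B C : ℂ) : ℝ := (‖B - A‖ + ‖C - A‖ - ‖C - B‖) / 2

theorem inr_pos {A B C : ℂ} (h : 0 < ori A B C) : 0 < inr A B C := by
  obtain ⟨h1, h2, h3⟩ := ne_of_ori h
  have hn : 0 < ‖B - A‖ := norm_pos_iff.mpr (sub_ne_zero.mpr h1.symm)
  unfold inr
  positivity

theorem inr_cyc (A B C : ℂ) : inr A B C = inr B C A := by
  unfold inr
  rw [ori_cyc A B C]
  congr 1; ring

/-- the geometry at the corner `A` of a positively oriented triangle `A B C` -/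
theorem corner {A B C : ℂ} (h : 0 < ori A B C) : 0 < tng A B C ∧ ∃ κ : ℝ, 0 < κ ∧ ∀ w : ℂ,
    tng A B C * (- cy A C w - cy A B w) = κ * (inr A B C * cx A B w - tng A B C * cy A B w) ∧
    tng A B C * (cy A B w - (- cy A C w)) =
      κ * (inr A B C * cx A C w - tng A B C * (- cy A C w)) ∧
    (cy A B w = - cy A C w → cx A B w = cx A C w) := by
  obtain ⟨h1, h2, h3⟩ := ne_of_ori h
  set b := ‖B - A‖ with hb
  set c := ‖C - A‖ with hc
  set a := ‖C - B‖ with ha
  have hb0 : 0 < b := norm_pos_iff.mpr (sub_ne_zero.mpr h1.symm)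
  have hc0 : 0 < c := norm_pos_iff.mpr (sub_ne_zero.mpr h3)
  have ha0 : 0 < a := norm_pos_iff.mpr (sub_ne_zero.mpr h2.symm)
  have hc' : ‖A - C‖ = c := norm_sub_rev _ _
  have hb2 : b ^ 2 = (B.re - A.re) ^ 2 + (B.im - A.im) ^ 2 := by rw [hb, norm_sq_eq]; simp
  have hc2 : c ^ 2 = (C.re - A.re) ^ 2 + (C.im - A.im) ^ 2 := by rw [hc, norm_sq_eq]; simp
  have ha2 : a ^ 2 = (C.re - B.re) ^ 2 + (C.im - B.im) ^ 2 := by rw [ha, norm_sq_eq]; simp
  set D := ori A B C with hD
  set G := dt (B - A) (C - A) with hG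
  have hDG : D ^ 2 + G ^ 2 = b ^ 2 * c ^ 2 := by
    rw [hb2, hc2, hD, hG]; simp only [ori_def, dt, sub_re, sub_im]; ring
  have hlaw : a ^ 2 = b ^ 2 + c ^ 2 - 2 * G := by
    rw [ha2, hb2, hc2, hG]; simp only [dt, sub_re, sub_im]; ring
  have hGbc : 0 < b * c + G := by
    have : G ^ 2 < (b * c) ^ 2 := by nlinarith
    have := abs_lt_of_sq_lt_sq this (by positivity)
    rw [abs_lt] at this
    linarith [this.1]
  have hper : 0 < b + a + c := by positivity
  have htng : tng A B C = (b + c - a) / 2 := rfl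
  have hinr : inr A B C = D / (b + a + c) := by unfold inr; rw [hc']
  -- tangent length times perimeter
  have hkey : (b + c - a) / 2 * (b + a + c) = b * c + G := by linear_combination (-1/2) * hlaw
  have htpos : 0 < (b + c - a) / 2 := by
    by_contra hn
    push Not at hn
    nlinarith
  refine ⟨by rw [htng]; exact htpos, (b * c + G) / (b * c), by positivity, ?_⟩
  intro w
  have hcxB : cx A B w = dt (B - A) (w - A) / b := rfl
  have hcxC : cx A C w = dt (C - A) (w - A) / c := rfl
  have hcyB : cy A B w = ori A B w / b := rfl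
  have hcyC : cy A C w = ori A C w / c := rfl
  -- rotation formulas
  have r1 : - cy A C w = cx A B w * (D / (b * c)) - cy A B w * (G / (b * c)) := by
    rw [hcyC, hcxB, hcyB]
    field_simp
    rw [hb2, hD, hG]
    simp only [ori_def, dt, sub_re, sub_im]; ring
  have r2 : cx A C w = cx A B w * (G / (b * c)) + cy A B w * (D / (b * c)) := by
    rw [hcxC, hcxB, hcyB]
    field_simp
    rw [hb2, hD, hG]
    simp only [ori_def, dt, sub_re, sub_im]; ring
  have r3 : cy A B w = cx A C w * (D / (b * c)) - (- cy A C w) * (G / (b * c)) := by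
    rw [hcyC, hcxC, hcyB]
    field_simp
    rw [hc2, hD, hG]
    simp only [ori_def, dt, sub_re, sub_im]; ring
  rw [htng, hinr]
  set t := (b + c - a) / 2 with ht
  have hti : t * D = D / (b + a + c) * (b * c + G) := by
    rw [← hkey]; field_simp
  set T1 := cx A B w
  set H1 := cy A B w
  set T2 := cx A C w
  set H2 := - cy A C w
  have k1 : t * (H2 - H1) = (b * c + G) / (b * c) * (D / (b + a + c) * T1 - t * H1) := by
    rw [r1]
    have : t * (T1 * (D / (b * c)) - H1 * (G / (b * c)) - H1) =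
        (t * D) * T1 / (b * c) - t * H1 * (b * c + G) / (b * c) := by field_simp; ring
    rw [this, hti]; field_simp
  have k2 : t * (H1 - H2) = (b * c + G) / (b * c) * (D / (b + a + c) * T2 - t * H2) := by
    have : t * (H1 - H2) = (t * D) * T2 / (b * c) - t * H2 * (b * c + G) / (b * c) := by
      rw [r3]; field_simp; ring
    rw [this, hti]; field_simp
  refine ⟨k1, k2, ?_⟩
  intro he
  -- equal heights
  have e1 : D / (b + a + c) * T1 = t * H1 := by
    have : t * (H2 - H1) = 0 := by rw [he]; ring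
    rw [k1] at this
    have h4 := (mul_eq_zero.mp this).resolve_left (by positivity)
    linarith
  have e2 : D / (b + a + c) * T2 = t * H2 := by
    have : t * (H1 - H2) = 0 := by rw [he]; ring
    rw [k2] at this
    have h4 := (mul_eq_zero.mp this).resolve_left (by positivity)
    linarith
  have e3 : D / (b + a + c) * T1 = D / (b + a + c) * T2 := by rw [e1, e2, he]
  exact mul_left_cancel₀ (by positivity) e3

/-- the heights over the three sides determine twice the area -/
theorem heights_sum {A B C : ℂ} (h : 0 < ori A B C) (w : ℂ) :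
    ‖B - A‖ * cy A B w + ‖C - B‖ * cy B C w + ‖A - C‖ * cy C A w = ori A B C := by
  obtain ⟨h1, h2, h3⟩ := ne_of_ori h
  have hb0 : ‖B - A‖ ≠ 0 := (norm_pos_iff.mpr (sub_ne_zero.mpr h1.symm)).ne'
  have hc0 : ‖C - B‖ ≠ 0 := (norm_pos_iff.mpr (sub_ne_zero.mpr h2.symm)).ne'
  have ha0 : ‖A - C‖ ≠ 0 := (norm_pos_iff.mpr (sub_ne_zero.mpr h3.symm)).ne'
  unfold cy
  rw [mul_div_cancel₀ _ hb0, mul_div_cancel₀ _ hc0, mul_div_cancel₀ _ ha0]
  exact ori_add A B C w

end Pool.Agent.Lib.FoldCut
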