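import Pool.Agent.Lib.MP_12ced6_co.Simple

/-!
# Gluing good polygons along a diagonal
-/

namespace Pool.Agent.Lib.FoldCut

open Complex Real Topology

/-- the inside of a good polygon -/
def inside (L : List ℂ) : Set ℂ := {p | p ∉ curve L ∧ wsum p L = 2 * π}

theorem fst_mem_of_mem_cyc {L : List ℂ} {e : ℂ × ℂ} (h : e ∈ cyc L) : e.1 ∈ L := by
  cases L with
  | nil => simp [cyc] at h
  | cons a l =>
    have := fst_mem_of_mem_chain h
    simp at this ⊢
    tauto

theorem snd_mem_of_mem_cyc {L : List ℂ} {e : ℂ × ℂ} (h : e ∈ cyc L) : e.2 ∈ L := by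
  cases L with
  | nil => simp [cyc] at h
  | cons a l =>
    have := snd_mem_of_mem_chain h
    simp at this ⊢
    tauto

theorem Simple.ne {L : List ℂ} (h : Simple L) {e : ℂ × ℂ} (he : e ∈ cyc L) : e.1 ≠ e.2 := by
  intro h1
  apply h.vert e.1 (fst_mem_of_mem_cyc he) e he
  rw [← h1, openSegment_same]
  exact Set.mem_singleton _

theorem mem_segment_cases {a b c : ℂ} (h : c ∈ segment ℝ a b) :
    c = a ∨ c = b ∨ c ∈ openSegment ℝ a b := by
  rw [← insert_endpoints_openSegment] at h
  simpa using h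

theorem exists_left (a b c : ℂ) (hab : a ≠ b) (hc : c ∈ openSegment ℝ a b) {Q : ℂ → Prop}
    (h : ∀ᶠ p in 𝓝 c, Q p) : ∃ p, Q p ∧ 0 < ori a b p := by
  obtain ⟨s, t, hs, ht, hst, rfl⟩ := hc
  set c := s • a + t • b with hcdef
  have hcont : Filter.Tendsto (fun r : ℝ => c + (r : ℂ) * (I * (b - a))) (𝓝 0) (𝓝 c) := by
    have : ContinuousAt (fun r : ℝ => c + (r : ℂ) * (I * (b - a))) 0 := by fun_prop
    have h2 := this.tendsto
    simpa using h2
  have h1 := hcont.eventually h
  have h2 : ∀ᶠ r : ℝ in 𝓝[>] 0, Q (c + (r : ℂ) * (I * (b - a))) := nhdsWithin_le_nhds h1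
  obtain ⟨r, hr, hr0⟩ := (h2.and self_mem_nhdsWithin).exists
  refine ⟨_, hr, ?_⟩
  have e : ori a b (c + (r : ℂ) * (I * (b - a))) = r * normSq (b - a) := by
    have h0 : ori a b c = 0 := by
      rw [hcdef, ori_lin _ _ _ _ _ _ hst, ori_self_left, ori_self_right]; simp
    have : ori a b (c + (r : ℂ) * (I * (b - a))) = ori a b c + r * normSq (b - a) := by
      simp only [ori_def, normSq_apply, add_re, add_im, mul_re, mul_im, ofReal_re, ofReal_im,
        I_re, I_im, sub_re, sub_im]
      ring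
    rw [this, h0, zero_add]
  rw [e]
  exact mul_pos hr0 (normSq_pos.mpr (sub_ne_zero.mpr hab.symm))

theorem exists_right (a b c : ℂ) (hab : a ≠ b) (hc : c ∈ openSegment ℝ a b) {Q : ℂ → Prop}
    (h : ∀ᶠ p in 𝓝 c, Q p) : ∃ p, Q p ∧ ori a b p < 0 := by
  rw [openSegment_symm] at hc
  obtain ⟨p, h1, h2⟩ := exists_left b a c hab.symm hc h
  exact ⟨p, h1, by rw [ori_swap]; linarith⟩

/-- near a point inside an edge of a simple polygon -/
theorem Simple.split {L : List ℂ} (h : Simple L) {e : ℂ × ℂ} (he : e ∈ cyc L) {c : ℂ}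
    (hc : c ∈ openSegment ℝ e.1 e.2) :
    ∃ P R, cyc L = P ++ e :: R ∧ c ∉ support P ∧ c ∉ support R := by
  obtain ⟨P, R, hPR⟩ := List.append_of_mem he
  have hd := h.disj
  rw [hPR, List.pairwise_append, List.pairwise_cons] at hd
  obtain ⟨h1, ⟨h2, h3⟩, h4⟩ := hd
  have key : ∀ e' ∈ cyc L, Disjoint (openSegment ℝ e'.1 e'.2) (openSegment ℝ e.1 e.2) →
      c ∉ segment ℝ e'.1 e'.2 := by
    intro e' he' hd' hcs
    rcases mem_segment_cases hcs with h5 | h5 | h5
    · exact h.vert _ (fst_mem_of_mem_cyc he') e he (h5 ▸ hc)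
    · exact h.vert _ (snd_mem_of_mem_cyc he') e he (h5 ▸ hc)
    · exact Set.disjoint_left.mp hd' h5 hc
  refine ⟨P, R, hPR, ?_, ?_⟩
  · rintro ⟨e', he', hce'⟩
    exact key e' (by rw [hPR]; simp [he']) (h4 e' he' e (by simp)) hce'
  · rintro ⟨e', he', hce'⟩
    exact key e' (by rw [hPR]; simp [he']) (h2 e' he').symm hce'

theorem Simple.jump {L : List ℂ} (h : Simple L) {e : ℂ × ℂ} (he : e ∈ cyc L) {c : ℂ}
    (hc : c ∈ openSegment ℝ e.1 e.2) :
    ∃ K : ℝ, ∀ᶠ p in 𝓝 c, (0 < ori e.1 e.2 p → p ∉ curve L ∧ wsum p L = K) ∧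
      (ori e.1 e.2 p < 0 → p ∉ curve L ∧ wsum p L = K - 2 * π) := by
  obtain ⟨P, R, h1, h2, h3⟩ := h.split he hc
  exact wsum_jump (a := e.1) (b := e.2) h1 (h.ne he) hc h2 h3

/-- for winding sums `0`, `2π`: the left side of each edge is inside -/
theorem Simple.jump' {L : List ℂ} (h : Simple L)
    (hw : ∀ p, p ∉ curve L → wsum p L = 0 ∨ wsum p L = 2 * π) {e : ℂ × ℂ} (he : e ∈ cyc L) {c : ℂ}
    (hc : c ∈ openSegment ℝ e.1 e.2) :
    ∀ᶠ p in 𝓝 c, (0 < ori e.1 e.2 p → p ∉ curve L ∧ wsum p L = 2 * π) ∧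
      (ori e.1 e.2 p < 0 → p ∉ curve L ∧ wsum p L = 0) := by
  obtain ⟨K, hK⟩ := h.jump he hc
  have hpi := Real.pi_pos
  have hK2 : K = 2 * π := by
    obtain ⟨p, hp1, hp2⟩ := exists_left _ _ _ (h.ne he) hc hK
    obtain ⟨q, hq1, hq2⟩ := exists_right _ _ _ (h.ne he) hc hK
    have h1 := hp1.1 hp2
    have h2 := hq1.2 hq2
    have h3 := hw p h1.1
    have h4 := hw q h2.1
    rw [h1.2] at h3
    rw [h2.2] at h4
    rcases h3 with h3 | h3 <;> rcases h4 with h4 | h4 <;> linarith
  subst hK2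
  filter_upwards [hK] with p hp
  exact ⟨hp.1, fun h => ⟨(hp.2 h).1, by rw [(hp.2 h).2]; ring⟩⟩

theorem curve_subset_closure {L : List ℂ} (h : Simple L)
    (hw : ∀ p, p ∉ curve L → wsum p L = 0 ∨ wsum p L = 2 * π) :
    curve L ⊆ closure (inside L) := by
  have h1 : ∀ e ∈ cyc L, openSegment ℝ e.1 e.2 ⊆ closure (inside L) := by
    intro e he c hc
    rw [mem_closure_iff_nhds]
    intro t ht
    have h2 := (h.jump' hw he hc).and (show ∀ᶠ p in 𝓝 c, p ∈ t from ht)
    obtain ⟨p, hp1, hp2⟩ := exists_left _ _ _ (h.ne he) hc h2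
    exact ⟨p, hp1.2, hp1.1.1 hp2⟩
  rintro p ⟨e, he, hp⟩
  have h2 : segment ℝ e.1 e.2 ⊆ closure (openSegment ℝ e.1 e.2) :=
    segment_subset_closure_openSegment
  have h3 := closure_mono (h1 e he) (h2 hp)
  rwa [closure_closure] at h3

/-- gluing two good polygons along a diagonal -/
theorem glue {A B C : List ℂ} {x y : ℂ} (hs : Simple (A ++ x :: (B ++ y :: C)))
    (hd : ∀ e ∈ cyc (A ++ x :: (B ++ y :: C)),
      Disjoint (segment ℝ e.1 e.2) (openSegment ℝ x y))
    (hxy : x ≠ y)
    (h1 : Good (A ++ x :: y :: C)) (h2 : Good (x :: (B ++ [y])))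
    (hout : ∀ e ∈ chain (x :: (B ++ [y])), ∀ p ∈ segment ℝ e.1 e.2, p ≠ x → p ≠ y →
      wsum p (A ++ x :: y :: C) = 0) :
    Good (A ++ x :: (B ++ y :: C)) := by
  have hpi := Real.pi_pos
  set L := A ++ x :: (B ++ y :: C) with hL
  set V := A ++ x :: y :: C with hV
  set W := x :: (B ++ [y]) with hW
  have sV : Simple V := simple_split_left hs hd
  have sW : Simple W := simple_split_right hs hd
  obtain ⟨P, R, e1, e2, e3⟩ := cyc_split A B C x y
  rw [← hL, ← hW] at e1
  rw [← hV] at e2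
  rw [← hW] at e3
  have hcs := curve_split A B C x y
  rw [← hL, ← hV, ← hW] at hcs
  have heV : (x, y) ∈ cyc V := by rw [e2]; simp
  have heW : (y, x) ∈ cyc W := by rw [e3]; simp
  have hxyV : segment ℝ x y ⊆ curve V := fun p hp => ⟨(x, y), heV, hp⟩
  have hxyW : segment ℝ x y ⊆ curve W := fun p hp => ⟨(y, x), heW, by
    simp only; rw [segment_symm]; exact hp⟩
  have hQL : support (chain W) ⊆ curve L := by
    intro p hp; rw [curve, e1, support_append, support_append]; exact Or.inl (Or.inr hp)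
  have hcW : curve W = support (chain W) ∪ segment ℝ x y := by
    rw [curve, e3, support_append, support_cons]
    have : support [] = (∅ : Set ℂ) := by simp [support]
    rw [this, Set.union_empty]
    congr 1
    exact segment_symm ℝ y x
  -- the inside of V does not meet the curve W
  have hdisj : Disjoint (inside V) (curve W) := by
    rw [Set.disjoint_left]
    rintro p ⟨hp1, hp2⟩ hp3
    rw [hcW] at hp3
    rcases hp3 with hp3 | hp3
    · obtain ⟨e, he, hpe⟩ := hp3
      by_cases hpx : p = x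
      · exact hp1 (hxyV (hpx ▸ left_mem_segment _ _ _))
      by_cases hpy : p = y
      · exact hp1 (hxyV (hpy ▸ right_mem_segment _ _ _))
      have := hout e he p hpe hpx hpy
      rw [this] at hp2
      linarith
    · exact hp1 (hxyV hp3)
  have hjV : ∀ c ∈ openSegment ℝ x y, ∀ᶠ p in 𝓝 c,
      (0 < ori x y p → p ∉ curve V ∧ wsum p V = 2 * π) ∧
      (ori x y p < 0 → p ∉ curve V ∧ wsum p V = 0) := fun c hc => sV.jump' h1.w heV hc
  have hjW : ∀ c ∈ openSegment ℝ x y, ∀ᶠ p in 𝓝 c,
      (0 < ori x y p → p ∉ curve W ∧ wsum p W = 0) ∧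
      (ori x y p < 0 → p ∉ curve W ∧ wsum p W = 2 * π) := by
    intro c hc
    have hc' : c ∈ openSegment ℝ y x := by rw [openSegment_symm]; exact hc
    filter_upwards [sW.jump' h2.w heW hc'] with p hp
    have : ori y x p = - ori x y p := ori_swap _ _ _
    constructor
    · intro h; exact hp.2 (by linarith)
    · intro h; exact hp.1 (by linarith)
  -- a point of the diagonal
  have hmid : (openSegment ℝ x y).Nonempty := ⟨_, 1/2, 1/2, by norm_num, by norm_num, by norm_num, rfl⟩
  obtain ⟨c0, hc0⟩ := hmid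
  have hVW : ∀ p ∈ inside V, wsum p W = 0 := by
    intro p hp
    obtain ⟨q, hq1, hq2⟩ := exists_left _ _ _ hxy hc0 ((hjV c0 hc0).and (hjW c0 hc0))
    have hq3 : q ∈ inside V := hq1.1.1 hq2
    rw [wsum_const h1.conn hdisj hp hq3]
    exact (hq1.2.1 hq2).2
  -- on the curve V away from W the sum of W vanishes
  have hcurveV : ∀ p ∈ curve V, p ∉ curve W → wsum p W = 0 := by
    intro p hp hpW
    have hcl := curve_subset_closure sV h1.w hp
    rw [mem_closure_iff_nhds] at hcl
    have hev := wsum_eventually hpW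
    obtain ⟨q, hq1, hq2⟩ := hcl _ hev
    rw [← hq1.2]
    exact hVW q hq2
  have hsplit : ∀ p, p ∉ segment ℝ x y → wsum p L = wsum p V + wsum p W := fun p hp =>
    wsum_split A B C hp
  -- values
  have hopen : ∀ c ∈ openSegment ℝ x y, c ∉ curve L := by
    rintro c hc ⟨e, he, hce⟩
    exact Set.disjoint_left.mp (hd e he) hce hc
  have hopenval : ∀ c ∈ openSegment ℝ x y, wsum c L = 2 * π := by
    intro c hc
    have hev := wsum_eventually (hopen c hc)
    obtain ⟨q, hq1, hq2⟩ := exists_left _ _ _ hxy hc (((hjV c hc).and (hjW c hc)).and hev)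
    rw [← hq1.2.2]
    have hqV := hq1.1.1.1 hq2
    have hqW := hq1.1.2.1 hq2
    rw [hsplit q (fun h => hqV.1 (hxyV h)), hqV.2, hqW.2]; ring
  have hnot : ∀ p, p ∉ curve L → p ∉ segment ℝ x y → p ∉ curve V ∧ p ∉ curve W := by
    intro p hp1 hp2
    have : p ∉ curve V ∪ curve W := by
      rw [← hcs]; rintro (h | h)
      · exact hp1 h
      · exact hp2 h
    exact ⟨fun h => this (Or.inl h), fun h => this (Or.inr h)⟩
  have hend : ∀ p, p ∉ curve L → p ∈ segment ℝ x y → p ∈ openSegment ℝ x y := by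
    intro p hp1 hp2
    rcases mem_segment_cases hp2 with h | h | h
    · exact absurd (mem_curve_of_mem (by rw [h, hL]; simp)) hp1
    · exact absurd (mem_curve_of_mem (by rw [h, hL]; simp)) hp1
    · exact h
  have hw : ∀ p, p ∉ curve L → wsum p L = 0 ∨ wsum p L = 2 * π := by
    intro p hp
    by_cases hps : p ∈ segment ℝ x y
    · right; exact hopenval p (hend p hp hps)
    · obtain ⟨hpV, hpW⟩ := hnot p hp hps
      rw [hsplit p hps]
      rcases h1.w p hpV with h | h
      · rcases h2.w p hpW with h' | h' <;> rw [h, h'] <;> simp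
      · rw [h, hVW p ⟨hpV, h⟩]; simp
  refine ⟨?_, hw, ?_⟩
  · have := h1.tri.subst A B C x y rfl h2.tri
    exact this
  -- connectedness
  have hinV : inside V ⊆ inside L := by
    rintro p ⟨hp1, hp2⟩
    have hps : p ∉ segment ℝ x y := fun h => hp1 (hxyV h)
    have hpW : p ∉ curve W := Set.disjoint_left.mp hdisj ⟨hp1, hp2⟩
    refine ⟨?_, ?_⟩
    · intro hpL
      have : p ∈ curve V ∪ curve W := by rw [← hcs]; exact Or.inl hpL
      rcases this with h | h
      · exact hp1 h
      · exact hpW h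
    · rw [hsplit p hps, hp2, hVW p ⟨hp1, hp2⟩]; ring
  have hinW : inside W ⊆ inside L := by
    rintro p ⟨hp1, hp2⟩
    have hps : p ∉ segment ℝ x y := fun h => hp1 (hxyW h)
    have hpV : p ∉ curve V := by
      intro h
      have := hcurveV p h hp1
      rw [this] at hp2; linarith
    have hwV : wsum p V = 0 := by
      rcases h1.w p hpV with h | h
      · exact h
      · have := hVW p ⟨hpV, h⟩
        rw [this] at hp2; linarith
    refine ⟨?_, ?_⟩
    · intro hpL
      have : p ∈ curve V ∪ curve W := by rw [← hcs]; exact Or.inl hpL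
      rcases this with h | h
      · exact hpV h
      · exact hp1 h
    · rw [hsplit p hps, hp2, hwV]; ring
  have hino : openSegment ℝ x y ⊆ inside L := fun c hc => ⟨hopen c hc, hopenval c hc⟩
  have hunion : inside L = (inside V ∪ openSegment ℝ x y) ∪ (inside W ∪ openSegment ℝ x y) := by
    apply Set.Subset.antisymm
    · rintro p ⟨hp1, hp2⟩
      by_cases hps : p ∈ segment ℝ x y
      · exact Or.inl (Or.inr (hend p hp1 hps))
      · obtain ⟨hpV, hpW⟩ := hnot p hp1 hps
        rcases h1.w p hpV with h | h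
        · rcases h2.w p hpW with h' | h'
          · rw [hsplit p hps, h, h'] at hp2; linarith
          · exact Or.inr (Or.inl ⟨hpW, h'⟩)
        · exact Or.inl (Or.inl ⟨hpV, h⟩)
    · rintro p ((h | h) | (h | h))
      · exact hinV h
      · exact hino h
      · exact hinW h
      · exact hino h
  have hopenV : openSegment ℝ x y ⊆ closure (inside V) := fun c hc =>
    curve_subset_closure sV h1.w (hxyV (openSegment_subset_segment ℝ _ _ hc))
  have hopenW : openSegment ℝ x y ⊆ closure (inside W) := fun c hc =>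
    curve_subset_closure sW h2.w (hxyW (openSegment_subset_segment ℝ _ _ hc))
  have cV : IsPreconnected (inside V ∪ openSegment ℝ x y) :=
    IsPreconnected.subset_closure h1.conn Set.subset_union_left
      (Set.union_subset subset_closure hopenV)
  have cW : IsPreconnected (inside W ∪ openSegment ℝ x y) :=
    IsPreconnected.subset_closure h2.conn Set.subset_union_left
      (Set.union_subset subset_closure hopenW)
  have := IsPreconnected.union c0 (Or.inr hc0) (Or.inr hc0) cV cW
  rw [← hunion] at this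
  exact this

end Pool.Agent.Lib.FoldCut
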