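import Pool.Agent.Lib.MP_12ced6_co.Cells

/-!
# The pieces near their edges, and local covers
-/

namespace Pool.Agent.Lib.FoldCut

open Complex Real Topology

theorem segment_cy {A B w : ℂ} (h : w ∈ segment ℝ A B) : cy A B w = 0 := by
  obtain ⟨a, b, ha, hb, hab, rfl⟩ := h
  rw [cy_lin _ _ hab, cy_left, cy_right]; simp

theorem openSegment_cx {A B w : ℂ} (hAB : A ≠ B) (h : w ∈ openSegment ℝ A B) :
    0 < cx A B w ∧ cx A B w < ‖B - A‖ := by
  have hn : 0 < ‖B - A‖ := norm_pos_iff.mpr (sub_ne_zero.mpr hAB.symm)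
  obtain ⟨a, b, ha, hb, hab, rfl⟩ := h
  rw [cx_lin _ _ hab, cx_left, cx_right hAB]
  have := mul_pos ha hn
  have := mul_pos hb hn
  have h2 : a = 1 - b := by linarith
  subst h2
  constructor <;> nlinarith

/-- a point over the open segment -/
theorem mem_openSegment_of_coord {A B w : ℂ} (hAB : A ≠ B) (h0 : cy A B w = 0)
    (h1 : 0 < cx A B w) (h2 : cx A B w < ‖B - A‖) : w ∈ openSegment ℝ A B := by
  have hn : 0 < ‖B - A‖ := norm_pos_iff.mpr (sub_ne_zero.mpr hAB.symm)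
  have hs : (1 - cx A B w / ‖B - A‖) + cx A B w / ‖B - A‖ = 1 := by ring
  refine ⟨1 - cx A B w / ‖B - A‖, cx A B w / ‖B - A‖, ?_, by positivity, hs, ?_⟩
  · rw [sub_pos, div_lt_one hn]; exact h2
  · apply eq_of_coord hAB
    · rw [cx_lin _ _ hs, cx_left, cx_right hAB]
      field_simp; ring
    · rw [cy_lin _ _ hs, cy_left, cy_right, h0]; ring

namespace Setup

variable (S : Setup)

theorem q_ne_of_dir {u v : ℕ} (h : Dir S.t u v) : S.q u ≠ S.q v := by
  have b := h.bd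
  intro h1
  exact b.1 (S.inj u v b.2.1 b.2.2 h1)

/-- near its edge a piece is the half plane -/
theorem pl_head {u v : ℕ} (h : Dir S.t u v) : ∃ tl : List (ℂ → ℝ),
    S.pl u v = (fun w => cy (S.q u) (S.q v) w) :: tl ∧ (∀ f ∈ tl, Aff f) ∧
      ∀ w ∈ openSegment ℝ (S.q u) (S.q v), w ∈ PolyO tl := by
  have haff := S.pl_aff u v
  rcases dir_cases h with ⟨c, ht⟩ | ⟨hv, hu⟩
  · rw [S.pl_tri ht] at haff ⊢
    refine ⟨_, rfl, fun f hf => haff f (List.mem_cons_of_mem _ hf), ?_⟩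
    intro w hw
    have hpos := S.tri_pos ht
    obtain ⟨n1, n2, n3⟩ := ne_of_ori hpos
    have k0 := segment_cy (openSegment_subset_segment _ _ _ hw)
    obtain ⟨a, b, ha, hb, hab, rfl⟩ := hw
    have k1 : 0 < cy (S.q v) (S.q c) (S.q u) := (cy_pos_iff n2).mpr (by rwa [← ori_cyc])
    have k2 : 0 < cy (S.q c) (S.q u) (S.q v) := (cy_pos_iff n3).mpr (by rwa [ori_cyc])
    have k3 : 0 < cy (S.q v) (S.q c) (a • S.q u + b • S.q v) := by
      rw [cy_lin _ _ hab, cy_left]; have := mul_pos ha k1; linarith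
    have k4 : 0 < cy (S.q c) (S.q u) (a • S.q u + b • S.q v) := by
      rw [cy_lin _ _ hab, cy_right]; have := mul_pos hb k2; linarith
    intro f hf
    simp only [List.mem_cons, List.not_mem_nil, or_false] at hf
    rcases hf with rfl | rfl
    · simp only; rw [k0]; linarith
    · simp only; rw [k0]; linarith
  · rw [S.pl_out' hv hu] at haff ⊢
    have hq : S.q u = S.q (v + 1) := by rw [hu, S.q_mod]
    have hhead : (fun w => cy (S.q u) (S.q v) w) = fun w => - cy (S.q v) (S.q (v + 1)) w := by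
      funext w; rw [hq, cy_swap]
    rw [hhead]
    refine ⟨_, rfl, fun f hf => haff f (List.mem_cons_of_mem _ hf), ?_⟩
    intro w hw
    rw [hq, openSegment_symm] at hw
    have k0 := segment_cy (openSegment_subset_segment _ _ _ hw)
    obtain ⟨k1, k2⟩ := openSegment_cx (S.q_ne v) hw
    have hell : S.ell v = ‖S.q (v + 1) - S.q v‖ := rfl
    intro f hf
    simp only [List.mem_cons, List.not_mem_nil, or_false] at hf
    have := S.d_pos
    rcases hf with rfl | rfl | rfl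
    · simp only; rw [k0]; linarith
    · simp only; rw [k0]; linarith
    · simp only; rw [k0, hell]; linarith

theorem near_edge {u v : ℕ} (h : Dir S.t u v) {w : ℂ}
    (hw : w ∈ openSegment ℝ (S.q u) (S.q v)) :
    ∀ᶠ z in 𝓝 w, 0 ≤ cy (S.q u) (S.q v) z → z ∈ Poly (S.pl u v) := by
  obtain ⟨tl, h1, h2, h3⟩ := S.pl_head h
  filter_upwards [(PolyO_open h2).mem_nhds (h3 w hw)] with z hz h4
  rw [h1]
  intro f hf
  rw [List.mem_cons] at hf
  rcases hf with rfl | hf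
  · exact h4
  · exact (hz f hf).le

theorem exists_pos {u v : ℕ} (h : Dir S.t u v) : ∃ z, 0 < cy (S.q u) (S.q v) z := by
  refine ⟨pt (S.q u) (S.q v) 0 1, ?_⟩
  rw [cy_pt (S.q_ne_of_dir h)]; norm_num

theorem nonempty_aux {u v : ℕ} (h : Dir S.t u v) {g : ℂ → ℝ} (hg : Aff g) {w : ℂ}
    (hw : w ∈ openSegment ℝ (S.q u) (S.q v)) (hgw : 0 < g w) :
    (PolyO (S.pl u v ++ [g])).Nonempty := by
  obtain ⟨tl, h1, h2, h3⟩ := S.pl_head h
  obtain ⟨z, hz⟩ := S.exists_pos h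
  rw [h1, List.cons_append]
  refine move_in (aff_cy _ _) (w := w) (w1 := z) ?_ (segment_cy (openSegment_subset_segment _ _ _ hw))
    hz ?_
  · intro f hf
    rw [List.mem_append, List.mem_singleton] at hf
    rcases hf with hf | rfl
    · exact h2 f hf
    · exact hg
  · intro f hf
    rw [List.mem_append, List.mem_singleton] at hf
    rcases hf with hf | rfl
    · exact h3 w hw f hf
    · exact hgw

theorem pl_nonempty {u v : ℕ} (h : Dir S.t u v) : (PolyO (S.pl u v)).Nonempty := by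
  have hm : (2:ℝ)⁻¹ • S.q u + (2:ℝ)⁻¹ • S.q v ∈ openSegment ℝ (S.q u) (S.q v) :=
    ⟨2⁻¹, 2⁻¹, by norm_num, by norm_num, by norm_num, rfl⟩
  obtain ⟨z, hz⟩ := S.nonempty_aux h (Aff.const 1) hm one_pos
  exact ⟨z, fun f hf => hz f (List.mem_append_left _ hf)⟩

/-- the paper -/
def P : Set ℂ := closure (inside S.L)

theorem pl_sub {u v : ℕ} (h : Dir S.t u v) : Poly (S.pl u v) ⊆ S.P := by
  intro z hz
  have h1 := Poly_subset_closure (S.pl_aff u v) (S.pl_nonempty h) hz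
  unfold P
  rw [_root_.mem_closure_iff] at h1 ⊢
  intro U hU hzU
  obtain ⟨y, hy1, hy2⟩ := h1 U hU hzU
  obtain ⟨p, hp1, hp2⟩ := S.exists_gen (hU.inter (PolyO_open (S.pl_aff u v))) ⟨y, hy1, hy2⟩
  exact ⟨p, hp1.1, S.gen_inside hp2 h (PolyO_subset _ hp1.2)⟩

theorem dir_finite : {e : ℕ × ℕ | Dir S.t e.1 e.2}.Finite := by
  apply Set.Finite.subset ((Set.finite_Iic S.t.size).prod (Set.finite_Iic S.t.size))
  rintro ⟨u, v⟩ h
  have := Dir.bd h
  exact ⟨this.2.1, this.2.2⟩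

theorem cover {z : ℂ} (hz : z ∈ S.P) : ∃ u v, Dir S.t u v ∧ z ∈ Poly (S.pl u v) := by
  by_contra hc
  push Not at hc
  have hcl : IsClosed (⋃ e ∈ {e : ℕ × ℕ | Dir S.t e.1 e.2}, Poly (S.pl e.1 e.2)) :=
    S.dir_finite.isClosed_biUnion fun e _ => Poly_closed (S.pl_aff _ _)
  have hz' : z ∉ ⋃ e ∈ {e : ℕ × ℕ | Dir S.t e.1 e.2}, Poly (S.pl e.1 e.2) := by
    simp only [Set.mem_iUnion, not_exists]
    rintro ⟨u, v⟩ h1 h2
    exact hc u v h1 h2
  have h1 := _root_.mem_closure_iff.mp hz _ hcl.isOpen_compl hz'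
  obtain ⟨p, hp1, hp2⟩ := S.exists_gen (hcl.isOpen_compl.inter (inside_open S.L)) h1
  obtain ⟨u, v, h3, h4⟩ := S.gen_cover hp2 hp1.2
  apply hp1.1
  simp only [Set.mem_iUnion]
  exact ⟨(u, v), h3, h4⟩

/-- a piece containing a point is one of the pieces covering a neighbourhood -/
theorem local_cover {u' v' : ℕ} (h' : Dir S.t u' v') {w : ℂ} (hw : w ∈ Poly (S.pl u' v'))
    (C : ℕ → ℕ → Prop) (hC : ∀ u v, C u v → Dir S.t u v)
    (hev : ∀ᶠ z in 𝓝 w, z ∈ inside S.L → ∃ u v, C u v ∧ z ∈ Poly (S.pl u v)) : C u' v' := by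
  obtain ⟨z0, h1, h2⟩ := near_open (S.pl_aff u' v') (S.pl_nonempty h') hw
    hev.eventually_nhds
  obtain ⟨U, hU1, hU2, hU3⟩ := eventually_nhds_iff.mp h2
  obtain ⟨p, hp1, hp2⟩ := S.exists_gen (hU2.inter (PolyO_open (S.pl_aff u' v'))) ⟨z0, hU3, h1⟩
  obtain ⟨u, v, h3, h4⟩ := hU1 p hp1.1 (S.gen_inside hp2 h' (PolyO_subset _ hp1.2))
  obtain ⟨rfl, rfl⟩ := S.gen_unique hp2 (hC u v h3) h' h4 hp1.2
  exact h3

/-- different pieces do not overlap -/
theorem disjoint_pieces {u v u' v' : ℕ} (h : Dir S.t u v) (h' : Dir S.t u' v')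
    (hne : ¬ (u = u' ∧ v = v')) {U : Set ℂ} (hU : IsOpen U) (h1 : U ⊆ Poly (S.pl u v))
    (h2 : U ⊆ Poly (S.pl u' v')) : U = ∅ := by
  by_contra hc
  have hUn : U.Nonempty := Set.nonempty_iff_ne_empty.mpr hc
  obtain ⟨z, ⟨hz1, hz2⟩, hz3⟩ := exists_common (S.pl_aff u v) (S.pl_aff u' v') (S.pl_nonempty h)
    (S.pl_nonempty h') hU hUn h1 h2
  obtain ⟨p, hp1, hp2⟩ := S.exists_gen (hU.inter (PolyO_open (S.pl_aff u' v'))) ⟨z, hz1, hz3⟩
  exact hne (S.gen_unique hp2 h h' (h1 hp1.1) hp1.2)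

/-! ### mitres -/

/-- the point `w` is on the mitre between the ribbons `j` and `j + 1`, outside the inner polygon -/
def Mit (j : ℕ) (w : ℂ) : Prop :=
  - S.d ≤ cy (S.q j) (S.q (j + 1)) w ∧ cy (S.q j) (S.q (j + 1)) w < 0 ∧
    S.ell j - cx (S.q j) (S.q (j + 1)) w - S.μ (j + 1) * cy (S.q j) (S.q (j + 1)) w = 0

theorem mit_mod (j : ℕ) (w : ℂ) : S.Mit (j % (S.t.size + 1)) w ↔ S.Mit j w := by
  unfold Mit; rw [S.q_mod', S.q_mod, S.μ_mod', S.ell_mod]

/-- relation of the depths on the two sides -/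
theorem depth (j : ℕ) (z : ℂ) :
    (1 + S.μ (j + 1) ^ 2) * (cy (S.q (j + 1)) (S.q (j + 2)) z - cy (S.q j) (S.q (j + 1)) z) =
      2 * S.μ (j + 1) *
        (S.ell j - cx (S.q j) (S.q (j + 1)) z - S.μ (j + 1) * cy (S.q j) (S.q (j + 1)) z) := by
  obtain ⟨h1, h2⟩ := S.mitre j z
  linear_combination h2 - S.μ (j + 1) * h1

/-- coordinates on the other side of a point on the mitre -/
theorem mit_other {j : ℕ} {w : ℂ} (h : S.Mit j w) :
    cy (S.q (j + 1)) (S.q (j + 2)) w = cy (S.q j) (S.q (j + 1)) w ∧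
    cx (S.q (j + 1)) (S.q (j + 2)) w = S.μ (j + 1) * cy (S.q j) (S.q (j + 1)) w := by
  obtain ⟨h1, h2⟩ := S.mitre j w
  have h3 := S.depth j w
  rw [h.2.2, mul_zero] at h3
  have h4 : cy (S.q (j + 1)) (S.q (j + 2)) w - cy (S.q j) (S.q (j + 1)) w = 0 :=
    (mul_eq_zero.mp h3).resolve_left (by positivity)
  have h5 : cy (S.q (j + 1)) (S.q (j + 2)) w = cy (S.q j) (S.q (j + 1)) w := by linarith
  refine ⟨h5, ?_⟩
  have := h.2.2
  rw [h5] at h1
  linarith

/-- the turning term is small on a ribbon -/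
theorem small (j : ℕ) {x : ℝ} (h1 : - S.d ≤ x) (h2 : x ≤ 0) : |S.μ j * x| < S.μ0 := by
  have hb := S.bound j
  rw [abs_mul]
  have : |x| ≤ S.d := by rw [abs_le]; constructor <;> linarith [S.d_pos]
  calc |S.μ j| * |x| ≤ |S.μ j| * S.d := mul_le_mul_of_nonneg_left this (abs_nonneg _)
    _ = S.d * |S.μ j| := by ring
    _ < S.μ0 := hb

/-- a reflex or flat vertex has `μ ≤ 0` -/
theorem ori_VVV (j : ℕ) : 0 < ori (S.V j) (S.V (j + 1)) (S.V (j + 2)) ↔ 0 < S.μ (j + 1) := by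
  have h1 := S.ori_VV j (S.V (j + 2))
  have h2 := S.depth j (S.V (j + 2))
  have h3 : cy (S.q (j + 1)) (S.q (j + 2)) (S.V (j + 2)) = - S.d := S.cy_V' (j + 1)
  have h4 : cx (S.q (j + 1)) (S.q (j + 2)) (S.V (j + 2)) =
    S.ell (j + 1) + S.d * S.μ (j + 2) := S.cx_V' (j + 1)
  have h5 := (S.mitre j (S.V (j + 2))).1
  have h6 := S.len_V_pos j
  have h7 : 0 < S.ell (j + 1) + S.d * (S.μ (j + 1) + S.μ (j + 2)) := S.len_V_pos (j + 1)
  rw [h3, h4] at h5
  rw [h3] at h2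
  have h8 : (1 + S.μ (j + 1) ^ 2) * (S.d + cy (S.q j) (S.q (j + 1)) (S.V (j + 2))) =
      2 * S.μ (j + 1) * (S.ell (j + 1) + S.d * (S.μ (j + 1) + S.μ (j + 2))) := by
    have e : S.ell j - cx (S.q j) (S.q (j + 1)) (S.V (j + 2)) -
        S.μ (j + 1) * cy (S.q j) (S.q (j + 1)) (S.V (j + 2)) =
        - (S.ell (j + 1) + S.d * (S.μ (j + 1) + S.μ (j + 2))) := by linarith
    rw [e] at h2
    linarith
  rw [h1]
  constructor
  · intro h
    have k1 : 0 < S.d + cy (S.q j) (S.q (j + 1)) (S.V (j + 2)) := by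
      by_contra hc
      have := mul_nonpos_of_nonneg_of_nonpos h6.le (not_lt.mp hc)
      linarith
    have k2 : 0 < 2 * S.μ (j + 1) * (S.ell (j + 1) + S.d * (S.μ (j + 1) + S.μ (j + 2))) := by
      rw [← h8]; positivity
    have k3 : 0 < 2 * S.μ (j + 1) := by
      by_contra hc
      have := mul_nonpos_of_nonpos_of_nonneg (not_lt.mp hc) h7.le
      linarith
    linarith
  · intro h
    apply mul_pos h6
    have k2 : 0 < 2 * S.μ (j + 1) * (S.ell (j + 1) + S.d * (S.μ (j + 1) + S.μ (j + 2))) := by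
      positivity
    rw [← h8] at k2
    by_contra hc
    have := mul_nonpos_of_nonneg_of_nonpos (by positivity : 0 ≤ 1 + S.μ (j + 1) ^ 2) (not_lt.mp hc)
    linarith

end Setup

end Pool.Agent.Lib.FoldCut
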