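import Pool.Agent.Lib.MP_12ced6_co.Local

section
/-!
# The paper near a vertex
-/
namespace Pool.Agent.Lib.FoldCut

open Complex Real Topology

/-- the winding sum vanishes on the outer side near a vertex -/
theorem ext_zero {L : List ℂ} (h : Simple L)
    (hw : ∀ p, p ∉ curve L → wsum p L = 0 ∨ wsum p L = 2 * π) {a b c : ℂ} {r : ℝ}
    (hr : ∀ e ∈ cyc L, e ≠ (a, b) → e ≠ (b, c) → ∀ p ∈ Metric.ball b r, p ∉ segment ℝ e.1 e.2)
    {e : ℂ × ℂ} (he : e ∈ cyc L) {c0 : ℂ} (hc0 : c0 ∈ openSegment ℝ e.1 e.2)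
    (hc0b : c0 ∈ Metric.ball b r) {D : Set ℂ} (hD : Convex ℝ D)
    (hDa : ∀ p ∈ D, p ∉ segment ℝ a b) (hDc : ∀ p ∈ D, p ∉ segment ℝ b c)
    (hDn : ∀ᶠ p in 𝓝 c0, ori e.1 e.2 p < 0 → p ∈ D) {z : ℂ} (hz : z ∈ D)
    (hzb : z ∈ Metric.ball b r) : wsum z L = 0 := by
  have hb : ∀ᶠ p in 𝓝 c0, p ∈ Metric.ball b r := Metric.isOpen_ball.mem_nhds hc0b
  obtain ⟨p, ⟨⟨h1, h2⟩, h3⟩, h4⟩ := exists_right _ _ _ (h.ne he) hc0
    (((h.jump' hw he hc0).and hDn).and hb)
  have h5 := (h1.2 h4).2
  have h6 := h2 h4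
  rw [← h5]
  refine wsum_const (S := segment ℝ z p) (convex_segment _ _).isPreconnected ?_
    (left_mem_segment _ _ _) (right_mem_segment _ _ _)
  rw [Set.disjoint_left]
  rintro y hy ⟨e', he', hye'⟩
  have hyD : y ∈ D := hD.segment_subset hz h6 hy
  have hyb : y ∈ Metric.ball b r := (convex_ball b r).segment_subset hzb h3 hy
  by_cases k1 : e' = (a, b)
  · subst k1; exact hDa y hyD hye'
  · by_cases k2 : e' = (b, c)
    · subst k2; exact hDc y hyD hye'
    · exact hr e' he' k1 k2 y hyb hye'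

theorem exists_near_left {a b : ℂ} {r : ℝ} (hr : 0 < r) :
    ∃ c0 ∈ openSegment ℝ a b, c0 ∈ Metric.ball a r := by
  have h1 : a ∈ closure (openSegment ℝ a b) :=
    segment_subset_closure_openSegment (left_mem_segment ℝ a b)
  rw [Metric.mem_closure_iff] at h1
  obtain ⟨c, hc1, hc2⟩ := h1 r hr
  exact ⟨c, hc1, by rwa [Metric.mem_ball, dist_comm]⟩

theorem half_convex (a b : ℂ) : Convex ℝ {p | ori a b p < 0} := by
  rintro x hx y hy s t hs ht hst
  simp only [Set.mem_ofPred_eq] at *
  rw [ori_lin _ _ _ _ _ _ hst]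
  rcases hs.lt_or_eq with h | h
  · have := mul_neg_of_pos_of_neg h hx
    have := mul_nonpos_of_nonneg_of_nonpos ht hy.le
    linarith
  · have : t = 1 := by linarith
    subst this; rw [← h]; linarith

/-- near a vertex `b` between the edges `(a, b)` and `(b, c)` -/
theorem near_vertex {L : List ℂ} (h : Simple L)
    (hw : ∀ p, p ∉ curve L → wsum p L = 0 ∨ wsum p L = 2 * π) {a b c : ℂ}
    (hab : (a, b) ∈ cyc L) (hbc : (b, c) ∈ cyc L)
    (hb : ∀ e ∈ cyc L, e ≠ (a, b) → e ≠ (b, c) → b ∉ segment ℝ e.1 e.2) :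
    ∀ᶠ z in 𝓝 b, z ∈ inside L →
      (0 < ori a b c → 0 ≤ ori a b z ∧ 0 ≤ ori b c z) ∧
      (ori a b c ≤ 0 → 0 ≤ ori a b z ∨ 0 ≤ ori b c z) := by
  classical
  have hpi := Real.pi_pos
  -- a ball that avoids the other edges
  have hball : ∃ r > 0, ∀ e ∈ cyc L, e ≠ (a, b) → e ≠ (b, c) →
      ∀ p ∈ Metric.ball b r, p ∉ segment ℝ e.1 e.2 := by
    have hcl := support_closed ((cyc L).filter fun e => e ≠ (a, b) ∧ e ≠ (b, c))
    have hnot : b ∉ support ((cyc L).filter fun e => e ≠ (a, b) ∧ e ≠ (b, c)) := by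
      rintro ⟨e, he, hbe⟩
      rw [List.mem_filter, decide_eq_true_iff] at he
      exact hb e he.1 he.2.1 he.2.2 hbe
    obtain ⟨r, hr, hsub⟩ := Metric.isOpen_iff.mp hcl.isOpen_compl b hnot
    refine ⟨r, hr, ?_⟩
    intro e he h1 h2 p hp hpe
    apply hsub hp
    exact ⟨e, List.mem_filter.mpr ⟨he, by rw [decide_eq_true_iff]; exact ⟨h1, h2⟩⟩, hpe⟩
  obtain ⟨r, hr, hr'⟩ := hball
  have nab : a ≠ b := h.ne hab
  have nbc : b ≠ c := h.ne hbc
  obtain ⟨c1, hc1, hc1b⟩ := exists_near_left (a := b) (b := c) hr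
  obtain ⟨c2, hc2, hc2b⟩ := exists_near_left (a := b) (b := a) hr
  rw [openSegment_symm] at hc2
  have segab : ∀ p ∈ segment ℝ a b, ori a b p = 0 := by
    rintro p ⟨s, t, hs, ht, hst, rfl⟩
    rw [ori_lin _ _ _ _ _ _ hst, ori_self_left, ori_self_right]; simp
  have segbc : ∀ p ∈ segment ℝ b c, ori b c p = 0 := by
    rintro p ⟨s, t, hs, ht, hst, rfl⟩
    rw [ori_lin _ _ _ _ _ _ hst, ori_self_left, ori_self_right]; simp
  -- convex or flat
  have conv : 0 ≤ ori a b c → ∀ z ∈ Metric.ball b r, (ori b c z < 0 ∨ ori a b z < 0) →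
      wsum z L = 0 := by
    intro h0 z hz hzo
    have s1 : ∀ p ∈ segment ℝ a b, 0 ≤ ori b c p := by
      rintro p ⟨s, t, hs, ht, hst, rfl⟩
      rw [ori_lin _ _ _ _ _ _ hst, ori_self_left, ← ori_cyc]
      have := mul_nonneg hs h0; linarith
    have s2 : ∀ p ∈ segment ℝ b c, 0 ≤ ori a b p := by
      rintro p ⟨s, t, hs, ht, hst, rfl⟩
      rw [ori_lin _ _ _ _ _ _ hst, ori_self_right]
      have := mul_nonneg ht h0; linarith
    rcases hzo with hzo | hzo
    · refine ext_zero h hw hr' (e := (b, c)) hbc hc1 hc1b (half_convex b c) ?_ ?_ ?_ hzo hz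
      · intro p hp hpa
        simp only [Set.mem_ofPred_eq] at hp
        linarith [s1 p hpa]
      · intro p hp hpa
        simp only [Set.mem_ofPred_eq] at hp
        linarith [segbc p hpa]
      · filter_upwards with p hp using hp
    · refine ext_zero h hw hr' (e := (a, b)) hab hc2 hc2b (half_convex a b) ?_ ?_ ?_ hzo hz
      · intro p hp hpa
        simp only [Set.mem_ofPred_eq] at hp
        linarith [segab p hpa]
      · intro p hp hpa
        simp only [Set.mem_ofPred_eq] at hp
        linarith [s2 p hpa]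
      · filter_upwards with p hp using hp
  -- reflex
  have refl : ori a b c < 0 → ∀ z ∈ Metric.ball b r, ori b c z < 0 → ori a b z < 0 →
      wsum z L = 0 := by
    intro h0 z hz hz1 hz2
    refine ext_zero h hw hr' (e := (b, c)) hbc hc1 hc1b (D := {p | ori b c p < 0} ∩
      {p | ori a b p < 0}) ((half_convex b c).inter (half_convex a b)) ?_ ?_ ?_ ⟨hz1, hz2⟩ hz
    · rintro p ⟨-, hp⟩ hpa
      simp only [Set.mem_ofPred_eq] at hp
      linarith [segab p hpa]
    · rintro p ⟨hp, -⟩ hpa
      simp only [Set.mem_ofPred_eq] at hp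
      linarith [segbc p hpa]
    · have h1 : ori a b c1 < 0 := by
        obtain ⟨s, t, hs, ht, hst, rfl⟩ := hc1
        rw [ori_lin _ _ _ _ _ _ hst, ori_self_right]
        have := mul_neg_of_pos_of_neg ht h0; linarith
      have h2 : ∀ᶠ p in 𝓝 c1, ori a b p < 0 :=
        (continuous_ori a b).continuousAt.eventually_lt continuousAt_const h1
      filter_upwards [h2] with p hp hp2 using ⟨hp2, hp⟩
  filter_upwards [Metric.ball_mem_nhds b hr] with z hz hin
  have h2 : wsum z L = 2 * π := hin.2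
  have hne : wsum z L ≠ 0 := by rw [h2]; positivity
  constructor
  · intro h0
    constructor
    · by_contra hc
      exact hne (conv h0.le z hz (Or.inr (not_le.mp hc)))
    · by_contra hc
      exact hne (conv h0.le z hz (Or.inl (not_le.mp hc)))
  · intro h0
    by_contra hc
    rw [not_or] at hc
    rcases h0.lt_or_eq with h1 | h1
    · exact hne (refl h1 z hz (not_le.mp hc.2) (not_le.mp hc.1))
    · exact hne (conv h1.ge z hz (Or.inl (not_le.mp hc.2)))

namespace Setup

variable (S : Setup)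

theorem V_inj {i k : ℕ} (hi : i ≤ S.t.size) (hk : k ≤ S.t.size) (h : S.V i = S.V k) : i = k := by
  have h1 := S.simple.nodup
  rw [List.nodup_map_iff_inj_on (List.nodup_range)] at h1
  exact h1 i (List.mem_range.mpr (by omega)) k (List.mem_range.mpr (by omega)) h

theorem V_inj_mod {i k : ℕ} (h : S.V i = S.V k) : i % (S.t.size + 1) = k % (S.t.size + 1) := by
  rw [← S.V_mod i, ← S.V_mod k] at h
  exact S.V_inj (Nat.lt_succ_iff.mp (Nat.mod_lt _ (by omega)))
    (Nat.lt_succ_iff.mp (Nat.mod_lt _ (by omega))) h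

theorem V_mod' (j : ℕ) : S.V (j % (S.t.size + 1) + 1) = S.V (j + 1) := by
  rw [← S.V_mod (j % (S.t.size + 1) + 1), ← S.V_mod (j + 1), Nat.mod_add_mod]

theorem edge_mem (j : ℕ) : (S.V j, S.V (j + 1)) ∈ cyc S.L := by
  rw [S.cyc_L, List.mem_map]
  refine ⟨j % (S.t.size + 1), List.mem_range.mpr (Nat.mod_lt _ (by omega)), ?_⟩
  rw [S.V_mod, S.V_mod']

theorem near_V (j : ℕ) : ∀ᶠ z in 𝓝 (S.V (j + 1)), z ∈ inside S.L →
    (0 < S.μ (j + 1) → - S.d ≤ cy (S.q j) (S.q (j + 1)) z ∧
      - S.d ≤ cy (S.q (j + 1)) (S.q (j + 2)) z) ∧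
    (S.μ (j + 1) ≤ 0 → - S.d ≤ cy (S.q j) (S.q (j + 1)) z ∨
      - S.d ≤ cy (S.q (j + 1)) (S.q (j + 2)) z) := by
  have key := near_vertex S.simple S.good.w (S.edge_mem j) (S.edge_mem (j + 1)) ?_
  · filter_upwards [key] with z hz hin
    obtain ⟨h1, h2⟩ := hz hin
    have e0 := S.ori_VVV j
    have e1 : ∀ i, 0 ≤ ori (S.V i) (S.V (i + 1)) z → - S.d ≤ cy (S.q i) (S.q (i + 1)) z := by
      intro i hi
      rw [S.ori_VV] at hi
      by_contra hc
      have := mul_neg_of_pos_of_neg (S.len_V_pos i)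
        (by linarith [not_le.mp hc] : S.d + cy (S.q i) (S.q (i + 1)) z < 0)
      linarith
    constructor
    · intro h3
      have h4 := h1 (e0.mpr h3)
      exact ⟨e1 j h4.1, e1 (j + 1) h4.2⟩
    · intro h3
      rcases h2 (by
        by_contra hc
        exact absurd (e0.mp (not_le.mp hc)) (not_lt.mpr h3)) with h4 | h4
      · exact Or.inl (e1 j h4)
      · exact Or.inr (e1 (j + 1) h4)
  · intro e he h1 h2 hb
    have hmem : S.V (j + 1) ∈ S.L := by
      rw [← S.V_mod]
      exact List.mem_map.mpr ⟨_, List.mem_range.mpr (Nat.mod_lt _ (by omega)), rfl⟩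
    have he' := he
    rw [show (List.map S.V (List.range (S.t.size + 1))) = S.L from rfl, S.cyc_L, List.mem_map] at he'
    obtain ⟨k, hk, rfl⟩ := he'
    simp only at hb h1 h2
    rcases mem_segment_cases hb with h3 | h3 | h3
    · apply h2
      have h4 := S.V_inj_mod h3
      have h5 : (j + 2) % (S.t.size + 1) = (k + 1) % (S.t.size + 1) := by
        rw [show j + 2 = (j + 1) + 1 from rfl, Nat.add_mod, h4, ← Nat.add_mod]
      rw [← h3, ← S.V_mod (k + 1), ← h5, S.V_mod]
    · apply h1
      have h4 := S.V_inj_mod h3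
      have h5 : j % (S.t.size + 1) = k % (S.t.size + 1) := Nat.ModEq.add_right_cancel' 1 h4
      rw [← h3, ← S.V_mod k, ← h5, S.V_mod]
    · exact S.simple.vert _ hmem _ he h3

/-- near a point of a mitre the paper is covered by the two ribbons -/
theorem near_mitre {j : ℕ} {w : ℂ} (h : S.Mit j w) : ∀ᶠ z in 𝓝 w, z ∈ inside S.L →
    z ∈ Poly (S.wL j) ∨ z ∈ Poly (S.wL (j + 1)) := by
  obtain ⟨hy, hx⟩ := S.mit_other h
  obtain ⟨h1, h2, h3⟩ := h
  have s1 := abs_lt.mp (S.small j h1 h2.le)
  have s2 := abs_lt.mp (S.small (j + 1) h1 h2.le)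
  have s3 := abs_lt.mp (S.small (j + 2) h1 h2.le)
  have hell := S.ell_gt j
  have hell' := S.ell_gt (j + 1)
  -- strict conditions at `w`
  have c1 : 0 < cx (S.q j) (S.q (j + 1)) w - S.μ j * cy (S.q j) (S.q (j + 1)) w := by linarith
  have c2 : 0 < S.ell (j + 1) - cx (S.q (j + 1)) (S.q (j + 2)) w -
      S.μ (j + 2) * cy (S.q (j + 1)) (S.q (j + 2)) w := by
    rw [hy, hx]; linarith
  have ax := fun i => (aff_cx (S.q i) (S.q (i + 1))).continuous
  have ay := fun i => (aff_cy (S.q i) (S.q (i + 1))).continuous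
  have e1 : ∀ᶠ z in 𝓝 w, 0 < cx (S.q j) (S.q (j + 1)) z - S.μ j * cy (S.q j) (S.q (j + 1)) z :=
    continuousAt_const.eventually_lt ((ax j).sub ((ay j).const_mul _)).continuousAt c1
  have e2 : ∀ᶠ z in 𝓝 w, 0 < S.ell (j + 1) - cx (S.q (j + 1)) (S.q (j + 2)) z -
      S.μ (j + 2) * cy (S.q (j + 1)) (S.q (j + 2)) z :=
    continuousAt_const.eventually_lt ((continuous_const.sub (ax (j + 1))).sub
      ((ay (j + 1)).const_mul _)).continuousAt c2
  have e3 : ∀ᶠ z in 𝓝 w, cy (S.q j) (S.q (j + 1)) z < 0 :=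
    (ay j).continuousAt.eventually_lt continuousAt_const h2
  have e4 : ∀ᶠ z in 𝓝 w, cy (S.q (j + 1)) (S.q (j + 2)) z < 0 :=
    (ay (j + 1)).continuousAt.eventually_lt continuousAt_const (by
      show cy (S.q (j + 1)) (S.q (j + 2)) w < 0
      rw [hy]; exact h2)
  -- the depth is at most `d`
  have e5 : ∀ᶠ z in 𝓝 w, z ∈ inside S.L →
      (0 ≤ S.ell j - cx (S.q j) (S.q (j + 1)) z - S.μ (j + 1) * cy (S.q j) (S.q (j + 1)) z →
        - S.d ≤ cy (S.q j) (S.q (j + 1)) z) ∧
      (S.ell j - cx (S.q j) (S.q (j + 1)) z - S.μ (j + 1) * cy (S.q j) (S.q (j + 1)) z < 0 →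
        - S.d ≤ cy (S.q (j + 1)) (S.q (j + 2)) z) := by
    rcases h1.lt_or_eq with h4 | h4
    · have e6 : ∀ᶠ z in 𝓝 w, - S.d < cy (S.q j) (S.q (j + 1)) z :=
        continuousAt_const.eventually_lt (ay j).continuousAt h4
      have e7 : ∀ᶠ z in 𝓝 w, - S.d < cy (S.q (j + 1)) (S.q (j + 2)) z :=
        continuousAt_const.eventually_lt (ay (j + 1)).continuousAt (by
          show - S.d < cy (S.q (j + 1)) (S.q (j + 2)) w
          rw [hy]; exact h4)
      filter_upwards [e6, e7] with z h6 h7 _ using ⟨fun _ => h6.le, fun _ => h7.le⟩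
    · have hwV : w = S.V (j + 1) := by
        apply eq_of_coord (S.q_ne j)
        · rw [S.cx_V']
          rw [← h4] at h3
          linarith
        · rw [S.cy_V', h4]
      rw [hwV]
      filter_upwards [S.near_V j] with z hz hin
      obtain ⟨g1, g2⟩ := hz hin
      have hdep := S.depth j z
      have hpos : (0:ℝ) < 1 + S.μ (j + 1) ^ 2 := by positivity
      rcases lt_or_ge 0 (S.μ (j + 1)) with hμ | hμ
      · obtain ⟨g3, g4⟩ := g1 hμ
        exact ⟨fun _ => g3, fun _ => g4⟩
      · constructor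
        · intro hN
          rcases g2 hμ with g3 | g3
          · exact g3
          · have : (1 + S.μ (j + 1) ^ 2) * (cy (S.q (j + 1)) (S.q (j + 2)) z -
                cy (S.q j) (S.q (j + 1)) z) ≤ 0 := by
              rw [hdep]
              exact mul_nonpos_of_nonpos_of_nonneg (by linarith) hN
            have : cy (S.q (j + 1)) (S.q (j + 2)) z - cy (S.q j) (S.q (j + 1)) z ≤ 0 := by
              by_contra hc
              have := mul_pos hpos (not_le.mp hc)
              linarith
            linarith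
        · intro hN
          rcases g2 hμ with g3 | g3
          · have : 0 ≤ (1 + S.μ (j + 1) ^ 2) * (cy (S.q (j + 1)) (S.q (j + 2)) z -
                cy (S.q j) (S.q (j + 1)) z) := by
              rw [hdep]
              exact mul_nonneg_of_nonpos_of_nonpos (by linarith) hN.le
            have : 0 ≤ cy (S.q (j + 1)) (S.q (j + 2)) z - cy (S.q j) (S.q (j + 1)) z := by
              by_contra hc
              have := mul_neg_of_pos_of_neg hpos (not_le.mp hc)
              linarith
            linarith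
          · exact g3
  filter_upwards [e1, e2, e3, e4, e5] with z f1 f2 f3 f4 f5 hin
  obtain ⟨f6, f7⟩ := f5 hin
  rcases le_or_gt 0 (S.ell j - cx (S.q j) (S.q (j + 1)) z -
    S.μ (j + 1) * cy (S.q j) (S.q (j + 1)) z) with hN | hN
  · left
    rw [S.mem_wL]
    exact ⟨by linarith, by linarith [f6 hN], f1.le, hN⟩
  · right
    rw [S.mem_wL]
    have := (S.mitre j z).1
    exact ⟨by linarith, by linarith [f7 hN], by linarith, f2.le⟩

end Setup

end Pool.Agent.Lib.FoldCut
end

section
/-!
# Which pieces meet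
-/
namespace Pool.Agent.Lib.FoldCut

open Complex Real Topology

/-- the piece `(u', v')` follows the piece `(u, v)`: at a bisector, across the edge, or at a
mitre -/
def Rel (t : Tr) (u v u' v' : ℕ) : Prop :=
  (Tri t u v v' ∧ u' = v) ∨ (u' = v ∧ v' = u) ∨
    (v ≤ t.size ∧ u = (v + 1) % (t.size + 1) ∧ v' = u ∧ u' = (u + 1) % (t.size + 1))

namespace Setup

variable (S : Setup)

/-- the position of a point in a piece -/
theorem position {u v : ℕ} (h : Dir S.t u v) {w : ℂ} (hw : w ∈ Poly (S.pl u v)) :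
    (∃ c, Tri S.t u v c ∧ 0 < cy (S.q u) (S.q v) w ∧ 0 < cy (S.q v) (S.q c) w ∧
      0 < cy (S.q c) (S.q u) w) ∨
    w ∈ openSegment ℝ (S.q u) (S.q v) ∨ (w = S.q u ∨ w = S.q v) ∨
    (v ≤ S.t.size ∧ u = (v + 1) % (S.t.size + 1) ∧
      ∀ᶠ z in 𝓝 w, z ∈ inside S.L → z ∈ Poly (S.wL v)) ∨
    (v ≤ S.t.size ∧ u = (v + 1) % (S.t.size + 1) ∧ S.Mit v w) ∨
    (v ≤ S.t.size ∧ u = (v + 1) % (S.t.size + 1) ∧
      ∃ p ≤ S.t.size, v = (p + 1) % (S.t.size + 1) ∧ S.Mit p w) := by
  rcases dir_cases h with ⟨c, ht⟩ | ⟨hv, hu⟩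
  · have hpos := S.tri_pos ht
    rw [S.pl_tri ht] at hw
    have htri := secL_sub hpos hw
    rw [mem_secL] at hw
    rcases hw.1.lt_or_eq with h0 | h0
    · left
      exact ⟨c, ht, h0, by linarith [hw.2.1], by linarith [hw.2.2]⟩
    · right
      have hn : S.q u ≠ S.q v := S.q_ne_of_dir h
      have h1 : ori (S.q u) (S.q v) w = 0 := by
        apply le_antisymm _ htri.1
        by_contra hc
        have := (cy_pos_iff hn).mpr (not_le.mp hc)
        linarith
      rcases mem_segment_cases (mem_side hpos htri h1) with h2 | h2 | h2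
      · exact Or.inr (Or.inl (Or.inl h2))
      · exact Or.inr (Or.inl (Or.inr h2))
      · exact Or.inl h2
  · have hq : S.q u = S.q (v + 1) := by rw [hu, S.q_mod]
    rw [S.pl_out' hv hu, S.mem_wL] at hw
    obtain ⟨k1, k2, k3, k4⟩ := hw
    have hell : S.ell v = ‖S.q (v + 1) - S.q v‖ := rfl
    rcases k1.lt_or_eq with h0 | h0
    · -- positive depth
      right; right; right
      have s1 := abs_lt.mp (S.small v (x := cy (S.q v) (S.q (v + 1)) w) (by linarith) (by linarith))
      have s2 := abs_lt.mp (S.small (v + 1) (x := cy (S.q v) (S.q (v + 1)) w) (by linarith)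
        (by linarith))
      have hl := S.ell_gt v
      rcases k3.lt_or_eq with h3 | h3
      · rcases k4.lt_or_eq with h4 | h4
        · left
          refine ⟨hv, hu, ?_⟩
          have ax := (aff_cx (S.q v) (S.q (v + 1))).continuous
          have ay := (aff_cy (S.q v) (S.q (v + 1))).continuous
          have e1 : ∀ᶠ z in 𝓝 w, 0 < - cy (S.q v) (S.q (v + 1)) z :=
            continuousAt_const.eventually_lt ay.neg.continuousAt h0
          have e2 : ∀ᶠ z in 𝓝 w, 0 < cx (S.q v) (S.q (v + 1)) z -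
              S.μ v * cy (S.q v) (S.q (v + 1)) z :=
            continuousAt_const.eventually_lt (ax.sub (ay.const_mul _)).continuousAt h3
          have e3 : ∀ᶠ z in 𝓝 w, 0 < S.ell v - cx (S.q v) (S.q (v + 1)) z -
              S.μ (v + 1) * cy (S.q v) (S.q (v + 1)) z :=
            continuousAt_const.eventually_lt
              ((continuous_const.sub ax).sub (ay.const_mul _)).continuousAt h4
          have e4 : ∀ᶠ z in 𝓝 w, z ∈ inside S.L → 0 ≤ S.d + cy (S.q v) (S.q (v + 1)) z := by
            rcases k2.lt_or_eq with h5 | h5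
            · have : ∀ᶠ z in 𝓝 w, 0 < S.d + cy (S.q v) (S.q (v + 1)) z :=
                continuousAt_const.eventually_lt (continuous_const.add ay).continuousAt h5
              filter_upwards [this] with z hz _ using hz.le
            · -- on the outer edge
              have hV : cy (S.q v) (S.q (v + 1)) w = - S.d := by linarith
              have hopen : w ∈ openSegment ℝ (S.V v) (S.V (v + 1)) := by
                rw [hV] at h3 h4
                have hL := S.len_V_pos v
                set a := (cx (S.q v) (S.q (v + 1)) w + S.μ v * S.d) /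
                  (S.ell v + S.d * (S.μ v + S.μ (v + 1))) with ha
                have ha0 : 0 < a := by
                  apply div_pos _ hL; linarith
                have ha1 : a < 1 := by
                  rw [ha, div_lt_one hL]; linarith
                refine ⟨1 - a, a, by linarith, ha0, by ring, ?_⟩
                apply eq_of_coord (S.q_ne v)
                · rw [cx_lin _ _ (by ring), S.cx_V, S.cx_V', ha]
                  field_simp
                  ring
                · rw [cy_lin _ _ (by ring), S.cy_V, S.cy_V', hV]; ring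
              have := S.simple.jump' S.good.w (S.edge_mem v) hopen
              filter_upwards [this] with z hz hin
              have h6 : 0 ≤ ori (S.V v) (S.V (v + 1)) z := by
                by_contra hc
                have h7 := (hz.2 (not_le.mp hc)).2
                have h8 : wsum z S.L = 2 * π := hin.2
                have h9 : wsum z S.L = 0 := h7
                rw [h8] at h9
                have := Real.pi_pos
                linarith
              rw [S.ori_VV] at h6
              by_contra hc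
              have := mul_neg_of_pos_of_neg (S.len_V_pos v) (not_le.mp hc)
              linarith
          filter_upwards [e1, e2, e3, e4] with z f1 f2 f3 f4 hin
          rw [S.mem_wL]
          exact ⟨f1.le, f4 hin, f2.le, f3.le⟩
        · right; left
          exact ⟨hv, hu, by linarith, by linarith, h4.symm⟩
      · right; right
        refine ⟨hv, hu, ?_⟩
        obtain ⟨p, hp, hpv⟩ : ∃ p ≤ S.t.size, v = (p + 1) % (S.t.size + 1) := by
          by_cases h9 : v = 0
          · exact ⟨S.t.size, le_rfl, by rw [h9, Nat.mod_self]⟩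
          · exact ⟨v - 1, by omega, by rw [Nat.mod_eq_of_lt (by omega)]; omega⟩
        refine ⟨p, hp, hpv, ?_⟩
        have e1 : S.q v = S.q (p + 1) := by rw [hpv, S.q_mod]
        have e2 : S.q (v + 1) = S.q (p + 2) := by rw [hpv, S.q_mod']
        have e3 : S.μ v = S.μ (p + 1) := by rw [hpv, S.μ_mod]
        obtain ⟨m1, m2⟩ := S.mitre p w
        have m3 := S.depth p w
        rw [← e1, ← e2, ← e3] at m1 m3
        have hN : S.ell p - cx (S.q p) (S.q v) w - S.μ v * cy (S.q p) (S.q v) w = 0 := by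
          rw [← h3] at m1; linarith
        rw [hN, mul_zero] at m3
        have m4 := (mul_eq_zero.mp m3).resolve_left (by positivity)
        have m5 : cy (S.q p) (S.q v) w = cy (S.q v) (S.q (v + 1)) w := by linarith
        refine ⟨?_, ?_, ?_⟩
        · rw [← e1, m5]; linarith
        · rw [← e1, m5]; linarith
        · rw [← e1, ← e3]; exact hN
    · -- on the edge
      have h0' : cy (S.q v) (S.q (v + 1)) w = 0 := by linarith
      rw [h0', mul_zero, sub_zero] at k3 k4
      rcases k3.lt_or_eq with h3 | h3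
      · rcases k4.lt_or_eq with h4 | h4
        · right; left
          rw [hq, openSegment_symm]
          exact mem_openSegment_of_coord (S.q_ne v) h0' h3 (by rw [← hell]; linarith)
        · right; right; left; left
          rw [hq]
          apply eq_of_coord (S.q_ne v)
          · rw [cx_right (S.q_ne v), ← hell]; linarith
          · rw [cy_right, h0']
      · right; right; left; right
        apply eq_of_coord (S.q_ne v)
        · rw [cx_left]; exact h3.symm
        · rw [cy_left, h0']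

/-- two pieces containing a common point are related, or the point is a corner of the first -/
theorem half {u v u' v' : ℕ} (h : Dir S.t u v) (h' : Dir S.t u' v')
    (hne : ¬ (u = u' ∧ v = v')) {w : ℂ} (hw : w ∈ Poly (S.pl u v)) (hw' : w ∈ Poly (S.pl u' v')) :
    Rel S.t u v u' v' ∨ Rel S.t u' v' u v ∨ (w = S.q u ∨ w = S.q v) := by
  rcases S.position h hw with ⟨c, ht, p1, p2, p3⟩ | h1 | h1 | ⟨hv, hu, h1⟩ | ⟨hv, hu, h1⟩ |
    ⟨hv, hu, p, hp, hpv, h1⟩
  · have b1 := h.bd
    have hpos := S.tri_pos ht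
    obtain ⟨n1, n2, n3⟩ := ne_of_ori hpos
    have e1 : ∀ᶠ z in 𝓝 w, 0 < cy (S.q u) (S.q v) z :=
      continuousAt_const.eventually_lt (continuous_cy _ _).continuousAt p1
    have e2 : ∀ᶠ z in 𝓝 w, 0 < cy (S.q v) (S.q c) z :=
      continuousAt_const.eventually_lt (continuous_cy _ _).continuousAt p2
    have e3 : ∀ᶠ z in 𝓝 w, 0 < cy (S.q c) (S.q u) z :=
      continuousAt_const.eventually_lt (continuous_cy _ _).continuousAt p3
    have := S.local_cover h' hw' (fun a b => (a = u ∧ b = v) ∨ (a = v ∧ b = c) ∨ (a = c ∧ b = u))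
      (by
        rintro a b (⟨rfl, rfl⟩ | ⟨rfl, rfl⟩ | ⟨rfl, rfl⟩)
        · exact h
        · exact ht.rot.dir
        · exact ht.rot.rot.dir)
      (by
        filter_upwards [e1, e2, e3] with z f1 f2 f3 _
        have hz : z ∈ triC (S.q u) (S.q v) (S.q c) :=
          ⟨((cy_pos_iff n1).mp f1).le, ((cy_pos_iff n2).mp f2).le, ((cy_pos_iff n3).mp f3).le⟩
        rcases tri_cover hpos hz with g | g | g
        · exact ⟨u, v, Or.inl ⟨rfl, rfl⟩, by rw [S.pl_tri ht]; exact g⟩
        · exact ⟨v, c, Or.inr (Or.inl ⟨rfl, rfl⟩), by rw [S.pl_tri ht.rot]; exact g⟩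
        · exact ⟨c, u, Or.inr (Or.inr ⟨rfl, rfl⟩), by rw [S.pl_tri ht.rot.rot]; exact g⟩)
    rcases this with ⟨rfl, rfl⟩ | ⟨rfl, rfl⟩ | ⟨rfl, rfl⟩
    · exact absurd ⟨rfl, rfl⟩ hne
    · exact Or.inl (Or.inl ⟨ht, rfl⟩)
    · exact Or.inr (Or.inl (Or.inl ⟨ht.rot.rot, rfl⟩))
  · have := S.local_cover h' hw' (fun a b => (a = u ∧ b = v) ∨ (a = v ∧ b = u))
      (by
        rintro a b (⟨rfl, rfl⟩ | ⟨rfl, rfl⟩)
        · exact h
        · exact h.symm)
      (by
        have e1 := S.near_edge h h1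
        have e2 := S.near_edge h.symm (by rw [openSegment_symm]; exact h1)
        filter_upwards [e1, e2] with z f1 f2 _
        rcases le_total 0 (cy (S.q u) (S.q v) z) with g | g
        · exact ⟨u, v, Or.inl ⟨rfl, rfl⟩, f1 g⟩
        · exact ⟨v, u, Or.inr ⟨rfl, rfl⟩, f2 (by rw [cy_swap]; linarith)⟩)
    rcases this with ⟨rfl, rfl⟩ | ⟨rfl, rfl⟩
    · exact absurd ⟨rfl, rfl⟩ hne
    · exact Or.inl (Or.inr (Or.inl ⟨rfl, rfl⟩))
  · exact Or.inr (Or.inr h1)
  · have := S.local_cover h' hw' (fun a b => a = u ∧ b = v)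
      (by rintro a b ⟨rfl, rfl⟩; exact h)
      (by
        filter_upwards [h1] with z hz hin
        exact ⟨u, v, ⟨rfl, rfl⟩, by rw [S.pl_out' hv hu]; exact hz hin⟩)
    obtain ⟨rfl, rfl⟩ := this
    exact absurd ⟨rfl, rfl⟩ hne
  · -- mitre at `u`
    have hu' : u ≤ S.t.size := h.bd.2.1
    have := S.local_cover h' hw' (fun a b => (a = u ∧ b = v) ∨
        (a = (u + 1) % (S.t.size + 1) ∧ b = u))
      (by
        rintro a b (⟨rfl, rfl⟩ | ⟨rfl, rfl⟩)
        · exact h
        · exact dir_outer S.t hu')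
      (by
        filter_upwards [S.near_mitre h1] with z hz hin
        rcases hz hin with g | g
        · exact ⟨u, v, Or.inl ⟨rfl, rfl⟩, by rw [S.pl_out' hv hu]; exact g⟩
        · refine ⟨_, u, Or.inr ⟨rfl, rfl⟩, ?_⟩
          rw [S.pl_out hu', hu, S.wL_mod]; exact g)
    rcases this with ⟨rfl, rfl⟩ | ⟨rfl, rfl⟩
    · exact absurd ⟨rfl, rfl⟩ hne
    · exact Or.inl (Or.inr (Or.inr ⟨hv, hu, rfl, rfl⟩))
  · -- mitre at `v`
    have := S.local_cover h' hw' (fun a b => (a = u ∧ b = v) ∨ (a = v ∧ b = p))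
      (by
        rintro a b (⟨rfl, rfl⟩ | ⟨rfl, rfl⟩)
        · exact h
        · rw [hpv]; exact dir_outer S.t hp)
      (by
        filter_upwards [S.near_mitre h1] with z hz hin
        rcases hz hin with g | g
        · exact ⟨v, p, Or.inr ⟨rfl, rfl⟩, by rw [S.pl_out' hp hpv]; exact g⟩
        · exact ⟨u, v, Or.inl ⟨rfl, rfl⟩, by rw [S.pl_out' hv hu, hpv, S.wL_mod]; exact g⟩)
    rcases this with ⟨rfl, rfl⟩ | ⟨rfl, rfl⟩
    · exact absurd ⟨rfl, rfl⟩ hne
    · exact Or.inr (Or.inl (Or.inr (Or.inr ⟨hp, hpv, rfl, hu⟩)))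

/-- two pieces containing a common point are related, or the point is a common corner -/
theorem meet {u v u' v' : ℕ} (h : Dir S.t u v) (h' : Dir S.t u' v')
    (hne : ¬ (u = u' ∧ v = v')) {w : ℂ} (hw : w ∈ Poly (S.pl u v)) (hw' : w ∈ Poly (S.pl u' v')) :
    Rel S.t u v u' v' ∨ Rel S.t u' v' u v ∨
      ∃ j, (j = u ∨ j = v) ∧ (j = u' ∨ j = v') ∧ w = S.q j := by
  have b := h.bd
  have b' := h'.bd
  rcases S.half h h' hne hw hw' with h1 | h1 | h1
  · exact Or.inl h1
  · exact Or.inr (Or.inl h1)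
  · rcases S.half h' h (fun hc => hne ⟨hc.1.symm, hc.2.symm⟩) hw' hw with h2 | h2 | h2
    · exact Or.inr (Or.inl h2)
    · exact Or.inl h2
    · refine Or.inr (Or.inr ?_)
      rcases h1 with h1 | h1 <;> rcases h2 with h2 | h2
      · exact ⟨u, Or.inl rfl, Or.inl (S.inj _ _ b.2.1 b'.2.1 (by rw [← h1, ← h2])), h1⟩
      · exact ⟨u, Or.inl rfl, Or.inr (S.inj _ _ b.2.1 b'.2.2 (by rw [← h1, ← h2])), h1⟩
      · exact ⟨v, Or.inr rfl, Or.inl (S.inj _ _ b.2.2 b'.2.1 (by rw [← h1, ← h2])), h1⟩
      · exact ⟨v, Or.inr rfl, Or.inr (S.inj _ _ b.2.2 b'.2.2 (by rw [← h1, ← h2])), h1⟩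

end Setup

end Pool.Agent.Lib.FoldCut
end

section
/-!
# The turning points, for directed edges
-/
namespace Pool.Agent.Lib.FoldCut

open Complex Real Topology

/-- the parameters of the folding: `sd u v` is the distance from `q u` of the turning point of the
edge `u v`, and `X u` the abscissa of `q u` -/
structure Par (S : Setup) where
  sd : ℕ → ℕ → ℝ
  X : ℕ → ℝ
  pos : ∀ u v, Dir S.t u v → S.μ0 < sd u v
  add : ∀ u v, Dir S.t u v → sd u v + sd v u = ln S.q u v
  val : ∀ u v, Dir S.t u v → X u - sd u v = X v - sd v u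
  tri : ∀ u v w, Tri S.t u v w →
    min (sd v u) (ta S.q v u w) = min (sd v w) (ta S.q v u w)
  mid : ∀ u v w, Tri S.t u v w → u < v → v < w → ta S.q v u w ≤ sd v u
  mono : ∀ u v u' v', Dir S.t u v → Dir S.t u' v' → min u v ≤ min u' v' →
    max u' v' ≤ max u v → X u - sd u v ≤ X u' - sd u' v'

theorem exists_par (S : Setup) : Nonempty (Par S) := by
  have hroot := S.root
  have hμ := S.μ0_pos
  obtain ⟨s, c, X, -, -, h1, h2, h3⟩ := exists_params S.q S.t 0 (ln S.q 0 S.t.size / 2) 0 S.μ0 hμ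
    S.tan (by linarith) (by rw [Nat.zero_add]; linarith)
  have val : ∀ u v, Dir S.t u v →
      (u < v → (u, v) ∈ S.t.E 0) ∧ (¬ u < v → (v, u) ∈ S.t.E 0) := by
    intro u v h
    rcases h with h | h
    · have := S.t.E_lt 0 h
      exact ⟨fun _ => h, fun h' => absurd this.2.1 h'⟩
    · have := S.t.E_lt 0 h
      exact ⟨fun h' => by omega, fun _ => h⟩
  have cval : ∀ u v, Dir S.t u v → X u - (if u < v then s u v else ln S.q v u - s v u) =
      c (min u v) (max u v) := by
    intro u v h
    by_cases huv : u < v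
    · have h4 := h1 u v ((val u v h).1 huv)
      rw [if_pos huv, min_eq_left huv.le, max_eq_right huv.le, h4.2.2.2.1]; ring
    · have h4 := h1 v u ((val u v h).2 huv)
      have := h.bd
      rw [if_neg huv, min_eq_right (by omega), max_eq_left (by omega), h4.2.2.2.2]; ring
  refine ⟨⟨fun u v => if u < v then s u v else ln S.q v u - s v u, X, ?_, ?_, ?_, ?_, ?_, ?_⟩⟩
  · intro u v h
    by_cases huv : u < v
    · simp only [if_pos huv]
      exact (h1 u v ((val u v h).1 huv)).1
    · simp only [if_neg huv]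
      have := (h1 v u ((val u v h).2 huv)).2.1
      linarith
  · intro u v h
    have hb := h.bd
    by_cases huv : u < v
    · simp only [if_pos huv, if_neg (by omega : ¬ v < u)]; ring
    · simp only [if_neg huv, if_pos (by omega : v < u)]
      rw [ln_comm S.q u v]; ring
  · intro u v h
    show X u - (if u < v then s u v else ln S.q v u - s v u) =
      X v - (if v < u then s v u else ln S.q u v - s u v)
    rw [cval u v h, cval v u h.symm, min_comm, max_comm]
  · rintro u v w ⟨x, y, hxy, hlt, h4⟩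
    obtain ⟨hxz, hzy, e1, e2⟩ := S.t.E_split 0 hxy hlt
    obtain ⟨s1, -, s2, -⟩ := h2 x y hxy hlt
    generalize S.t.mid 0 x y = z at *
    rcases h4 with ⟨rfl, rfl, rfl⟩ | ⟨rfl, rfl, rfl⟩ | ⟨rfl, rfl, rfl⟩
    · have a1 := ta_add S.q u v w
      have a2 := ta_add S.q v w u
      have a3 := ta_comm S.q v w u
      have a4 := ta_comm S.q w v u
      have m1 : s u v ≤ ta S.q u v w := by rw [s1]; exact min_le_right _ _
      have m2 : ln S.q v w - s v w ≤ ta S.q w u v := by rw [s2]; exact min_le_right _ _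
      simp only [if_neg (by omega : ¬ v < u), if_pos hzy]
      rw [min_eq_right (by linarith), min_eq_right (by linarith)]
    · simp only [if_neg (by omega : ¬ v < u), if_neg (by omega : ¬ v < w)]
      rw [s2, ta_comm S.q v w u, min_assoc, min_self]
    · simp only [if_pos (by omega : v < u), if_pos (by omega : v < w)]
      rw [s1, ta_comm S.q v w u, min_assoc, min_self]
  · rintro u v w ⟨x, y, hxy, hlt, h4⟩ huv hvw
    obtain ⟨hxz, hzy, e1, e2⟩ := S.t.E_split 0 hxy hlt
    obtain ⟨s1, -, s2, -⟩ := h2 x y hxy hlt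
    generalize S.t.mid 0 x y = z at *
    rcases h4 with ⟨rfl, rfl, rfl⟩ | ⟨rfl, rfl, rfl⟩ | ⟨rfl, rfl, rfl⟩
    · have a1 := ta_add S.q u v w
      have m1 : s u v ≤ ta S.q u v w := by rw [s1]; exact min_le_right _ _
      simp only [if_neg (by omega : ¬ v < u)]
      linarith
    · omega
    · omega
  · intro u v u' v' h h' g1 g2
    show X u - (if u < v then s u v else ln S.q v u - s v u) ≤
      X u' - (if u' < v' then s u' v' else ln S.q v' u' - s v' u')
    rw [cval u v h, cval u' v' h']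
    have key : ∀ u v, Dir S.t u v → (min u v, max u v) ∈ S.t.E 0 := by
      intro u v h
      by_cases huv : u < v
      · rw [min_eq_left huv.le, max_eq_right huv.le]; exact (val u v h).1 huv
      · have := h.bd
        rw [min_eq_right (by omega), max_eq_left (by omega)]; exact (val u v h).2 huv
    exact h3 _ _ _ _ (key u v h) (key u' v' h') g1 g2

end Pool.Agent.Lib.FoldCut
end
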