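import Pool.Agent.Lib.MP_12ced6_co.Tree

/-!
# Turning points of the diagonals

The edges of the triangulated inner polygon are folded in `V` shape: the edge `(x, y)` of length
`ln q x y` turns at distance `s x y` from `q x`, where it has the abscissa `c x y`.
-/

namespace Pool.Agent.Lib.FoldCut

/-- length of the segment between two vertices -/
noncomputable def ln (q : ℕ → ℂ) (x y : ℕ) : ℝ := ‖q y - q x‖

/-- the tangent length at the vertex `i` of the triangle `i j k` -/
noncomputable def ta (q : ℕ → ℂ) (i j k : ℕ) : ℝ := (ln q i j + ln q i k - ln q j k) / 2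

theorem ln_comm (q : ℕ → ℂ) (x y : ℕ) : ln q x y = ln q y x := norm_sub_rev _ _

theorem ta_comm (q : ℕ → ℂ) (i j k : ℕ) : ta q i j k = ta q i k j := by
  unfold ta; rw [ln_comm q j k]; ring

theorem ta_add (q : ℕ → ℂ) (i j k : ℕ) : ta q i j k + ta q j i k = ln q i j := by
  unfold ta; rw [ln_comm q j i]; ring

/-- the relations between a diagonal `(x, y)` and the two other sides of its triangle -/
structure NodeRel (q : ℕ → ℂ) (s c : ℕ → ℕ → ℝ) (x z y : ℕ) : Prop where
  s1 : s x z = min (s x y) (ta q x z y)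
  c1 : c x z = c x y + (s x y - s x z)
  s2 : ln q z y - s z y = min (ln q x y - s x y) (ta q y x z)
  c2 : c z y = c x y + ((ln q x y - s x y) - (ln q z y - s z y))

/-- the values at the apex agree -/
theorem NodeRel.apex {q : ℕ → ℂ} {s c : ℕ → ℕ → ℝ} {x z y : ℕ} (h : NodeRel q s c x z y) :
    c x z + ln q x z - s x z = c z y + s z y := by
  obtain ⟨h1, h2, h3, h4⟩ := h
  have e1 := ta_add q x y z
  rw [ta_comm q x y z] at e1
  have e2 : ta q y x z = (ln q x y + ln q z y - ln q x z) / 2 := by
    unfold ta; rw [ln_comm q y x, ln_comm q y z]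
  rcases le_total (s x y) (ta q x z y) with h5 | h5
  · rw [min_eq_left h5] at h1
    rw [min_eq_right (by linarith)] at h3
    rw [h2, h4, h1, h3]
    linarith
  · rw [min_eq_right h5] at h1
    rw [min_eq_left (by linarith)] at h3
    have e3 : ta q x z y = (ln q x z + ln q x y - ln q z y) / 2 := rfl
    rw [h2, h4, h1, h3]
    linarith

theorem exists_params (q : ℕ → ℂ) : ∀ (t : Tr) (a : ℕ) (s0 c0 μ0 : ℝ), 0 < μ0 →
    t.All a (fun x z y => μ0 < ta q x z y ∧ μ0 < ta q z x y ∧ μ0 < ta q y x z) →
    μ0 < s0 → s0 < ln q a (a + t.size) - μ0 →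
    ∃ (s c : ℕ → ℕ → ℝ) (X : ℕ → ℝ), s a (a + t.size) = s0 ∧ c a (a + t.size) = c0 ∧
      (∀ x y, (x, y) ∈ t.E a → μ0 < s x y ∧ s x y < ln q x y - μ0 ∧ c0 ≤ c x y ∧
        X x = c x y + s x y ∧ X y = c x y + ln q x y - s x y) ∧
      (∀ x y, (x, y) ∈ t.E a → x + 1 < y → NodeRel q s c x (t.mid a x y) y) ∧
      (∀ x y x' y', (x, y) ∈ t.E a → (x', y') ∈ t.E a → x ≤ x' → y' ≤ y → c x y ≤ c x' y')
  | Tr.leaf, a, s0, c0, μ0, hμ, _, h1, h2 => by
    simp only [Tr.size] at h2
    refine ⟨fun _ _ => s0, fun _ _ => c0, fun i => if i = a then c0 + s0 else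
      c0 + ln q a (a + 1) - s0, rfl, rfl, ?_, ?_, ?_⟩
    · intro x y h
      simp only [Tr.E, Set.mem_singleton_iff, Prod.mk.injEq] at h
      obtain ⟨rfl, rfl⟩ := h
      refine ⟨h1, h2, le_rfl, by simp, by simp⟩
    · intro x y h h3
      simp only [Tr.E, Set.mem_singleton_iff, Prod.mk.injEq] at h
      omega
    · intro x y x' y' h h' h3 h4
      exact le_rfl
  | Tr.node l r, a, s0, c0, μ0, hμ, hA, h1, h2 => by
    have hl := l.size_pos
    have hr := r.size_pos
    obtain ⟨⟨hA1, hA2, hA3⟩, hAl, hAr⟩ := hA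
    have hsz : a + (Tr.node l r).size = a + l.size + r.size := by simp only [Tr.size]; omega
    rw [hsz] at h2 ⊢
    set z := a + l.size with hz
    set b := z + r.size with hb
    -- the two sub-triangulations
    set s1 : ℝ := min s0 (ta q a z b) with hs1
    set r0 : ℝ := ln q a b - s0 with hr0
    set r2 : ℝ := min r0 (ta q b a z) with hr2
    have e1 := ta_add q a z b
    have e2 := ta_add q a b z
    have e3 := ta_add q z b a
    have e4 := ta_comm q a z b
    have e5 := ta_comm q z a b
    have e6 := ta_comm q b a z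
    obtain ⟨sl, cl, Xl, sl0, cl0, hl1, hl2, hl3⟩ := exists_params q l a s1 (c0 + (s0 - s1)) μ0 hμ hAl
      (lt_min h1 hA1) (by
        have := min_le_right s0 (ta q a z b)
        rw [← hz]
        linarith)
    rw [← hz] at sl0 cl0
    obtain ⟨sr, cr, Xr, sr0, cr0, hr1', hr2', hr3⟩ := exists_params q r z (ln q z b - r2)
      (c0 + (r0 - r2)) μ0 hμ hAr (by
        have := min_le_right r0 (ta q b a z)
        linarith) (by
        rw [← hb]
        have : μ0 < r2 := lt_min (by linarith) hA3
        linarith)
    rw [← hb] at sr0 cr0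
    have hs1le : s1 ≤ s0 := min_le_left _ _
    have hr2le : r2 ≤ r0 := min_le_left _ _
    set s : ℕ → ℕ → ℝ := fun x y => if x = a ∧ y = b then s0 else if y ≤ z then sl x y else sr x y
      with hs
    set c : ℕ → ℕ → ℝ := fun x y => if x = a ∧ y = b then c0 else if y ≤ z then cl x y else cr x y
      with hc
    set X : ℕ → ℝ := fun i => if i ≤ z then Xl i else Xr i with hX
    have sab : s a b = s0 := by simp [hs]
    have cab : c a b = c0 := by simp [hc]
    have sL : ∀ x y, (x, y) ∈ l.E a → s x y = sl x y ∧ c x y = cl x y ∧ X x = Xl x ∧ X y = Xl y := by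
      intro x y h
      have := Tr.E_lt _ _ h
      refine ⟨?_, ?_, ?_, ?_⟩
      · simp only [hs]; rw [if_neg (by omega), if_pos (by omega)]
      · simp only [hc]; rw [if_neg (by omega), if_pos (by omega)]
      · simp only [hX]; rw [if_pos (by omega)]
      · simp only [hX]; rw [if_pos (by omega)]
    have sR : ∀ x y, (x, y) ∈ r.E z → s x y = sr x y ∧ c x y = cr x y := by
      intro x y h
      have := Tr.E_lt _ _ h
      refine ⟨?_, ?_⟩
      · simp only [hs]; rw [if_neg (by omega), if_neg (by omega)]
      · simp only [hc]; rw [if_neg (by omega), if_neg (by omega)]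
    have hroot : NodeRel q s c a z b := by
      have hal := sL a z (by rw [hz]; exact Tr.root_mem l a)
      have har := sR z b (by rw [hb]; exact Tr.root_mem r z)
      refine ⟨?_, ?_, ?_, ?_⟩
      · rw [hal.1, sl0, sab]
      · rw [hal.2.1, cl0, cab, hal.1, sl0, sab]
      · rw [har.1, sr0, sab]; ring
      · rw [har.2, cr0, cab, har.1, sr0, sab]; ring
    have hapex := hroot.apex
    have hXz : Xl z = Xr z := by
      have h3 := (hl1 a z (by rw [hz]; exact Tr.root_mem l a)).2.2.2.2
      have h4 := (hr1' z b (by rw [hb]; exact Tr.root_mem r z)).2.2.2.1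
      have hal := sL a z (by rw [hz]; exact Tr.root_mem l a)
      have har := sR z b (by rw [hb]; exact Tr.root_mem r z)
      rw [h3, h4, ← hal.1, ← hal.2.1, ← har.1, ← har.2, hapex]
    have XR : ∀ i, z ≤ i → X i = Xr i := by
      intro i hi
      simp only [hX]
      rcases hi.eq_or_lt with h | h
      · rw [if_pos (by omega), ← h]; exact hXz
      · rw [if_neg (by omega)]
    refine ⟨s, c, X, sab, cab, ?_, ?_, ?_⟩
    · intro x y h
      rcases h with (h | h) | h
      · simp only [Set.mem_singleton_iff, Prod.mk.injEq] at h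
        obtain ⟨rfl, rfl⟩ := h
        rw [← hz, ← hb]
        rw [sab, cab]
        refine ⟨h1, by linarith, le_rfl, ?_, ?_⟩
        · have h3 := (hl1 x z (by rw [hz]; exact Tr.root_mem l x)).2.2.2.1
          rw [(sL x z (by rw [hz]; exact Tr.root_mem l x)).2.2.1, h3, sl0, cl0]; ring
        · have h4 := (hr1' z b (by rw [hb]; exact Tr.root_mem r z)).2.2.2.2
          rw [XR b (by omega), h4, sr0, cr0]; ring
      · obtain ⟨g1, g2, g3, g4⟩ := sL x y h
        obtain ⟨k1, k2, k3, k4, k5⟩ := hl1 x y h
        rw [g1, g2, g3, g4]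
        exact ⟨k1, k2, by linarith, k4, k5⟩
      · obtain ⟨g1, g2⟩ := sR x y h
        obtain ⟨k1, k2, k3, k4, k5⟩ := hr1' x y h
        have := Tr.E_lt _ _ h
        rw [g1, g2, XR x (by omega), XR y (by omega)]
        exact ⟨k1, k2, by linarith, k4, k5⟩
    · intro x y h h3
      by_cases h0 : x = a ∧ y = b
      · obtain ⟨rfl, hyb⟩ := h0
        subst hyb
        have : (Tr.node l r).mid x x b = z := by
          simp [Tr.mid, hb, hz]
        rw [this]
        exact hroot
      · rcases h with (h | h) | h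
        · simp only [Set.mem_singleton_iff, Prod.mk.injEq] at h
          exact absurd h h0
        · have hb1 := Tr.E_lt _ _ h
          have hm : (Tr.node l r).mid a x y = l.mid a x y := by
            simp only [Tr.mid]
            rw [if_neg (by omega), if_pos (by omega)]
          rw [hm]
          obtain ⟨g1, g2, g3, g4⟩ := Tr.E_split l a h h3
          obtain ⟨k1, k2, k3, k4⟩ := hl2 x y h h3
          refine ⟨?_, ?_, ?_, ?_⟩
          · rw [(sL _ _ g3).1, (sL _ _ h).1]; exact k1
          · rw [(sL _ _ g3).2.1, (sL _ _ h).2.1, (sL _ _ h).1, (sL _ _ g3).1]; exact k2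
          · rw [(sL _ _ g4).1, (sL _ _ h).1]; exact k3
          · rw [(sL _ _ g4).2.1, (sL _ _ h).2.1, (sL _ _ h).1, (sL _ _ g4).1]; exact k4
        · have hb1 := Tr.E_lt _ _ h
          have hm : (Tr.node l r).mid a x y = r.mid z x y := by
            simp only [Tr.mid]
            rw [if_neg (by omega), if_neg (by omega)]
          rw [hm]
          obtain ⟨g1, g2, g3, g4⟩ := Tr.E_split r z h h3
          obtain ⟨k1, k2, k3, k4⟩ := hr2' x y h h3
          refine ⟨?_, ?_, ?_, ?_⟩
          · rw [(sR _ _ g3).1, (sR _ _ h).1]; exact k1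
          · rw [(sR _ _ g3).2, (sR _ _ h).2, (sR _ _ h).1, (sR _ _ g3).1]; exact k2
          · rw [(sR _ _ g4).1, (sR _ _ h).1]; exact k3
          · rw [(sR _ _ g4).2, (sR _ _ h).2, (sR _ _ h).1, (sR _ _ g4).1]; exact k4
    · intro x y x' y' h h' h3 h4
      have hall : ∀ x y, (x, y) ∈ (Tr.node l r).E a → c0 ≤ c x y := by
        intro x y h
        rcases h with (h | h) | h
        · simp only [Set.mem_singleton_iff, Prod.mk.injEq] at h
          obtain ⟨rfl, rfl⟩ := h
          rw [← hz, ← hb, cab]
        · rw [(sL x y h).2.1]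
          have := (hl1 x y h).2.2.1
          linarith
        · rw [(sR x y h).2]
          have := (hr1' x y h).2.2.1
          linarith
      have h'0 := h'
      rcases h with (h | h) | h
      · simp only [Set.mem_singleton_iff, Prod.mk.injEq] at h
        obtain ⟨rfl, rfl⟩ := h
        have := hall x' y' h'0
        rw [← hz, ← hb, cab]; exact this
      · have hb1 := Tr.E_lt _ _ h
        rcases h' with (h' | h') | h'
        · simp only [Set.mem_singleton_iff, Prod.mk.injEq] at h'
          omega
        · rw [(sL x y h).2.1, (sL x' y' h').2.1]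
          exact hl3 x y x' y' h h' h3 h4
        · have := Tr.E_lt _ _ h'
          omega
      · have hb1 := Tr.E_lt _ _ h
        rcases h' with (h' | h') | h'
        · simp only [Set.mem_singleton_iff, Prod.mk.injEq] at h'
          omega
        · have := Tr.E_lt _ _ h'
          omega
        · rw [(sR x y h).2, (sR x' y' h').2]
          exact hr3 x y x' y' h h' h3 h4

end Pool.Agent.Lib.FoldCut
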