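import Pool.Agent.Lib.MP_12ced6_co.Frame
import Pool.Agent.Lib.MP_12ced6_co.Defs

/-!
# Regions cut out by finitely many affine functions
-/

namespace Pool.Agent.Lib.FoldCut

open Complex Real Topology

/-- real affine functions on the plane -/
def Aff (f : ℂ → ℝ) : Prop := ∃ (u : ℂ) (b : ℝ), ∀ w, f w = b - inner ℝ u w

theorem inner_eq_dt (u w : ℂ) : inner ℝ u w = dt u w := by
  rw [Complex.inner]
  simp only [dt, mul_re, conj_re, conj_im]
  ring

theorem Aff.const (b : ℝ) : Aff fun _ => b := ⟨0, b, fun w => by simp⟩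

theorem Aff.add {f g : ℂ → ℝ} (hf : Aff f) (hg : Aff g) : Aff fun w => f w + g w := by
  obtain ⟨u, b, hu⟩ := hf
  obtain ⟨v, c, hv⟩ := hg
  refine ⟨u + v, b + c, fun w => ?_⟩
  show f w + g w = _
  rw [hu, hv, inner_add_left]; ring

theorem Aff.smul {f : ℂ → ℝ} (hf : Aff f) (r : ℝ) : Aff fun w => r * f w := by
  obtain ⟨u, b, hu⟩ := hf
  refine ⟨(r : ℂ) * u, r * b, fun w => ?_⟩
  show r * f w = _
  rw [hu, inner_eq_dt, inner_eq_dt]
  simp only [dt, mul_re, mul_im, ofReal_re, ofReal_im]; ring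

theorem Aff.neg {f : ℂ → ℝ} (hf : Aff f) : Aff fun w => - f w := by
  have := hf.smul (-1)
  simpa using this

theorem Aff.sub {f g : ℂ → ℝ} (hf : Aff f) (hg : Aff g) : Aff fun w => f w - g w := by
  have := hf.add hg.neg
  simpa [sub_eq_add_neg] using this

theorem aff_cx (A B : ℂ) : Aff fun w => cx A B w := by
  refine ⟨-((‖B - A‖⁻¹ : ℝ) : ℂ) * (B - A), - ‖B - A‖⁻¹ * dt (B - A) A, fun w => ?_⟩
  rw [inner_eq_dt]
  simp only [cx, dt, mul_re, mul_im, neg_re, neg_im, ofReal_re, ofReal_im, sub_re, sub_im]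
  ring

theorem aff_cy (A B : ℂ) : Aff fun w => cy A B w := by
  refine ⟨-((‖B - A‖⁻¹ : ℝ) : ℂ) * (I * (B - A)), - ‖B - A‖⁻¹ * dt (I * (B - A)) A, fun w => ?_⟩
  rw [inner_eq_dt]
  simp only [cy, ori_def, dt, mul_re, mul_im, neg_re, neg_im, ofReal_re, ofReal_im, sub_re, sub_im,
    I_re, I_im]
  ring

theorem Aff.lin {f : ℂ → ℝ} (hf : Aff f) (x y : ℂ) {s t : ℝ} (h : s + t = 1) :
    f (s • x + t • y) = s * f x + t * f y := by
  obtain ⟨u, b, hu⟩ := hf
  rw [hu, hu, hu, inner_add_right, inner_smul_right, inner_smul_right]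
  have : b = s * b + t * b := by rw [← add_mul, h, one_mul]
  linear_combination this

theorem Aff.continuous {f : ℂ → ℝ} (hf : Aff f) : Continuous f := by
  obtain ⟨u, b, hu⟩ := hf
  have : f = fun w => b - inner ℝ u w := funext hu
  rw [this]
  fun_prop

/-- the closed region of a list of functions -/
def Poly (fs : List (ℂ → ℝ)) : Set ℂ := {w | ∀ f ∈ fs, 0 ≤ f w}

/-- the open region of a list of functions -/
def PolyO (fs : List (ℂ → ℝ)) : Set ℂ := {w | ∀ f ∈ fs, 0 < f w}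

theorem PolyO_subset (fs : List (ℂ → ℝ)) : PolyO fs ⊆ Poly fs := fun _ h f hf => (h f hf).le

theorem Poly_closed {fs : List (ℂ → ℝ)} (h : ∀ f ∈ fs, Aff f) : IsClosed (Poly fs) := by
  induction fs with
  | nil => simp [Poly]
  | cons f fs ih =>
    have : Poly (f :: fs) = {w | 0 ≤ f w} ∩ Poly fs := by
      ext w; simp [Poly]
    rw [this]
    exact (isClosed_le continuous_const (h f (by simp)).continuous).inter
      (ih fun g hg => h g (List.mem_cons_of_mem _ hg))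

theorem PolyO_open {fs : List (ℂ → ℝ)} (h : ∀ f ∈ fs, Aff f) : IsOpen (PolyO fs) := by
  induction fs with
  | nil => simp [PolyO]
  | cons f fs ih =>
    have : PolyO (f :: fs) = {w | 0 < f w} ∩ PolyO fs := by
      ext w; simp [PolyO]
    rw [this]
    exact (isOpen_lt continuous_const (h f (by simp)).continuous).inter
      (ih fun g hg => h g (List.mem_cons_of_mem _ hg))

theorem PolyO_subset_interior {fs : List (ℂ → ℝ)} (h : ∀ f ∈ fs, Aff f) :
    PolyO fs ⊆ interior (Poly fs) :=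
  interior_maximal (PolyO_subset fs) (PolyO_open h)

theorem Poly_convex {fs : List (ℂ → ℝ)} (h : ∀ f ∈ fs, Aff f) : Convex ℝ (Poly fs) := by
  intro x hx y hy s t hs ht hst f hf
  rw [(h f hf).lin x y hst]
  have := mul_nonneg hs (hx f hf)
  have := mul_nonneg ht (hy f hf)
  linarith

/-- the open region is dense in the closed one -/
theorem Poly_subset_closure {fs : List (ℂ → ℝ)} (h : ∀ f ∈ fs, Aff f) (hne : (PolyO fs).Nonempty) :
    Poly fs ⊆ closure (PolyO fs) := by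
  obtain ⟨w0, hw0⟩ := hne
  intro w hw
  rw [mem_closure_iff_nhds]
  intro U hU
  have hcont : ContinuousAt (fun t : ℝ => (1 - t) • w + t • w0) 0 := by fun_prop
  have h0 : U ∈ 𝓝 ((1 - (0:ℝ)) • w + (0:ℝ) • w0) := by simpa using hU
  have h1 : ∀ᶠ t : ℝ in 𝓝 0, (1 - t) • w + t • w0 ∈ U := hcont h0
  have h2 : ∀ᶠ t : ℝ in 𝓝[>] 0, (1 - t) • w + t • w0 ∈ U := nhdsWithin_le_nhds h1
  have h3 : ∀ᶠ t : ℝ in 𝓝[>] 0, t < 1 := by
    have : ∀ᶠ t : ℝ in 𝓝 0, t < 1 := gt_mem_nhds (by norm_num)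
    exact nhdsWithin_le_nhds this
  obtain ⟨t, h4, h5, h6⟩ := (h2.and (h3.and self_mem_nhdsWithin)).exists
  have h6' : 0 < t := h6
  refine ⟨_, h4, ?_⟩
  intro f hf
  rw [(h f hf).lin w w0 (by ring)]
  have := mul_nonneg (by linarith : (0:ℝ) ≤ 1 - t) (hw f hf)
  have := mul_pos h6' (hw0 f hf)
  linarith

theorem isConvexPolygon {fs : List (ℂ → ℝ)} (h : ∀ f ∈ fs, Aff f) (hne : (PolyO fs).Nonempty)
    (hb : Bornology.IsBounded (Poly fs)) : IsConvexPolygon (Poly fs) := by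
  classical
  refine ⟨Metric.isCompact_of_isClosed_isBounded (Poly_closed h) hb,
    hne.mono (PolyO_subset_interior h), ?_⟩
  clear hne hb
  induction fs with
  | nil => exact ⟨∅, by simp [Poly]⟩
  | cons f fs ih =>
    obtain ⟨H, hH⟩ := ih fun g hg => h g (List.mem_cons_of_mem _ hg)
    obtain ⟨u, b, hu⟩ := h f (by simp)
    refine ⟨insert (u, b) H, ?_⟩
    have e : Poly (f :: fs) = {w | 0 ≤ f w} ∩ Poly fs := by
      ext w; simp [Poly]
    rw [e, hH]
    ext w
    simp only [Set.mem_inter_iff, Set.mem_ofPred_eq, Finset.mem_insert, forall_eq_or_imp, hu]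
    constructor
    · rintro ⟨h1, h2⟩; exact ⟨by linarith, h2⟩
    · rintro ⟨h1, h2⟩; exact ⟨by linarith, h2⟩

/-- if the closed regions have common interior points, so do the open ones -/
theorem exists_common {fs gs : List (ℂ → ℝ)} (hf : ∀ f ∈ fs, Aff f) (hg : ∀ f ∈ gs, Aff f)
    (nf : (PolyO fs).Nonempty) (ng : (PolyO gs).Nonempty) {U : Set ℂ} (hU : IsOpen U)
    (hUn : U.Nonempty) (h1 : U ⊆ Poly fs) (h2 : U ⊆ Poly gs) :
    (U ∩ PolyO fs ∩ PolyO gs).Nonempty := by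
  obtain ⟨x, hx⟩ := hUn
  obtain ⟨y, hy1, hy2⟩ := mem_closure_iff_nhds.mp (Poly_subset_closure hf nf (h1 hx)) U (hU.mem_nhds hx)
  have hV : IsOpen (U ∩ PolyO fs) := hU.inter (PolyO_open hf)
  obtain ⟨z, hz1, hz2⟩ := mem_closure_iff_nhds.mp (Poly_subset_closure hg ng (h2 hy1)) _
    (hV.mem_nhds ⟨hy1, hy2⟩)
  exact ⟨z, hz1, hz2⟩

/-- near a point of a region there are points of the open region -/
theorem near_open {fs : List (ℂ → ℝ)} (hf : ∀ f ∈ fs, Aff f) (nf : (PolyO fs).Nonempty) {w : ℂ}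
    (hw : w ∈ Poly fs) {Q : ℂ → Prop} (hQ : ∀ᶠ z in 𝓝 w, Q z) : ∃ z, z ∈ PolyO fs ∧ Q z := by
  obtain ⟨y, hy1, hy2⟩ := mem_closure_iff_nhds.mp (Poly_subset_closure hf nf hw) _ hQ
  exact ⟨y, hy2, hy1⟩

/-- the point with given coordinates -/
noncomputable def pt (A B : ℂ) (t h : ℝ) : ℂ := A + ((t : ℂ) + h * I) * (B - A) / ‖B - A‖

theorem cx_pt {A B : ℂ} (hAB : A ≠ B) (t h : ℝ) : cx A B (pt A B t h) = t := by
  have hn : 0 < ‖B - A‖ := norm_pos_iff.mpr (sub_ne_zero.mpr hAB.symm)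
  have hsq := norm_sq_eq (B - A)
  simp only [sub_re, sub_im] at hsq
  have e : pt A B t h - A = ((‖B - A‖⁻¹ : ℝ) : ℂ) * (((t : ℂ) + h * I) * (B - A)) := by
    unfold pt; push_cast; field_simp; ring
  unfold cx
  rw [e]
  simp only [dt, mul_re, mul_im, add_re, add_im, ofReal_re, ofReal_im, I_re, I_im, sub_re, sub_im]
  field_simp
  rw [hsq]; ring

theorem cy_pt {A B : ℂ} (hAB : A ≠ B) (t h : ℝ) : cy A B (pt A B t h) = h := by
  have hn : 0 < ‖B - A‖ := norm_pos_iff.mpr (sub_ne_zero.mpr hAB.symm)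
  have hsq := norm_sq_eq (B - A)
  simp only [sub_re, sub_im] at hsq
  have e : pt A B t h - A = ((‖B - A‖⁻¹ : ℝ) : ℂ) * (((t : ℂ) + h * I) * (B - A)) := by
    unfold pt; push_cast; field_simp; ring
  unfold cy ori cr
  rw [e]
  simp only [mul_re, mul_im, add_re, add_im, ofReal_re, ofReal_im, I_re, I_im, sub_re, sub_im]
  field_simp
  rw [hsq]; ring

/-- moving into a half plane while keeping finitely many strict conditions -/
theorem move_in {f : ℂ → ℝ} (hf : Aff f) {fs : List (ℂ → ℝ)} (hfs : ∀ g ∈ fs, Aff g) {w w1 : ℂ}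
    (hw : f w = 0) (hw1 : 0 < f w1) (hs : w ∈ PolyO fs) : (PolyO (f :: fs)).Nonempty := by
  have hcont : ContinuousAt (fun t : ℝ => (1 - t) • w + t • w1) 0 := by fun_prop
  have h0 : PolyO fs ∈ 𝓝 ((1 - (0:ℝ)) • w + (0:ℝ) • w1) := by
    simpa using (PolyO_open hfs).mem_nhds hs
  have h1 : ∀ᶠ t : ℝ in 𝓝 0, (1 - t) • w + t • w1 ∈ PolyO fs := hcont h0
  have h2 : ∀ᶠ t : ℝ in 𝓝[>] 0, (1 - t) • w + t • w1 ∈ PolyO fs := nhdsWithin_le_nhds h1
  obtain ⟨t, h4, h6⟩ := (h2.and self_mem_nhdsWithin).exists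
  have h6' : 0 < t := h6
  refine ⟨(1 - t) • w + t • w1, ?_⟩
  intro g hg
  rw [List.mem_cons] at hg
  rcases hg with rfl | hg
  · rw [hf.lin w w1 (by ring), hw]
    have := mul_pos h6' hw1
    linarith
  · exact h4 g hg

/-! ### dense complements -/

theorem dense_compl_segment (a b : ℂ) : Dense (segment ℝ a b)ᶜ := by
  intro z
  by_cases hz : z ∈ segment ℝ a b
  swap
  · exact subset_closure hz
  rw [mem_closure_iff_nhds]
  intro U hU
  by_cases hab : a = b
  · subst hab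
    rw [segment_same, Set.mem_singleton_iff] at hz
    subst hz
    have hcont : ContinuousAt (fun t : ℝ => z + (t : ℂ)) 0 := by fun_prop
    have h0 : U ∈ 𝓝 (z + ((0 : ℝ) : ℂ)) := by simpa using hU
    have h1 : ∀ᶠ t : ℝ in 𝓝 0, z + (t : ℂ) ∈ U := hcont h0
    have h2 : ∀ᶠ t : ℝ in 𝓝[>] 0, z + (t : ℂ) ∈ U := nhdsWithin_le_nhds h1
    obtain ⟨t, h4, h6⟩ := (h2.and self_mem_nhdsWithin).exists
    have h6' : 0 < t := h6
    refine ⟨_, h4, ?_⟩
    rw [segment_same]
    intro h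
    simp at h
    exact h6'.ne' h
  · have hcont : ContinuousAt (fun t : ℝ => z + (t : ℂ) * (I * (b - a))) 0 := by fun_prop
    have h0 : U ∈ 𝓝 (z + ((0 : ℝ) : ℂ) * (I * (b - a))) := by simpa using hU
    have h1 : ∀ᶠ t : ℝ in 𝓝 0, z + (t : ℂ) * (I * (b - a)) ∈ U := hcont h0
    have h2 : ∀ᶠ t : ℝ in 𝓝[>] 0, z + (t : ℂ) * (I * (b - a)) ∈ U := nhdsWithin_le_nhds h1
    obtain ⟨t, h4, h6⟩ := (h2.and self_mem_nhdsWithin).exists
    have h6' : 0 < t := h6
    refine ⟨_, h4, ?_⟩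
    have line : ∀ p ∈ segment ℝ a b, ori a b p = 0 := by
      rintro p ⟨s, t, hs, ht, hst, rfl⟩
      rw [ori_lin _ _ _ _ _ _ hst, ori_self_left, ori_self_right]; simp
    intro h
    have e1 := line _ h
    have e2 : ori a b (z + (t : ℂ) * (I * (b - a))) = ori a b z + t * normSq (b - a) := by
      simp only [ori_def, normSq_apply, add_re, add_im, mul_re, mul_im, ofReal_re, ofReal_im,
        I_re, I_im, sub_re, sub_im]
      ring
    rw [e2, line z hz, zero_add] at e1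
    have := mul_pos h6' (normSq_pos.mpr (sub_ne_zero.mpr (Ne.symm hab)))
    linarith

theorem dense_compl_support (E : List (ℂ × ℂ)) : Dense (support E)ᶜ := by
  induction E with
  | nil =>
    have : support [] = (∅ : Set ℂ) := by simp [support]
    rw [this, Set.compl_empty]
    exact dense_univ
  | cons e E ih =>
    rw [support_cons, Set.compl_union]
    exact (dense_compl_segment _ _).inter_of_isOpen_left ih (segment_closed _ _).isOpen_compl

end Pool.Agent.Lib.FoldCut
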