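import Pool.Agent.Lib.MP_12ced6_co.Tree
import Pool.Agent.Lib.MP_12ced6_co.WindTri

/-!
# Winding sums of a triangulation
-/

namespace Pool.Agent.Lib.FoldCut

open Complex Real Topology

namespace Tr

/-- the sum of the winding sums of the triangles -/
noncomputable def wn (p : ℂ) (q : ℕ → ℂ) : Tr → ℕ → ℝ
  | leaf, _ => 0
  | node l r, a => wsum p [q a, q (a + l.size), q (a + l.size + r.size)] + l.wn p q a +
      r.wn p q (a + l.size)

theorem wn_eq (p : ℂ) (q : ℕ → ℂ) : ∀ (t : Tr) (a : ℕ),
    (∀ x y, (x, y) ∈ t.E a → p ∉ segment ℝ (q x) (q y)) →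
    t.wn p q a = ∑ i ∈ Finset.range t.size, ang p (q (a + i)) (q (a + i + 1)) +
      ang p (q (a + t.size)) (q a)
  | leaf, a, h => by
    have h1 : p ∉ segment ℝ (q a) (q (a + 1)) := h a (a + 1) (by simp [E])
    simp only [wn, size, Finset.range_one, Finset.sum_singleton, Nat.add_zero]
    rw [ang_swap h1]; ring
  | node l r, a, h => by
    have h1 : p ∉ segment ℝ (q a) (q (a + l.size)) :=
      h _ _ (Or.inl (Or.inr (root_mem l a)))
    have h2 : p ∉ segment ℝ (q (a + l.size)) (q (a + l.size + r.size)) :=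
      h _ _ (Or.inr (root_mem r (a + l.size)))
    have ihl := wn_eq p q l a fun x y hxy => h x y (Or.inl (Or.inr hxy))
    have ihr := wn_eq p q r (a + l.size) fun x y hxy => h x y (Or.inr hxy)
    simp only [wn, size]
    rw [ihl, ihr, wsum_three, Finset.sum_range_add, ang_swap h1, ang_swap h2]
    have e : ∀ x, a + (l.size + x) = a + l.size + x := fun x => by omega
    simp only [e]
    ring

theorem wn_nonneg (p : ℂ) (q : ℕ → ℂ) : ∀ (t : Tr) (a : ℕ),
    t.All a (fun x z y => 0 ≤ wsum p [q x, q z, q y]) → 0 ≤ t.wn p q a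
  | leaf, a, h => le_rfl
  | node l r, a, h => by
    have h1 := wn_nonneg p q l a h.2.1
    have h2 := wn_nonneg p q r _ h.2.2
    have h3 := h.1
    simp only [wn]
    linarith

theorem le_wn (p : ℂ) (q : ℕ → ℂ) : ∀ (t : Tr) (a : ℕ),
    t.All a (fun x z y => 0 ≤ wsum p [q x, q z, q y]) → ∀ {x y : ℕ}, (x, y) ∈ t.E a →
    x + 1 < y → wsum p [q x, q (t.mid a x y), q y] ≤ t.wn p q a
  | leaf, a, h, x, y, hxy, h1 => by
    simp only [E, Set.mem_singleton_iff, Prod.mk.injEq] at hxy
    omega
  | node l r, a, h, x, y, hxy, h1 => by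
    have hl := size_pos l
    have hr := size_pos r
    have n1 := wn_nonneg p q l a h.2.1
    have n2 := wn_nonneg p q r _ h.2.2
    have n3 := h.1
    by_cases h0 : x = a ∧ y = a + l.size + r.size
    · obtain ⟨rfl, rfl⟩ := h0
      simp only [mid, and_self, if_true, wn]
      linarith
    · simp only [mid, if_neg h0, wn]
      rcases hxy with (hxy | hxy) | hxy
      · simp only [Set.mem_singleton_iff, Prod.mk.injEq] at hxy
        exact absurd hxy h0
      · have hb := E_lt _ _ hxy
        rw [if_pos hb.2.2]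
        have := le_wn p q l a h.2.1 hxy h1
        linarith
      · have hb := E_lt _ _ hxy
        rw [if_neg (by omega)]
        have := le_wn p q r _ h.2.2 hxy h1
        linarith

theorem two_le_wn (p : ℂ) (q : ℕ → ℂ) : ∀ (t : Tr) (a : ℕ),
    t.All a (fun x z y => 0 ≤ wsum p [q x, q z, q y]) → ∀ {x y x' y' : ℕ}, (x, y) ∈ t.E a →
    x + 1 < y → (x', y') ∈ t.E a → x' + 1 < y' → ¬ (x = x' ∧ y = y') →
    wsum p [q x, q (t.mid a x y), q y] + wsum p [q x', q (t.mid a x' y'), q y'] ≤ t.wn p q a
  | leaf, a, h, x, y, x', y', hxy, h1, hxy', h1', hne => by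
    simp only [E, Set.mem_singleton_iff, Prod.mk.injEq] at hxy
    omega
  | node l r, a, h, x, y, x', y', hxy, h1, hxy', h1', hne => by
    have hl := size_pos l
    have hr := size_pos r
    have n1 := wn_nonneg p q l a h.2.1
    have n2 := wn_nonneg p q r _ h.2.2
    have n3 := h.1
    -- values of `mid`
    have c1 : ∀ {x y : ℕ}, (x, y) ∈ l.E a → ¬ (x = a ∧ y = a + l.size + r.size) ∧
        (node l r).mid a x y = l.mid a x y := by
      intro x y hxy
      have hb := E_lt _ _ hxy
      refine ⟨by omega, ?_⟩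
      simp only [mid]
      rw [if_neg (by omega), if_pos (by omega)]
    have c2 : ∀ {x y : ℕ}, (x, y) ∈ r.E (a + l.size) → ¬ (x = a ∧ y = a + l.size + r.size) ∧
        (node l r).mid a x y = r.mid (a + l.size) x y := by
      intro x y hxy
      have hb := E_lt _ _ hxy
      refine ⟨by omega, ?_⟩
      simp only [mid]
      rw [if_neg (by omega), if_neg (by omega)]
    have c0 : (node l r).mid a a (a + l.size + r.size) = a + l.size := by simp [mid]
    simp only [wn]
    rcases hxy with (hxy | hxy) | hxy <;> rcases hxy' with (hxy' | hxy') | hxy'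
    · simp only [Set.mem_singleton_iff, Prod.mk.injEq] at hxy hxy'
      omega
    · simp only [Set.mem_singleton_iff, Prod.mk.injEq] at hxy
      obtain ⟨rfl, rfl⟩ := hxy
      rw [c0, (c1 hxy').2]
      have := le_wn p q l x h.2.1 hxy' h1'
      linarith
    · simp only [Set.mem_singleton_iff, Prod.mk.injEq] at hxy
      obtain ⟨rfl, rfl⟩ := hxy
      rw [c0, (c2 hxy').2]
      have := le_wn p q r _ h.2.2 hxy' h1'
      linarith
    · simp only [Set.mem_singleton_iff, Prod.mk.injEq] at hxy'
      obtain ⟨rfl, rfl⟩ := hxy'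
      rw [c0, (c1 hxy).2]
      have := le_wn p q l x' h.2.1 hxy h1
      linarith
    · rw [(c1 hxy).2, (c1 hxy').2]
      have := two_le_wn p q l a h.2.1 hxy h1 hxy' h1' hne
      linarith
    · rw [(c1 hxy).2, (c2 hxy').2]
      have := le_wn p q l a h.2.1 hxy h1
      have := le_wn p q r _ h.2.2 hxy' h1'
      linarith
    · simp only [Set.mem_singleton_iff, Prod.mk.injEq] at hxy'
      obtain ⟨rfl, rfl⟩ := hxy'
      rw [c0, (c2 hxy).2]
      have := le_wn p q r _ h.2.2 hxy h1
      linarith
    · rw [(c2 hxy).2, (c1 hxy').2]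
      have := le_wn p q r _ h.2.2 hxy h1
      have := le_wn p q l a h.2.1 hxy' h1'
      linarith
    · rw [(c2 hxy).2, (c2 hxy').2]
      have := two_le_wn p q r _ h.2.2 hxy h1 hxy' h1' hne
      linarith

theorem exists_of_wn (p : ℂ) (q : ℕ → ℂ) : ∀ (t : Tr) (a : ℕ), 0 < t.wn p q a →
    ∃ x y, (x, y) ∈ t.E a ∧ x + 1 < y ∧ 0 < wsum p [q x, q (t.mid a x y), q y]
  | leaf, a, h => by simp [wn] at h
  | node l r, a, h => by
    have hl := size_pos l
    have hr := size_pos r
    simp only [wn] at h
    by_cases h1 : 0 < l.wn p q a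
    · obtain ⟨x, y, h2, h3, h4⟩ := exists_of_wn p q l a h1
      have hb := E_lt _ _ h2
      refine ⟨x, y, Or.inl (Or.inr h2), h3, ?_⟩
      simp only [mid]
      rwa [if_neg (by omega), if_pos (by omega)]
    · by_cases h2 : 0 < r.wn p q (a + l.size)
      · obtain ⟨x, y, h2, h3, h4⟩ := exists_of_wn p q r _ h2
        have hb := E_lt _ _ h2
        refine ⟨x, y, Or.inr h2, h3, ?_⟩
        simp only [mid]
        rwa [if_neg (by omega), if_neg (by omega)]
      · refine ⟨a, a + l.size + r.size, Or.inl (Or.inl rfl), by omega, ?_⟩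
        have : (node l r).mid a a (a + l.size + r.size) = a + l.size := by simp [mid]
        rw [this]
        linarith

end Tr

end Pool.Agent.Lib.FoldCut
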