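import Pool.Agent.Lib.MP_12ced6_co.Setup
import Pool.Agent.Lib.MP_12ced6_co.Poly
import Pool.Agent.Lib.MP_12ced6_co.Comb
import Pool.Agent.Lib.MP_12ced6_co.TreeSum

/-!
# The ribbon between the outer and the inner polygon
-/

namespace Pool.Agent.Lib.FoldCut

open Complex Real Topology

namespace Setup

variable (S : Setup)

/-- length of the edge `j` of the inner polygon -/
noncomputable def ell (j : ℕ) : ℝ := ‖S.q (j + 1) - S.q j‖

theorem q_mod (j : ℕ) : S.q (j % (S.t.size + 1)) = S.q j :=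
  Function.Periodic.map_mod_nat (f := S.q) (fun j => S.perq j) j

theorem V_mod (j : ℕ) : S.V (j % (S.t.size + 1)) = S.V j :=
  Function.Periodic.map_mod_nat (f := S.V) (fun j => S.perV j) j

theorem μ_mod (j : ℕ) : S.μ (j % (S.t.size + 1)) = S.μ j :=
  Function.Periodic.map_mod_nat (f := S.μ) (fun j => S.perμ j) j

theorem q_mod' (j : ℕ) : S.q (j % (S.t.size + 1) + 1) = S.q (j + 1) := by
  rw [← S.q_mod (j % (S.t.size + 1) + 1), ← S.q_mod (j + 1), Nat.mod_add_mod]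

theorem μ_mod' (j : ℕ) : S.μ (j % (S.t.size + 1) + 1) = S.μ (j + 1) := by
  rw [← S.μ_mod (j % (S.t.size + 1) + 1), ← S.μ_mod (j + 1), Nat.mod_add_mod]

theorem ell_mod (j : ℕ) : S.ell (j % (S.t.size + 1)) = S.ell j := by
  unfold ell; rw [S.q_mod', S.q_mod]

theorem ell_pos (j : ℕ) : 0 < S.ell j := norm_pos_iff.mpr (sub_ne_zero.mpr (S.q_ne j).symm)

theorem μ0_pos : 0 < S.μ0 := lt_of_le_of_lt (mul_nonneg S.d_pos.le (abs_nonneg (S.μ 0))) (S.bound 0)

theorem ln_gt {x y : ℕ} (h : (x, y) ∈ S.t.E 0) : 2 * S.μ0 < ln S.q x y := by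
  by_cases hr : x = 0 ∧ y = 0 + S.t.size
  · obtain ⟨rfl, rfl⟩ := hr
    simpa using S.root
  · obtain ⟨p, r, h1, h2, h3⟩ := S.t.E_par 0 h hr
    obtain ⟨k1, k2, k3⟩ := Tr.All.apply S.t 0 S.tan h1 h2
    set z := S.t.mid 0 p r
    rcases h3 with ⟨rfl, h3⟩ | ⟨h3, rfl⟩
    · rw [h3, ← ta_add S.q x z r]
      linarith
    · rw [h3, ← ta_add S.q z y p, ta_comm S.q z y p, ta_comm S.q y z p]
      linarith

theorem ell_gt (j : ℕ) : 2 * S.μ0 < S.ell j := by
  rw [← S.ell_mod j]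
  have hj : j % (S.t.size + 1) < S.t.size + 1 := Nat.mod_lt _ (by omega)
  set i := j % (S.t.size + 1)
  rcases (Nat.lt_succ_iff.mp hj).lt_or_eq with h | h
  · exact S.ln_gt (S.t.leaf_mem 0 (by omega) (by omega))
  · have h1 := S.root
    have : S.ell i = ln S.q 0 S.t.size := by
      unfold ell ln
      have : S.q (i + 1) = S.q 0 := by
        rw [h]
        have := S.perq 0
        rwa [Nat.zero_add] at this
      rw [this, h, norm_sub_rev]
    rw [this]; exact h1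

theorem conj_τ (j : ℕ) : (starRingEnd ℂ) (S.τ j) * S.τ j = 1 := by
  rw [mul_comm, mul_conj, normSq_eq_norm_sq, S.norm_τ]; simp

theorem cx_eq (j : ℕ) (w : ℂ) :
    cx (S.q j) (S.q (j + 1)) w = ((starRingEnd ℂ) (S.τ j) * (w - S.q j)).re := by
  have h := S.q_step j
  have hl := S.ell_pos j
  unfold ell at hl
  unfold cx
  rw [div_eq_iff hl.ne']
  set r : ℝ := ‖S.q (j + 1) - S.q j‖
  rw [h]
  simp only [dt, mul_re, mul_im, ofReal_re, ofReal_im, conj_re, conj_im]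
  ring

theorem cy_eq (j : ℕ) (w : ℂ) :
    cy (S.q j) (S.q (j + 1)) w = ((starRingEnd ℂ) (S.τ j) * (w - S.q j)).im := by
  have h := S.q_step j
  have hl := S.ell_pos j
  unfold ell at hl
  unfold cy ori cr
  rw [div_eq_iff hl.ne']
  set r : ℝ := ‖S.q (j + 1) - S.q j‖
  rw [h]
  simp only [mul_re, mul_im, ofReal_re, ofReal_im, conj_re, conj_im]
  ring

/-- coordinates on the two sides of a mitre -/
theorem mitre (j : ℕ) (w : ℂ) :
    cx (S.q (j + 1)) (S.q (j + 2)) w - S.μ (j + 1) * cy (S.q (j + 1)) (S.q (j + 2)) w =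
      (cx (S.q j) (S.q (j + 1)) w - S.ell j) + S.μ (j + 1) * cy (S.q j) (S.q (j + 1)) w ∧
    S.μ (j + 1) * cx (S.q (j + 1)) (S.q (j + 2)) w + cy (S.q (j + 1)) (S.q (j + 2)) w =
      cy (S.q j) (S.q (j + 1)) w - S.μ (j + 1) * (cx (S.q j) (S.q (j + 1)) w - S.ell j) := by
  rw [S.cx_eq, S.cy_eq, S.cx_eq, S.cy_eq]
  set z' := (starRingEnd ℂ) (S.τ (j + 1)) * (w - S.q (j + 1)) with hz'
  set z := (starRingEnd ℂ) (S.τ j) * (w - S.q j) with hz
  have e1 := congrArg (starRingEnd ℂ) (S.M_left (j + 1))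
  have e2 := congrArg (starRingEnd ℂ) (S.M_right j)
  rw [e1] at e2
  simp only [map_mul, map_add, map_neg, conj_ofReal, conj_I] at e2
  have e3 : (starRingEnd ℂ) (S.τ j) * (S.q (j + 1) - S.q j) = (S.ell j : ℂ) := by
    have h9 : S.q (j + 1) - S.q j = (S.ell j : ℂ) * S.τ j := S.q_step j
    rw [h9]
    calc (starRingEnd ℂ) (S.τ j) * ((S.ell j : ℂ) * S.τ j)
        = (S.ell j : ℂ) * ((starRingEnd ℂ) (S.τ j) * S.τ j) := by ring
      _ = _ := by rw [S.conj_τ]; ring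
  have e4 : z - S.ell j = (starRingEnd ℂ) (S.τ j) * (w - S.q (j + 1)) := by
    rw [hz, ← e3]; ring
  have e5 : ((S.μ (j + 1) : ℂ) + -I) * z' = (-(S.μ (j + 1) : ℂ) + -I) * (z - S.ell j) := by
    rw [e4, hz']
    linear_combination (w - S.q (j + 1)) * e2
  have r1 := congrArg Complex.re e5
  have r2 := congrArg Complex.im e5
  simp only [mul_re, mul_im, add_re, add_im, neg_re, neg_im, ofReal_re, ofReal_im, I_re, I_im,
    sub_re, sub_im] at r1 r2
  constructor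
  · linarith
  · linarith

theorem V_eq (j : ℕ) : S.V j = S.q j - (S.d : ℂ) * S.M j := by
  rw [S.q_eq j]; ring

/-- length of the edge `j` of the outer polygon -/
theorem len_V (j : ℕ) :
    ‖S.V (j + 1) - S.V j‖ = S.ell j + S.d * (S.μ j + S.μ (j + 1)) := by
  have e1 : S.V (j + 1) - S.V j = ((S.ell j + S.d * (S.μ j + S.μ (j + 1)) : ℝ) : ℂ) * S.τ j := by
    rw [S.V_eq, S.V_eq, S.M_left j, S.M_right j]
    have h9 : S.q (j + 1) - S.q j = (S.ell j : ℂ) * S.τ j := S.q_step j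
    push_cast
    linear_combination h9
  have e2 := S.V_step j
  rw [e1] at e2
  have hne : S.τ j ≠ 0 := by
    intro h
    have := S.norm_τ j
    rw [h] at this; simp at this
  have e3 := mul_right_cancel₀ hne e2
  have e4 := ofReal_injective e3
  rw [e1]
  exact e4.symm

theorem len_V_pos (j : ℕ) : 0 < S.ell j + S.d * (S.μ j + S.μ (j + 1)) := by
  have h1 := S.ell_gt j
  have h2 := S.bound j
  have h3 := S.bound (j + 1)
  have h4 := mul_le_mul_of_nonneg_left (neg_abs_le (S.μ j)) S.d_pos.le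
  have h5 := mul_le_mul_of_nonneg_left (neg_abs_le (S.μ (j + 1))) S.d_pos.le
  linarith [mul_add S.d (S.μ j) (S.μ (j + 1))]

theorem V_ne (j : ℕ) : S.V j ≠ S.V (j + 1) := by
  intro h
  have h1 := S.len_V j
  have h2 := S.len_V_pos j
  rw [← h1, h] at h2
  simp at h2

theorem ori_VV (j : ℕ) (w : ℂ) : ori (S.V j) (S.V (j + 1)) w =
    (S.ell j + S.d * (S.μ j + S.μ (j + 1))) * (S.d + cy (S.q j) (S.q (j + 1)) w) := by
  rw [S.cy_eq]
  have h1 := S.V_step j
  rw [S.len_V j] at h1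
  have h2 : w - S.V j = (w - S.q j) + (S.d : ℂ) * (((S.μ j : ℂ) + I) * S.τ j) := by
    rw [S.V_eq, S.M_left]; ring
  have h3 := S.conj_τ j
  have h3r := congrArg Complex.re h3
  simp only [mul_re, conj_re, conj_im, one_re] at h3r
  unfold ori cr
  rw [h1, h2]
  simp only [mul_re, mul_im, add_re, add_im, ofReal_re, ofReal_im, I_re, I_im, conj_re, conj_im]
  linear_combination (S.ell j + S.d * (S.μ j + S.μ (j + 1))) * S.d * h3r

theorem ori_qV (j : ℕ) (w : ℂ) : ori (S.q j) (S.V j) w =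
    S.d * (cx (S.q j) (S.q (j + 1)) w - S.μ j * cy (S.q j) (S.q (j + 1)) w) := by
  rw [S.cy_eq, S.cx_eq]
  have h2 : S.V j - S.q j = - ((S.d : ℂ) * (((S.μ j : ℂ) + I) * S.τ j)) := by
    rw [S.V_eq, S.M_left]; ring
  unfold ori cr
  rw [h2]
  simp only [mul_re, mul_im, add_re, add_im, neg_re, neg_im, ofReal_re, ofReal_im, I_re, I_im,
    conj_re, conj_im]
  ring

theorem ori_Vq (j : ℕ) (w : ℂ) : ori (S.V (j + 1)) (S.q (j + 1)) w =
    S.d * (S.ell j - cx (S.q j) (S.q (j + 1)) w - S.μ (j + 1) * cy (S.q j) (S.q (j + 1)) w) := by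
  have h1 := S.ori_qV (j + 1) w
  rw [ori_swap, h1]
  have h2 := (S.mitre j w).1
  rw [show j + 1 + 1 = j + 2 from rfl, h2]; ring

theorem ori_qq (j : ℕ) (w : ℂ) : ori (S.q (j + 1)) (S.q j) w =
    S.ell j * (- cy (S.q j) (S.q (j + 1)) w) := by
  have hl := (S.ell_pos j).ne'
  unfold ell at hl ⊢
  rw [ori_swap]
  unfold cy
  field_simp

/-- the first ribbon triangle -/
theorem ori_tri1 (j : ℕ) : 0 < ori (S.V j) (S.V (j + 1)) (S.q (j + 1)) := by
  rw [S.ori_VV, cy_right, add_zero]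
  exact mul_pos (S.len_V_pos j) S.d_pos

theorem cy_V (j : ℕ) : cy (S.q j) (S.q (j + 1)) (S.V j) = - S.d := by
  have h1 := S.ori_VV j (S.V j)
  rw [ori_self_left] at h1
  have h2 := (mul_eq_zero.mp h1.symm).resolve_left (S.len_V_pos j).ne'
  linarith

theorem cy_V' (j : ℕ) : cy (S.q j) (S.q (j + 1)) (S.V (j + 1)) = - S.d := by
  have h1 := S.ori_VV j (S.V (j + 1))
  rw [ori_self_right] at h1
  have h2 := (mul_eq_zero.mp h1.symm).resolve_left (S.len_V_pos j).ne'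
  linarith

theorem cx_V (j : ℕ) : cx (S.q j) (S.q (j + 1)) (S.V j) = - S.d * S.μ j := by
  have h1 := S.ori_qV j (S.V j)
  rw [ori_self_right, S.cy_V] at h1
  have h2 := (mul_eq_zero.mp h1.symm).resolve_left S.d_pos.ne'
  linarith

theorem cx_V' (j : ℕ) : cx (S.q j) (S.q (j + 1)) (S.V (j + 1)) = S.ell j + S.d * S.μ (j + 1) := by
  have h1 := S.ori_Vq j (S.V (j + 1))
  rw [ori_self_left, S.cy_V'] at h1
  have h2 := (mul_eq_zero.mp h1.symm).resolve_left S.d_pos.ne'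
  linarith

/-- the second ribbon triangle -/
theorem ori_tri2 (j : ℕ) : 0 < ori (S.V j) (S.q (j + 1)) (S.q j) := by
  rw [ori_cyc, S.ori_qq, S.cy_V, neg_neg]
  exact mul_pos (S.ell_pos j) S.d_pos

/-- the ribbon along the edge `j` -/
noncomputable def wL (j : ℕ) : List (ℂ → ℝ) :=
  [fun w => - cy (S.q j) (S.q (j + 1)) w, fun w => S.d + cy (S.q j) (S.q (j + 1)) w,
    fun w => cx (S.q j) (S.q (j + 1)) w - S.μ j * cy (S.q j) (S.q (j + 1)) w,
    fun w => S.ell j - cx (S.q j) (S.q (j + 1)) w - S.μ (j + 1) * cy (S.q j) (S.q (j + 1)) w]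

theorem wL_aff (j : ℕ) : ∀ f ∈ S.wL j, Aff f := by
  have hx := aff_cx (S.q j) (S.q (j + 1))
  have hy := aff_cy (S.q j) (S.q (j + 1))
  intro f hf
  simp only [wL, List.mem_cons, List.not_mem_nil, or_false] at hf
  rcases hf with rfl | rfl | rfl | rfl
  · exact hy.neg
  · exact (Aff.const _).add hy
  · exact hx.sub (hy.smul _)
  · exact ((Aff.const _).sub hx).sub (hy.smul _)

theorem mem_wL {j : ℕ} {w : ℂ} : w ∈ Poly (S.wL j) ↔
    0 ≤ - cy (S.q j) (S.q (j + 1)) w ∧ 0 ≤ S.d + cy (S.q j) (S.q (j + 1)) w ∧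
    0 ≤ cx (S.q j) (S.q (j + 1)) w - S.μ j * cy (S.q j) (S.q (j + 1)) w ∧
    0 ≤ S.ell j - cx (S.q j) (S.q (j + 1)) w - S.μ (j + 1) * cy (S.q j) (S.q (j + 1)) w := by
  simp [Poly, wL]

theorem mem_wLO {j : ℕ} {w : ℂ} : w ∈ PolyO (S.wL j) ↔
    0 < - cy (S.q j) (S.q (j + 1)) w ∧ 0 < S.d + cy (S.q j) (S.q (j + 1)) w ∧
    0 < cx (S.q j) (S.q (j + 1)) w - S.μ j * cy (S.q j) (S.q (j + 1)) w ∧
    0 < S.ell j - cx (S.q j) (S.q (j + 1)) w - S.μ (j + 1) * cy (S.q j) (S.q (j + 1)) w := by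
  simp [PolyO, wL]

theorem wL_mod (j : ℕ) : S.wL (j % (S.t.size + 1)) = S.wL j := by
  unfold wL; rw [S.q_mod', S.q_mod, S.μ_mod, S.μ_mod', S.ell_mod]

end Setup

/-- a convex set containing the corners contains the triangle -/
theorem triO_subset_of_convex {a b c : ℂ} {K : Set ℂ} (hK : Convex ℝ K) (ha : a ∈ K) (hb : b ∈ K)
    (hc : c ∈ K) : triO a b c ⊆ K := by
  rintro p ⟨h1, h2, h3⟩
  have h4 := bary a b c p
  have h5 := ori_add a b c p
  have h6 : 0 < ori a b c := by linarith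
  have h7 : p = (ori b c p / ori a b c) • a + (ori c a p / ori a b c) • b +
      (ori a b p / ori a b c) • c := by
    calc p = (ori a b c)⁻¹ • (ori a b c • p) := by
          rw [smul_smul, inv_mul_cancel₀ h6.ne', one_smul]
      _ = _ := by
          rw [h4, smul_add, smul_add, smul_smul, smul_smul, smul_smul]
          simp only [div_eq_inv_mul]
  rw [h7]
  have := hK.sum_mem (t := Finset.univ) (w := ![ori b c p / ori a b c, ori c a p / ori a b c,
    ori a b p / ori a b c]) (z := ![a, b, c]) ?_ ?_ ?_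
  · simpa [Fin.sum_univ_three] using this
  · intro i _
    fin_cases i <;> simp <;> positivity
  · simp only [Fin.sum_univ_three, Matrix.cons_val_zero, Matrix.cons_val_one, Matrix.cons_val]
    field_simp; linarith
  · intro i _
    fin_cases i <;> simp [ha, hb, hc]

namespace Setup

variable (S : Setup)

theorem V_mem_wL (j : ℕ) : S.V j ∈ Poly (S.wL j) := by
  have h2 := S.len_V_pos j
  rw [S.mem_wL, S.cy_V, S.cx_V]
  refine ⟨by linarith [S.d_pos], by linarith, by linarith, by linarith⟩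

theorem V_mem_wL' (j : ℕ) : S.V (j + 1) ∈ Poly (S.wL j) := by
  have h2 := S.len_V_pos j
  rw [S.mem_wL, S.cy_V', S.cx_V']
  refine ⟨by linarith [S.d_pos], by linarith, by linarith, by linarith⟩

theorem q_mem_wL (j : ℕ) : S.q j ∈ Poly (S.wL j) := by
  rw [S.mem_wL, cy_left, cx_left]
  refine ⟨by simp, by simpa using S.d_pos.le, by simp, by simpa using (S.ell_pos j).le⟩

theorem q_mem_wL' (j : ℕ) : S.q (j + 1) ∈ Poly (S.wL j) := by
  have h1 : cx (S.q j) (S.q (j + 1)) (S.q (j + 1)) = S.ell j := cx_right (S.q_ne j)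
  rw [S.mem_wL, cy_right, h1]
  refine ⟨by simp, by simpa using S.d_pos.le, by simpa using (S.ell_pos j).le, by simp⟩

/-- the ribbon is covered by its two triangles -/
theorem wL_sub {j : ℕ} {p : ℂ} (hp : p ∈ Poly (S.wL j))
    (h1 : p ∉ curve [S.V j, S.V (j + 1), S.q (j + 1)]) (h2 : p ∉ curve [S.V j, S.q (j + 1), S.q j]) :
    p ∈ triO (S.V j) (S.V (j + 1)) (S.q (j + 1)) ∨ p ∈ triO (S.V j) (S.q (j + 1)) (S.q j) := by
  rw [S.mem_wL] at hp
  obtain ⟨k1, k2, k3, k4⟩ := hp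
  have e1 := S.ori_VV j p
  have e2 := S.ori_qV j p
  have e3 := S.ori_Vq j p
  have e4 := S.ori_qq j p
  have hd := S.d_pos
  have n1 : 0 ≤ ori (S.V j) (S.V (j + 1)) p := by
    rw [e1]; exact mul_nonneg (S.len_V_pos j).le k2
  have n2 : 0 ≤ ori (S.q j) (S.V j) p := by rw [e2]; exact mul_nonneg hd.le k3
  have n3 : 0 ≤ ori (S.V (j + 1)) (S.q (j + 1)) p := by rw [e3]; exact mul_nonneg hd.le k4
  have n4 : 0 ≤ ori (S.q (j + 1)) (S.q j) p := by rw [e4]; exact mul_nonneg (S.ell_pos j).le k1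
  rcases le_total 0 (ori (S.q (j + 1)) (S.V j) p) with h | h
  · exact Or.inl (mem_triO_of_triC (S.ori_tri1 j) ⟨n1, n3, h⟩ h1)
  · have h' : 0 ≤ ori (S.V j) (S.q (j + 1)) p := by rw [ori_swap]; linarith
    exact Or.inr (mem_triO_of_triC (S.ori_tri2 j) ⟨h', n4, n2⟩ h2)

theorem tri1_sub (j : ℕ) : triO (S.V j) (S.V (j + 1)) (S.q (j + 1)) ⊆ Poly (S.wL j) :=
  triO_subset_of_convex (Poly_convex (S.wL_aff j)) (S.V_mem_wL j) (S.V_mem_wL' j) (S.q_mem_wL' j)

theorem tri2_sub (j : ℕ) : triO (S.V j) (S.q (j + 1)) (S.q j) ⊆ Poly (S.wL j) :=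
  triO_subset_of_convex (Poly_convex (S.wL_aff j)) (S.V_mem_wL j) (S.q_mem_wL' j) (S.q_mem_wL j)

end Setup

end Pool.Agent.Lib.FoldCut
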