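import Pool.Agent.Lib.MP_12ced6_co.Frame
import Pool.Agent.Lib.MP_12ced6_co.FromPaper

/-!
# The outer and the inner polygon
-/

namespace Pool.Agent.Lib.FoldCut

open Complex Real Topology

/-- A simple polygon with vertices `V 0, …, V m`, where `m = t.size` (counterclockwise, indices
modulo `m + 1`), the parallel inner polygon `q 0, …, q m` at the small distance `d`, and a
triangulation `t` of the inner polygon.  `τ j` is the unit tangent of the edge from `V j` to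
`V (j+1)`, and `d * M j` leads from `V j` to `q j` along the bisector of the angle. -/
structure Setup where
  t : Tr
  two_le : 2 ≤ t.size
  V : ℕ → ℂ
  q : ℕ → ℂ
  M : ℕ → ℂ
  τ : ℕ → ℂ
  μ : ℕ → ℝ
  d : ℝ
  μ0 : ℝ
  perV : ∀ j, V (j + (t.size + 1)) = V j
  perq : ∀ j, q (j + (t.size + 1)) = q j
  perM : ∀ j, M (j + (t.size + 1)) = M j
  perτ : ∀ j, τ (j + (t.size + 1)) = τ j
  perμ : ∀ j, μ (j + (t.size + 1)) = μ j
  d_pos : 0 < d
  bound : ∀ j, d * |μ j| < μ0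
  norm_τ : ∀ j, ‖τ j‖ = 1
  M_left : ∀ j, M j = ((μ j : ℂ) + I) * τ j
  M_right : ∀ j, M (j + 1) = (-(μ (j + 1) : ℂ) + I) * τ j
  q_eq : ∀ j, q j = V j + (d : ℂ) * M j
  V_step : ∀ j, V (j + 1) - V j = (‖V (j + 1) - V j‖ : ℂ) * τ j
  q_step : ∀ j, q (j + 1) - q j = (‖q (j + 1) - q j‖ : ℂ) * τ j
  q_ne : ∀ j, q j ≠ q (j + 1)
  inj : ∀ i j, i ≤ t.size → j ≤ t.size → q i = q j → i = j
  pos : t.All 0 fun x z y => 0 < ori (q x) (q z) (q y)
  tan : t.All 0 fun x z y => μ0 < ta q x z y ∧ μ0 < ta q z x y ∧ μ0 < ta q y x z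
  root : 2 * μ0 < ln q 0 t.size
  simple : Simple ((List.range (t.size + 1)).map V)
  good : Good ((List.range (t.size + 1)).map V)

end Pool.Agent.Lib.FoldCut
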