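import Pool.Agent.Lib.MP_12ced6_co.WindTri

/-!
# Simple closed polygons as lists; triangulations; splitting along a diagonal
-/

namespace Pool.Agent.Lib.FoldCut

open Complex Real Topology

/-- the closed polygon with vertex list `L` is simple -/
structure Simple (L : List ℂ) : Prop where
  nodup : L.Nodup
  vert : ∀ v ∈ L, ∀ e ∈ cyc L, v ∉ openSegment ℝ e.1 e.2
  disj : (cyc L).Pairwise fun e e' => Disjoint (openSegment ℝ e.1 e.2) (openSegment ℝ e'.1 e'.2)

/-- the polygon with vertex list `L` is triangulated by positively oriented triangles; the edge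
joining the ends of the list is the root -/
inductive TriOK : List ℂ → Prop
  | edge (a b : ℂ) : TriOK [a, b]
  | node (a c b : ℂ) (L R : List ℂ) : TriOK (a :: (L ++ [c])) → TriOK (c :: (R ++ [b])) →
      0 < ori a c b → TriOK (a :: (L ++ c :: (R ++ [b])))

/-- good polygons: triangulated, with winding numbers `0` and `1` and connected inside -/
structure Good (L : List ℂ) : Prop where
  tri : TriOK L
  w : ∀ p, p ∉ curve L → wsum p L = 0 ∨ wsum p L = 2 * π
  conn : IsPreconnected {p | p ∉ curve L ∧ wsum p L = 2 * π}

/-! ### rotation -/

theorem cyc_rot (x : ℂ) (l : List ℂ) : (cyc (l ++ [x])).Perm (cyc (x :: l)) := by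
  cases l with
  | nil => simp [cyc]
  | cons y l =>
    have e1 : cyc ((y :: l) ++ [x]) = chain (y :: (l ++ [x])) ++ [(x, y)] := by
      simp only [cyc, List.cons_append]
      have : y :: (l ++ [x] ++ [y]) = (y :: l) ++ x :: [y] := by simp
      rw [this, chain_append]
      simp
    have e2 : cyc (x :: (y :: l)) = (x, y) :: chain (y :: (l ++ [x])) := by
      simp [cyc]
    rw [e1, e2]
    exact List.perm_append_comm

theorem curve_rot (x : ℂ) (l : List ℂ) : curve (l ++ [x]) = curve (x :: l) :=
  support_perm (cyc_rot x l)

theorem wsum_rot (p x : ℂ) (l : List ℂ) : wsum p (l ++ [x]) = wsum p (x :: l) :=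
  angSum_perm p (cyc_rot x l)

theorem disj_symm : ∀ {e e' : ℂ × ℂ}, Disjoint (openSegment ℝ e.1 e.2) (openSegment ℝ e'.1 e'.2) →
    Disjoint (openSegment ℝ e'.1 e'.2) (openSegment ℝ e.1 e.2) := fun h => h.symm

theorem simple_rot {x : ℂ} {l : List ℂ} (h : Simple (x :: l)) : Simple (l ++ [x]) := by
  have hp := cyc_rot x l
  refine ⟨?_, ?_, ?_⟩
  · have := h.nodup
    rw [List.nodup_cons] at this
    rw [List.nodup_append]
    refine ⟨this.2, by simp, ?_⟩
    intro a ha b hb
    simp at hb
    subst hb
    rintro rfl
    exact this.1 ha
  · intro v hv e he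
    exact h.vert v (by simp at hv ⊢; tauto) e (hp.mem_iff.mp he)
  · exact (hp.pairwise_iff disj_symm).mpr h.disj

/-! ### reversal -/

theorem chain_reverse : ∀ (L : List ℂ), chain L.reverse = ((chain L).map Prod.swap).reverse
  | [] => by simp
  | [a] => by simp
  | a :: b :: l => by
    have ih := chain_reverse (b :: l)
    have e : (a :: b :: l).reverse = l.reverse ++ b :: [a] := by simp
    have e2 : l.reverse ++ [b] = (b :: l).reverse := by simp
    rw [e, chain_append, e2, ih, chain_cons_cons (b := a)]
    simp

theorem cyc_reverse (L : List ℂ) : (cyc L.reverse).Perm ((cyc L).map Prod.swap) := by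
  cases L with
  | nil => simp [cyc]
  | cons a l =>
    have e1 : (a :: l).reverse = l.reverse ++ [a] := by simp
    rw [e1]
    refine (cyc_rot a l.reverse).trans ?_
    have e2 : cyc (a :: l.reverse) = chain ((a :: (l ++ [a])).reverse) := by
      simp [cyc]
    rw [e2, chain_reverse]
    exact List.reverse_perm _

theorem support_swap (E : List (ℂ × ℂ)) : support (E.map Prod.swap) = support E := by
  ext p
  simp only [mem_support, List.mem_map]
  constructor
  · rintro ⟨e, ⟨e', he', rfl⟩, h⟩
    exact ⟨e', he', by rw [segment_symm]; exact h⟩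
  · rintro ⟨e, he, h⟩
    exact ⟨e.swap, ⟨e, he, rfl⟩, by rw [segment_symm]; exact h⟩

theorem angSum_swap {p : ℂ} : ∀ {E : List (ℂ × ℂ)}, p ∉ support E →
    angSum p (E.map Prod.swap) = - angSum p E
  | [], _ => by simp
  | e :: E, h => by
    rw [support_cons, Set.mem_union, not_or] at h
    rw [List.map_cons, angSum_cons, angSum_cons, angSum_swap h.2]
    have := ang_swap h.1
    simp only [Prod.fst_swap, Prod.snd_swap]
    rw [this]; ring

theorem curve_reverse (L : List ℂ) : curve L.reverse = curve L := by
  rw [curve, support_perm (cyc_reverse L), support_swap]; rfl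

theorem wsum_reverse {p : ℂ} {L : List ℂ} (h : p ∉ curve L) :
    wsum p L.reverse = - wsum p L := by
  rw [wsum, angSum_perm p (cyc_reverse L), angSum_swap h]; rfl

theorem simple_reverse {L : List ℂ} (h : Simple L) : Simple L.reverse := by
  have hp := cyc_reverse L
  refine ⟨?_, ?_, ?_⟩
  · rw [List.nodup_reverse]; exact h.nodup
  · intro v hv e he
    rw [hp.mem_iff, List.mem_map] at he
    obtain ⟨e', he', rfl⟩ := he
    simp only [Prod.fst_swap, Prod.snd_swap]
    rw [openSegment_symm]
    exact h.vert v (by simpa using hv) e' he'
  · rw [hp.pairwise_iff disj_symm, List.pairwise_map]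
    refine h.disj.imp ?_
    intro e e' h
    simp only [Prod.fst_swap, Prod.snd_swap]
    rw [openSegment_symm ℝ e.2, openSegment_symm ℝ e'.2]
    exact h

/-! ### splitting along a diagonal -/

/-- the edges of a polygon split by a diagonal -/
theorem cyc_split (A B C : List ℂ) (x y : ℂ) : ∃ P R : List (ℂ × ℂ),
    cyc (A ++ x :: (B ++ y :: C)) = P ++ chain (x :: (B ++ [y])) ++ R ∧
    cyc (A ++ x :: y :: C) = P ++ (x, y) :: R ∧
    cyc (x :: (B ++ [y])) = chain (x :: (B ++ [y])) ++ [(y, x)] := by
  have e3 : cyc (x :: (B ++ [y])) = chain (x :: (B ++ [y])) ++ [(y, x)] := by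
    have : x :: (B ++ [y] ++ [x]) = (x :: B) ++ y :: [x] := by simp
    simp only [cyc]
    rw [this, chain_append]
    simp
  cases A with
  | nil =>
    refine ⟨[], chain (y :: (C ++ [x])), ?_, ?_, e3⟩
    · simp only [List.nil_append, cyc]
      have : x :: (B ++ y :: C ++ [x]) = (x :: B) ++ y :: (C ++ [x]) := by simp
      rw [this, chain_append]
      simp
    · simp [cyc]
  | cons a A =>
    refine ⟨chain (a :: (A ++ [x])), chain (y :: (C ++ [a])), ?_, ?_, e3⟩
    · simp only [List.cons_append, cyc]
      have h1 : a :: (A ++ x :: (B ++ y :: C) ++ [a]) = (a :: A) ++ x :: (B ++ y :: (C ++ [a])) := by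
        simp
      have h2 : x :: (B ++ y :: (C ++ [a])) = (x :: B) ++ y :: (C ++ [a]) := by simp
      rw [h1, chain_append, h2, chain_append (x :: B)]
      simp
    · simp only [List.cons_append, cyc]
      have h1 : a :: (A ++ x :: y :: C ++ [a]) = (a :: A) ++ x :: (y :: (C ++ [a])) := by
        simp
      rw [h1, chain_append]
      simp

/-- the winding sum of a polygon split by a diagonal -/
theorem wsum_split {p : ℂ} (A B C : List ℂ) {x y : ℂ} (h : p ∉ segment ℝ x y) :
    wsum p (A ++ x :: (B ++ y :: C)) = wsum p (A ++ x :: y :: C) + wsum p (x :: (B ++ [y])) := by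
  obtain ⟨P, R, h1, h2, h3⟩ := cyc_split A B C x y
  unfold wsum
  rw [h1, h2, h3]
  simp only [angSum_append, angSum_cons, angSum_nil]
  rw [ang_swap h]; ring

/-- the curve of a polygon split by a diagonal -/
theorem curve_split (A B C : List ℂ) (x y : ℂ) :
    curve (A ++ x :: (B ++ y :: C)) ∪ segment ℝ x y =
      curve (A ++ x :: y :: C) ∪ curve (x :: (B ++ [y])) := by
  obtain ⟨P, R, h1, h2, h3⟩ := cyc_split A B C x y
  unfold curve
  rw [h1, h2, h3]
  simp only [support_append, support_cons]
  have e : support [] = (∅ : Set ℂ) := by simp [support]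
  rw [segment_symm ℝ y x, e]
  ext z; simp only [Set.mem_union, Set.mem_empty_iff_false]; tauto

theorem simple_split_left {A B C : List ℂ} {x y : ℂ} (h : Simple (A ++ x :: (B ++ y :: C)))
    (hd : ∀ e ∈ cyc (A ++ x :: (B ++ y :: C)),
      Disjoint (segment ℝ e.1 e.2) (openSegment ℝ x y)) : Simple (A ++ x :: y :: C) := by
  obtain ⟨P, R, h1, h2, h3⟩ := cyc_split A B C x y
  have hv : ∀ v ∈ A ++ x :: y :: C, v ∈ A ++ x :: (B ++ y :: C) := by
    intro v hv; simp at hv ⊢; tauto
  have hmem : ∀ e ∈ P ++ R, e ∈ cyc (A ++ x :: (B ++ y :: C)) := by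
    intro e he; rw [h1]; simp at he ⊢; tauto
  have hperm : (cyc (A ++ x :: y :: C)).Perm ((x, y) :: (P ++ R)) := by
    rw [h2]; exact List.perm_middle
  have hPR : (P ++ R).Pairwise fun e e' =>
      Disjoint (openSegment ℝ e.1 e.2) (openSegment ℝ e'.1 e'.2) := by
    refine h.disj.sublist ?_
    rw [h1]
    exact (List.sublist_append_left P _).append (List.Sublist.refl R)
  refine ⟨?_, ?_, ?_⟩
  · refine h.nodup.sublist ?_
    refine (List.Sublist.refl A).append ?_
    refine List.Sublist.cons_cons x ?_
    exact List.sublist_append_right B _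
  · intro v hv' e he
    rw [hperm.mem_iff, List.mem_cons] at he
    rcases he with rfl | he
    · intro hvo
      obtain ⟨e, he, hve⟩ := mem_curve_of_mem (hv v hv')
      exact Set.disjoint_left.mp (hd e he) hve hvo
    · exact h.vert v (hv v hv') e (hmem e he)
  · rw [hperm.pairwise_iff disj_symm, List.pairwise_cons]
    refine ⟨?_, hPR⟩
    intro e he
    have := hd e (hmem e he)
    exact (this.mono_left (openSegment_subset_segment ℝ _ _)).symm

theorem simple_split_right {A B C : List ℂ} {x y : ℂ} (h : Simple (A ++ x :: (B ++ y :: C)))
    (hd : ∀ e ∈ cyc (A ++ x :: (B ++ y :: C)),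
      Disjoint (segment ℝ e.1 e.2) (openSegment ℝ x y)) : Simple (x :: (B ++ [y])) := by
  obtain ⟨P, R, h1, h2, h3⟩ := cyc_split A B C x y
  have hv : ∀ v ∈ x :: (B ++ [y]), v ∈ A ++ x :: (B ++ y :: C) := by
    intro v hv; simp at hv ⊢; tauto
  have hmem : ∀ e ∈ chain (x :: (B ++ [y])), e ∈ cyc (A ++ x :: (B ++ y :: C)) := by
    intro e he; rw [h1]; simp only [List.mem_append]; tauto
  have hperm : (cyc (x :: (B ++ [y]))).Perm ((y, x) :: chain (x :: (B ++ [y]))) := by
    rw [h3]; exact List.perm_append_comm
  have hQ : (chain (x :: (B ++ [y]))).Pairwise fun e e' =>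
      Disjoint (openSegment ℝ e.1 e.2) (openSegment ℝ e'.1 e'.2) := by
    refine h.disj.sublist ?_
    rw [h1]
    exact (List.sublist_append_right P _).trans (List.sublist_append_left _ R)
  refine ⟨?_, ?_, ?_⟩
  · refine h.nodup.sublist ?_
    refine List.Sublist.trans ?_ (List.sublist_append_right A _)
    refine List.Sublist.cons_cons x ?_
    refine (List.Sublist.refl B).append ?_
    exact List.Sublist.cons_cons y (List.nil_sublist _)
  · intro v hv' e he
    rw [hperm.mem_iff, List.mem_cons] at he
    rcases he with rfl | he
    · intro hvo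
      obtain ⟨e, he, hve⟩ := mem_curve_of_mem (hv v hv')
      rw [openSegment_symm] at hvo
      exact Set.disjoint_left.mp (hd e he) hve hvo
    · exact h.vert v (hv v hv') e (hmem e he)
  · rw [hperm.pairwise_iff disj_symm, List.pairwise_cons]
    refine ⟨?_, hQ⟩
    intro e he
    have := hd e (hmem e he)
    rw [openSegment_symm ℝ y x]
    exact (this.mono_left (openSegment_subset_segment ℝ _ _)).symm

/-! ### triangulations can be substituted and rotated -/

theorem TriOK.length {L : List ℂ} (h : TriOK L) : 2 ≤ L.length := by
  cases h <;> simp <;> omega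

/-- substitution of a triangulated polygon at an edge -/
theorem TriOK.subst {L : List ℂ} (h : TriOK L) : ∀ (A B C : List ℂ) (x y : ℂ),
    L = A ++ x :: y :: C → TriOK (x :: (B ++ [y])) → TriOK (A ++ x :: (B ++ y :: C)) := by
  induction h with
  | edge a b =>
    intro A B C x y hL h2
    have hlen := congrArg List.length hL
    simp at hlen
    have hA : A = [] := List.eq_nil_of_length_eq_zero (by omega)
    have hC : C = [] := List.eq_nil_of_length_eq_zero (by omega)
    subst hA; subst hC
    simp at hL
    obtain ⟨rfl, rfl⟩ := hL
    simpa using h2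
  | node a c b L R hl hr ho ihl ihr =>
    intro A B C x y hL h2
    by_cases hcase : A.length + 2 ≤ L.length + 2
    · -- the edge lies in the left part
      have e : a :: (L ++ c :: (R ++ [b])) = (a :: (L ++ [c])) ++ (R ++ [b]) := by simp
      have e' : A ++ x :: y :: C = (A ++ [x, y]) ++ C := by simp
      rw [e, e'] at hL
      rw [List.append_eq_append_iff] at hL
      rcases hL with ⟨D, h3, h4⟩ | ⟨D, h3, h4⟩
      · -- A ++ [x,y] = a :: (L ++ [c]) ++ D, so D = []
        have hlen := congrArg List.length h3
        simp at hlen
        have hD : D = [] := List.eq_nil_of_length_eq_zero (by omega)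
        subst hD
        simp only [List.append_nil, List.nil_append] at h3 h4
        subst h4
        have := ihl A B [] x y (by rw [← h3]) h2
        -- rebuild
        have h9 : (A ++ [x]) ++ [y] = (a :: L) ++ [c] := by simpa using h3
        obtain ⟨h5, hy⟩ := List.append_inj' h9 rfl
        simp only [List.cons.injEq, and_true] at hy
        subst hy
        cases A with
        | nil =>
          simp at h5
          obtain ⟨rfl, rfl⟩ := h5
          exact TriOK.node x y b B R h2 hr ho
        | cons a' A =>
          simp only [List.cons_append, List.cons.injEq] at h5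
          obtain ⟨rfl, rfl⟩ := h5
          have h6 := TriOK.node a' y b (A ++ x :: B) R (by simpa using this) hr ho
          simpa using h6
      · -- a :: (L ++ [c]) = A ++ [x,y] ++ D
        have h5 := ihl A B D x y (by rw [h3]; simp) h2
        -- D nonempty or empty: recover the last element c
        rcases List.eq_nil_or_concat D with rfl | ⟨D', d, rfl⟩
        · simp only [List.append_nil, List.nil_append] at h3 h4
          subst h4
          have h9 : (A ++ [x]) ++ [y] = (a :: L) ++ [c] := by simpa using h3.symm
          obtain ⟨h7, hy⟩ := List.append_inj' h9 rfl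
          simp only [List.cons.injEq, and_true] at hy
          subst hy
          cases A with
          | nil =>
            simp at h7
            obtain ⟨rfl, rfl⟩ := h7
            exact TriOK.node x y b B R h2 hr ho
          | cons a' A =>
            simp only [List.cons_append, List.cons.injEq] at h7
            obtain ⟨rfl, rfl⟩ := h7
            have h6 := TriOK.node a' y b (A ++ x :: B) R (by simpa using h5) hr ho
            simpa using h6
        · have h9 : (A ++ [x, y] ++ D') ++ [d] = (a :: L) ++ [c] := by simpa using h3.symm
          obtain ⟨h7, hd⟩ := List.append_inj' h9 rfl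
          simp only [List.cons.injEq, and_true] at hd
          subst hd
          subst h4
          cases A with
          | nil =>
            simp at h7
            obtain ⟨rfl, rfl⟩ := h7
            have h6 := TriOK.node x d b (B ++ y :: D') R (by simpa using h5) hr ho
            simpa using h6
          | cons a' A =>
            simp only [List.cons_append, List.cons.injEq] at h7
            obtain ⟨rfl, rfl⟩ := h7
            have h6 := TriOK.node a' d b (A ++ x :: (B ++ y :: D')) R (by simpa using h5) hr ho
            simpa using h6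
    · -- the edge lies in the right part
      push Not at hcase
      have e : a :: (L ++ c :: (R ++ [b])) = (a :: L) ++ (c :: (R ++ [b])) := by simp
      have hD : ∃ D, A = (a :: L) ++ D ∧ c :: (R ++ [b]) = D ++ x :: y :: C := by
        rw [e, List.append_eq_append_iff] at hL
        rcases hL with ⟨D, h3, h4⟩ | ⟨D, h3, h4⟩
        · exact ⟨D, h3, h4⟩
        · have hlen := congrArg List.length h3
          simp at hlen
          have hD : D = [] := List.eq_nil_of_length_eq_zero (by omega)
          subst hD
          exact ⟨[], by simpa using h3.symm, by simpa using h4.symm⟩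
      obtain ⟨D, h3, h4⟩ := hD
      · -- A = a :: L ++ D, c :: (R ++ [b]) = D ++ x :: y :: C
        have h5 := ihr D B C x y h4 h2
        -- recover the shape of the new right part
        subst h3
        cases D with
        | nil =>
          simp only [List.nil_append, List.cons.injEq] at h4
          obtain ⟨rfl, h4⟩ := h4
          rcases List.eq_nil_or_concat C with rfl | ⟨C', d, rfl⟩
          · have h8 : R = [] ∧ b = y := by
              cases R with
              | nil => simpa using h4
              | cons r R => simp at h4
            obtain ⟨rfl, rfl⟩ := h8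
            have h6 := TriOK.node a c b L B hl (by simpa using h5) ho
            simpa using h6
          · have h8 : R ++ [b] = (y :: C') ++ [d] := by simpa using h4
            have h9 := List.append_inj' h8 rfl
            obtain ⟨rfl, h9⟩ := h9
            simp at h9
            subst h9
            have h6 := TriOK.node a c b L (B ++ y :: C') hl (by simpa using h5) ho
            simpa using h6
        | cons c' D =>
          simp only [List.cons_append, List.cons.injEq] at h4
          obtain ⟨rfl, h4⟩ := h4
          rcases List.eq_nil_or_concat C with rfl | ⟨C', d, rfl⟩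
          · have h8 : R ++ [b] = (D ++ [x]) ++ [y] := by simpa using h4
            have h9 := List.append_inj' h8 rfl
            obtain ⟨rfl, h9⟩ := h9
            simp at h9
            subst h9
            have h6 := TriOK.node a c b L (D ++ x :: B) hl (by simpa using h5) ho
            simpa using h6
          · have h8 : R ++ [b] = (D ++ x :: y :: C') ++ [d] := by simpa using h4
            have h9 := List.append_inj' h8 rfl
            obtain ⟨rfl, h9⟩ := h9
            simp at h9
            subst h9
            have h6 := TriOK.node a c b L (D ++ x :: (B ++ y :: C')) hl (by simpa using h5) ho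
            simpa using h6

theorem TriOK.rot {x : ℂ} {l : List ℂ} (h : TriOK (x :: l)) : TriOK (l ++ [x]) := by
  generalize hM : x :: l = M at h
  induction h generalizing x l with
  | edge a b =>
    simp at hM
    obtain ⟨rfl, rfl⟩ := hM
    exact TriOK.edge _ _
  | node a c b L R hl hr ho ihl ihr =>
    simp only [List.cons.injEq] at hM
    obtain ⟨rfl, rfl⟩ := hM
    have h1 := ihl rfl
    -- h1 : TriOK (L ++ [c] ++ [x])
    have h2 : TriOK (c :: (R ++ [b] ++ [x])) := by
      have := TriOK.node c b x R [] hr (TriOK.edge b x) (by rw [ori_cyc, ori_cyc]; exact ho)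
      simpa using this
    have h3 := h1.subst L (R ++ [b]) [] c x (by simp) (by simpa using h2)
    simpa using h3

theorem good_rot {x : ℂ} {l : List ℂ} (h : Good (x :: l)) : Good (l ++ [x]) := by
  refine ⟨h.tri.rot, ?_, ?_⟩
  · intro p hp
    rw [curve_rot] at hp
    rw [wsum_rot]
    exact h.w p hp
  · simp only [curve_rot, wsum_rot]
    exact h.conn

theorem good_rotate {L : List ℂ} (h : Good L) (k : ℕ) : Good (L.rotate k) := by
  induction k with
  | zero => simpa using h
  | succ k ih =>
    rw [← List.rotate_rotate L k 1]
    cases hL : L.rotate k with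
    | nil => rw [hL] at ih; simpa using ih
    | cons x l =>
      rw [hL] at ih
      simpa using good_rot ih

theorem simple_rotate {L : List ℂ} (h : Simple L) (k : ℕ) : Simple (L.rotate k) := by
  induction k with
  | zero => simpa using h
  | succ k ih =>
    rw [← List.rotate_rotate L k 1]
    cases hL : L.rotate k with
    | nil => rw [hL] at ih; simpa using ih
    | cons x l =>
      rw [hL] at ih
      simpa using simple_rot ih

end Pool.Agent.Lib.FoldCut
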