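import Pool.Agent.Lib.MP_12ced6_co.Simple

/-!
# Binary trees of diagonals

A triangulation of the polygon with vertices `a, a+1, …, a+size` is a binary tree whose nodes are
the edges and diagonals `(x, y)`, `x < y`.
-/

namespace Pool.Agent.Lib.FoldCut

/-- binary trees -/
inductive Tr
  | leaf
  | node (l r : Tr)

namespace Tr

/-- number of leaves -/
def size : Tr → ℕ
  | leaf => 1
  | node l r => l.size + r.size

theorem size_pos : ∀ t : Tr, 0 < t.size
  | leaf => by simp [size]
  | node l r => by have := size_pos l; simp only [size]; omega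

/-- the edges and diagonals -/
def E : Tr → ℕ → Set (ℕ × ℕ)
  | leaf, a => {(a, a + 1)}
  | node l r, a => {(a, a + l.size + r.size)} ∪ l.E a ∪ r.E (a + l.size)

/-- the apex of the triangle under a diagonal -/
def mid : Tr → ℕ → ℕ → ℕ → ℕ
  | leaf, a, _, _ => a
  | node l r, a, x, y =>
    if x = a ∧ y = a + l.size + r.size then a + l.size
    else if y ≤ a + l.size then l.mid a x y else r.mid (a + l.size) x y

/-- a property of all triangles -/
def All : Tr → ℕ → (ℕ → ℕ → ℕ → Prop) → Prop
  | leaf, _, _ => True
  | node l r, a, Q => Q a (a + l.size) (a + l.size + r.size) ∧ l.All a Q ∧ r.All (a + l.size) Q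

theorem root_mem : ∀ (t : Tr) (a : ℕ), (a, a + t.size) ∈ t.E a
  | leaf, a => by simp [E, size]
  | node l r, a => by
    left; left
    simp [size, Nat.add_assoc]

theorem E_lt : ∀ (t : Tr) (a : ℕ) {x y : ℕ}, (x, y) ∈ t.E a → a ≤ x ∧ x < y ∧ y ≤ a + t.size
  | leaf, a, x, y, h => by
    simp only [E, Set.mem_singleton_iff, Prod.mk.injEq] at h
    simp only [size]; omega
  | node l r, a, x, y, h => by
    have hl := size_pos l
    have hr := size_pos r
    rcases h with (h | h) | h
    · simp only [Set.mem_singleton_iff, Prod.mk.injEq] at h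
      simp only [size]; omega
    · have := E_lt l a h
      simp only [size]; omega
    · have := E_lt r (a + l.size) h
      simp only [size]; omega

theorem leaf_mem : ∀ (t : Tr) (a : ℕ) {i : ℕ}, a ≤ i → i < a + t.size → (i, i + 1) ∈ t.E a
  | leaf, a, i, h1, h2 => by
    simp only [size] at h2
    have : i = a := by omega
    subst this; simp [E]
  | node l r, a, i, h1, h2 => by
    simp only [size] at h2
    by_cases h : i < a + l.size
    · exact Or.inl (Or.inr (leaf_mem l a h1 h))
    · exact Or.inr (leaf_mem r (a + l.size) (by omega) (by omega))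

theorem E_lam : ∀ (t : Tr) (a : ℕ) {x y x' y' : ℕ}, (x, y) ∈ t.E a → (x', y') ∈ t.E a →
    x < x' → x' < y → y' ≤ y
  | leaf, a, x, y, x', y', h, h', h1, h2 => by
    simp only [E, Set.mem_singleton_iff, Prod.mk.injEq] at h h'
    omega
  | node l r, a, x, y, x', y', h, h', h1, h2 => by
    have hb := E_lt _ _ h'
    simp only [size] at hb
    rcases h with (h | h) | h
    · simp only [Set.mem_singleton_iff, Prod.mk.injEq] at h
      omega
    · have hb1 := E_lt _ _ h
      rcases h' with (h' | h') | h'
      · simp only [Set.mem_singleton_iff, Prod.mk.injEq] at h'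
        omega
      · exact E_lam l a h h' h1 h2
      · have := E_lt _ _ h'
        omega
    · have hb1 := E_lt _ _ h
      rcases h' with (h' | h') | h'
      · simp only [Set.mem_singleton_iff, Prod.mk.injEq] at h'
        omega
      · have := E_lt _ _ h'
        omega
      · exact E_lam r _ h h' h1 h2

theorem E_split : ∀ (t : Tr) (a : ℕ) {x y : ℕ}, (x, y) ∈ t.E a → x + 1 < y →
    x < t.mid a x y ∧ t.mid a x y < y ∧ (x, t.mid a x y) ∈ t.E a ∧ (t.mid a x y, y) ∈ t.E a
  | leaf, a, x, y, h, h1 => by
    simp only [E, Set.mem_singleton_iff, Prod.mk.injEq] at h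
    omega
  | node l r, a, x, y, h, h1 => by
    have hl := size_pos l
    have hr := size_pos r
    by_cases h0 : x = a ∧ y = a + l.size + r.size
    · obtain ⟨rfl, rfl⟩ := h0
      simp only [mid, and_self, if_true]
      refine ⟨by omega, by omega, Or.inl (Or.inr (root_mem l x)), Or.inr ?_⟩
      exact root_mem r (x + l.size)
    · simp only [mid, if_neg h0]
      rcases h with (h | h) | h
      · simp only [Set.mem_singleton_iff, Prod.mk.injEq] at h
        exact absurd h h0
      · have hb := E_lt _ _ h
        rw [if_pos hb.2.2]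
        obtain ⟨h2, h3, h4, h5⟩ := E_split l a h h1
        exact ⟨h2, h3, Or.inl (Or.inr h4), Or.inl (Or.inr h5)⟩
      · have hb := E_lt _ _ h
        rw [if_neg (by omega)]
        obtain ⟨h2, h3, h4, h5⟩ := E_split r _ h h1
        exact ⟨h2, h3, Or.inr h4, Or.inr h5⟩

theorem E_par : ∀ (t : Tr) (a : ℕ) {x y : ℕ}, (x, y) ∈ t.E a → ¬ (x = a ∧ y = a + t.size) →
    ∃ p r, (p, r) ∈ t.E a ∧ p + 1 < r ∧
      ((x = p ∧ y = t.mid a p r) ∨ (x = t.mid a p r ∧ y = r))
  | leaf, a, x, y, h, h1 => by
    simp only [E, Set.mem_singleton_iff, Prod.mk.injEq] at h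
    exact absurd h h1
  | node l r, a, x, y, h, h1 => by
    have hl := size_pos l
    have hr := size_pos r
    have hmid0 : (node l r).mid a a (a + l.size + r.size) = a + l.size := by
      simp [mid]
    rcases h with (h | h) | h
    · simp only [Set.mem_singleton_iff, Prod.mk.injEq] at h
      exact absurd (by simp only [size]; omega) h1
    · by_cases h2 : x = a ∧ y = a + l.size
      · refine ⟨a, a + l.size + r.size, Or.inl (Or.inl rfl), by omega, Or.inl ?_⟩
        rw [hmid0]; exact h2
      · obtain ⟨p, q, h3, h4, h5⟩ := E_par l a h h2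
        have hb := E_lt _ _ h3
        refine ⟨p, q, Or.inl (Or.inr h3), h4, ?_⟩
        have : (node l r).mid a p q = l.mid a p q := by
          simp only [mid]
          rw [if_neg (by omega), if_pos (by omega)]
        rw [this]; exact h5
    · by_cases h2 : x = a + l.size ∧ y = a + l.size + r.size
      · refine ⟨a, a + l.size + r.size, Or.inl (Or.inl rfl), by omega, Or.inr ?_⟩
        rw [hmid0]; exact h2
      · obtain ⟨p, q, h3, h4, h5⟩ := E_par r (a + l.size) h h2
        have hb := E_lt _ _ h3
        refine ⟨p, q, Or.inr h3, h4, ?_⟩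
        have : (node l r).mid a p q = r.mid (a + l.size) p q := by
          simp only [mid]
          rw [if_neg (by omega), if_neg (by omega)]
        rw [this]; exact h5

/-- every inner vertex is the apex of a triangle -/
theorem E_mid : ∀ (t : Tr) (a : ℕ) {i : ℕ}, a < i → i < a + t.size →
    ∃ x y, (x, y) ∈ t.E a ∧ x + 1 < y ∧ t.mid a x y = i
  | leaf, a, i, h1, h2 => by simp only [size] at h2; omega
  | node l r, a, i, h1, h2 => by
    have hl := size_pos l
    have hr := size_pos r
    simp only [size] at h2
    rcases lt_trichotomy i (a + l.size) with h | h | h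
    · obtain ⟨x, y, h3, h4, h5⟩ := E_mid l a h1 h
      have hb := E_lt _ _ h3
      refine ⟨x, y, Or.inl (Or.inr h3), h4, ?_⟩
      simp only [mid]
      rw [if_neg (by omega), if_pos (by omega)]
      exact h5
    · refine ⟨a, a + l.size + r.size, Or.inl (Or.inl rfl), by omega, ?_⟩
      simp [mid, h]
    · obtain ⟨x, y, h3, h4, h5⟩ := E_mid r (a + l.size) h (by omega)
      have hb := E_lt _ _ h3
      refine ⟨x, y, Or.inr h3, h4, ?_⟩
      simp only [mid]
      rw [if_neg (by omega), if_neg (by omega)]
      exact h5

theorem All.apply {Q : ℕ → ℕ → ℕ → Prop} : ∀ (t : Tr) (a : ℕ), t.All a Q → ∀ {x y : ℕ},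
    (x, y) ∈ t.E a → x + 1 < y → Q x (t.mid a x y) y
  | leaf, a, _, x, y, h, h1 => by
    simp only [E, Set.mem_singleton_iff, Prod.mk.injEq] at h
    omega
  | node l r, a, hQ, x, y, h, h1 => by
    have hl := size_pos l
    have hr := size_pos r
    by_cases h0 : x = a ∧ y = a + l.size + r.size
    · obtain ⟨rfl, rfl⟩ := h0
      simp only [mid, and_self, if_true]
      exact hQ.1
    · simp only [mid, if_neg h0]
      rcases h with (h | h) | h
      · simp only [Set.mem_singleton_iff, Prod.mk.injEq] at h
        exact absurd h h0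
      · have hb := E_lt _ _ h
        rw [if_pos hb.2.2]
        exact All.apply l a hQ.2.1 h h1
      · have hb := E_lt _ _ h
        rw [if_neg (by omega)]
        exact All.apply r _ hQ.2.2 h h1

theorem All.mono {Q Q' : ℕ → ℕ → ℕ → Prop} (hQ : ∀ x z y, Q x z y → Q' x z y) :
    ∀ (t : Tr) (a : ℕ), t.All a Q → t.All a Q'
  | leaf, _, _ => trivial
  | node l r, a, h => ⟨hQ _ _ _ h.1, All.mono hQ l a h.2.1, All.mono hQ r _ h.2.2⟩

theorem All.eventually {α : Type*} {F : Filter α} {Q : α → ℕ → ℕ → ℕ → Prop} :
    ∀ (t : Tr) (a : ℕ), t.All a (fun x z y => ∀ᶠ d in F, Q d x z y) → ∀ᶠ d in F, t.All a (Q d)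
  | leaf, _, _ => Filter.Eventually.of_forall fun _ => trivial
  | node l r, a, h => h.1.and ((All.eventually l a h.2.1).and (All.eventually r _ h.2.2))

theorem All.congr {Q Q' : ℕ → ℕ → ℕ → Prop} : ∀ (t : Tr) (a : ℕ),
    (∀ x z y, a ≤ x → y ≤ a + t.size → x < z → z < y → Q x z y → Q' x z y) →
    t.All a Q → t.All a Q'
  | leaf, _, _, _ => trivial
  | node l r, a, hQ, h => by
    have hl := size_pos l
    have hr := size_pos r
    simp only [size] at hQ
    refine ⟨hQ _ _ _ (by omega) (by omega) (by omega) (by omega) h.1, ?_, ?_⟩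
    · exact All.congr l a (fun x z y h1 h2 => hQ x z y (by omega) (by omega)) h.2.1
    · exact All.congr r _ (fun x z y h1 h2 => hQ x z y (by omega) (by omega)) h.2.2

end Tr

/-- a triangulated list gives a tree with positively oriented triangles -/
theorem TriOK.tree {L : List ℂ} (h : TriOK L) : ∃ t : Tr, t.size + 1 = L.length ∧
    ∀ (V : ℕ → ℂ) (a : ℕ), (∀ i, i < L.length → V (a + i) = L.getD i 0) →
      t.All a (fun x z y => 0 < ori (V x) (V z) (V y)) := by
  induction h with
  | edge a b => exact ⟨Tr.leaf, by simp [Tr.size], fun _ _ _ => trivial⟩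
  | node a c b L R hl hr ho ihl ihr =>
    obtain ⟨tl, hl1, hl2⟩ := ihl
    obtain ⟨tr, hr1, hr2⟩ := ihr
    simp only [List.length_cons, List.length_append, List.length_nil] at hl1 hr1
    refine ⟨Tr.node tl tr, ?_, ?_⟩
    · simp only [Tr.size, List.length_cons, List.length_append, List.length_nil]; omega
    · intro V k hV
      have e : a :: (L ++ c :: (R ++ [b])) = (a :: L) ++ (c :: (R ++ [b])) := by simp
      have e' : a :: (L ++ c :: (R ++ [b])) = (a :: (L ++ [c])) ++ (R ++ [b]) := by simp
      have hlen : (a :: (L ++ c :: (R ++ [b]))).length = L.length + R.length + 3 := by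
        simp; omega
      rw [hlen] at hV
      have h0 : V k = a := by
        have := hV 0 (by omega)
        simpa using this
      have hc : V (k + tl.size) = c := by
        rw [hV _ (by omega), e, List.getD_append_right _ _ _ _ (by simp; omega)]
        have : tl.size - (a :: L).length = 0 := by simp; omega
        rw [this]; simp
      have hb : V (k + tl.size + tr.size) = b := by
        rw [Nat.add_assoc, hV _ (by omega), e, List.getD_append_right _ _ _ _ (by simp; omega)]
        have h9 : tl.size + tr.size - (a :: L).length = R.length + 1 := by simp; omega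
        rw [h9]
        simp
      refine ⟨?_, ?_, ?_⟩
      · show 0 < ori (V k) (V (k + tl.size)) (V (k + tl.size + tr.size))
        rw [h0, hc, hb]; exact ho
      · apply hl2
        intro i hi
        simp only [List.length_cons, List.length_append, List.length_nil] at hi
        rw [hV i (by omega), e', List.getD_append _ _ _ _ (by simp; omega)]
      · apply hr2
        intro i hi
        simp only [List.length_cons, List.length_append, List.length_nil] at hi
        rw [Nat.add_assoc, hV _ (by omega), e, List.getD_append_right _ _ _ _ (by simp; omega)]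
        congr 1
        simp; omega

end Pool.Agent.Lib.FoldCut
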