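import Mathlib

/-!
# Winding sums

`ang p a b` is the oriented angle under which the segment from `a` to `b` is seen from `p`.
-/

namespace Pool.Agent.Lib.FoldCut

open Complex Real Topology

/-- the cross product of two plane vectors -/
def cr (u w : ℂ) : ℝ := u.re * w.im - u.im * w.re

/-- twice the signed area of the triangle `a b c` -/
def ori (a b c : ℂ) : ℝ := cr (b - a) (c - a)

/-- the oriented angle under which `a b` is seen from `p` -/
noncomputable def ang (p a b : ℂ) : ℝ := Complex.arg ((b - p) / (a - p))

theorem ori_def (a b c : ℂ) :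
    ori a b c = (b.re - a.re) * (c.im - a.im) - (b.im - a.im) * (c.re - a.re) := by
  simp [ori, cr]

theorem ori_cyc (a b c : ℂ) : ori a b c = ori b c a := by
  simp only [ori_def]; ring

theorem ori_cyc' (a b c : ℂ) : ori a b c = ori c a b := by
  simp only [ori_def]; ring

theorem ori_swap (a b c : ℂ) : ori a b c = - ori b a c := by
  simp only [ori_def]; ring

theorem ori_add (a b c p : ℂ) : ori a b p + ori b c p + ori c a p = ori a b c := by
  simp only [ori_def]; ring

theorem continuous_ori (a b : ℂ) : Continuous fun p => ori a b p := by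
  simp only [ori_def]
  fun_prop

theorem div_im_eq (p a b : ℂ) (h : a ≠ p) :
    ((b - p) / (a - p)).im = ori a b p / normSq (a - p) := by
  have h1 : normSq (a - p) ≠ 0 := by
    rw [Ne, normSq_eq_zero, sub_eq_zero]; exact h
  rw [div_im, ori_def]
  simp only [sub_re, sub_im]
  field_simp
  ring

/-- a point on the line `ab` between them is on the segment -/
theorem mem_segment_of_div {p a b : ℂ} (h : a ≠ p) (him : ((b - p) / (a - p)).im = 0)
    (hre : ((b - p) / (a - p)).re ≤ 0) : p ∈ segment ℝ a b := by
  set r : ℝ := ((b - p) / (a - p)).re with hr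
  have h0 : a - p ≠ 0 := sub_ne_zero.mpr h
  have h1 : (b - p) / (a - p) = (r : ℂ) := by
    apply Complex.ext <;> simp [hr, him]
  have h2 : b - p = r * (a - p) := by
    rw [← h1]; field_simp
  have h3 : (0:ℝ) < 1 - r := by linarith
  refine ⟨-r / (1 - r), 1 / (1 - r), by apply div_nonneg <;> linarith, by positivity, ?_, ?_⟩
  · field_simp; ring
  · have h4 : ((1 : ℂ) - r) ≠ 0 := by
      have : ((1 - r : ℝ) : ℂ) ≠ 0 := by exact_mod_cast h3.ne'
      simpa using this
    have h5 : b = p + r * (a - p) := by rw [← h2]; ring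
    simp only [real_smul]
    push_cast
    rw [h5]
    field_simp
    ring

theorem div_mem_slitPlane {p a b : ℂ} (h : p ∉ segment ℝ a b) : (b - p) / (a - p) ∈ slitPlane := by
  have ha : a ≠ p := by rintro rfl; exact h (left_mem_segment ℝ _ _)
  by_contra hc
  rw [mem_slitPlane_iff] at hc
  push Not at hc
  exact h (mem_segment_of_div ha hc.2 hc.1)

theorem ang_lt_pi {p a b : ℂ} (h : p ∉ segment ℝ a b) : ang p a b < π := by
  have := div_mem_slitPlane h
  rw [mem_slitPlane_iff_arg] at this
  exact lt_of_le_of_ne (arg_le_pi _) this.1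

theorem neg_pi_lt_ang (p a b : ℂ) : -π < ang p a b := neg_pi_lt_arg _

theorem ang_swap {p a b : ℂ} (h : p ∉ segment ℝ a b) : ang p b a = - ang p a b := by
  have h1 := ang_lt_pi h
  unfold ang at *
  rw [← inv_div, arg_inv, if_neg h1.ne]

theorem continuousAt_ang {p a b : ℂ} (h : p ∉ segment ℝ a b) :
    ContinuousAt (fun p => ang p a b) p := by
  have ha : a ≠ p := by rintro rfl; exact h (left_mem_segment ℝ _ _)
  have h1 : ContinuousAt (fun p => (b - p) / (a - p)) p :=
    ContinuousAt.div (by fun_prop) (by fun_prop) (sub_ne_zero.mpr ha)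
  exact ContinuousAt.comp (g := Complex.arg) (continuousAt_arg (div_mem_slitPlane h)) h1

theorem ang_pos_iff {p a b : ℂ} (h : p ∉ segment ℝ a b) : 0 < ang p a b ↔ 0 < ori a b p := by
  have ha : a ≠ p := by rintro rfl; exact h (left_mem_segment ℝ _ _)
  have hn : 0 < normSq (a - p) := normSq_pos.mpr (sub_ne_zero.mpr ha)
  have h1 := div_im_eq p a b ha
  have h2 := div_mem_slitPlane h
  constructor
  · intro h3
    by_contra h4
    push Not at h4
    rcases h4.lt_or_eq with h5 | h5
    · have : ang p a b < 0 := by
        unfold ang; rw [arg_neg_iff, h1]; exact div_neg_of_neg_of_pos h5 hn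
      linarith
    · rw [h5, zero_div] at h1
      have h6 : 0 < ((b - p) / (a - p)).re := by
        rcases mem_slitPlane_iff.mp h2 with h | h
        · exact h
        · exact absurd h1 h
      have : ang p a b = 0 := by
        unfold ang; rw [arg_eq_zero_iff]; exact ⟨h6.le, h1⟩
      linarith
  · intro h3
    have h4 : 0 < ((b - p) / (a - p)).im := by rw [h1]; exact div_pos h3 hn
    have h5 : 0 ≤ ang p a b := by unfold ang; rw [arg_nonneg_iff]; exact h4.le
    rcases h5.lt_or_eq with h6 | h6
    · exact h6
    · exfalso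
      unfold ang at h6
      have := (arg_eq_zero_iff.mp h6.symm).2
      linarith

theorem ang_neg_iff {p a b : ℂ} (h : p ∉ segment ℝ a b) : ang p a b < 0 ↔ ori a b p < 0 := by
  have ha : a ≠ p := by rintro rfl; exact h (left_mem_segment ℝ _ _)
  have hn : 0 < normSq (a - p) := normSq_pos.mpr (sub_ne_zero.mpr ha)
  unfold ang
  rw [arg_neg_iff, div_im_eq p a b ha]
  constructor
  · intro h1
    by_contra h2
    push Not at h2
    have := div_nonneg h2 hn.le
    linarith
  · intro h1; exact div_neg_of_neg_of_pos h1 hn

/-- consecutive pairs of a list of points -/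
def chain : List ℂ → List (ℂ × ℂ)
  | a :: b :: l => (a, b) :: chain (b :: l)
  | _ => []

@[simp] theorem chain_nil : chain [] = [] := rfl
@[simp] theorem chain_single (a : ℂ) : chain [a] = [] := rfl
@[simp] theorem chain_cons_cons (a b : ℂ) (l : List ℂ) :
    chain (a :: b :: l) = (a, b) :: chain (b :: l) := rfl

theorem chain_append (A : List ℂ) (x : ℂ) (B : List ℂ) :
    chain (A ++ x :: B) = chain (A ++ [x]) ++ chain (x :: B) := by
  induction A with
  | nil => simp
  | cons a A ih =>
    cases A with
    | nil => simp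
    | cons b A => simpa using ih

theorem fst_mem_of_mem_chain {e : ℂ × ℂ} : ∀ {l : List ℂ}, e ∈ chain l → e.1 ∈ l
  | [], h => by simp at h
  | [a], h => by simp at h
  | a :: b :: l, h => by
    rw [chain_cons_cons, List.mem_cons] at h
    rcases h with rfl | h
    · simp
    · exact List.mem_cons_of_mem _ (fst_mem_of_mem_chain h)

theorem snd_mem_of_mem_chain {e : ℂ × ℂ} : ∀ {l : List ℂ}, e ∈ chain l → e.2 ∈ l
  | [], h => by simp at h
  | [a], h => by simp at h
  | a :: b :: l, h => by
    rw [chain_cons_cons, List.mem_cons] at h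
    rcases h with rfl | h
    · simp
    · exact List.mem_cons_of_mem _ (snd_mem_of_mem_chain h)

/-- the edges of the closed polygon with vertex list `L` -/
def cyc : List ℂ → List (ℂ × ℂ)
  | [] => []
  | a :: l => chain (a :: (l ++ [a]))

/-- the sum of the angles of a list of oriented segments -/
noncomputable def angSum (p : ℂ) (E : List (ℂ × ℂ)) : ℝ := (E.map fun e => ang p e.1 e.2).sum

@[simp] theorem angSum_nil (p : ℂ) : angSum p [] = 0 := rfl
@[simp] theorem angSum_cons (p : ℂ) (e : ℂ × ℂ) (E : List (ℂ × ℂ)) :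
    angSum p (e :: E) = ang p e.1 e.2 + angSum p E := by simp [angSum]
@[simp] theorem angSum_append (p : ℂ) (E F : List (ℂ × ℂ)) :
    angSum p (E ++ F) = angSum p E + angSum p F := by simp [angSum]

theorem angSum_perm (p : ℂ) {E F : List (ℂ × ℂ)} (h : E.Perm F) : angSum p E = angSum p F := by
  unfold angSum; exact (h.map _).sum_eq

/-- the union of the closed segments of a list -/
def support (E : List (ℂ × ℂ)) : Set ℂ := {p | ∃ e ∈ E, p ∈ segment ℝ e.1 e.2}

theorem mem_support {E : List (ℂ × ℂ)} {p : ℂ} :
    p ∈ support E ↔ ∃ e ∈ E, p ∈ segment ℝ e.1 e.2 := Iff.rfl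

theorem support_append (E F : List (ℂ × ℂ)) : support (E ++ F) = support E ∪ support F := by
  ext p; simp only [mem_support, Set.mem_union, List.mem_append]
  constructor
  · rintro ⟨e, h | h, he⟩
    · exact Or.inl ⟨e, h, he⟩
    · exact Or.inr ⟨e, h, he⟩
  · rintro (⟨e, h, he⟩ | ⟨e, h, he⟩)
    · exact ⟨e, Or.inl h, he⟩
    · exact ⟨e, Or.inr h, he⟩

theorem support_cons (e : ℂ × ℂ) (F : List (ℂ × ℂ)) :
    support (e :: F) = segment ℝ e.1 e.2 ∪ support F := by
  ext p; simp only [mem_support, Set.mem_union, List.mem_cons]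
  constructor
  · rintro ⟨e', rfl | h, he⟩
    · exact Or.inl he
    · exact Or.inr ⟨e', h, he⟩
  · rintro (h | ⟨e, h, he⟩)
    · exact ⟨e, Or.inl rfl, h⟩
    · exact ⟨e, Or.inr h, he⟩

theorem support_perm {E F : List (ℂ × ℂ)} (h : E.Perm F) : support E = support F := by
  ext p; simp only [mem_support]
  constructor
  · rintro ⟨e, he, h'⟩; exact ⟨e, h.mem_iff.mp he, h'⟩
  · rintro ⟨e, he, h'⟩; exact ⟨e, h.mem_iff.mpr he, h'⟩

theorem segment_closed (a b : ℂ) : IsClosed (segment ℝ a b) := by
  rw [segment_eq_image']
  apply IsCompact.isClosed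
  exact isCompact_Icc.image (by fun_prop)

theorem support_closed (E : List (ℂ × ℂ)) : IsClosed (support E) := by
  induction E with
  | nil => simp [support]
  | cons e E ih => rw [support_cons]; exact (segment_closed _ _).union ih

theorem continuousAt_angSum {p : ℂ} {E : List (ℂ × ℂ)} (h : p ∉ support E) :
    ContinuousAt (fun p => angSum p E) p := by
  induction E with
  | nil => simpa using continuousAt_const
  | cons e E ih =>
    rw [support_cons, Set.mem_union, not_or] at h
    simp only [angSum_cons]
    exact (continuousAt_ang h.1).add (ih h.2)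

theorem angSum_chain_coe (p : ℂ) : ∀ (l : List ℂ) (a b : ℂ), (∀ x ∈ a :: (l ++ [b]), x ≠ p) →
    ((angSum p (chain (a :: (l ++ [b]))) : ℝ) : Real.Angle) =
      (Complex.arg (b - p) : Real.Angle) - Complex.arg (a - p)
  | [], a, b, h => by
    have ha : a - p ≠ 0 := sub_ne_zero.mpr (h a (by simp))
    have hb : b - p ≠ 0 := sub_ne_zero.mpr (h b (by simp))
    simp only [List.nil_append, chain_cons_cons, chain_single, angSum_cons, angSum_nil, add_zero]
    unfold ang
    rw [arg_div_coe_angle hb ha]
  | c :: l, a, b, h => by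
    have h1 := angSum_chain_coe p l c b (fun x hx => h x (List.mem_cons_of_mem _ hx))
    have ha : a - p ≠ 0 := sub_ne_zero.mpr (h a (by simp))
    have hc : c - p ≠ 0 := sub_ne_zero.mpr (h c (by simp))
    rw [List.cons_append, chain_cons_cons, angSum_cons, Real.Angle.coe_add, h1]
    unfold ang
    rw [arg_div_coe_angle hc ha]
    abel

theorem vertex_mem_support : ∀ {l : List ℂ} {a b x : ℂ}, x ∈ a :: (l ++ [b]) →
    x ∈ support (chain (a :: (l ++ [b])))
  | [], a, b, x, h => by
    simp only [List.nil_append, chain_cons_cons, chain_single, support_cons]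
    simp only [List.nil_append, List.mem_cons, List.not_mem_nil, or_false] at h
    left
    rcases h with rfl | rfl
    · exact left_mem_segment _ _ _
    · exact right_mem_segment _ _ _
  | c :: l, a, b, x, h => by
    rw [List.cons_append, chain_cons_cons, support_cons]
    rw [List.mem_cons] at h
    rcases h with rfl | h
    · left; exact left_mem_segment _ _ _
    · right; exact vertex_mem_support h

/-- the closed polygonal curve of a list of points -/
def curve (L : List ℂ) : Set ℂ := support (cyc L)

/-- the winding sum of a closed polygon: `2π` times its winding number -/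
noncomputable def wsum (p : ℂ) (L : List ℂ) : ℝ := angSum p (cyc L)

theorem curve_closed (L : List ℂ) : IsClosed (curve L) := support_closed _

theorem mem_curve_of_mem {L : List ℂ} {x : ℂ} (h : x ∈ L) : x ∈ curve L := by
  cases L with
  | nil => simp at h
  | cons a l =>
    apply vertex_mem_support
    rw [List.mem_cons] at h ⊢
    rcases h with h | h
    · exact Or.inl h
    · right; simp [h]

/-- winding sums are multiples of `2π` -/
theorem wsum_int {p : ℂ} {L : List ℂ} (h : p ∉ curve L) : ∃ k : ℤ, wsum p L = 2 * π * k := by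
  cases L with
  | nil => exact ⟨0, by simp [wsum, cyc]⟩
  | cons a l =>
    have h1 := angSum_chain_coe p l a a (by
      intro x hx hxp
      apply h
      rw [← hxp]
      exact vertex_mem_support hx)
    rw [sub_self] at h1
    have h2 : ((angSum p (chain (a :: (l ++ [a]))) : ℝ) : Real.Angle) = ((0 : ℝ) : Real.Angle) := by
      rw [h1]; simp
    rw [Real.Angle.angle_eq_iff_two_pi_dvd_sub] at h2
    obtain ⟨k, hk⟩ := h2
    exact ⟨k, by unfold wsum cyc; linarith⟩

theorem continuousAt_wsum {p : ℂ} {L : List ℂ} (h : p ∉ curve L) :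
    ContinuousAt (fun p => wsum p L) p := continuousAt_angSum h

/-- winding sums are constant on connected sets off the curve -/
theorem wsum_const {S : Set ℂ} (hS : IsPreconnected S) {L : List ℂ} (h : Disjoint S (curve L))
    {x y : ℂ} (hx : x ∈ S) (hy : y ∈ S) : wsum x L = wsum y L := by
  have key : ∀ {x y : ℂ}, x ∈ S → y ∈ S → ¬ wsum x L < wsum y L := by
    intro x y hx hy hlt
    have hc : ContinuousOn (fun p => wsum p L) S := fun z hz =>
      (continuousAt_wsum (Set.disjoint_left.mp h hz)).continuousWithinAt
    have h1 := hS.intermediate_value hx hy hc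
    obtain ⟨k, hk⟩ := wsum_int (Set.disjoint_left.mp h hx)
    obtain ⟨l, hl⟩ := wsum_int (Set.disjoint_left.mp h hy)
    have hpi := Real.pi_pos
    have hkl : k < l := by
      have : (k : ℝ) < l := by nlinarith
      exact_mod_cast this
    have hkl' : (k : ℝ) + 1 ≤ l := by exact_mod_cast hkl
    obtain ⟨z, hz, hz'⟩ := h1 (show wsum x L + π ∈ Set.Icc _ _ from ⟨by linarith, by
      show wsum x L + π ≤ wsum y L
      rw [hk, hl]; nlinarith⟩)
    obtain ⟨j, hj⟩ := wsum_int (Set.disjoint_left.mp h hz)
    have hz'' : wsum z L = wsum x L + π := hz'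
    rw [hj, hk] at hz''
    have h3 : (2 : ℝ) * j = 2 * k + 1 := by
      have : π * (2 * j) = π * (2 * k + 1) := by linarith
      exact mul_left_cancel₀ hpi.ne' this
    have h4 : (2 : ℤ) * j = 2 * k + 1 := by exact_mod_cast h3
    omega
  exact le_antisymm (not_lt.mp (key hy hx)) (not_lt.mp (key hx hy))

/-- winding sums are locally constant off the curve -/
theorem wsum_eventually {p : ℂ} {L : List ℂ} (h : p ∉ curve L) :
    ∀ᶠ z in 𝓝 p, z ∉ curve L ∧ wsum z L = wsum p L := by
  obtain ⟨r, hr, hb⟩ := Metric.isOpen_iff.mp (curve_closed L).isOpen_compl p h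
  filter_upwards [Metric.ball_mem_nhds p hr] with z hz
  refine ⟨hb hz, wsum_const (convex_ball p r).isPreconnected ?_ hz (Metric.mem_ball_self hr)⟩
  rw [Set.disjoint_left]
  intro y hy
  exact hb hy

end Pool.Agent.Lib.FoldCut
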